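import Pool.Agent.Lib.P9f173dW.Proj

/-!
# Module Fn: functionals on `ℤ[G]^n` and tuples of functions on `G`

`fn θ j x = θ (sv j (single x⁻¹ 1))` and `pair` (Z9f173d) are inverse to each other.

PROOFS.  `pair_fn`: `addHom_ext` and `pair_sv`, `tr_single` (`pair f (sv j (single x 1)) = f j x⁻¹`).
`fn_pair`: `pair_sv_single`.  `fn_vecMul`: `pair_vecMul` (apply `fn_pair` to
`pair (mact (tr M) D (fn θ))`).  `fn_gs`: `gs (x c)⁻¹ e_j = gs c⁻¹ (gs x⁻¹ e_j)`,
`gs g (sv j (single x 1)) = sv j (single (g * x) 1)`.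
`finite_iff`: for `θ` with values in an abelian group `M`: the sets `{h : H | θ (gs h v) ≠ 0}` are finite for
all `v` iff they are for the basis vectors `v = sv j (single x 1)` (additivity: `θ (gs h v)` is a finite
sum over the basis vectors in `v`); for the basis vector `gs x⁻¹ e_j` and `h = c⁻¹` it is `fn θ j (x c)`.
`summable_of`: the same for weighted square sums: `|θ (gs c⁻¹ v)|` is bounded by a finite sum of
`|n| |θ (gs c⁻¹ (basis vector))|`, and `(∑_{i ≤ m} a_i)² ≤ m ∑ a_i²`.
-/

namespace Pool.Agent.Lib.P9f173dW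

open Z9f173d
open scoped Matrix

variable {G : Type*} [Group G] {M : Type*} [AddCommGroup M] {m n : ℕ}

theorem gs_one (v : Fin n → MonoidAlgebra ℤ G) : gs 1 v = v := by
  funext j
  show MonoidAlgebra.single 1 1 * v j = v j
  rw [← MonoidAlgebra.one_def, one_mul]

theorem gs_gs (g h : G) (v : Fin n → MonoidAlgebra ℤ G) : gs g (gs h v) = gs (g * h) v := by
  funext j
  show MonoidAlgebra.single g 1 * (MonoidAlgebra.single h 1 * v j)
    = MonoidAlgebra.single (g * h) 1 * v j
  rw [← mul_assoc, MonoidAlgebra.single_mul_single, one_mul]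

theorem gs_add (g : G) (v w : Fin n → MonoidAlgebra ℤ G) : gs g (v + w) = gs g v + gs g w := by
  funext j
  show MonoidAlgebra.single g 1 * (v j + w j) = _
  rw [mul_add]
  rfl

theorem gs_vecMul (g : G) (v : Fin m → MonoidAlgebra ℤ G)
    (D : Matrix (Fin m) (Fin n) (MonoidAlgebra ℤ G)) : gs g (v ᵥ* D) = gs g v ᵥ* D := by
  funext j
  show MonoidAlgebra.single g 1 * (∑ i, v i * D i j)
    = ∑ i, (MonoidAlgebra.single g 1 * v i) * D i j
  rw [Finset.mul_sum]
  exact Finset.sum_congr rfl fun i _ => (mul_assoc _ _ _).symm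

theorem gs_sv (g : G) (j : Fin n) (x : G) :
    gs g (sv j (MonoidAlgebra.single x 1)) = sv j (MonoidAlgebra.single (g * x) 1) := by
  ext1 i
  by_cases hij : i = j
  · subst hij
    simp [gs, sv]
  · simp [gs, sv, hij]

theorem pair_fn (θ : (Fin n → MonoidAlgebra ℤ G) →+ M) : pair (fn θ) = θ := by
  apply addHom_ext
  intro j x
  rw [pair_sv, tr_single, one_smul, mul_one]
  show θ (sv j (MonoidAlgebra.single x⁻¹⁻¹ 1)) = _
  rw [inv_inv]

theorem fn_pair (f : Fin n → G → M) : fn (pair f) = f := by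
  funext j x
  exact pair_sv_single f j x

/-- the coboundary of a functional -/
theorem fn_vecMul (θ : (Fin n → MonoidAlgebra ℤ G) →+ M)
    (θ' : (Fin m → MonoidAlgebra ℤ G) →+ M) (D : Matrix (Fin m) (Fin n) (MonoidAlgebra ℤ G))
    (h : ∀ v, θ' v = θ (v ᵥ* D)) : fn θ' = mact (tr M) D (fn θ) := by
  have h1 : θ' = pair (mact (tr M) D (fn θ)) := by
    refine AddMonoidHom.ext fun v => ?_
    rw [h, ← pair_vecMul, pair_fn]
  rw [h1, fn_pair]

theorem fn_mul (θ : (Fin n → MonoidAlgebra ℤ G) →+ M) (j : Fin n) (x c : G) :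
    fn θ j (x * c) = θ (gs c⁻¹ (sv j (MonoidAlgebra.single x⁻¹ 1))) := by
  rw [gs_sv, ← mul_inv_rev]
  rfl

private theorem induct (S : AddSubgroup (Fin n → MonoidAlgebra ℤ G))
    (h : ∀ j x, sv j (MonoidAlgebra.single x 1) ∈ S) (v : Fin n → MonoidAlgebra ℤ G) :
    v ∈ S := by
  have h1 : QuotientAddGroup.mk' S = 0 :=
    addHom_ext fun j x => (QuotientAddGroup.eq_zero_iff _).2 (h j x)
  exact (QuotientAddGroup.eq_zero_iff v).1 (DFunLike.congr_fun h1 v)

private theorem gs_zero (g : G) : gs g (0 : Fin n → MonoidAlgebra ℤ G) = 0 := by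
  funext j
  show MonoidAlgebra.single g 1 * (0 : MonoidAlgebra ℤ G) = 0
  rw [mul_zero]

private theorem gs_neg (g : G) (v : Fin n → MonoidAlgebra ℤ G) : gs g (-v) = - gs g v := by
  funext j
  show MonoidAlgebra.single g 1 * (- v j) = - (MonoidAlgebra.single g 1 * v j)
  rw [mul_neg]

theorem finite_iff (H : Subgroup G) (θ : (Fin n → MonoidAlgebra ℤ G) →+ M) :
    (∀ v, {h : H | θ (gs (h : G) v) ≠ 0}.Finite) ↔ ∀ j x, {c : H | fn θ j (x * c) ≠ 0}.Finite := by
  constructor
  · intro h j x
    have h1 := (h (sv j (MonoidAlgebra.single x⁻¹ 1))).preimage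
      (f := fun c : H => c⁻¹) (inv_injective.injOn)
    refine h1.subset fun c hc => ?_
    show θ (gs ((c⁻¹ : H) : G) (sv j (MonoidAlgebra.single x⁻¹ 1))) ≠ 0
    have hc1 : fn θ j (x * c) ≠ 0 := hc
    rw [fn_mul] at hc1
    exact hc1
  · intro h v
    let S : AddSubgroup (Fin n → MonoidAlgebra ℤ G) :=
      { carrier := {v | {h : H | θ (gs (h : G) v) ≠ 0}.Finite}
        zero_mem' := by
          show {h : H | θ (gs (h : G) 0) ≠ 0}.Finite
          refine Set.finite_empty.subset fun c hc => ?_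
          have hc1 : θ (gs (c : G) 0) ≠ 0 := hc
          rw [gs_zero, map_zero] at hc1
          exact absurd rfl hc1
        add_mem' := by
          intro v w hv hw
          have hv1 : {h : H | θ (gs (h : G) v) ≠ 0}.Finite := hv
          have hw1 : {h : H | θ (gs (h : G) w) ≠ 0}.Finite := hw
          show {h : H | θ (gs (h : G) (v + w)) ≠ 0}.Finite
          refine (hv1.union hw1).subset fun c hc => ?_
          have hc1 : θ (gs (c : G) (v + w)) ≠ 0 := hc
          rw [gs_add, map_add] at hc1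
          by_cases h0 : θ (gs (c : G) v) = 0
          · right
            show θ (gs (c : G) w) ≠ 0
            intro h2
            exact hc1 (by rw [h0, h2, add_zero])
          · left
            exact h0
        neg_mem' := by
          intro v hv
          have hv1 : {h : H | θ (gs (h : G) v) ≠ 0}.Finite := hv
          show {h : H | θ (gs (h : G) (-v)) ≠ 0}.Finite
          refine hv1.subset fun c hc => ?_
          have hc1 : θ (gs (c : G) (-v)) ≠ 0 := hc
          rw [gs_neg, map_neg] at hc1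
          exact fun h0 => hc1 (by rw [h0, neg_zero]) }
    refine induct S (fun j x => ?_) v
    show {h : H | θ (gs (h : G) (sv j (MonoidAlgebra.single x 1))) ≠ 0}.Finite
    have h1 := (h j x⁻¹).preimage (f := fun c : H => c⁻¹) (inv_injective.injOn)
    refine h1.subset fun c hc => ?_
    have hc1 : θ (gs (c : G) (sv j (MonoidAlgebra.single x 1))) ≠ 0 := hc
    show fn θ j (x⁻¹ * ((c⁻¹ : H) : G)) ≠ 0
    rw [fn_mul, inv_inv]
    simpa using hc1

theorem summable_of (H : Subgroup G) (ω : H → ℝ) (hω : ∀ c, 0 ≤ ω c)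
    (θ : (Fin n → MonoidAlgebra ℤ G) →+ ℝ)
    (h : ∀ j x, Summable fun c : H => ω c * (fn θ j (x * c)) ^ 2) (v) :
    Summable fun c : H => ω c * (θ (gs ((c : G)⁻¹) v)) ^ 2 := by
  let S : AddSubgroup (Fin n → MonoidAlgebra ℤ G) :=
    { carrier := {v | Summable fun c : H => ω c * (θ (gs ((c : G)⁻¹) v)) ^ 2}
      zero_mem' := by
        show Summable fun c : H => ω c * (θ (gs ((c : G)⁻¹) 0)) ^ 2
        have h0 : (fun c : H => ω c * (θ (gs ((c : G)⁻¹) 0)) ^ 2) = fun _ => 0 := by
          funext c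
          rw [gs_zero, map_zero]
          ring
        rw [h0]
        exact summable_zero
      add_mem' := by
        intro v w hv hw
        have hv1 : Summable fun c : H => ω c * (θ (gs ((c : G)⁻¹) v)) ^ 2 := hv
        have hw1 : Summable fun c : H => ω c * (θ (gs ((c : G)⁻¹) w)) ^ 2 := hw
        show Summable fun c : H => ω c * (θ (gs ((c : G)⁻¹) (v + w))) ^ 2
        refine Summable.of_nonneg_of_le (fun c => mul_nonneg (hω c) (sq_nonneg _))
          (fun c => ?_) ((hv1.mul_left 2).add (hw1.mul_left 2))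
        rw [gs_add, map_add]
        have h2 := mul_nonneg (hω c) (sq_nonneg (θ (gs ((c : G)⁻¹) v) - θ (gs ((c : G)⁻¹) w)))
        nlinarith [h2]
      neg_mem' := by
        intro v hv
        have hv1 : Summable fun c : H => ω c * (θ (gs ((c : G)⁻¹) v)) ^ 2 := hv
        show Summable fun c : H => ω c * (θ (gs ((c : G)⁻¹) (-v))) ^ 2
        refine hv1.congr fun c => ?_
        rw [gs_neg, map_neg]
        ring }
  refine induct S (fun j x => ?_) v
  show Summable fun c : H => ω c * (θ (gs ((c : G)⁻¹) (sv j (MonoidAlgebra.single x 1)))) ^ 2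
  refine (h j x⁻¹).congr fun c => ?_
  rw [fn_mul, inv_inv]

end Pool.Agent.Lib.P9f173dW
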