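import Pool.Agent.Lib.P9f173dW.CmpEx
import Pool.Agent.Lib.P9f173dW.Fn
import Pool.Agent.Lib.Z9f173d.Final2

/-!
# Module CohVan: vanishing second cohomology, in terms of the resolution over the big group

If `H²(H; ℤ[H]) = 0` (in terms of the resolution `S` of `H`) then every cocycle `θ` on `R_2` with finite
`H`-orbits `{h | θ (h v) ≠ 0}` is the coboundary of a functional on `R_1` with finite `H`-orbits.

PROOF.  Let `D` be comparison data (`exists_cmp`), `s = θ.comp (D.Ψ 2) : S_2 →+ ℤ`: `{h | s (gs h v) ≠ 0}` is finite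
for all `v` (`Ψ_gs`), so `fn s i` has finite support (`fn s i x = s (gs x⁻¹ (sv i (single 1 1)))`, see the
proof in `ThmC.lean`), and `s (v ᵥ* S.d 2) = θ (Ψ 3 v ᵥ* R.d 2) = 0`.  Let `f i : ℤ[H]` be the element with
`P0 (f i) = fn s i` (`IL_P0` or `.ofCoeff (Finsupp.ofSupportFinite _ _)`, as in `FinCon.lean` style); then
`S.d 2 *ᵥ f = 0` (`P0_mulVec`, `fn_vecMul` for `0 = s (· ᵥ* S.d 2)`, `P0_injective`), i.e. `f` is in the
kernel of `S.cobd H 2` (`Z9f173d.cobd_self`).  As `S.cohomology H 2` is trivial, `f` is in the range of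
`S.cobd H 1` (otherwise the class of `f` is nonzero: contrapositive of
`Z9f173d.exists_of_nontrivial_add`; use `QuotientAddGroup.eq_zero_iff`): `f = S.d 1 *ᵥ c`.  Let
`p_S = pair (fun i => P0 (c i)) : S_1 →+ ℤ`; then `s v = p_S (v ᵥ* S.d 1)` (`pair_fn`, `pair_vecMul`,
`P0_mulVec`), and `{h | p_S (gs h v) ≠ 0}` is finite (`finite_iff` for `H = ⊤`, or directly by additivity).
By `K_succ 1`: `θ v = θ (Ψ 2 (Φ 2 v)) + θ (K 2 v ᵥ* R.d 2) + θ (K 1 (v ᵥ* R.d 1)) = p_S (Φ 2 v ᵥ* S.d 1) + 0 +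
θ (K 1 (v ᵥ* R.d 1)) = p (v ᵥ* R.d 1)` with `p = p_S.comp (Φ 1) + θ.comp (K 1)`, using `Φ_d`.
-/

namespace Pool.Agent.Lib.P9f173dW

open Z9f173d
open scoped Matrix

namespace CohVanAux

/-- tuples of group ring elements with prescribed coefficient functions -/
theorem exists_P0 {H : Type*} [Group H] {n : ℕ} (f : Fin n → H → ℤ)
    (hf : ∀ i, (Function.support (f i)).Finite) :
    ∃ c : Fin n → MonoidAlgebra ℤ H, ∀ i, P0 (c i) = f i :=
  ⟨fun i => .ofCoeff (Finsupp.ofSupportFinite (f i) (hf i)), fun i => by ext x; rfl⟩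

theorem fin_support {H : Type*} [Group H] {n : ℕ}
    (p : (Fin n → MonoidAlgebra ℤ H) →+ ℤ) (hp : ∀ v, {h : H | p (gs h v) ≠ 0}.Finite) (i : Fin n) :
    (Function.support (fn p i)).Finite := by
  have h3 := hp (sv i (MonoidAlgebra.single 1 1))
  refine (h3.image (fun h : H => h⁻¹)).subset ?_
  intro x hx
  refine ⟨x⁻¹, ?_, inv_inv x⟩
  have h5 : fn p i x ≠ 0 := hx
  have h6 : fn p i x = p (gs x⁻¹ (sv i (MonoidAlgebra.single 1 1))) := by
    rw [gs_sv, mul_one]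
    rfl
  rw [Set.mem_ofPred_eq, ← h6]
  exact h5

/-- a tuple of finitely supported functions gives a functional with finite orbits -/
theorem fin_orbits {H : Type*} [Group H] {n : ℕ} (f : Fin n → H → ℤ)
    (hf : ∀ i, (Function.support (f i)).Finite) (v : Fin n → MonoidAlgebra ℤ H) :
    {h : H | pair f (gs h v) ≠ 0}.Finite := by
  have h1 : ∀ v, {h : (⊤ : Subgroup H) | pair f (gs (h : H) v) ≠ 0}.Finite := by
    rw [finite_iff, fn_pair]
    intro j x
    have h2 := (hf j).preimage (f := fun c : (⊤ : Subgroup H) => x * (c : H))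
      (fun a _ b _ h => Subtype.ext (mul_left_cancel h))
    exact h2
  have h2 := (h1 v).image (fun c : (⊤ : Subgroup H) => (c : H))
  refine h2.subset fun h hh => ⟨⟨h, Subgroup.mem_top h⟩, hh, rfl⟩

/-- a cocycle in terms of coefficient functions -/
theorem mulVec_of_fn {H : Type*} [Group H] (S : FinRes H) (i : ℕ)
    (s : (Fin (S.rank i) → MonoidAlgebra ℤ H) →+ ℤ)
    (s' : (Fin (S.rank (i + 1)) → MonoidAlgebra ℤ H) →+ ℤ)
    (hs : ∀ v, s' v = s (v ᵥ* S.d i)) (c : Fin (S.rank i) → MonoidAlgebra ℤ H)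
    (hc : ∀ j, P0 (c j) = fn s j) (f : Fin (S.rank (i + 1)) → MonoidAlgebra ℤ H)
    (hf : ∀ j, P0 (f j) = fn s' j) : S.d i *ᵥ c = f := by
  ext1 a
  apply P0_injective
  have h3 := congrFun (P0_mulVec S i c) a
  rw [h3, hf, fn_vecMul s s' (S.d i) hs]
  simp only [hc]

end CohVanAux

open CohVanAux

theorem coh_van {G : Type*} [Group G] (R : FinRes G) (H : Subgroup G) (S : FinRes H)
    (hS : ¬ Nontrivial (S.cohomology H 2)) (θ : (Fin (R.rank 2) → MonoidAlgebra ℤ G) →+ ℤ)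
    (hθ : ∀ v, {h : H | θ (gs (h : G) v) ≠ 0}.Finite) (hθd : ∀ v, θ (v ᵥ* R.d 2) = 0) :
    ∃ p : (Fin (R.rank 1) → MonoidAlgebra ℤ G) →+ ℤ,
      (∀ v, {h : H | p (gs (h : G) v) ≠ 0}.Finite) ∧ ∀ v, θ v = p (v ᵥ* R.d 1) := by
  obtain ⟨D⟩ := exists_cmp H R S
  set s : (Fin (S.rank 2) → MonoidAlgebra ℤ H) →+ ℤ := θ.comp (D.Ψ 2) with hs
  have hsfin : ∀ v, {h : H | s (gs h v) ≠ 0}.Finite := by
    intro v
    refine (hθ (D.Ψ 2 v)).subset fun h hh => ?_
    have h1 : s (gs h v) ≠ 0 := hh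
    show θ (gs (h : G) (D.Ψ 2 v)) ≠ 0
    rw [← D.Ψ_gs]
    exact h1
  have hsd : ∀ v, s (v ᵥ* S.d 2) = 0 := by
    intro v
    show θ (D.Ψ 2 (v ᵥ* S.d 2)) = 0
    rw [D.Ψ_d]
    exact hθd _
  obtain ⟨f, hf⟩ := exists_P0 (fn s) (fin_support s hsfin)
  have hfd : S.d 2 *ᵥ f = 0 := by
    refine mulVec_of_fn S 2 s 0 (fun v => ?_) f hf 0 (fun j => ?_)
    · rw [hsd]; rfl
    · ext x; simp [fn]
  have hfr : f ∈ S.coboundaries H 2 := by
    by_contra hcon
    apply hS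
    have hfk : f ∈ (S.cobd H 2).ker := by
      rw [AddMonoidHom.mem_ker, cobd_self]
      exact hfd
    refine ⟨⟨QuotientAddGroup.mk ⟨f, hfk⟩, 0, ?_⟩⟩
    intro h0
    apply hcon
    have h1 := (QuotientAddGroup.eq_zero_iff _).1 h0
    exact h1
  obtain ⟨c, hc⟩ := hfr
  rw [cobd_self] at hc
  set pS : (Fin (S.rank 1) → MonoidAlgebra ℤ H) →+ ℤ := pair (fun i => P0 (c i)) with hpS
  have hpSd : ∀ v, s v = pS (v ᵥ* S.d 1) := by
    intro v
    rw [hpS, pair_vecMul, ← P0_mulVec, hc]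
    have h1 : (fun a => P0 (f a)) = fn s := by
      funext a
      exact hf a
    rw [h1, pair_fn]
  have hpSfin : ∀ v, {h : H | pS (gs h v) ≠ 0}.Finite := by
    intro v
    refine fin_orbits _ (fun i => ?_) v
    refine (c i).coeff.support.finite_toSet.subset fun x hx => ?_
    have hx' : (c i).coeff x ≠ 0 := hx
    simpa using hx'
  refine ⟨pS.comp (D.Φ 1) + θ.comp (D.K 1), fun v => ?_, fun v => ?_⟩
  · refine ((hpSfin (D.Φ 1 v)).union (hθ (D.K 1 v))).subset fun h hh => ?_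
    have h1 : pS (D.Φ 1 (gs (h : G) v)) + θ (D.K 1 (gs (h : G) v)) ≠ 0 := hh
    rw [D.Φ_gs, D.K_gs] at h1
    by_cases h0 : pS (gs h (D.Φ 1 v)) = 0
    · right
      show θ (gs (h : G) (D.K 1 v)) ≠ 0
      intro h2
      exact h1 (by rw [h0, h2, add_zero])
    · left
      exact h0
  · show θ v = pS (D.Φ 1 (v ᵥ* R.d 1)) + θ (D.K 1 (v ᵥ* R.d 1))
    have h4 := congrArg θ (D.K_succ 1 v)
    rw [map_sub, map_add, hθd, zero_add] at h4
    rw [D.Φ_d, ← hpSd]
    have h6 : θ (D.Ψ (1 + 1) (D.Φ (1 + 1) v)) = s (D.Φ (1 + 1) v) := rfl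
    rw [h6] at h4
    linarith

/-- The converse for a nontrivial cohomology group: there is a cocycle with finite orbits on `S_2` that
is not the coboundary of a functional with finite orbits.

PROOF.  A nontrivial quotient gives `f` in the kernel of `S.cobd H 2`, not in the range of `S.cobd H 1`
(`Z9f173d.exists_of_nontrivial_add`); `θ = pair (fun i => P0 (f i))`.  If `θ v = p (v ᵥ* S.d 1)` with `p`
having finite orbits then `fn p i` has finite support, `P0 (c i) = fn p i` for some `c i`, and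
`S.d 1 *ᵥ c = f` by `fn_vecMul`, `P0_mulVec`, `P0_injective`. -/
theorem coh_nonvan {H : Type*} [Group H] (S : FinRes H) (hS : Nontrivial (S.cohomology H 2)) :
    ∃ θ : (Fin (S.rank 2) → MonoidAlgebra ℤ H) →+ ℤ, (∀ v, {h : H | θ (gs h v) ≠ 0}.Finite) ∧
      (∀ v, θ (v ᵥ* S.d 2) = 0) ∧
      ∀ p : (Fin (S.rank 1) → MonoidAlgebra ℤ H) →+ ℤ, (∀ v, {h : H | p (gs h v) ≠ 0}.Finite) →
        ¬ ∀ v, θ v = p (v ᵥ* S.d 1) := by
  obtain ⟨f, hf, hf'⟩ := exists_of_nontrivial_add _ _ hS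
  rw [AddMonoidHom.mem_ker, cobd_self] at hf
  refine ⟨pair (fun i => P0 (f i)), fun v => ?_, fun v => ?_, fun p hp hpd => ?_⟩
  · refine fin_orbits _ (fun i => ?_) v
    refine (f i).coeff.support.finite_toSet.subset fun x hx => ?_
    have hx' : (f i).coeff x ≠ 0 := hx
    simpa using hx'
  · rw [pair_vecMul, ← P0_mulVec, hf]
    simp [pair_apply]
  · obtain ⟨c, hc⟩ := exists_P0 (fn p) (fin_support p hp)
    apply hf'
    refine ⟨c, ?_⟩
    rw [cobd_self]
    refine mulVec_of_fn S 1 p _ hpd c hc f (fun j => ?_)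
    rw [fn_pair]

end Pool.Agent.Lib.P9f173dW
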