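import Pool.Agent.Lib.P9f173dW.Defs

/-!
# A group with a finite resolution has non-zero cohomology with coefficients in the group ring
-/

namespace Pool.Agent.Lib.P9f173dW

open Z9f173d
open scoped Matrix

theorem mulVec_of_mact {G : Type*} [Group G] (R : FinRes G) (j : ℕ)
    (h : ∀ f : Fin (R.rank (j + 1)) → G → ℤ, (∀ i, (Function.support (f i)).Finite) →
      mact (tr ℤ) (R.d (j + 1)) f = 0 → ∃ c : Fin (R.rank j) → G → ℤ,
        (∀ i, (Function.support (c i)).Finite) ∧ mact (tr ℤ) (R.d j) c = f)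
    (f : Fin (R.rank (j + 1)) → MonoidAlgebra ℤ G) (hf : R.d (j + 1) *ᵥ f = 0) :
    ∃ c, R.d j *ᵥ c = f := by
  obtain ⟨c, hc, hcf⟩ := h (fun b => P0 (f b)) (fun b => (f b).coeff.support.finite_toSet.subset (by
      intro x hx
      have hx' : (f b).coeff x ≠ 0 := hx
      simpa using hx'))
    (by rw [← P0_mulVec, hf]; ext1 a; simp)
  refine ⟨fun b => .ofCoeff (Finsupp.ofSupportFinite (c b) (hc b)), ?_⟩
  ext1 a
  apply P0_injective
  have h3 := congrFun (P0_mulVec R j fun b => .ofCoeff (Finsupp.ofSupportFinite (c b) (hc b))) a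
  have h4 : (fun b => P0 (MonoidAlgebra.ofCoeff (Finsupp.ofSupportFinite (c b) (hc b)))) = c := by
    ext b x; rfl
  rw [h4] at h3
  rw [h3]
  exact congrFun hcf a

theorem fin_contra {G : Type*} [Group G] (R : FinRes G) (N : ℕ) (hN : ∀ i, N < i → R.rank i = 0)
    (h0 : ∀ f : Fin (R.rank 0) → MonoidAlgebra ℤ G, R.d 0 *ᵥ f = 0 → f = 0)
    (h : ∀ j (f : Fin (R.rank (j + 1)) → MonoidAlgebra ℤ G), R.d (j + 1) *ᵥ f = 0 →
      ∃ c, R.d j *ᵥ c = f) : False := by
  have key : ∀ k j, j + k = N → ∃ (T : Matrix (Fin (R.rank j)) (Fin (R.rank (j + 1))) (MonoidAlgebra ℤ G))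
      (T' : Matrix (Fin (R.rank (j + 1))) (Fin (R.rank (j + 2))) (MonoidAlgebra ℤ G)),
      T' * R.d (j + 1) + R.d j * T = 1 := by
    intro k
    induction k with
    | zero =>
      intro j hj
      refine ⟨0, 0, ?_⟩
      have h1 : R.rank (j + 1) = 0 := hN _ (by omega)
      ext1 a
      exact Fin.elim0 (Fin.cast h1 a)
    | succ k ih =>
      intro j hj
      obtain ⟨T, T', hT⟩ := ih (j + 1) (by omega)
      -- columns of `1 - T * d (j+1)` are cocycles
      have h3 : R.d (j + 1) * (1 - T * R.d (j + 1)) = 0 := by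
        have h4 : R.d (j + 1) * T = 1 - T' * R.d (j + 1 + 1) := by
          rw [← hT]; abel
        rw [Matrix.mul_sub, Matrix.mul_one, ← Matrix.mul_assoc, h4, Matrix.sub_mul, Matrix.one_mul,
          Matrix.mul_assoc, R.d_mul_d, Matrix.mul_zero, sub_zero, sub_self]
      choose t ht using fun b : Fin (R.rank (j + 1)) =>
        h j (fun a => (1 - T * R.d (j + 1) : Matrix (Fin (R.rank (j + 1))) (Fin (R.rank (j + 1)))
          (MonoidAlgebra ℤ G)) a b) (by
          ext1 a
          exact congrFun (congrFun h3 a) b)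
      refine ⟨Matrix.of fun a b => t b a, T, ?_⟩
      have h5 : R.d j * (Matrix.of fun a b => t b a) = 1 - T * R.d (j + 1) := by
        ext1 a b
        exact congrFun (ht b) a
      rw [h5]; abel
  obtain ⟨T, T', hT⟩ := key N 0 (by omega)
  have m0 : T * R.d 0 = 1 := by
    have h3 : R.d 0 * (1 - T * R.d 0) = 0 := by
      have h4 : R.d 0 * T = 1 - T' * R.d (0 + 1) := by
        rw [← hT]; abel
      rw [Matrix.mul_sub, Matrix.mul_one, ← Matrix.mul_assoc, h4, Matrix.sub_mul, Matrix.one_mul,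
        Matrix.mul_assoc, R.d_mul_d, Matrix.mul_zero, sub_zero, sub_self]
    have h4 : 1 - T * R.d 0 = 0 := by
      ext1 a b
      have := h0 (fun a => (1 - T * R.d 0 : Matrix (Fin (R.rank 0)) (Fin (R.rank 0))
        (MonoidAlgebra ℤ G)) a b) (by
        ext1 a
        exact congrFun (congrFun h3 a) b)
      exact congrFun this a
    exact (sub_eq_zero.1 h4).symm
  obtain ⟨x, hx⟩ := R.exists_x
  have h5 : R.augMap x = 0 := by
    rw [R.augMap_eq_zero_iff]
    refine ⟨x ᵥ* T, ?_⟩
    rw [Matrix.vecMul_vecMul, m0, Matrix.vecMul_one]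
  rw [hx] at h5
  exact one_ne_zero h5

theorem IL_bot {G : Type*} [Group G] {f : G → ℤ} (hf : (Function.support f).Finite) :
    IL (⊥ : Subgroup G) f := by
  refine ⟨fun x k => ?_, ?_⟩
  · have : (k : G) = 1 := (Subgroup.mem_bot).1 k.2
    rw [this, mul_one]
  · have hinj : Function.Injective (fun c : G ⧸ (⊥ : Subgroup G) => (Quotient.out c : G)) :=
      Quotient.out_injective
    exact hf.preimage hinj.injOn

theorem finite_of_IL_bot {G : Type*} [Group G] {n : G → ℤ} (hn : IL (⊥ : Subgroup G) n) :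
    (Function.support n).Finite := by
  obtain ⟨f, rfl⟩ := IL_P0 hn
  refine f.coeff.support.finite_toSet.subset ?_
  intro x hx
  have hx' : f.coeff x ≠ 0 := hx
  simpa using hx'

/-- A group whose cohomology with group ring coefficients vanishes in all degrees at least three
has nonzero reduced homology in a degree at most two. -/
theorem contra_of_high {G : Type*} [Group G] (R : FinRes G) (N : ℕ) (hN : ∀ i, N < i → R.rank i = 0)
    (h0 : ¬ Nontrivial (R.homology 0)) (h1 : ¬ Nontrivial (R.homology 1))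
    (h2 : ¬ Nontrivial (R.homology 2))
    (h : ∀ m, 1 ≤ m → ∀ f : Fin (R.rank (m + 2)) → G → ℤ, (∀ i, (Function.support (f i)).Finite) →
      mact (tr ℤ) (R.d (m + 2)) f = 0 → ∃ c : Fin (R.rank (m + 1)) → G → ℤ,
        (∀ i, (Function.support (c i)).Finite) ∧ mact (tr ℤ) (R.d (m + 1)) c = f) : False := by
  refine fin_contra R N hN ?_ ?_
  · intro f hf
    have := deg0 ⊥ foelner_bot R h0 h1 h2 (fun b => P0 (f b)) (fun b => P0_IL _)
      (by rw [← P0_mulVec, hf]; ext1 a; simp)
    ext1 b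
    apply P0_injective
    have h3 := congrFun this b
    rw [h3]
    simp
  · intro j
    match j with
    | 0 =>
      refine mulVec_of_mact R 0 fun f hf hfd => ?_
      obtain ⟨c, hc, hcf⟩ := deg1 ⊥ foelner_bot R h0 h1 h2 f (fun b => IL_bot (hf b)) hfd
      exact ⟨c, fun i => finite_of_IL_bot (hc i), hcf⟩
    | 1 =>
      refine mulVec_of_mact R 1 fun f hf hfd => ?_
      obtain ⟨c, hc, hcf⟩ := deg2 ⊥ foelner_bot R h0 h1 h2 f (fun b => IL_bot (hf b)) hfd
      exact ⟨c, fun i => finite_of_IL_bot (hc i), hcf⟩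
    | (m + 2) => exact mulVec_of_mact R (m + 2) (h (m + 1) (by omega))

end Pool.Agent.Lib.P9f173dW
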