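import Pool.Agent.Lib.P9f173dW.CmpEx

/-!
# Module CmpHom: the other homotopy of a comparison

`D : Cmp H R S` records chain maps `Φ : R → S`, `Ψ : S → R` and a homotopy `K` from the identity of `R` to
`Ψ Φ`.  Here: an `H`-equivariant homotopy `L` from the identity of `S` to `Φ Ψ` in degree two (this is all
that is needed).

PROOF.  (1) `S.augMap (Φ 0 (Ψ 0 v)) = S.augMap v`.  Let `x : S_0` with `S.augMap x = 1`
(`S.exists_x`), `k = S.augMap (Φ 0 x')`, `x' : R_0` with `R.augMap x' = 1`, `l = R.augMap (Ψ 0 x)`.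
For all `v : R_0`: `v - R.augMap v • x'` is in the kernel of `R.augMap`, i.e. `= w ᵥ* R.d 0`
(`augMap_eq_zero_iff`), so `Φ 0 v = R.augMap v • Φ 0 x' + Φ 1 w ᵥ* S.d 0` and
`S.augMap (Φ 0 v) = k * R.augMap v` (`augMap_vecMul`).  In the same way
`R.augMap (Ψ 0 v) = l * S.augMap v`.  By `K_zero` and `augMap_vecMul`
`R.augMap (Ψ 0 (Φ 0 v)) = R.augMap v`, so `l * k = 1`.
(2) `L 0` lifts `θ v = v - Φ 0 (Ψ 0 v)` through `π = · ᵥ* S.d 0` with `proj` for `ι = MonoidHom.id H`,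
`L 1` lifts `v - Φ 1 (Ψ 1 v) - L 0 (v ᵥ* S.d 0)` through `· ᵥ* S.d 1`,
`L 2` lifts `v - Φ 2 (Ψ 2 v) - L 1 (v ᵥ* S.d 1)` through `· ᵥ* S.d 2`.
-/

namespace Pool.Agent.Lib.P9f173dW

open Z9f173d
open scoped Matrix

namespace CmpHomAux

/-- the action as a homomorphism -/
noncomputable def gsEnd (H : Type*) [Group H] (n : ℕ) :
    H →* AddMonoid.End (Fin n → MonoidAlgebra ℤ H) where
  toFun h :=
    { toFun := fun v => gs h v
      map_zero' := by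
        ext1 i
        show MonoidAlgebra.single h 1 * (0 : MonoidAlgebra ℤ H) = 0
        rw [mul_zero]
      map_add' := fun v w => by
        ext1 i
        show MonoidAlgebra.single h 1 * (v i + w i) = _
        rw [mul_add]; rfl }
  map_one' := by
    refine AddMonoidHom.ext fun v => ?_
    ext1 i
    show MonoidAlgebra.single (1 : H) (1 : ℤ) * v i = v i
    rw [← MonoidAlgebra.one_def, one_mul]
  map_mul' g h := by
    refine AddMonoidHom.ext fun v => ?_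
    ext1 i
    show MonoidAlgebra.single (g * h) (1 : ℤ) * v i
      = MonoidAlgebra.single g 1 * (MonoidAlgebra.single h 1 * v i)
    rw [← mul_assoc, MonoidAlgebra.single_mul_single, mul_one]

theorem gsEnd_apply {H : Type*} [Group H] {n : ℕ} (h : H) (v : Fin n → MonoidAlgebra ℤ H) :
    gsEnd H n h v = gs h v := rfl

theorem gs_vecMul {H : Type*} [Group H] {n m : ℕ} (h : H) (v : Fin n → MonoidAlgebra ℤ H)
    (D : Matrix (Fin n) (Fin m) (MonoidAlgebra ℤ H)) : gs h (v ᵥ* D) = gs h v ᵥ* D := by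
  ext1 j
  show MonoidAlgebra.single h 1 * (v ᵥ* D) j = (gs h v ᵥ* D) j
  simp only [Matrix.vecMul, dotProduct, Finset.mul_sum, gs, mul_assoc]

/-- multiplication by a matrix as an additive map -/
noncomputable def vm {H : Type*} [Group H] {n m : ℕ} (D : Matrix (Fin n) (Fin m) (MonoidAlgebra ℤ H)) :
    (Fin n → MonoidAlgebra ℤ H) →+ (Fin m → MonoidAlgebra ℤ H) where
  toFun v := v ᵥ* D
  map_zero' := Matrix.zero_vecMul D
  map_add' v w := Matrix.add_vecMul D v w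

theorem vm_apply {H : Type*} [Group H] {n m : ℕ} (D : Matrix (Fin n) (Fin m) (MonoidAlgebra ℤ H))
    (v : Fin n → MonoidAlgebra ℤ H) : vm D v = v ᵥ* D := rfl

/-- lifting -/
theorem lift {H : Type*} [Group H] {n m k : ℕ} (D : Matrix (Fin m) (Fin k) (MonoidAlgebra ℤ H))
    (θ : (Fin n → MonoidAlgebra ℤ H) →+ (Fin k → MonoidAlgebra ℤ H))
    (hθ : ∀ (h : H) v, θ (gs h v) = gs h (θ v)) (hr : ∀ v, ∃ w, w ᵥ* D = θ v) :
    ∃ L : (Fin n → MonoidAlgebra ℤ H) →+ (Fin m → MonoidAlgebra ℤ H),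
      (∀ (h : H) v, L (gs h v) = gs h (L v)) ∧ ∀ v, L v ᵥ* D = θ v := by
  obtain ⟨L, h1, h2⟩ := proj (G := H) (H := H) (MonoidHom.id H) (fun _ _ h => h) (gsEnd H m)
    (gsEnd H k) (vm D) (fun h v => (gs_vecMul h v D).symm) θ (fun h v => hθ h v) hr
  exact ⟨L, fun h v => h1 h v, fun v => h2 v⟩

end CmpHomAux

open CmpHomAux in
theorem Cmp.exists_htpy {G : Type*} [Group G] {H : Subgroup G} {R : FinRes G} {S : FinRes H}
    (D : Cmp H R S) :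
    ∃ (L1 : (Fin (S.rank 1) → MonoidAlgebra ℤ H) →+ (Fin (S.rank 2) → MonoidAlgebra ℤ H))
      (L2 : (Fin (S.rank 2) → MonoidAlgebra ℤ H) →+ (Fin (S.rank 3) → MonoidAlgebra ℤ H)),
      (∀ (h : H) v, L1 (gs h v) = gs h (L1 v)) ∧ (∀ (h : H) v, L2 (gs h v) = gs h (L2 v)) ∧
      ∀ v, v - D.Φ 2 (D.Ψ 2 v) = L2 v ᵥ* S.d 2 + L1 (v ᵥ* S.d 1) := by
  obtain ⟨x', hx'⟩ := R.exists_x
  obtain ⟨x, hx⟩ := S.exists_x
  have hΦ : ∀ v, S.augMap (D.Φ 0 v) = S.augMap (D.Φ 0 x') * R.augMap v := by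
    intro v
    have h0 : R.augMap (v - R.augMap v • x') = 0 := by
      rw [map_sub, map_zsmul, hx']; simp
    obtain ⟨w, hw⟩ := (R.augMap_eq_zero_iff _).1 h0
    have h1 : D.Φ 0 v - R.augMap v • D.Φ 0 x' = D.Φ 1 w ᵥ* S.d 0 := by
      rw [← D.Φ_d, hw, map_sub, map_zsmul]
    have h2 := congrArg S.augMap h1
    rw [S.augMap_vecMul, map_sub, map_zsmul, smul_eq_mul] at h2
    linarith
  have hΨ : ∀ v, R.augMap (D.Ψ 0 v) = R.augMap (D.Ψ 0 x) * S.augMap v := by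
    intro v
    have h0 : S.augMap (v - S.augMap v • x) = 0 := by
      rw [map_sub, map_zsmul, hx]; simp
    obtain ⟨w, hw⟩ := (S.augMap_eq_zero_iff _).1 h0
    have h1 : D.Ψ 0 v - S.augMap v • D.Ψ 0 x = D.Ψ 1 w ᵥ* R.d 0 := by
      rw [← D.Ψ_d, hw, map_sub, map_zsmul]
    have h2 := congrArg R.augMap h1
    rw [R.augMap_vecMul, map_sub, map_zsmul, smul_eq_mul] at h2
    linarith
  have hlk : R.augMap (D.Ψ 0 x) * S.augMap (D.Φ 0 x') = 1 := by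
    have h1 := congrArg R.augMap (D.K_zero x')
    rw [R.augMap_vecMul, map_sub, hx', hΨ, hΦ, hx'] at h1
    linarith
  have haug : ∀ v, S.augMap (D.Φ 0 (D.Ψ 0 v)) = S.augMap v := by
    intro v
    rw [hΦ, hΨ, ← mul_assoc, mul_comm (S.augMap (D.Φ 0 x')), hlk, one_mul]
  -- equivariance of the composition
  have hequi : ∀ (i : ℕ) (h : H) v, D.Φ i (D.Ψ i (gs h v)) = gs h (D.Φ i (D.Ψ i v)) := by
    intro i h v
    rw [D.Ψ_gs, D.Φ_gs]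
  have hcomp : ∀ (i : ℕ) v, D.Φ (i + 1) (D.Ψ (i + 1) v) ᵥ* S.d i = D.Φ i (D.Ψ i (v ᵥ* S.d i)) := by
    intro i v
    rw [D.Ψ_d, D.Φ_d]
  have hgsub : ∀ {n : ℕ} (h : H) (v w : Fin n → MonoidAlgebra ℤ H), gs h (v - w) = gs h v - gs h w :=
    fun {n} h v w => map_sub (gsEnd H n h : _ →+ _) v w
  -- L 0
  obtain ⟨L0, hL0g, hL0⟩ := lift (S.d 0)
    (AddMonoidHom.id _ - (D.Φ 0).comp (D.Ψ 0)) (fun h v => by
      show gs h v - D.Φ 0 (D.Ψ 0 (gs h v)) = gs h (v - D.Φ 0 (D.Ψ 0 v))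
      rw [hequi, hgsub]) (fun v => by
      rw [← S.augMap_eq_zero_iff]
      show S.augMap (v - D.Φ 0 (D.Ψ 0 v)) = 0
      rw [map_sub, haug, sub_self])
  replace hL0 : ∀ v, L0 v ᵥ* S.d 0 = v - D.Φ 0 (D.Ψ 0 v) := hL0
  -- L 1
  obtain ⟨L1, hL1g, hL1⟩ := lift (S.d 1)
    (AddMonoidHom.id _ - (D.Φ 1).comp (D.Ψ 1) - L0.comp (vm (S.d 0))) (fun h v => by
      show gs h v - D.Φ 1 (D.Ψ 1 (gs h v)) - L0 (gs h v ᵥ* S.d 0)
        = gs h (v - D.Φ 1 (D.Ψ 1 v) - L0 (v ᵥ* S.d 0))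
      rw [hequi, hgsub, hgsub, ← gs_vecMul, hL0g]) (fun v => by
      rw [← S.exact_succ]
      show (v - D.Φ 1 (D.Ψ 1 v) - L0 (v ᵥ* S.d 0)) ᵥ* S.d 0 = 0
      rw [Matrix.sub_vecMul, Matrix.sub_vecMul, hcomp 0, hL0, sub_self])
  replace hL1 : ∀ v, L1 v ᵥ* S.d 1 = v - D.Φ 1 (D.Ψ 1 v) - L0 (v ᵥ* S.d 0) := hL1
  -- L 2
  have hdd : ∀ v : Fin (S.rank 2) → MonoidAlgebra ℤ H, (v ᵥ* S.d 1) ᵥ* S.d 0 = 0 :=
    fun v => (S.exact_succ 0 _).2 ⟨v, rfl⟩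
  obtain ⟨L2, hL2g, hL2⟩ := lift (S.d 2)
    (AddMonoidHom.id _ - (D.Φ 2).comp (D.Ψ 2) - L1.comp (vm (S.d 1))) (fun h v => by
      show gs h v - D.Φ 2 (D.Ψ 2 (gs h v)) - L1 (gs h v ᵥ* S.d 1)
        = gs h (v - D.Φ 2 (D.Ψ 2 v) - L1 (v ᵥ* S.d 1))
      rw [hequi, hgsub, hgsub, ← gs_vecMul, hL1g]) (fun v => by
      rw [← S.exact_succ]
      show (v - D.Φ 2 (D.Ψ 2 v) - L1 (v ᵥ* S.d 1)) ᵥ* S.d 1 = 0
      rw [Matrix.sub_vecMul, Matrix.sub_vecMul, hcomp 1, hL1, hdd, map_zero, sub_zero, sub_self])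
  replace hL2 : ∀ v, L2 v ᵥ* S.d 2 = v - D.Φ 2 (D.Ψ 2 v) - L1 (v ᵥ* S.d 1) := hL2
  refine ⟨L1, L2, hL1g, hL2g, fun v => ?_⟩
  rw [hL2, sub_add_cancel]

end Pool.Agent.Lib.P9f173dW
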