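import Pool.Agent.Lib.P9f173dW.TreeDefs
import Pool.Agent.Lib.P9f173dT.Tree

/-!
# Module TreeAI: the almost invariant set of an edge of a tree

`G` acts on the tree `T` by automorphisms, `v`, `w` adjacent, `C = stE G v w` the stabiliser of both,
`A = AE G T v0 v w = {x | x⁻¹ v0 closer to w than to v}`.

TOOLS: `P9f173dT/Tree.lean` (`dist_smul`: the action preserves distances; `mem_walk_of_dist`,
`dist_of_mem`, `Br`); in a tree `T.dist x v` and `T.dist x w` differ by exactly one for adjacent `v`, `w`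
(`hT.dist_eq_dist_add_one_of_adj`), so the complement of `side T v w` is `side T w v`.
(0) If `a`, `b` are adjacent, `a ∈ side T w v` (closer to `v`), `b ∈ side T v w` then `a = v` and `b = w`:
`dist a w = dist a v + 1`, `dist b v = dist b w + 1`, `|dist a v - dist b v| ≤ 1`,
`|dist a w - dist b w| ≤ 1`; so `dist b w + 1 = dist b v ≤ dist a v + 1` and
`dist a v + 1 = dist a w ≤ dist b w + 1`, `dist a v = dist b w =: n`.  The geodesics from `a` to `v` and
from `b` to `w`: the walk `w → b → a → v` of length `n + 1 + n` and the edge `w → v`; every walk from `w`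
to `v` contains... use: `v` lies on every walk from `a` to `w` (`mem_walk_of_dist` with
`dist a w = dist a v + dist v w`), in particular on the walk `a → b → (geodesic) → w`; all vertices
of the geodesic from `b` to `w` are closer to `w` (a vertex `z` on it has `dist z w ≤ n`, and if `z = v` then
`dist b v ≤ n - 1`... contradiction with `dist b v = n + 1`), so `v = a`; then `n = 0` and `b = w`.
PROOF of `ai_edge`.  (inv) `(x c)⁻¹ v0 = c⁻¹ (x⁻¹ v0)` and `dist (c⁻¹ z) w = dist z (c w) = dist z w`.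
(fin) Let `p` be a walk from `v0` to `g⁻¹ v0`; for `x` with `g x ∈ A ≠ x ∈ A`: `x⁻¹ g⁻¹ v0` and `x⁻¹ v0` are on
different sides, so on the walk `x⁻¹ p` there are consecutive vertices `x⁻¹ a`, `x⁻¹ b` (`(a, b)` an edge of
`p`) on different sides, hence by (0) `{x⁻¹ a, x⁻¹ b} = {v, w}`: `x v = a, x w = b` or `x v = b, x w = a`.  For each of the
finitely many ordered pairs `(a, b)` choose `f` with `f v = a`, `f w = b` if there is one; then `f⁻¹ x`
fixes `v` and `w`.
PROOF of `AE_left`: (`h` in the stabiliser of `w`, `x h ∉ A`) let `u = x⁻¹ v0`; `h⁻¹ u` is closer to `v` than to `w`.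
If `h, h'` are two such elements: `h⁻¹ u` and `h'⁻¹ u` are both in the branch of `v` at `w`
(`Br T w (h⁻¹ u) v`), so applying `h`, `h'` (which fix `w`; `Br.smul`) `Br T w u (h v)` and
`Br T w u (h' v)`, so `h v = h' v` (`Br.unique`) and `h⁻¹ h' ∈ C`.  So take `a = x h` for one such `h` (if there
is none any `a` works).  `Br_iff : Br T w z e ↔ T.Adj w e ∧ dist w z = dist e z + 1`.
PROOF of `AE_right`: the same with `v` and `w` exchanged.
-/

namespace Pool.Agent.Lib.P9f173dW

open Z9f173d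

variable {G V : Type*} [Group G] [MulAction G V] {T : SimpleGraph V}

namespace TreeAIAux

open Pool.Agent.Lib.P9f173dT

omit [Group G] [MulAction G V] in
theorem side_iff (hT : T.IsTree) {v w : V} (hvw : T.Adj v w) (x : V) :
    (x ∈ side T v w ↔ T.dist v x = T.dist w x + 1) ∧
      (x ∉ side T v w ↔ T.dist w x = T.dist v x + 1) := by
  have h := hT.dist_eq_dist_add_one_of_adj x hvw
  have e1 : T.dist x v = T.dist v x := SimpleGraph.dist_comm
  have e2 : T.dist x w = T.dist w x := SimpleGraph.dist_comm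
  have e3 : x ∈ side T v w ↔ T.dist x w < T.dist x v := Iff.rfl
  rw [e3]
  rw [e1, e2] at h ⊢
  omega

/-- an edge between the two sides -/
theorem cross (hT : T.IsTree) {v w a b : V} (hvw : T.Adj v w) (hab : T.Adj a b)
    (ha : a ∉ side T v w) (hb : b ∈ side T v w) : a = v ∧ b = w := by
  have h1 := ((side_iff hT hvw a).2).mp ha
  have h2 := ((side_iff hT hvw b).1).mp hb
  have h3 := dist_through hT (w := v) (e := w) (z := a) (x := b) hvw h1 h2
  have h4 : T.dist a b = 1 := adj_dist hab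
  rw [h4] at h3
  have h5 : T.dist a v = 0 := by omega
  have h6 : T.dist w b = 0 := by omega
  exact ⟨hT.connected.dist_eq_zero_iff.mp h5, (hT.connected.dist_eq_zero_iff.mp h6).symm⟩

theorem walk_cross (hT : T.IsTree)
    (hadj : ∀ (g : G) (v v' : V), T.Adj v v' → T.Adj (g • v) (g • v')) {v w : V}
    (hvw : T.Adj v w) (x : G) {a b : V} (p : T.Walk a b)
    (h : ¬ (x⁻¹ • a ∈ side T v w ↔ x⁻¹ • b ∈ side T v w)) :
    x • v ∈ p.support ∧ x • w ∈ p.support := by
  induction p with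
  | nil => exact absurd Iff.rfl h
  | @cons a a' b haa' p ih =>
    rw [SimpleGraph.Walk.support_cons]
    by_cases h1 : x⁻¹ • a ∈ side T v w ↔ x⁻¹ • a' ∈ side T v w
    · obtain ⟨h2, h3⟩ := ih (fun h2 => h (h1.trans h2))
      exact ⟨List.mem_cons_of_mem _ h2, List.mem_cons_of_mem _ h3⟩
    · have h2 := hadj x⁻¹ _ _ haa'
      have ma : a ∈ a :: p.support := List.mem_cons_self
      have ma' : a' ∈ a :: p.support := List.mem_cons_of_mem _ p.start_mem_support
      by_cases h3 : x⁻¹ • a ∈ side T v w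
      · have h4 : x⁻¹ • a' ∉ side T v w := fun h5 => h1 ⟨fun _ => h5, fun _ => h3⟩
        obtain ⟨e1, e2⟩ := cross hT hvw h2.symm h4 h3
        rw [← e1, ← e2, smul_inv_smul, smul_inv_smul]
        exact ⟨ma', ma⟩
      · have h4 : x⁻¹ • a' ∈ side T v w := by
          by_contra h5
          exact h1 ⟨fun h6 => absurd h6 h3, fun h6 => absurd h6 h5⟩
        obtain ⟨e1, e2⟩ := cross hT hvw h2 h3 h4
        rw [← e1, ← e2, smul_inv_smul, smul_inv_smul]
        exact ⟨ma, ma'⟩

theorem mem_stE {v w : V} {g : G} : g ∈ stE G v w ↔ g • v = v ∧ g • w = w := by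
  rw [Subgroup.mem_inf, MulAction.mem_stabilizer_iff, MulAction.mem_stabilizer_iff]

theorem fix {v w : V} {a b : G} (h1 : a • v = b • v) (h2 : a • w = b • w) :
    a⁻¹ * b ∈ stE G v w := by
  rw [mem_stE, mul_smul, mul_smul, ← h1, ← h2, inv_smul_smul, inv_smul_smul]
  exact ⟨rfl, rfl⟩

end TreeAIAux

open TreeAIAux Pool.Agent.Lib.P9f173dT

theorem ai_edge (hT : T.IsTree)
    (hadj : ∀ (g : G) (v v' : V), T.Adj v v' → T.Adj (g • v) (g • v')) (v0 v w : V)
    (hvw : T.Adj v w) : AI (stE G v w) (AE G T v0 v w) := by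
  classical
  constructor
  · rintro x ⟨c, hc⟩
    obtain ⟨hc1, hc2⟩ := mem_stE.mp hc
    change (T.dist ((x * c)⁻¹ • v0) w < T.dist ((x * c)⁻¹ • v0) v) ↔
      (T.dist (x⁻¹ • v0) w < T.dist (x⁻¹ • v0) v)
    rw [mul_inv_rev, mul_smul]
    have e1 := dist_smul hT hadj c (c⁻¹ • x⁻¹ • v0) w
    have e2 := dist_smul hT hadj c (c⁻¹ • x⁻¹ • v0) v
    rw [smul_inv_smul, hc2] at e1
    rw [smul_inv_smul, hc1] at e2
    rw [e1, e2]
  · intro g
    obtain ⟨p⟩ := hT.connected.preconnected (g⁻¹ • v0) v0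
    refine ⟨(p.support.toFinset ×ˢ p.support.toFinset).image (fun q =>
      if h : ∃ f : G, f • v = q.1 ∧ f • w = q.2 then h.choose else 1), fun x hx => ?_⟩
    have h1 : ¬ (x⁻¹ • (g⁻¹ • v0) ∈ side T v w ↔ x⁻¹ • v0 ∈ side T v w) := by
      intro h2
      apply hx
      change ((g * x)⁻¹ • v0 ∈ side T v w ↔ x⁻¹ • v0 ∈ side T v w)
      rw [mul_inv_rev, mul_smul]
      exact h2
    obtain ⟨h2, h3⟩ := walk_cross hT hadj hvw x p h1
    have h4 : ∃ f : G, f • v = x • v ∧ f • w = x • w := ⟨x, rfl, rfl⟩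
    refine ⟨h4.choose, ?_, fix h4.choose_spec.1 h4.choose_spec.2⟩
    refine Finset.mem_image.mpr ⟨(x • v, x • w), ?_, ?_⟩
    · exact Finset.mem_product.mpr ⟨List.mem_toFinset.mpr h2, List.mem_toFinset.mpr h3⟩
    · simp only
      rw [dif_pos h4]

/-- All but one coset of the edge group in `x G_w` lies in `A`. -/
theorem AE_left (hT : T.IsTree)
    (hadj : ∀ (g : G) (v v' : V), T.Adj v v' → T.Adj (g • v) (g • v')) (v0 v w : V)
    (hvw : T.Adj v w) (x : G) : ∃ a : G, ∀ h ∈ MulAction.stabilizer G w,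
      x * h ∉ AE G T v0 v w → a⁻¹ * (x * h) ∈ stE G v w := by
  have key : ∀ h : G, h • w = w → x * h ∉ AE G T v0 v w → Br T w (x⁻¹ • v0) (h • v) := by
    intro h hw hA
    have h1 : h⁻¹ • x⁻¹ • v0 ∉ side T v w := by
      intro h2
      apply hA
      change (x * h)⁻¹ • v0 ∈ side T v w
      rw [mul_inv_rev, mul_smul]
      exact h2
    have h2 : Br T w (h⁻¹ • x⁻¹ • v0) v :=
      (Br_iff hT).mpr ⟨hvw.symm, ((side_iff hT hvw _).2).mp h1⟩
    have h3 := h2.smul hT hadj hw
    rwa [smul_inv_smul] at h3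
  by_cases h0 : ∃ h : G, h • w = w ∧ x * h ∉ AE G T v0 v w
  · obtain ⟨h, hw, hA⟩ := h0
    refine ⟨x * h, fun h' hw' hA' => ?_⟩
    rw [MulAction.mem_stabilizer_iff] at hw'
    have e := Br.unique hT (key h hw hA) (key h' hw' hA')
    have e2 : (x * h)⁻¹ * (x * h') = h⁻¹ * h' := by group
    rw [e2]
    exact fix e (hw.trans hw'.symm)
  · refine ⟨1, fun h' hw' hA' => ?_⟩
    rw [MulAction.mem_stabilizer_iff] at hw'
    exact absurd ⟨h', hw', hA'⟩ h0

/-- All but one coset of the edge group in `x G_v` lies in the complement of `A`. -/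
theorem AE_right (hT : T.IsTree)
    (hadj : ∀ (g : G) (v v' : V), T.Adj v v' → T.Adj (g • v) (g • v')) (v0 v w : V)
    (hvw : T.Adj v w) (x : G) : ∃ a : G, ∀ h ∈ MulAction.stabilizer G v,
      x * h ∈ AE G T v0 v w → a⁻¹ * (x * h) ∈ stE G v w := by
  have key : ∀ h : G, h • v = v → x * h ∈ AE G T v0 v w → Br T v (x⁻¹ • v0) (h • w) := by
    intro h hw hA
    have h1 : h⁻¹ • x⁻¹ • v0 ∈ side T v w := by
      have hA' : (x * h)⁻¹ • v0 ∈ side T v w := hA
      rw [mul_inv_rev, mul_smul] at hA'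
      exact hA'
    have h2 : Br T v (h⁻¹ • x⁻¹ • v0) w :=
      (Br_iff hT).mpr ⟨hvw, ((side_iff hT hvw _).1).mp h1⟩
    have h3 := h2.smul hT hadj hw
    rwa [smul_inv_smul] at h3
  by_cases h0 : ∃ h : G, h • v = v ∧ x * h ∈ AE G T v0 v w
  · obtain ⟨h, hw, hA⟩ := h0
    refine ⟨x * h, fun h' hw' hA' => ?_⟩
    rw [MulAction.mem_stabilizer_iff] at hw'
    have e := Br.unique hT (key h hw hA) (key h' hw' hA')
    have e2 : (x * h)⁻¹ * (x * h') = h⁻¹ * h' := by group
    rw [e2]
    exact fix (hw.trans hw'.symm) e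
  · refine ⟨1, fun h' hw' hA' => ?_⟩
    rw [MulAction.mem_stabilizer_iff] at hw'
    exact absurd ⟨h', hw', hA'⟩ h0

end Pool.Agent.Lib.P9f173dW
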