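import Pool.Agent.Lib.P9f173dW.ThmC
import Pool.Agent.Lib.P9f173dW.TreeAI
import Pool.Agent.Lib.P9f173dW.CmpHom
import Pool.Agent.Lib.P9f173dW.CohVan

/-!
# An edge group with nonzero second cohomology between two vertex groups with zero second cohomology
-/

namespace Pool.Agent.Lib.P9f173dW

open Z9f173d
open scoped Matrix

universe u

/-- A function supported on `A` up to finitely many points, and square summable near the cosets of
`C`, is square summable near the cosets of a bigger group `H` for which every coset meets `A` in at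
most one coset of `C`. -/
theorem finite_bigger {G : Type*} [Group G] {C H : Subgroup G} {A : Set G} (f : G → ℤ)
    (hf : f ∈ LC C ℤ) (hfA : (Function.support (Aᶜ.indicator f)).Finite)
    (hH : ∀ x : G, ∃ a : G, ∀ h ∈ H, x * h ∈ A → a⁻¹ * (x * h) ∈ C) (x : G) :
    {h : H | f (x * h) ≠ 0}.Finite := by
  obtain ⟨a, ha⟩ := hH x
  have hi : Function.Injective fun h : H => x * (h : G) := fun h h' hh => by
    have h3 : x * (h : G) = x * h' := hh
    exact Subtype.ext (mul_left_cancel h3)
  have h1 : (Function.support (Aᶜ.indicator f)).Finite := hfA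
  have h2 : {c : C | f (a * c) ≠ 0}.Finite := (mem_LC_int.1 hf) a
  refine ((h1.preimage hi.injOn).union ((h2.image fun c : C => a * (c : G)).preimage
    hi.injOn)).subset ?_
  intro h hh
  by_cases hA : x * (h : G) ∈ A
  · right
    refine ⟨⟨a⁻¹ * (x * h), ha h h.2 hA⟩, ?_, ?_⟩
    · show f (a * (a⁻¹ * (x * h))) ≠ 0
      rw [mul_inv_cancel_left]
      exact hh
    · show a * (a⁻¹ * (x * h)) = x * h
      rw [mul_inv_cancel_left]
  · left
    show Aᶜ.indicator f (x * h) ≠ 0
    rw [Set.indicator_of_mem (show x * (h : G) ∈ Aᶜ from hA)]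
    exact hh

theorem tprime {G : Type u} [Group G] {V : Type*} [MulAction G V] (R : FinRes G)
    (T : SimpleGraph V) (hT : T.IsTree)
    (hadj : ∀ (g : G) (v w : V), T.Adj v w → T.Adj (g • v) (g • w)) (v w : V) (hvw : T.Adj v w)
    (S : FinRes (stE G v w)) (hS : Thin S)
    (hS2 : Nontrivial (S.cohomology (stE G v w) 2))
    (Sv : FinRes (MulAction.stabilizer G v))
    (hv : ¬ Nontrivial (Sv.cohomology (MulAction.stabilizer G v) 2))
    (Sw : FinRes (MulAction.stabilizer G w))
    (hw : ¬ Nontrivial (Sw.cohomology (MulAction.stabilizer G w) 2))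
    (h0 : ¬ Nontrivial (R.homology 0)) (h1 : ¬ Nontrivial (R.homology 1))
    (h2 : ¬ Nontrivial (R.homology 2)) : False := by
  obtain ⟨θS, hθS, hθSd, hθSn⟩ := coh_nonvan S hS2
  obtain ⟨D⟩ := exists_cmp (stE G v w) R S
  obtain ⟨L1, L2, hL1, hL2, hL⟩ := D.exists_htpy
  set θ : (Fin (R.rank 2) → MonoidAlgebra ℤ G) →+ ℤ := θS.comp (D.Φ 2) with hθ
  have hθf : ∀ r, {h : stE G v w | θ (gs (h : G) r) ≠ 0}.Finite := by
    intro r
    refine (hθS (D.Φ 2 r)).subset ?_
    intro h hh
    show θS (gs h (D.Φ 2 r)) ≠ 0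
    rw [← D.Φ_gs]
    exact hh
  have hθd : ∀ r, θ (r ᵥ* R.d 2) = 0 := by
    intro r
    show θS (D.Φ 2 (r ᵥ* R.d 2)) = 0
    rw [D.Φ_d 2 r]
    exact hθSd _
  -- the connecting map vanishes
  set A : Set G := AE G T v v w with hA
  have hAI : AI (stE G v w) A := ai_edge hT hadj v v w hvw
  have hy : ∀ j, fn θ j ∈ LC (stE G v w) ℤ := fun j =>
    mem_LC_int.2 ((finite_iff (stE G v w) θ).1 hθf j)
  have hyc : mact (tr ℤ) (R.d 2) (fn θ) = 0 := by
    have h3 := fn_vecMul θ 0 (R.d 2) (fun r => (hθd r).symm)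
    rw [← h3]
    ext j x; rfl
  obtain ⟨z, hz, hzd⟩ := thmC R h0 h1 h2 (stE G v w) S hS A hAI (fn θ) hy hyc
  set q : Fin (R.rank 2) → G → ℤ := fun j => A.indicator (fn θ j) - z j with hq
  have hqd : mact (tr ℤ) (R.d 2) q = 0 := by
    have h3 : q = (fun j => A.indicator (fn θ j)) - z := rfl
    rw [h3, map_sub, hzd, sub_self]
  have hzLC : ∀ j, z j ∈ LC (stE G v w) ℤ := by
    intro j x
    refine SQ.of_finite (f := fun c : stE G v w => z j (x * c)) ?_
    have hi : Function.Injective fun h : stE G v w => x * (h : G) := fun h h' hh => by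
      have h3 : x * (h : G) = x * h' := hh
      exact Subtype.ext (mul_left_cancel h3)
    exact (hz j).preimage hi.injOn
  have hindLC : ∀ (B : Set G) (j : Fin (R.rank 2)), B.indicator (fn θ j) ∈ LC (stE G v w) ℤ := by
    intro B j x
    refine (hy j x).mono 1 fun c => ?_
    rw [one_mul]
    by_cases hB : x * (c : G) ∈ B
    · rw [Set.indicator_of_mem hB]
    · rw [Set.indicator_of_notMem hB, norm_zero]
      exact norm_nonneg _
  have hqLC : ∀ j, q j ∈ LC (stE G v w) ℤ := fun j =>
    AddSubgroup.sub_mem _ (hindLC A j) (hzLC j)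
  -- `q` has finite orbits under the stabiliser of `v`
  have hqv : ∀ j x, {h : MulAction.stabilizer G v | q j (x * h) ≠ 0}.Finite := by
    intro j
    refine finite_bigger (C := stE G v w) (A := A) (q j) (hqLC j) ?_
      (AE_right hT hadj v v w hvw)
    refine (hz j).subset ?_
    intro x hx
    by_contra h3
    apply hx
    by_cases hxA : x ∈ A
    · rw [Set.indicator_of_notMem (by simpa using hxA)]
    · rw [Set.indicator_of_mem (by simpa using hxA)]
      show A.indicator (fn θ j) x - z j x = 0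
      rw [Set.indicator_of_notMem hxA, not_not.1 h3, sub_zero]
  have hqw : ∀ j x, {h : MulAction.stabilizer G w | (fn θ - q) j (x * h) ≠ 0}.Finite := by
    intro j
    refine finite_bigger (C := stE G v w) (A := Aᶜ) ((fn θ - q) j)
      (AddSubgroup.sub_mem _ (hy j) (hqLC j)) ?_ (fun x => ?_)
    · refine (hz j).subset ?_
      intro x hx
      by_contra h3
      apply hx
      rw [compl_compl]
      by_cases hxA : x ∈ A
      · rw [Set.indicator_of_mem hxA]
        show fn θ j x - (A.indicator (fn θ j) x - z j x) = 0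
        rw [Set.indicator_of_mem hxA, not_not.1 h3, sub_zero, sub_self]
      · rw [Set.indicator_of_notMem hxA]
    · obtain ⟨a, ha⟩ := AE_left hT hadj v v w hvw x
      exact ⟨a, fun h hh hA' => ha h hh hA'⟩
  obtain ⟨p1, hp1, hp1d⟩ := coh_van R _ Sv hv (pair q) ((finite_iff _ _).2 (by
      rw [fn_pair]; exact hqv)) (fun r => by rw [pair_vecMul, hqd]; simp [pair_apply])
  obtain ⟨p2, hp2, hp2d⟩ := coh_van R _ Sw hw (pair (fn θ - q)) ((finite_iff _ _).2 (by
      rw [fn_pair]; exact hqw)) (fun r => by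
        rw [pair_vecMul, map_sub, hqd, hyc, sub_zero]; simp [pair_apply])
  -- `θ` is a coboundary
  set p : (Fin (R.rank 1) → MonoidAlgebra ℤ G) →+ ℤ := p1 + p2 with hp
  have hpd : ∀ r, θ r = p (r ᵥ* R.d 1) := by
    intro r
    show θ r = p1 (r ᵥ* R.d 1) + p2 (r ᵥ* R.d 1)
    rw [← hp1d, ← hp2d]
    have h3 : pair q + pair (fn θ - q) = pair (fn θ) := by
      refine AddMonoidHom.ext fun r => ?_
      rw [AddMonoidHom.add_apply, pair_apply, pair_apply, pair_apply, ← Finset.sum_add_distrib]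
      refine Finset.sum_congr rfl fun j _ => ?_
      rw [← Pi.add_apply (tr ℤ (r j) (q j)), ← map_add]
      congr 2
      rw [Pi.sub_apply, add_sub_cancel]
    rw [← AddMonoidHom.add_apply, h3, pair_fn]
  have hpf : ∀ r, {h : stE G v w | p (gs (h : G) r) ≠ 0}.Finite := by
    intro r
    have i1 : Function.Injective (Subgroup.inclusion
      (inf_le_left : stE G v w ≤ MulAction.stabilizer G v)) := Subgroup.inclusion_injective _
    have i2 : Function.Injective (Subgroup.inclusion
      (inf_le_right : stE G v w ≤ MulAction.stabilizer G w)) := Subgroup.inclusion_injective _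
    refine (((hp1 r).preimage i1.injOn).union ((hp2 r).preimage i2.injOn)).subset ?_
    intro h hh
    have hh' : p1 (gs (h : G) r) + p2 (gs (h : G) r) ≠ 0 := hh
    by_contra hcon
    rw [Set.mem_union, not_or] at hcon
    have h3 : p1 (gs (h : G) r) = 0 := not_not.1 hcon.1
    have h4 : p2 (gs (h : G) r) = 0 := not_not.1 hcon.2
    rw [h3, h4, add_zero] at hh'
    exact hh' rfl
  refine hθSn (p.comp (D.Ψ 1) + θS.comp L1) ?_ ?_
  · intro r
    refine ((hpf (D.Ψ 1 r)).union (hθS (L1 r))).subset ?_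
    intro h hh
    have hh' : p (D.Ψ 1 (gs h r)) + θS (L1 (gs h r)) ≠ 0 := hh
    rw [D.Ψ_gs, hL1] at hh'
    by_contra hcon
    rw [Set.mem_union, not_or] at hcon
    rw [not_not.1 hcon.1, not_not.1 hcon.2, add_zero] at hh'
    exact hh' rfl
  · intro r
    show θS r = p (D.Ψ 1 (r ᵥ* S.d 1)) + θS (L1 (r ᵥ* S.d 1))
    rw [D.Ψ_d 1 r]
    have h3 := congrArg θS (hL r)
    rw [map_sub, map_add, hθSd, zero_add] at h3
    have h4 := hpd (D.Ψ (1 + 1) r)
    rw [← h4, ← h3]
    show θS r = θS (D.Φ 2 (D.Ψ 2 r)) + (θS r - θS (D.Φ 2 (D.Ψ 2 r)))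
    rw [add_sub_cancel]

end Pool.Agent.Lib.P9f173dW
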