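import Pool.Agent.Lib.P9f173dW.TreeThm
import Pool.Agent.Lib.P9f173dW.TPrime

/-!
# Final form
-/

namespace Pool.Agent.Lib.P9f173dW

open Z9f173d

universe u v

theorem exists_le_two {G : Type u} [Group G] (R : FinRes G)
    (h : ¬ Nontrivial (R.homology 0) → ¬ Nontrivial (R.homology 1) →
      ¬ Nontrivial (R.homology 2) → False) : ∃ i ≤ 2, Nontrivial (R.homology i) := by
  by_contra hcon
  simp only [not_exists, not_and] at hcon
  exact h (hcon 0 (by norm_num)) (hcon 1 (by norm_num)) (hcon 2 (by norm_num))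

theorem final {G : Type u} [Group G] (R : FinRes G)
    (h : (∃ (V : Type v) (_ : MulAction G V) (T : SimpleGraph V), T.IsTree ∧
        (∀ (g : G) (v w : V), T.Adj v w → T.Adj (g • v) (g • w)) ∧
        (∀ (g : G) (v w : V), T.Adj v w → g • v = w → g • w ≠ v) ∧
        (∃ E : Finset (V × V), ∀ v w, T.Adj v w → ∃ g : G, (g • v, g • w) ∈ E) ∧
        (∃ N, ∀ i, N < i → R.rank i = 0) ∧
        (∀ v : V, ∃ S : FinRes (MulAction.stabilizer G v), ∀ i, 2 < i → S.rank i = 0) ∧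
        ∀ v w : V, T.Adj v w →
          ∃ S : FinRes ↥(MulAction.stabilizer G v ⊓ MulAction.stabilizer G w),
            (∀ i, 2 < i → S.rank i = 0) ∧ Thin S) ∨
      (∃ (V : Type v) (_ : MulAction G V) (T : SimpleGraph V), T.IsTree ∧
        (∀ (g : G) (v w : V), T.Adj v w → T.Adj (g • v) (g • w)) ∧
        ∃ v w : V, T.Adj v w ∧
          (∃ S : FinRes ↥(MulAction.stabilizer G v ⊓ MulAction.stabilizer G w), Thin S ∧
            Nontrivial (S.cohomology ↥(MulAction.stabilizer G v ⊓ MulAction.stabilizer G w) 2)) ∧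
          ∀ x : V, x = v ∨ x = w → ∃ S : FinRes (MulAction.stabilizer G x),
            ¬ Nontrivial (S.cohomology (MulAction.stabilizer G x) 2)) ∨
      (∃ (C : Subgroup G) (S : FinRes C) (A : Set G) (y : Fin (R.rank 2) → G → ℤ),
        Thin S ∧ AI C A ∧ (∀ j x, {c : C | y j (x * c) ≠ 0}.Finite) ∧
        cob (R.d 2) y = 0 ∧
        ¬ ∃ z : Fin (R.rank 2) → G → ℤ, (∀ j, {x | z j x ≠ 0}.Finite) ∧
          cob (R.d 2) z = cob (R.d 2) fun j => A.indicator (y j))) :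
    ∃ i ≤ 2, Nontrivial (R.homology i) := by
  refine exists_le_two R fun h0 h1 h2 => ?_
  rcases h with ⟨V, _, T, hT, hadj, hinv, ⟨E, hE⟩, ⟨N, hN⟩, hV, hE2⟩ |
    ⟨V, _, T, hT, hadj, v, w, hvw, ⟨S, hS, hS2⟩, hx⟩ | ⟨C, S, A, y, hS, hA, hy, hyc, hz⟩
  · exact tree_thm R N hN T hT hadj hinv E hE hV hE2 h0 h1 h2
  · obtain ⟨Sv, hv⟩ := hx v (Or.inl rfl)
    obtain ⟨Sw, hw⟩ := hx w (Or.inr rfl)
    exact tprime R T hT hadj v w hvw S hS hS2 Sv hv Sw hw h0 h1 h2
  · rw [cob_eq] at hyc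
    simp only [cob_eq] at hz
    exact hz (thmC R h0 h1 h2 C S hS A hA y (fun j => mem_LC_int.2 (hy j)) hyc)

end Pool.Agent.Lib.P9f173dW
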