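import Pool.Agent.Lib.P9f173dW.Defs

/-!
# Module Path: functions on `G` and 0-cochains of a resolution

`R` a finite free resolution, `x0` with augmentation `1`, `fpair p x0 = ∑ x0_j ⋆ p_j` (a function on
`G` for a 0-cochain `p`), `jm R f = (aug b • f)_b` (a 0-cochain for a function `f`).

PROOFS (all of them are already in `Z9f173d/Core2.lean`, inside the proof of `deg2` : `hβ`, `hall`,
`hUt`, `hwt`; here they are stated in general).
* `exists_path` : `augMap (g x0 - x0) = 0` (`augMap_smul`), `augMap_eq_zero_iff`.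
* `df_fpair` : `fpair_vecMul`, `fpair_sub`, `fpair_mul`, `tr_single`.
* `tr_sub_eps_mem` : for a subgroup `B ≤ (G → M)` stable under `ℤ[G]` and `f` with `df g f ∈ B` for
  all `g`: `tr M a f - eps G a • f ∈ B`; induction on `a`.
* `jm_mem` : `∑_b tr (d_{ib}) (aug b • f) = tr (∑ aug b • d_{ib}) f` and
  `eps (∑ aug b • d_{ib}) = 0` (`sum_row_zero`).
* `fpair_jm_sub_mem` : `fpair (jm R f) x0 = tr (∑ aug b • x0_b) f`, `eps = augMap x0 = 1`.
* `df_mem` : `df_fpair` and stability of `B` under `fpair`.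
* `sub_aug_mem` : `p_b - aug b • fpair p x0 = fpair p (sv b 1 - aug b • x0)` and the vector has
  augmentation `0`, so it is `w ᵥ* d 0` and `fpair_vecMul` applies.
-/

namespace Pool.Agent.Lib.P9f173dW

open Z9f173d
open scoped Matrix

variable {G : Type*} [Group G] (R : FinRes G) {M : Type*} [AddCommGroup M]

/-- the `0`-cochain given by a function -/
def jm (f : G → M) : Fin (R.rank 0) → G → M := fun b => R.aug b • f

namespace PathAux

variable {R}

theorem df_eq (g : G) (f : G → M) : df g f = tr M (MonoidAlgebra.single g 1) f - f := by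
  ext x
  rw [df_apply, Pi.sub_apply, tr_single, one_smul]

theorem fpair_mem (B : AddSubgroup (G → M))
    (hB : ∀ (a : MonoidAlgebra ℤ G), ∀ f ∈ B, tr M a f ∈ B) {n : ℕ} (p : Fin n → G → M)
    (hp : ∀ i, p i ∈ B) (w : Fin n → MonoidAlgebra ℤ G) : fpair p w ∈ B :=
  AddSubgroup.sum_mem _ fun j _ => hB _ _ (hp j)

theorem sum_tr_smul {n : ℕ} (c : Fin n → ℤ) (a : Fin n → MonoidAlgebra ℤ G) (f : G → M) :
    ∑ j, tr M (a j) (c j • f) = tr M (∑ j, c j • a j) f := by
  rw [map_sum, end_sum_apply]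
  refine Finset.sum_congr rfl fun j _ => ?_
  rw [map_zsmul, map_zsmul, end_zsmul_apply]

theorem eps_sum {n : ℕ} (c : Fin n → ℤ) (a : Fin n → MonoidAlgebra ℤ G) :
    eps G (∑ j, c j • a j) = ∑ j, eps G (a j) * c j := by
  rw [map_sum]
  refine Finset.sum_congr rfl fun j _ => ?_
  rw [map_zsmul, smul_eq_mul, mul_comm]

end PathAux

open PathAux

theorem exists_path (x0 : Fin (R.rank 0) → MonoidAlgebra ℤ G) (hx0 : R.augMap x0 = 1) (g : G) :
    ∃ w, w ᵥ* R.d 0 = gs g x0 - x0 := by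
  refine (R.augMap_eq_zero_iff _).1 ?_
  rw [map_sub]
  have h : R.augMap (gs g x0) = eps G (MonoidAlgebra.single g 1) * R.augMap x0 :=
    R.augMap_smul _ _
  rw [h, hx0]
  simp [eps]

theorem df_fpair (x0 : Fin (R.rank 0) → MonoidAlgebra ℤ G) (g : G)
    (w : Fin (R.rank 1) → MonoidAlgebra ℤ G) (hw : w ᵥ* R.d 0 = gs g x0 - x0)
    (p : Fin (R.rank 0) → G → M) : df g (fpair p x0) = fpair (mact (tr M) (R.d 0) p) w := by
  rw [← fpair_vecMul, hw, fpair_sub, df_eq]
  congr 1
  exact (fpair_mul p (MonoidAlgebra.single g 1) x0).symm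

variable (B : AddSubgroup (G → M)) (hB : ∀ (a : MonoidAlgebra ℤ G), ∀ f ∈ B, tr M a f ∈ B)
include hB

theorem tr_sub_eps_mem (f : G → M) (hf : ∀ g, df g f ∈ B) (a : MonoidAlgebra ℤ G) :
    tr M a f - eps G a • f ∈ B := by
  induction a using MonoidAlgebra.induction_linear with
  | zero => simp
  | add α α' hα hα' =>
    have h3 : tr M (α + α') f - eps G (α + α') • f
        = (tr M α f - eps G α • f) + (tr M α' f - eps G α' • f) := by
      rw [map_add, map_add, end_add_apply, add_smul]; abel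
    rw [h3]
    exact AddSubgroup.add_mem _ hα hα'
  | single g z =>
    have h3 : tr M (MonoidAlgebra.single g z) f - eps G (MonoidAlgebra.single g z) • f
        = z • df g f := by
      ext x
      simp only [Pi.sub_apply, Pi.smul_apply, tr_single, df_apply]
      simp [eps, smul_sub]
    rw [h3]
    exact AddSubgroup.zsmul_mem _ (hf g) z

theorem jm_mem (f : G → M) (hf : ∀ g, df g f ∈ B) (i : Fin (R.rank 1)) :
    mact (tr M) (R.d 0) (jm R f) i ∈ B := by
  have h3 : mact (tr M) (R.d 0) (jm R f) i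
      = tr M (∑ j, R.aug j • R.d 0 i j) f - eps G (∑ j, R.aug j • R.d 0 i j) • f := by
    rw [eps_sum, R.sum_row_zero i, zero_smul, sub_zero, ← sum_tr_smul]
    rfl
  rw [h3]
  exact tr_sub_eps_mem B hB f hf _

theorem fpair_jm_sub_mem (x0 : Fin (R.rank 0) → MonoidAlgebra ℤ G) (hx0 : R.augMap x0 = 1)
    (f : G → M) (hf : ∀ g, df g f ∈ B) : fpair (jm R f) x0 - f ∈ B := by
  have h3 : fpair (jm R f) x0 - f
      = tr M (∑ j, R.aug j • x0 j) f - eps G (∑ j, R.aug j • x0 j) • f := by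
    rw [eps_sum, ← R.augMap_apply, hx0, one_smul, ← sum_tr_smul]
    rfl
  rw [h3]
  exact tr_sub_eps_mem B hB f hf _

theorem df_mem (x0 : Fin (R.rank 0) → MonoidAlgebra ℤ G) (hx0 : R.augMap x0 = 1)
    (p : Fin (R.rank 0) → G → M) (hp : ∀ i, mact (tr M) (R.d 0) p i ∈ B) (g : G) :
    df g (fpair p x0) ∈ B := by
  obtain ⟨w, hw⟩ := exists_path R x0 hx0 g
  rw [df_fpair R x0 g w hw p]
  exact fpair_mem B hB _ hp w

theorem sub_aug_mem (x0 : Fin (R.rank 0) → MonoidAlgebra ℤ G) (hx0 : R.augMap x0 = 1)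
    (p : Fin (R.rank 0) → G → M) (hp : ∀ i, mact (tr M) (R.d 0) p i ∈ B) (b : Fin (R.rank 0)) :
    p b - R.aug b • fpair p x0 ∈ B := by
  obtain ⟨w, hw⟩ := (R.augMap_eq_zero_iff (sv b 1 - R.aug b • x0)).1 (by
    rw [map_sub, map_zsmul, hx0, R.augMap_sv]
    simp)
  have h : p b - R.aug b • fpair p x0 = fpair (mact (tr M) (R.d 0) p) w := by
    rw [← fpair_vecMul, hw, fpair_sub, fpair_zsmul, fpair_sv]
  rw [h]
  exact fpair_mem B hB _ hp w

end Pool.Agent.Lib.P9f173dW
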