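import Pool.Agent.Lib.P9f173dW.Sub
import Pool.Agent.Lib.P9f173dW.Path

/-!
# Module AmenBr: almost invariant sets of amenable subgroups

If `R` is acyclic in degrees `0, 1, 2`, `C` is amenable and `A` is `C`-almost invariant then the
connecting map of `A` vanishes on cocycles.

PROOF.  Let `f : G → ℤ` be the indicator of `A` (right `C`-invariant).  `a = mact (tr ℤ) (R.d 0)
(fun b => aug b • f)` is entrywise in `Z9f173d.IL C` (right invariant and supported in finitely many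
cosets): `a_i x = ∑_b ∑_g d_{ib}(g) aug b f (g⁻¹ x)`, and `∑_b ∑_g d_{ib}(g) aug b = 0`, so `a_i x = 0` unless
`f (g⁻¹ x) ≠ f x` for some `g` in the finite support of row `i`: finitely many cosets by `AI.fin`.
`mact (tr ℤ) (R.d 1) a = 0`.  By `Z9f173d.deg1 C hC R h0 h1 h2 a ..` there is `c`, entrywise in `IL C`, with
`mact (tr ℤ) (R.d 0) c = a`; by `const_of_cocycle` `aug b * f x - c_b x = aug b * κ`.  Choose `b` with
`aug b ≠ 0` (`exists_aug_ne`).  For `x` outside the finitely many cosets where `c_b ≠ 0`, `f x = κ`.  So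
there is a finite set `F` with: all `x ∈ A` are in `⋃_{f ∈ F} f C`, or all `x ∉ A` are (if `κ ≠ 1`: all
`x` with `f x = 1`; if `κ = 1`: all `x` with `f x = 0`).
In the first case `A.indicator (y_j)` is in `LC C ℤ` and supported in finitely many cosets, so square
summable (`sq_of_cosets`), i.e. finitely supported (`SQ.finite`): take `z = A.indicator y`.  In the second
case take `z = - Aᶜ.indicator y`: `A.indicator y = y - Aᶜ.indicator y` and `mact (R.d 2) y = 0`.
-/

namespace Pool.Agent.Lib.P9f173dW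

open Z9f173d

namespace AmenBrAux

section
variable {G : Type*} [Group G]

/-- right invariant functions supported in finitely many cosets -/
def BF (C : Subgroup G) : AddSubgroup (G → ℤ) where
  carrier := {n | (∀ (x : G) (k : C), n (x * k) = n x) ∧
    ∃ F : Finset G, ∀ x, n x ≠ 0 → ∃ a ∈ F, a⁻¹ * x ∈ C}
  zero_mem' := ⟨fun _ _ => rfl, ∅, fun x hx => absurd rfl hx⟩
  add_mem' := by
    classical
    rintro n m ⟨h1, F, hF⟩ ⟨h2, F', hF'⟩
    refine ⟨fun x k => by rw [Pi.add_apply, Pi.add_apply, h1, h2], F ∪ F', fun x hx => ?_⟩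
    by_cases h3 : n x = 0
    · have h4 : m x ≠ 0 := by
        intro h5
        apply hx
        rw [Pi.add_apply, h3, h5, add_zero]
      obtain ⟨a, ha, h5⟩ := hF' x h4
      exact ⟨a, Finset.mem_union_right _ ha, h5⟩
    · obtain ⟨a, ha, h5⟩ := hF x h3
      exact ⟨a, Finset.mem_union_left _ ha, h5⟩
  neg_mem' := by
    rintro n ⟨h1, F, hF⟩
    refine ⟨fun x k => by rw [Pi.neg_apply, Pi.neg_apply, h1], F, fun x hx => hF x ?_⟩
    intro h
    apply hx
    rw [Pi.neg_apply, h, neg_zero]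

theorem tr_mem_BF {C : Subgroup G} (a : MonoidAlgebra ℤ G) {f : G → ℤ} (hf : f ∈ BF C) :
    tr ℤ a f ∈ BF C := by
  classical
  refine tr_mem_of (BF C) ?_ a hf
  rintro g n ⟨h1, F, hF⟩
  refine ⟨fun x k => by
    change n (g⁻¹ * (x * k)) = n (g⁻¹ * x)
    rw [← mul_assoc, h1], F.image (fun a => g * a), fun x hx => ?_⟩
  obtain ⟨a, ha, h2⟩ := hF _ hx
  refine ⟨g * a, Finset.mem_image_of_mem _ ha, ?_⟩
  have : (g * a)⁻¹ * x = a⁻¹ * (g⁻¹ * x) := by group
  rw [this]
  exact h2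

theorem BF_IL {C : Subgroup G} {n : G → ℤ} (h : n ∈ BF C) : IL C n := by
  classical
  obtain ⟨h1, F, hF⟩ := h
  refine ⟨h1, (F.finite_toSet.image (fun a : G => (a : G ⧸ C))).subset ?_⟩
  intro c hc
  obtain ⟨a, ha, h2⟩ := hF _ hc
  refine ⟨a, ha, ?_⟩
  have h3 : (a : G ⧸ C) = ((Quotient.out c : G) : G ⧸ C) := QuotientGroup.eq.2 h2
  exact h3.trans (QuotientGroup.out_eq' c)

theorem IL_cosets {C : Subgroup G} {n : G → ℤ} (h : IL C n) :
    ∃ F : Finset G, ∀ x, n x ≠ 0 → ∃ a ∈ F, a⁻¹ * x ∈ C := by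
  classical
  refine ⟨h.2.toFinset.image Quotient.out, fun x hx => ?_⟩
  have h1 : ((Quotient.out (x : G ⧸ C) : G) : G ⧸ C) = (x : G ⧸ C) := QuotientGroup.out_eq' _
  have h2 : (Quotient.out (x : G ⧸ C) : G)⁻¹ * x ∈ C := QuotientGroup.eq.1 h1
  refine ⟨Quotient.out (x : G ⧸ C), Finset.mem_image_of_mem _ ?_, h2⟩
  rw [Set.Finite.mem_toFinset]
  change n (Quotient.out (x : G ⧸ C)) ≠ 0
  have h3 := h.1 (Quotient.out (x : G ⧸ C)) ⟨_, h2⟩
  simp only [mul_inv_cancel_left] at h3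
  rw [← h3]
  exact hx

end

end AmenBrAux

open AmenBrAux

theorem amen_branch {G : Type*} [Group G] (R : FinRes G)
    (h0 : ¬ Nontrivial (R.homology 0)) (h1 : ¬ Nontrivial (R.homology 1))
    (h2 : ¬ Nontrivial (R.homology 2)) (C : Subgroup G) (hC : FoelnerAmenable C) (A : Set G)
    (hA : AI C A) (y : Fin (R.rank 2) → G → ℤ) (hy : ∀ j, y j ∈ LC C ℤ)
    (hyc : mact (tr ℤ) (R.d 2) y = 0) :
    ∃ z : Fin (R.rank 2) → G → ℤ, (∀ j, (Function.support (z j)).Finite) ∧
      mact (tr ℤ) (R.d 2) z = mact (tr ℤ) (R.d 2) fun j => A.indicator (y j) := by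
  classical
  obtain ⟨f, hfdef⟩ : ∃ f : G → ℤ, f = A.indicator (fun _ => 1) := ⟨_, rfl⟩
  have hf1 : ∀ x, x ∈ A → f x = 1 := fun x hx => by rw [hfdef, Set.indicator_of_mem hx]
  have hf0 : ∀ x, x ∉ A → f x = 0 := fun x hx => by rw [hfdef, Set.indicator_of_notMem hx]
  have hfinv : ∀ (x : G) (k : C), f (x * k) = f x := fun x k => by
    by_cases hx : x ∈ A
    · rw [hf1 x hx, hf1 _ ((hA.inv x k).2 hx)]
    · rw [hf0 x hx, hf0 _ (fun h => hx ((hA.inv x k).1 h))]
  have hdf : ∀ g, df g f ∈ BF C := by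
    intro g
    obtain ⟨F, hF⟩ := hA.fin g⁻¹
    refine ⟨fun x k => ?_, F, fun x hx => hF x fun h => hx ?_⟩
    · rw [df_apply, df_apply, ← mul_assoc, hfinv, hfinv]
    · rw [df_apply]
      by_cases h5 : x ∈ A
      · rw [hf1 x h5, hf1 _ (h.2 h5), sub_self]
      · rw [hf0 x h5, hf0 _ (fun h' => h5 (h.1 h')), sub_self]
  obtain ⟨a, hadef⟩ : ∃ a : Fin (R.rank 1) → G → ℤ, a = mact (tr ℤ) (R.d 0) (jm R f) := ⟨_, rfl⟩
  have ha : ∀ i, IL C (a i) := fun i => by
    rw [hadef]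
    exact BF_IL (jm_mem R (BF C) (fun a f hf => tr_mem_BF a hf) f hdf i)
  have hda : mact (tr ℤ) (R.d 1) a = 0 := by
    rw [hadef, ← mact_mul, R.d_mul_d 0, mact_zero]
  obtain ⟨c, hcIL, hc⟩ := deg1 C hC R h0 h1 h2 a ha hda
  obtain ⟨κ, hκ⟩ := R.const_of_cocycle (jm R f - c) (by rw [map_sub, hc, hadef, sub_self])
  obtain ⟨j, hj⟩ := exists_aug_ne R
  obtain ⟨F, hF⟩ := IL_cosets (hcIL j)
  have hkey : ∀ x, f x ≠ κ → ∃ a ∈ F, a⁻¹ * x ∈ C := by
    intro x hx
    refine hF x fun h => hx ?_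
    have h3 := hκ j x
    simp only [jm, Pi.sub_apply, Pi.smul_apply, smul_eq_mul, h, sub_zero] at h3
    exact mul_left_cancel₀ hj h3
  by_cases hκ1 : κ = 1
  · have hfin : ∀ j, (Function.support (-(Aᶜ.indicator (y j)))).Finite := fun j => by
      refine SQ.finite (SQ.neg ?_)
      refine sq_of_cosets F _ (indicator_mem_LC (hy j)) fun x hx => hkey x ?_
      have hxA : x ∈ Aᶜ := by
        by_contra hcon
        exact hx (Set.indicator_of_notMem hcon _)
      rw [hf0 x hxA, hκ1]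
      norm_num
    refine ⟨fun j => -(Aᶜ.indicator (y j)), hfin, ?_⟩
    have h3 : (fun j => A.indicator (y j)) = y + fun j => -(Aᶜ.indicator (y j)) := by
      ext j x
      have h4 := congrFun (Set.indicator_compl_add_self A (y j)) x
      simp only [Pi.add_apply, Pi.neg_apply] at h4 ⊢
      linarith
    rw [h3, map_add, hyc, zero_add]
  · refine ⟨fun j => A.indicator (y j), fun j => ?_, rfl⟩
    refine SQ.finite ?_
    refine sq_of_cosets F _ (indicator_mem_LC (hy j)) fun x hx => hkey x ?_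
    have hxA : x ∈ A := by
      by_contra hcon
      exact hx (Set.indicator_of_notMem hcon _)
    rw [hf1 x hxA]
    exact fun h => hκ1 h.symm

end Pool.Agent.Lib.P9f173dW
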