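import Pool.Agent.Lib.P9f173dW.Deg1

/-!
# Module Cap: the spaces `Dres C A`

PROOFS.
* `dc_of_mem_Dres` : `df c α x = df c f x` for `x ∈ C`, `df c f ∈ LC`, at the coset of `1`.
* `sq_mem_Dres` : `f = extC C 1 (ofSQ α)` is square summable on `G`, so are its translates, and
  `SQG_le_BA`.
* `const_mem_Dres` : the differences of a constant are `0`.  `conj_mem_Dres` : conjugate `f`.
* `glue` : let `df g f ∈ BA C A M'`, `df g f' ∈ BA C Aᶜ M'` (`M' = ℂ`), and `f - f'` square summable on
  the coset `C`.  Then `F = f` on `A`, `f'` on `Aᶜ` has square summable differences: for `x ∈ A`,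
  `g⁻¹ x ∈ A`: `df g F x = df g f x`, square summable on `A`; for `x ∉ A`, `g⁻¹ x ∉ A` the same with `f'`.
  The remaining `x` are in finitely many cosets `a C` (`AI.fin`), and on them
  `F (g⁻¹ a c) - F (a c)` is `±` a difference of `f'` and `f` plus differences:
  `f' (g⁻¹ a c) - f (a c) = [f' (k⁻¹ c) - f' c] + [f' c - f c] + [f c - f (a c)]`, `k = (g⁻¹ a)⁻¹`, where
  `f' (k⁻¹ c) - f' c = df k f' c` is square summable in `c` (`df k f' ∈ LC`), `f c - f (a c) =
  - df a⁻¹ f c` too.  A clean way: show that `df g F ∈ LC C ℂ` (on every coset `x C` one has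
  `F (x c) = f c + square summable` or `f' c + square summable`, hence always
  `f c + square summable`), that `df g F - A.indicator (df g f) - Aᶜ.indicator (df g f')` is in `LC` and
  vanishes outside the finitely many cosets, and use `sq_of_cosets`.
* `cap` : `F` as in `glue` for the two extensions `f`, `f'` of `α` (they agree on `C`); `deg1` gives
  `F = k + ` square summable; restricted to `C`, `F = α`.
-/

namespace Pool.Agent.Lib.P9f173dW

open Z9f173d
open scoped ComplexConjugate

variable {G : Type*} [Group G] {C : Subgroup G} {A : Set G}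

theorem dc_of_mem_Dres {α : C → ℂ} (hα : α ∈ Dres C A) : DC α := by
  obtain ⟨f, hf, hfα⟩ := hα
  intro g
  have h := (hf (g : G)).1 1
  have e : (fun c : C => df (g : G) f (1 * (c : G))) = df g α := by
    funext c
    have h1 := hfα (g⁻¹ * c)
    simp only [Subgroup.coe_mul, Subgroup.coe_inv] at h1
    simp only [df_apply, one_mul, h1, hfα]
  rw [e] at h
  exact h

theorem sq_mem_Dres {α : C → ℂ} (hα : SQ α) : α ∈ Dres C A := by
  classical
  have hf : SQ (fun x : G => if h : x ∈ C then α ⟨x, h⟩ else 0) := by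
    have hinj : Function.Injective (fun c : C => (c : G)) := Subtype.val_injective
    refine (hinj.summable_iff ?_).mp ?_
    · intro x hx
      have hx' : x ∉ C := fun h => hx ⟨⟨x, h⟩, rfl⟩
      simp [hx']
    · have e : ((fun x : G => ‖(if h : x ∈ C then α ⟨x, h⟩ else 0 : ℂ)‖ ^ 2) ∘
          fun c : C => (c : G)) = fun c : C => ‖α c‖ ^ 2 := by
        funext c
        simp
      rw [e]
      exact hα
  refine ⟨fun x : G => if h : x ∈ C then α ⟨x, h⟩ else 0, fun g => SQG_le_BA ?_, fun c => ?_⟩
  · have h1 : SQ (fun x : G => (fun x : G => if h : x ∈ C then α ⟨x, h⟩ else 0) (g⁻¹ * x)) :=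
      SQ.comp hf (i := fun x : G => g⁻¹ * x) (mul_right_injective g⁻¹)
    exact h1.sub hf
  · simp

theorem const_mem_Dres (k : ℂ) : (fun _ : C => k) ∈ Dres C A := by
  refine ⟨fun _ => k, fun g => ?_, fun _ => rfl⟩
  have : df g (fun _ : G => k) = 0 := by
    funext x
    simp
  rw [this]
  exact AddSubgroup.zero_mem _

theorem conj_mem_Dres {α : C → ℂ} (hα : α ∈ Dres C A) : (fun x => conj (α x)) ∈ Dres C A := by
  obtain ⟨f, hf, hfα⟩ := hα
  refine ⟨fun x => conj (f x), fun g => ?_, fun c => by simp only [hfα]⟩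
  have hn : ∀ x, ‖df g (fun x => conj (f x)) x‖ = ‖df g f x‖ := fun x => by
    rw [df_apply, df_apply, ← map_sub]
    exact Complex.norm_conj _
  refine ⟨fun x => ((hf g).1 x).mono 1 fun c => ?_, (hf g).2.mono 1 fun x => ?_⟩
  · rw [hn, one_mul]
  · rw [one_mul]
    by_cases hx : x ∈ A
    · rw [Set.indicator_of_mem hx, Set.indicator_of_mem hx, hn]
    · rw [Set.indicator_of_notMem hx, Set.indicator_of_notMem hx]

open scoped Classical in
theorem sq_df_glue {M : Type*} [NormedAddCommGroup M] (hA : AI C A) (f f' : G → M)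
    (hf : ∀ g, df g f ∈ BA C A M) (hf' : ∀ g, df g f' ∈ BA C Aᶜ M)
    (h : SQ fun c : C => f c - f' c) (g : G) :
    SQ (df g fun x => if x ∈ A then f x else f' x) := by
  set F : G → M := fun x => if x ∈ A then f x else f' x with hF
  have hFA : ∀ x, x ∈ A → F x = f x := fun x hx => by simp [hF, hx]
  have hFA' : ∀ x, x ∉ A → F x = f' x := fun x hx => by simp [hF, hx]
  have key : ∀ y : G, SQ fun c : C => F (y * c) - f c := by
    intro y
    by_cases hy : y ∈ A
    · have h1 := (hf y⁻¹).1 1
      have e : (fun c : C => F (y * c) - f c) = fun c : C => df y⁻¹ f (1 * (c : G)) := by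
        funext c
        rw [hFA _ ((hA.inv y c).mpr hy)]
        simp
      rw [e]
      exact h1
    · have h1 := (hf' y⁻¹).1 1
      have e : (fun c : C => F (y * c) - f c) = (fun c : C => df y⁻¹ f' (1 * (c : G))) -
          fun c : C => f c - f' c := by
        funext c
        rw [hFA' _ (fun hc => hy ((hA.inv y c).mp hc))]
        simp
      rw [e]
      exact h1.sub h
  have hLC : df g F ∈ LC C M := by
    intro x
    have h1 := (key (g⁻¹ * x)).sub (key x)
    have e : (fun c : C => df g F (x * c)) = (fun c : C => F (g⁻¹ * x * c) - f c) -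
        fun c : C => F (x * c) - f c := by
      funext c
      simp [mul_assoc]
    rw [e]
    exact h1
  have hsub : df g F - (A.indicator (df g f) + Aᶜ.indicator (df g f')) ∈ LC C M :=
    AddSubgroup.sub_mem _ hLC (AddSubgroup.add_mem _ (indicator_mem_LC (hf g).1)
      (indicator_mem_LC (hf' g).1))
  obtain ⟨T, hT⟩ := hA.fin g⁻¹
  have h1 : SQ (df g F - (A.indicator (df g f) + Aᶜ.indicator (df g f'))) := by
    refine sq_of_cosets T _ hsub fun x hx => hT x fun hiff => hx ?_
    by_cases hxA : x ∈ A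
    · have h2 : g⁻¹ * x ∈ A := hiff.mpr hxA
      have h3 : x ∉ Aᶜ := fun h' => h' hxA
      rw [Pi.sub_apply, Pi.add_apply, Set.indicator_of_mem hxA, Set.indicator_of_notMem h3,
        df_apply, df_apply, hFA _ hxA, hFA _ h2]
      simp
    · have h2 : g⁻¹ * x ∉ A := fun h' => hxA (hiff.mp h')
      have h3 : x ∈ Aᶜ := hxA
      rw [Pi.sub_apply, Pi.add_apply, Set.indicator_of_notMem hxA, Set.indicator_of_mem h3,
        df_apply, df_apply, hFA' _ hxA, hFA' _ h2]
      simp
  have h2 := h1.add ((hf g).2.add (hf' g).2)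
  rwa [sub_add_cancel] at h2

theorem cap (R : FinRes G) (h0 : ¬ Nontrivial (R.homology 0))
    (h1 : ¬ Nontrivial (R.homology 1)) (h2 : ¬ Nontrivial (R.homology 2)) (hA : AI C A)
    {α : C → ℂ} (hα : α ∈ Dres C A) (hα' : α ∈ Dres C Aᶜ) : ∃ k : ℂ, SQ fun x => α x - k := by
  classical
  obtain ⟨f, hf, hfα⟩ := hα
  obtain ⟨f', hf', hfα'⟩ := hα'
  have h : SQ fun c : C => f c - f' c := by
    have e : (fun c : C => f c - f' c) = 0 := by
      funext c
      simp [hfα, hfα']
    rw [e]
    exact SQ.zero
  obtain ⟨k, hk⟩ := deg1 R h0 h1 h2 _ (sq_df_glue hA f f' hf hf' h)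
  refine ⟨k, ?_⟩
  have h3 := SQ.comp hk (i := fun c : C => (c : G)) Subtype.val_injective
  have e : (fun c : C => (fun x : G => (if x ∈ A then f x else f' x) - k) (c : G)) =
      fun c : C => α c - k := by
    funext c
    by_cases hc : (c : G) ∈ A
    · simp [hc, hfα]
    · simp [hc, hfα']
  rw [e] at h3
  exact h3

end Pool.Agent.Lib.P9f173dW
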