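import Pool.Agent.Lib.P9f173dW.Defs

/-!
# Module Circ: circle valued functions, additively and multiplicatively

`UnitAddCircle = ℝ/ℤ` with its norm (distance to `0`), `AddCircle.toCircle t = exp (2πi t)`.

PROOFS.  `Z9f173d.rep t ∈ [-1/2, 1/2]` is a real representative (`Core1.lean`: `rep_coe`, `rep_abs`,
`rep_le : |rep t| ≤ 1/4 * ‖toCircle t - 1‖`, `circ_le : ‖toCircle r - 1‖ ≤ 2π |r|`), and
`‖t‖ = |rep t|`: `‖t‖ ≤ |rep t|` is `QuotientAddGroup.norm_mk_le_norm`, and equality holds by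
`AddCircle.norm_eq`/`AddCircle.norm_coe_eq_abs_iff` (for `|r| ≤ 1/2`).
* `norm_le_circ` : `‖t‖ ≤ 1/4 * ‖toCircle t - 1‖`.
* `circ_le_norm` : `‖toCircle t - 1‖ ≤ 2π ‖t‖` (apply `circ_le` to `rep t`).
* `norm_sub_le_circ` : with `toCircle (s - t) = toCircle s / toCircle t`, of norm one.
* `exists_log` : `AddCircle.homeomorphCircle`/`AddCircle.toCircle` is onto the circle.
* `exists_small_lift` : take `rep`.
-/

namespace Pool.Agent.Lib.P9f173dW

open Z9f173d

namespace CircAux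

theorem norm_rep (t : UnitAddCircle) : ‖t‖ = |rep t| := by
  conv_lhs => rw [← rep_coe t]
  rw [(AddCircle.norm_coe_eq_abs_iff (1 : ℝ) one_ne_zero).2]
  rw [abs_one]
  exact rep_abs t

theorem norm_sub_circ (s t : UnitAddCircle) :
    ‖(AddCircle.toCircle s : ℂ) - (AddCircle.toCircle t : ℂ)‖ =
      ‖(AddCircle.toCircle (s - t) : ℂ) - 1‖ := by
  have h : (AddCircle.toCircle s : ℂ) =
      (AddCircle.toCircle (s - t) : ℂ) * (AddCircle.toCircle t : ℂ) := by
    rw [← Circle.coe_mul, ← AddCircle.toCircle_add, sub_add_cancel]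
  rw [h, ← sub_one_mul, norm_mul, Circle.norm_coe, mul_one]

end CircAux

open CircAux

theorem norm_sub_le_circ (s t : UnitAddCircle) :
    ‖s - t‖ ≤ ‖(AddCircle.toCircle s : ℂ) - (AddCircle.toCircle t : ℂ)‖ := by
  rw [norm_sub_circ, norm_rep]
  have h := rep_le (s - t)
  have h2 := norm_nonneg ((AddCircle.toCircle (s - t) : ℂ) - 1)
  linarith

theorem circ_le_norm_sub (s t : UnitAddCircle) :
    ‖(AddCircle.toCircle s : ℂ) - (AddCircle.toCircle t : ℂ)‖ ≤ 2 * Real.pi * ‖s - t‖ := by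
  rw [norm_sub_circ, norm_rep]
  have h := circ_le (rep (s - t))
  rwa [rep_coe] at h

theorem exists_log {X : Type*} (U : X → ℂ) (hU : ∀ x, ‖U x‖ = 1) :
    ∃ u : X → UnitAddCircle, ∀ x, (AddCircle.toCircle (u x) : ℂ) = U x := by
  have h : ∀ x, ∃ t : UnitAddCircle, (AddCircle.toCircle t : ℂ) = U x := by
    intro x
    have h1 : U x ∈ Submonoid.unitSphere ℂ := by
      change U x ∈ Metric.sphere (0 : ℂ) 1
      rw [mem_sphere_zero_iff_norm]
      exact hU x
    obtain ⟨t, ht⟩ := (AddCircle.homeomorphCircle (T := 1) one_ne_zero).surjective ⟨U x, h1⟩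
    refine ⟨t, ?_⟩
    rw [AddCircle.homeomorphCircle_apply] at ht
    rw [ht]
  choose u hu using h
  exact ⟨u, hu⟩

theorem exists_small_lift {X : Type*} (t : X → UnitAddCircle) :
    ∃ r : X → ℝ, (∀ x, (r x : UnitAddCircle) = t x) ∧ ∀ x, |r x| = ‖t x‖ := by
  exact ⟨fun x => rep (t x), fun x => rep_coe _, fun x => (norm_rep _).symm⟩

end Pool.Agent.Lib.P9f173dW
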