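import Pool.Agent.Lib.P9f173dW.Defs

/-!
# Comparison of a resolution over `G`, restricted to a subgroup, with a resolution over the subgroup
-/

namespace Pool.Agent.Lib.P9f173dW

open Z9f173d
open scoped Matrix

/-- Chain maps between the resolution `R` (over `G`) and the resolution `S` (over the subgroup
`H`), equivariant for `H`, and a homotopy between the identity of `R` and their composition. -/
structure Cmp {G : Type*} [Group G] (H : Subgroup G) (R : FinRes G) (S : FinRes H) where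
  /-- the map to `S` -/
  Φ : ∀ i, (Fin (R.rank i) → MonoidAlgebra ℤ G) →+ (Fin (S.rank i) → MonoidAlgebra ℤ H)
  /-- the map to `R` -/
  Ψ : ∀ i, (Fin (S.rank i) → MonoidAlgebra ℤ H) →+ (Fin (R.rank i) → MonoidAlgebra ℤ G)
  /-- the homotopy -/
  K : ∀ i, (Fin (R.rank i) → MonoidAlgebra ℤ G) →+ (Fin (R.rank (i + 1)) → MonoidAlgebra ℤ G)
  Φ_gs : ∀ i (h : H) v, Φ i (gs (h : G) v) = gs h (Φ i v)
  Ψ_gs : ∀ i (h : H) v, Ψ i (gs h v) = gs (h : G) (Ψ i v)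
  K_gs : ∀ i (h : H) v, K i (gs (h : G) v) = gs (h : G) (K i v)
  Φ_d : ∀ i v, Φ i (v ᵥ* R.d i) = Φ (i + 1) v ᵥ* S.d i
  Ψ_d : ∀ i v, Ψ i (v ᵥ* S.d i) = Ψ (i + 1) v ᵥ* R.d i
  K_zero : ∀ v, v - Ψ 0 (Φ 0 v) = K 0 v ᵥ* R.d 0
  K_succ : ∀ i v, v - Ψ (i + 1) (Φ (i + 1) v) = K (i + 1) v ᵥ* R.d (i + 1) + K i (v ᵥ* R.d i)

end Pool.Agent.Lib.P9f173dW
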