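import Pool.Agent.Lib.P9f173dW.Defs

/-!
# Module Proj: `ℤ[G]^n` is projective over a subgroup

`ι : H → G` an injective homomorphism, `M`, `N` abelian groups with actions of `H`, `π : M → N`
equivariant, `θ : ℤ[G]^n → N` additive and equivariant with values in the range of `π`.  Then `θ`
lifts to an additive equivariant map `θ' : ℤ[G]^n → M`.

PROOF.  `ℤ[G]^n` is the free abelian group on the `e(j, x) := sv j (single x 1)`, `j : Fin n`, `x : G`, and
`gs (ι h) (e(j, x)) = e(j, ι h * x)`.  Choose representatives: `r : G → G`, `r x` in the right coset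
`(range ι) x`, `r (ι h * x) = r x` (e.g. `Quotient.out` for the orbit relation of the left action of `range ι`,
or `QuotientGroup.rightRel`), and `t : G → H` with `x = ι (t x) * r x`; by injectivity
`t (ι h * x) = h * t x`.  For each `(j, x)` choose `m(j, x) ∈ M` with `π m(j, x) = θ (e(j, x))` and put
`θ' (e(j, x)) := aM (t x) (m(j, r x))`.  Extend additively: `θ' v = ∑_j (v j).coeff.sum fun x z => z • ..`
(an additive map `(Fin n → MonoidAlgebra ℤ G) →+ M` is determined by, and can be prescribed on, the
`e(j, x)`; `Finsupp.liftAddHom`, or sums of `AddMonoidHom`s as in `Z9f173d.pair`).  Then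
`θ' (gs (ι h) e(j, x)) = aM (t (ι h x)) m(j, r x) = aM h (θ' e(j, x))` and
`π (θ' e(j, x)) = aN (t x) (θ e(j, r x)) = θ (gs (ι (t x)) e(j, r x)) = θ (e(j, x))`; both identities
extend to all `v` by additivity.
-/

namespace Pool.Agent.Lib.P9f173dW

open Z9f173d

/-- Additive maps agreeing on the basis vectors are equal. -/
theorem addHom_ext {G : Type*} [Group G] {n : ℕ} {M : Type*} [AddCommGroup M]
    {θ θ' : (Fin n → MonoidAlgebra ℤ G) →+ M}
    (h : ∀ j x, θ (sv j (MonoidAlgebra.single x 1)) = θ' (sv j (MonoidAlgebra.single x 1))) :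
    θ = θ' := by
  have hadd : ∀ (j : Fin n) (a b : MonoidAlgebra ℤ G), sv j (a + b) = sv j a + sv j b := by
    intro j a b
    simp [sv, Pi.single_add]
  have h1 : ∀ (j : Fin n) (a : MonoidAlgebra ℤ G), θ (sv j a) = θ' (sv j a) := by
    intro j a
    induction a using MonoidAlgebra.induction_linear with
    | zero => simp [sv]
    | add a b ha hb => rw [hadd, map_add, map_add, ha, hb]
    | single g z =>
      have : sv j (MonoidAlgebra.single g z : MonoidAlgebra ℤ G)
          = z • sv (n := n) j (MonoidAlgebra.single g 1 : MonoidAlgebra ℤ G) := by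
        ext i x
        by_cases hij : i = j
        · subst hij; simp [sv]
        · simp [sv, hij]
      rw [this, map_zsmul, map_zsmul, h]
  refine AddMonoidHom.ext fun v => ?_
  have hv : v = ∑ j, sv j (v j) := by
    ext1 i
    rw [Finset.sum_apply, Finset.sum_eq_single i]
    · simp [sv]
    · intro b _ hb
      simp [sv, Ne.symm hb]
    · simp
  rw [hv, map_sum, map_sum]
  exact Finset.sum_congr rfl fun j _ => h1 j _

/-- Additive maps can be prescribed on the basis vectors. -/
theorem exists_addHom {G : Type*} [Group G] {n : ℕ} {M : Type*} [AddCommGroup M] (f : Fin n → G → M) :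
    ∃ θ : (Fin n → MonoidAlgebra ℤ G) →+ M,
      ∀ j x, θ (sv j (MonoidAlgebra.single x 1)) = f j x := by
  refine ⟨pair fun j x => f j x⁻¹, fun j x => ?_⟩
  have h := pair_sv_single (fun j x => f j x⁻¹) j x⁻¹
  simpa using h

theorem proj {G H : Type*} [Group G] [Group H] (ι : H →* G) (hι : Function.Injective ι) {n : ℕ}
    {M N : Type*} [AddCommGroup M] [AddCommGroup N] (aM : H →* AddMonoid.End M)
    (aN : H →* AddMonoid.End N) (π : M →+ N) (hπ : ∀ h m, π (aM h m) = aN h (π m))
    (θ : (Fin n → MonoidAlgebra ℤ G) →+ N) (hθ : ∀ h v, θ (gs (ι h) v) = aN h (θ v))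
    (hr : ∀ v, ∃ m, π m = θ v) :
    ∃ θ' : (Fin n → MonoidAlgebra ℤ G) →+ M, (∀ h v, θ' (gs (ι h) v) = aM h (θ' v)) ∧
      ∀ v, π (θ' v) = θ v := by
  classical
  -- representatives of the right cosets
  let S : Setoid G :=
    { r := fun x y => ∃ h, ι h * x = y
      iseqv :=
        { refl := fun x => ⟨1, by simp⟩
          symm := by
            rintro x y ⟨h, rfl⟩
            exact ⟨h⁻¹, by simp [map_inv]⟩
          trans := by
            rintro x y z ⟨h, rfl⟩ ⟨k, rfl⟩
            exact ⟨k * h, by simp [map_mul, mul_assoc]⟩ } }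
  let r : G → G := fun x => (Quotient.mk S x).out
  have hr1 : ∀ x, ∃ h, ι h * r x = x := fun x => Quotient.mk_out (s := S) x
  choose t ht using hr1
  have hr2 : ∀ h x, r (ι h * x) = r x := by
    intro h x
    have : Quotient.mk S (ι h * x) = Quotient.mk S x :=
      Quotient.sound (s := S) (Setoid.symm' S ⟨h, rfl⟩)
    simp only [r, this]
  have ht2 : ∀ h x, t (ι h * x) = h * t x := by
    intro h x
    apply hι
    have h1 := ht (ι h * x)
    rw [hr2] at h1
    rw [map_mul]
    apply mul_right_cancel (b := r x)
    rw [h1, mul_assoc, ht]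
  choose m hm using hr
  obtain ⟨θ', hθ'⟩ := exists_addHom (G := G) (n := n)
    fun j x => aM (t x) (m (sv j (MonoidAlgebra.single (r x) 1)))
  have hgs : ∀ (g : G) (j : Fin n) (x : G),
      gs g (sv j (MonoidAlgebra.single x 1 : MonoidAlgebra ℤ G))
        = sv j (MonoidAlgebra.single (g * x) 1) := by
    intro g j x
    ext1 i
    by_cases hij : i = j
    · subst hij
      simp [gs, sv]
    · simp [gs, sv, hij]
  refine ⟨θ', fun h v => ?_, fun v => ?_⟩
  · let g1 : (Fin n → MonoidAlgebra ℤ G) →+ M :=
      { toFun := fun v => θ' (gs (ι h) v)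
        map_zero' := by
          have h0 : gs (ι h) (0 : Fin n → MonoidAlgebra ℤ G) = 0 := by
            ext1 i
            show MonoidAlgebra.single (ι h) 1 * (0 : MonoidAlgebra ℤ G) = 0
            rw [mul_zero]
          rw [h0, map_zero]
        map_add' := fun v w => by
          rw [← map_add]
          congr 1
          ext1 i
          simp [gs, mul_add] }
    let g2 : (Fin n → MonoidAlgebra ℤ G) →+ M := (aM h : M →+ M).comp θ'
    have : g1 = g2 := by
      apply addHom_ext
      intro j x
      show θ' (gs (ι h) _) = aM h (θ' _)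
      rw [hgs, hθ', hθ', hr2, ht2, map_mul]
      rfl
    exact DFunLike.congr_fun this v
  · have : π.comp θ' = θ := by
      apply addHom_ext
      intro j x
      show π (θ' _) = θ _
      rw [hθ', hπ, hm, ← hθ, hgs, ht]
    exact DFunLike.congr_fun this v

end Pool.Agent.Lib.P9f173dW
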