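import Pool.Agent.Lib.P9f173dW.CmpDef
import Pool.Agent.Lib.P9f173dW.Proj

/-!
# Module CmpEx: existence of comparison data

PROOF.  Standard: comparison theorem for projective resolutions, with `proj` for `ι = H.subtype` (lifts from
`R_i`) and for `ι = MonoidHom.id H` (lifts from `S_i`).  Actions: `gs` as a homomorphism to
`AddMonoid.End` (`gs 1 = id`, `gs (g h) = gs g ∘ gs h`, additive); `gs g (v ᵥ* D) = gs g v ᵥ* D`;
`R.augMap (gs g v) = R.augMap v` (`augMap_smul`).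
(1) `Φ`: `Φ 0` lifts `R.augMap : R_0 → ℤ` (trivial action on `ℤ`) through `S.augMap : S_0 → ℤ`, which is
onto (`S.exists_x`: multiples of `x`).  Given `Φ i` with `Φ i` compatible (for `i = 0`:
`S.augMap ∘ Φ 0 = R.augMap`; for `i ≥ 1`: `Φ (i-1) (v ᵥ* R.d (i-1)) = Φ i v ᵥ* S.d (i-1)`), the map
`θ v = Φ i (v ᵥ* R.d i)` has values in the kernel of `S.augMap`, resp. of `· ᵥ* S.d (i-1)`, so in the range of
`· ᵥ* S.d i` (`augMap_eq_zero_iff`, `exact_succ`); lift through `π = · ᵥ* S.d i : S_{i+1} → S_i`.  Build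
the sequence by recursion on `i` (a `Nat.rec` on a sigma/subtype of compatible maps, or
`exists_seq`-style dependent choice: prove by recursion the existence of a function with the properties,
e.g. define the structure of a partial chain map up to degree `i`).
(2) `Ψ` in the same way (with `ι = MonoidHom.id H`, `R` restricted: the action of `h : H` on `R_i` is
`gs (h : G)`).
(3) `K`: `K 0` lifts `θ v = v - Ψ 0 (Φ 0 v)` through `· ᵥ* R.d 0` (`R.augMap θ v = 0` as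
`R.augMap ∘ Ψ 0 = S.augMap`).  `K (i+1)` lifts `θ v = v - Ψ (i+1) (Φ (i+1) v) - K i (v ᵥ* R.d i)`: it
is killed by `· ᵥ* R.d i`: `(v - ΨΦ v) ᵥ* d i = w - Ψ i (Φ i w)` with `w = v ᵥ* R.d i`, and
`K i w ᵥ* R.d i = w - Ψ i (Φ i w) - K (i-1) (w ᵥ* R.d (i-1))` with `w ᵥ* R.d (i-1) = 0` (`R.d_mul_d`).
-/

namespace Pool.Agent.Lib.P9f173dW

open Z9f173d
open scoped Matrix

namespace CmpExAux

universe u

variable {G H : Type u} [Group G] [Group H]

theorem gs_one {n : ℕ} (v : Fin n → MonoidAlgebra ℤ G) : gs (1 : G) v = v := by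
  funext j
  show MonoidAlgebra.single 1 1 * v j = v j
  rw [← MonoidAlgebra.one_def, one_mul]

theorem gs_mul {n : ℕ} (g g' : G) (v : Fin n → MonoidAlgebra ℤ G) :
    gs (g * g') v = gs g (gs g' v) := by
  funext j
  show MonoidAlgebra.single (g * g') 1 * v j = MonoidAlgebra.single g 1 * (MonoidAlgebra.single g' 1 * v j)
  rw [← mul_assoc, MonoidAlgebra.single_mul_single, one_mul]

theorem gs_add {n : ℕ} (g : G) (v w : Fin n → MonoidAlgebra ℤ G) :
    gs g (v + w) = gs g v + gs g w := by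
  funext j
  exact mul_add _ _ _

theorem gs_zero {n : ℕ} (g : G) : gs g (0 : Fin n → MonoidAlgebra ℤ G) = 0 := by
  funext j
  exact mul_zero _

theorem gs_sub {n : ℕ} (g : G) (v w : Fin n → MonoidAlgebra ℤ G) :
    gs g (v - w) = gs g v - gs g w := by
  funext j
  exact mul_sub _ _ _

theorem gs_vecMul {n m : ℕ} (g : G) (v : Fin n → MonoidAlgebra ℤ G)
    (D : Matrix (Fin n) (Fin m) (MonoidAlgebra ℤ G)) : gs g (v ᵥ* D) = gs g v ᵥ* D := by
  funext j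
  simp only [gs, Matrix.vecMul, dotProduct, Finset.mul_sum, mul_assoc]

/-- the action of `H` through `ι` -/
noncomputable def act (ι : H →* G) (n : ℕ) : H →* AddMonoid.End (Fin n → MonoidAlgebra ℤ G) where
  toFun h :=
    { toFun := gs (ι h)
      map_zero' := gs_zero _
      map_add' := gs_add _ }
  map_one' := by
    apply AddMonoidHom.ext
    intro v
    show gs (ι 1) v = v
    rw [map_one, gs_one]
  map_mul' h h' := by
    apply AddMonoidHom.ext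
    intro v
    show gs (ι (h * h')) v = gs (ι h) (gs (ι h') v)
    rw [map_mul, gs_mul]

theorem act_apply (ι : H →* G) (n : ℕ) (h : H) (v : Fin n → MonoidAlgebra ℤ G) :
    act ι n h v = gs (ι h) v := rfl

/-- multiplication by a matrix -/
noncomputable def vm {n m : ℕ} (D : Matrix (Fin n) (Fin m) (MonoidAlgebra ℤ G)) :
    (Fin n → MonoidAlgebra ℤ G) →+ (Fin m → MonoidAlgebra ℤ G) where
  toFun v := v ᵥ* D
  map_zero' := Matrix.zero_vecMul D
  map_add' v w := Matrix.add_vecMul D v w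

theorem vm_apply {n m : ℕ} (D : Matrix (Fin n) (Fin m) (MonoidAlgebra ℤ G))
    (v : Fin n → MonoidAlgebra ℤ G) : vm D v = v ᵥ* D := rfl

theorem augMap_gs (R : FinRes G) (g : G) (v : Fin (R.rank 0) → MonoidAlgebra ℤ G) :
    R.augMap (gs g v) = R.augMap v := by
  have h := R.augMap_smul (MonoidAlgebra.single g 1) v
  have e : eps G (MonoidAlgebra.single g 1) = 1 := by simp [eps]
  rw [e, one_mul] at h
  exact h

section chain

variable {GP GT : Type u} [Group GP] [Group GT]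

theorem exists_chain (ιP : H →* GP) (hι : Function.Injective ιP) (ιT : H →* GT)
    (P : FinRes GP) (T : FinRes GT) :
    ∃ Φ : ∀ i, (Fin (P.rank i) → MonoidAlgebra ℤ GP) →+ (Fin (T.rank i) → MonoidAlgebra ℤ GT),
      (∀ i h v, Φ i (gs (ιP h) v) = gs (ιT h) (Φ i v)) ∧
      (∀ v, T.augMap (Φ 0 v) = P.augMap v) ∧
      (∀ i v, Φ i (v ᵥ* P.d i) = Φ (i + 1) v ᵥ* T.d i) := by
  -- degree zero
  obtain ⟨φ0, h0e, h0a⟩ := proj ιP hι (act ιT (T.rank 0)) (1 : H →* AddMonoid.End ℤ) T.augMap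
    (fun h m => by
      show T.augMap (gs (ιT h) m) = T.augMap m
      exact augMap_gs T _ m) P.augMap (fun h v => by
      show P.augMap (gs (ιP h) v) = P.augMap v
      exact augMap_gs P _ v) (fun v => by
      obtain ⟨x, hx⟩ := T.exists_x
      exact ⟨P.augMap v • x, by rw [map_zsmul, hx]; simp⟩)
  -- the inductive property
  let Q : ∀ i, ((Fin (P.rank i) → MonoidAlgebra ℤ GP) →+ (Fin (T.rank i) → MonoidAlgebra ℤ GT)) →
      Prop := fun i φ => (∀ h v, φ (gs (ιP h) v) = gs (ιT h) (φ v)) ∧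
        ∀ v, ∃ w, w ᵥ* T.d i = φ (v ᵥ* P.d i)
  have hQ0 : Q 0 φ0 := ⟨h0e, fun v => by
    rw [← T.augMap_eq_zero_iff, h0a, P.augMap_vecMul]⟩
  have step : ∀ i φ, Q i φ → ∃ φ', Q (i + 1) φ' ∧ ∀ v, φ (v ᵥ* P.d i) = φ' v ᵥ* T.d i := by
    intro i φ hφ
    obtain ⟨φ', he, hl⟩ := proj ιP hι (act ιT (T.rank (i + 1))) (act ιT (T.rank i)) (vm (T.d i))
      (fun h m => (gs_vecMul _ _ _).symm) (φ.comp (vm (P.d i))) (fun h v => by
        show φ (gs (ιP h) v ᵥ* P.d i) = gs (ιT h) (φ (v ᵥ* P.d i))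
        rw [← gs_vecMul, hφ.1]) (fun v => hφ.2 v)
    have hl' : ∀ v, φ (v ᵥ* P.d i) = φ' v ᵥ* T.d i := fun v => (hl v).symm
    refine ⟨φ', ⟨he, fun v => ?_⟩, hl'⟩
    rw [← T.exact_succ, ← hl', Matrix.vecMul_vecMul, P.d_mul_d, Matrix.vecMul_zero, map_zero]
  choose! nxt hn1 hn2 using step
  let F : ∀ i, {φ : (Fin (P.rank i) → MonoidAlgebra ℤ GP) →+
      (Fin (T.rank i) → MonoidAlgebra ℤ GT) // Q i φ} := fun i =>
    Nat.rec ⟨φ0, hQ0⟩ (fun i φ => ⟨nxt i φ.1, hn1 i φ.1 φ.2⟩) i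
  exact ⟨fun i => (F i).1, fun i => (F i).2.1, h0a, fun i => hn2 i (F i).1 (F i).2⟩

end chain

theorem exists_htpy (ι : H →* G) (hι : Function.Injective ι) (R : FinRes G)
    (f : ∀ i, (Fin (R.rank i) → MonoidAlgebra ℤ G) →+ (Fin (R.rank i) → MonoidAlgebra ℤ G))
    (hfe : ∀ i h v, f i (gs (ι h) v) = gs (ι h) (f i v))
    (hf0 : ∀ v, R.augMap (f 0 v) = R.augMap v)
    (hfd : ∀ i v, f i (v ᵥ* R.d i) = f (i + 1) v ᵥ* R.d i) :
    ∃ K : ∀ i, (Fin (R.rank i) → MonoidAlgebra ℤ G) →+ (Fin (R.rank (i + 1)) → MonoidAlgebra ℤ G),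
      (∀ i h v, K i (gs (ι h) v) = gs (ι h) (K i v)) ∧
      (∀ v, v - f 0 v = K 0 v ᵥ* R.d 0) ∧
      (∀ i v, v - f (i + 1) v = K (i + 1) v ᵥ* R.d (i + 1) + K i (v ᵥ* R.d i)) := by
  have dd : ∀ i v, v ᵥ* R.d (i + 1) ᵥ* R.d i = 0 := fun i v => by
    rw [Matrix.vecMul_vecMul, R.d_mul_d, Matrix.vecMul_zero]
  obtain ⟨κ0, h0e, h0l⟩ := proj ι hι (act ι (R.rank 1)) (act ι (R.rank 0)) (vm (R.d 0))
    (fun h m => (gs_vecMul _ _ _).symm) (AddMonoidHom.id _ - f 0) (fun h v => by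
      show gs (ι h) v - f 0 (gs (ι h) v) = gs (ι h) (v - f 0 v)
      rw [hfe, gs_sub]) (fun v => by
      show ∃ m, m ᵥ* R.d 0 = v - f 0 v
      rw [← R.augMap_eq_zero_iff, map_sub, hf0, sub_self])
  have h0l' : ∀ v, v - f 0 v = κ0 v ᵥ* R.d 0 := fun v => (h0l v).symm
  let Q : ∀ i, ((Fin (R.rank i) → MonoidAlgebra ℤ G) →+
      (Fin (R.rank (i + 1)) → MonoidAlgebra ℤ G)) → Prop := fun i κ =>
        (∀ h v, κ (gs (ι h) v) = gs (ι h) (κ v)) ∧
          ∀ v, ∃ w, w ᵥ* R.d (i + 1) = v - f (i + 1) v - κ (v ᵥ* R.d i)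
  have hQ0 : Q 0 κ0 := ⟨h0e, fun v => by
    rw [← R.exact_succ, Matrix.sub_vecMul, Matrix.sub_vecMul, ← hfd, ← h0l', sub_self]⟩
  have step : ∀ i κ, Q i κ → ∃ κ', Q (i + 1) κ' ∧
      ∀ v, v - f (i + 1) v = κ' v ᵥ* R.d (i + 1) + κ (v ᵥ* R.d i) := by
    intro i κ hκ
    obtain ⟨κ', he, hl⟩ := proj ι hι (act ι (R.rank (i + 2))) (act ι (R.rank (i + 1)))
      (vm (R.d (i + 1))) (fun h m => (gs_vecMul _ _ _).symm)
      (AddMonoidHom.id (Fin (R.rank (i + 1)) → MonoidAlgebra ℤ G) - f (i + 1) -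
        κ.comp (vm (R.d i))) (fun h v => by
        show gs (ι h) v - f (i + 1) (gs (ι h) v) - κ (gs (ι h) v ᵥ* R.d i) =
          gs (ι h) (v - f (i + 1) v - κ (v ᵥ* R.d i))
        rw [hfe, gs_sub, gs_sub, ← hκ.1, gs_vecMul]) (fun v => hκ.2 v)
    have hl' : ∀ v, κ' v ᵥ* R.d (i + 1) = v - f (i + 1) v - κ (v ᵥ* R.d i) := hl
    refine ⟨κ', ⟨he, fun v => ?_⟩, fun v => by rw [hl']; abel⟩
    rw [← R.exact_succ, Matrix.sub_vecMul, Matrix.sub_vecMul, ← hfd, hl', dd, map_zero, sub_zero,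
      sub_self]
  choose! nxt hn1 hn2 using step
  let F : ∀ i, {κ : (Fin (R.rank i) → MonoidAlgebra ℤ G) →+
      (Fin (R.rank (i + 1)) → MonoidAlgebra ℤ G) // Q i κ} := fun i =>
    Nat.rec ⟨κ0, hQ0⟩ (fun i κ => ⟨nxt i κ.1, hn1 i κ.1 κ.2⟩) i
  exact ⟨fun i => (F i).1, fun i => (F i).2.1, h0l', fun i => hn2 i (F i).1 (F i).2⟩

end CmpExAux

open CmpExAux in
theorem exists_cmp {G : Type*} [Group G] (H : Subgroup G) (R : FinRes G) (S : FinRes H) :
    Nonempty (Cmp H R S) := by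
  obtain ⟨Φ, hΦe, hΦa, hΦd⟩ := exists_chain H.subtype H.subtype_injective (MonoidHom.id H) R S
  obtain ⟨Ψ, hΨe, hΨa, hΨd⟩ := exists_chain (MonoidHom.id H) Function.injective_id H.subtype S R
  obtain ⟨K, hKe, hK0, hKs⟩ := exists_htpy H.subtype H.subtype_injective R
    (fun i => (Ψ i).comp (Φ i)) (fun i h v => by
      show Ψ i (Φ i (gs (h : G) v)) = gs (h : G) (Ψ i (Φ i v))
      have h1 : Φ i (gs (h : G) v) = gs h (Φ i v) := hΦe i h v
      have h2 : Ψ i (gs h (Φ i v)) = gs (h : G) (Ψ i (Φ i v)) := hΨe i h _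
      rw [h1, h2]) (fun v => by
      show R.augMap (Ψ 0 (Φ 0 v)) = R.augMap v
      rw [hΨa, hΦa]) (fun i v => by
      show Ψ i (Φ i (v ᵥ* R.d i)) = Ψ (i + 1) (Φ (i + 1) v) ᵥ* R.d i
      rw [hΦd, hΨd])
  exact ⟨⟨Φ, Ψ, K, fun i h v => hΦe i h v, fun i h v => hΨe i h v, fun i h v => hKe i h v, hΦd,
    hΨd, hK0, hKs⟩⟩

end Pool.Agent.Lib.P9f173dW
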