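import Pool.Agent.Lib.P9f173dW.Defs

/-!
# Module Comp: compact operators on `ℓ²`

PROOFS.
* `wcompact` (evaluation functionals with weights): for a finite set `s` of points let `N_s h` be the
  function `m x * e x h` for `x ∈ s`, `0` elsewhere; it has finite dimensional range, so it is a
  compact operator (e.g. a finite sum of operators `h ↦ (e x h) • lp.single 2 x (m x)`, each of rank
  one: `isCompactOperator_of_locallyCompactSpace_dom` composed, or `IsCompactOperator.clm_comp`/`comp_clm`).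
  `‖N h - N_s h‖² = ∑_{x ∉ s} ‖m x‖² ‖e x h‖² ≤ K² ‖h‖² ∑_{x ∉ s} w x² ‖m x‖²`, the last sum tends to `0`
  (`tendsto_tsum_compl_atTop_zero`).  `isCompactOperator_of_tendsto`.  (First construct `N`:
  `SQ (fun x => m x * e x h)` by comparison, linear, bounded.)
* `mul_compact` : the same with `e x v = v x`: `‖(m - m 1_s) v‖ ≤ sup_{x ∉ s} ‖m x‖ ‖v‖`, and `m → 0` along
  `cofinite` says that the supremum is `≤ ε` for large `s`.  `‖mulL m K hm‖ ≤ |K|`
  (from `LinearMap.mkContinuous`).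
* `comm_compact` : the set of `T` for which `T ∘ M - M ∘ T` is compact (`M` = multiplication by `W`) is a
  closed subspace of the operators (`isClosed_setOf..`/`isCompactOperator_of_tendsto`, the map
  `T ↦ T M - M T` is continuous), it contains `lreg g`:
  `lreg g (W v) - W (lreg g v) = (W (g⁻¹ x) - W x) v (g⁻¹ x)` = (multiplication by `W (g⁻¹ ·) - W`) ∘ `lreg g`,
  compact by `mul_compact`.  `RedCStar C` is the closure of `Algebra.adjoin ℂ (range lreg)`, the
  linear span of the `lreg g` (the range of `lreg` is closed under products; or use the product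
  rule `[S T, M] = S [T, M] + [S, M] T` in `Algebra.adjoin_induction`).
-/

namespace Pool.Agent.Lib.P9f173dW

open Z9f173d

namespace CompAux

/-- operators of finite rank are compact -/
theorem compact_sum {H : Type*} [NormedAddCommGroup H] [NormedSpace ℂ H]
    {X : Type*} (φ : X → H →L[ℂ] ℂ) (b : X → L2 X) (s : Finset X) :
    IsCompactOperator (∑ x ∈ s, (φ x).smulRight (b x) : H →L[ℂ] L2 X) := by
  have : (∑ x ∈ s, (φ x).smulRight (b x) : H →L[ℂ] L2 X) ∈
      compactOperator (RingHom.id ℂ) H (L2 X) := by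
    refine Submodule.sum_mem _ fun x _ => ?_
    have h1 : IsCompactOperator (φ x) := isCompactOperator_of_locallyCompactSpace_dom (φ x)
    have h2 := h1.clm_comp (ContinuousLinearMap.toSpanSingleton ℂ (b x))
    exact h2
  exact this

/-- an operator with uniformly small tails is compact -/
theorem of_tail {H : Type*} [NormedAddCommGroup H] [NormedSpace ℂ H] {X : Type*}
    (T : H →L[ℂ] L2 X)
    (hT : ∀ ε : ℝ, 0 < ε → ∃ s : Finset X, ∀ h : H, ∀ t : Finset X, Disjoint t s →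
      ∑ x ∈ t, ‖T h x‖ ^ 2 ≤ (ε * ‖h‖) ^ 2) : IsCompactOperator T := by
  classical
  have hcl : IsClosed {f : H →L[ℂ] L2 X | IsCompactOperator f} :=
    isClosed_setOfPred_isCompactOperator
  have hmem : T ∈ closure {f : H →L[ℂ] L2 X | IsCompactOperator f} := by
    rw [Metric.mem_closure_iff]
    intro ε hε
    obtain ⟨s, hs⟩ := hT (ε / 2) (by positivity)
    let F : H →L[ℂ] L2 X := ∑ x ∈ s,
      ((lp.evalCLM ℂ (fun _ : X => ℂ) 2 x).comp T).smulRight (lp.single 2 x (1 : ℂ))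
    refine ⟨F, compact_sum _ _ s, ?_⟩
    rw [dist_eq_norm]
    refine lt_of_le_of_lt (ContinuousLinearMap.opNorm_le_bound _ (by positivity) fun h => ?_)
      (half_lt_self hε)
    have h2 : (0 : ℝ) < (2 : ENNReal).toReal := by norm_num
    refine lp.norm_le_of_forall_sum_le h2 (by positivity) fun t => ?_
    have hF : ∀ x, (T - F) h x = if x ∈ s then 0 else T h x := by
      intro x
      have h3 : F h = ∑ y ∈ s, (T h y) • lp.single 2 y (1 : ℂ) := by
        simp [F]
        rfl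
      rw [sub_apply, h3, lp.coeFn_sub, Pi.sub_apply, lp.coeFn_sum,
        Finset.sum_apply]
      simp only [lp.coeFn_smul, Pi.smul_apply, lp.coeFn_single, Pi.single_apply, smul_eq_mul,
        mul_ite, mul_one, mul_zero, Finset.sum_ite_eq]
      split_ifs <;> simp
    have h4 : ∑ x ∈ t, ‖(T - F) h x‖ ^ (2 : ENNReal).toReal = ∑ x ∈ t \ s, ‖T h x‖ ^ 2 := by
      rw [Finset.sdiff_eq_filter, Finset.sum_filter]
      refine Finset.sum_congr rfl fun x _ => ?_
      rw [hF x]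
      by_cases hx : x ∈ s
      · simp [hx]
      · simp [hx]
    rw [h4]
    refine (hs h (t \ s) Finset.sdiff_disjoint).trans (le_of_eq ?_)
    simp
  rw [hcl.closure_eq] at hmem
  exact hmem

end CompAux

theorem wcompact {H : Type*} [NormedAddCommGroup H] [NormedSpace ℂ H] [CompleteSpace H]
    {X : Type*} (e : X → H →ₗ[ℂ] ℂ) (w : X → ℝ) (K : ℝ) (he : ∀ x h, ‖e x h‖ ≤ K * w x * ‖h‖)
    (m : X → ℂ) (hm : Summable fun x => w x ^ 2 * ‖m x‖ ^ 2) :
    ∃ N : H →L[ℂ] L2 X, IsCompactOperator N ∧ ∀ h x, N h x = m x * e x h := by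
  have hb : ∀ h x, ‖m x * e x h‖ ^ 2 ≤ (K ^ 2 * ‖h‖ ^ 2) * (w x ^ 2 * ‖m x‖ ^ 2) := by
    intro h x
    have h1 := pow_le_pow_left₀ (norm_nonneg _) (he x h) 2
    rw [norm_mul, mul_pow]
    calc ‖m x‖ ^ 2 * ‖e x h‖ ^ 2 ≤ ‖m x‖ ^ 2 * (K * w x * ‖h‖) ^ 2 :=
          mul_le_mul_of_nonneg_left h1 (by positivity)
      _ = _ := by ring
  have hsq : ∀ h, SQ fun x => m x * e x h := fun h =>
    Summable.of_nonneg_of_le (fun x => by positivity) (hb h) (hm.mul_left _)
  have h2 : (0 : ℝ) < (2 : ENNReal).toReal := by norm_num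
  have hS0 : 0 ≤ ∑' x, w x ^ 2 * ‖m x‖ ^ 2 := tsum_nonneg fun x => by positivity
  let N : H →L[ℂ] L2 X := LinearMap.mkContinuous
    { toFun := fun h => ofSQ (fun x => m x * e x h) (hsq h)
      map_add' := fun v w => by ext x; simp [mul_add]
      map_smul' := fun k v => by ext x; simp; ring }
    (|K| * Real.sqrt (∑' x, w x ^ 2 * ‖m x‖ ^ 2)) (fun h => by
      refine lp.norm_le_of_forall_sum_le h2 (by positivity) fun s => ?_
      simp only [ENNReal.toReal_ofNat, Real.rpow_ofNat]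
      have h3 : ∑ x ∈ s, ‖m x * e x h‖ ^ 2 ≤
          ∑ x ∈ s, (K ^ 2 * ‖h‖ ^ 2) * (w x ^ 2 * ‖m x‖ ^ 2) :=
        Finset.sum_le_sum fun x _ => hb h x
      have h4 : ∑ x ∈ s, w x ^ 2 * ‖m x‖ ^ 2 ≤ ∑' x, w x ^ 2 * ‖m x‖ ^ 2 :=
        hm.sum_le_tsum s fun x _ => by positivity
      refine h3.trans ?_
      rw [← Finset.mul_sum, mul_pow, mul_pow, Real.sq_sqrt hS0, sq_abs]
      nlinarith [mul_le_mul_of_nonneg_left h4 (show 0 ≤ K ^ 2 * ‖h‖ ^ 2 by positivity)])
  refine ⟨N, CompAux.of_tail N fun ε hε => ?_, fun h x => rfl⟩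
  obtain ⟨s, hs⟩ := summable_iff_vanishing_norm.1 hm (ε ^ 2 / (K ^ 2 + 1)) (by positivity)
  refine ⟨s, fun h t ht => ?_⟩
  have h3 : ∑ x ∈ t, ‖N h x‖ ^ 2 ≤ ∑ x ∈ t, (K ^ 2 * ‖h‖ ^ 2) * (w x ^ 2 * ‖m x‖ ^ 2) :=
    Finset.sum_le_sum fun x _ => hb h x
  have h4 := (le_abs_self _).trans (hs t ht).le
  refine h3.trans ?_
  rw [← Finset.mul_sum]
  have h5 : K ^ 2 * (ε ^ 2 / (K ^ 2 + 1)) ≤ ε ^ 2 := by
    rw [mul_div_assoc', div_le_iff₀ (by positivity)]
    nlinarith [sq_nonneg ε]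
  calc K ^ 2 * ‖h‖ ^ 2 * ∑ x ∈ t, w x ^ 2 * ‖m x‖ ^ 2
      ≤ K ^ 2 * ‖h‖ ^ 2 * (ε ^ 2 / (K ^ 2 + 1)) :=
        mul_le_mul_of_nonneg_left h4 (by positivity)
    _ = K ^ 2 * (ε ^ 2 / (K ^ 2 + 1)) * ‖h‖ ^ 2 := by ring
    _ ≤ ε ^ 2 * ‖h‖ ^ 2 := mul_le_mul_of_nonneg_right h5 (by positivity)
    _ = (ε * ‖h‖) ^ 2 := by ring

theorem mul_compact {X : Type*} (m : X → ℂ) (K : ℝ) (hm : ∀ x, ‖m x‖ ≤ K)
    (h0 : Filter.Tendsto m Filter.cofinite (nhds 0)) : IsCompactOperator (mulL m K hm) := by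
  classical
  refine CompAux.of_tail _ fun ε hε => ?_
  have h1 : ∀ᶠ x in Filter.cofinite, ‖m x‖ < ε := by
    have := h0.norm
    rw [norm_zero] at this
    exact this.eventually (gt_mem_nhds hε)
  rw [Filter.eventually_cofinite] at h1
  refine ⟨h1.toFinset, fun v t ht => ?_⟩
  have h2 : (0 : ℝ) < (2 : ENNReal).toReal := by norm_num
  have h3 : ∑ x ∈ t, ‖mulL m K hm v x‖ ^ 2 ≤ ∑ x ∈ t, ε ^ 2 * ‖v x‖ ^ 2 := by
    refine Finset.sum_le_sum fun x hx => ?_
    have h4 : ‖m x‖ < ε := by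
      by_contra hcon
      have h5 : x ∈ h1.toFinset := by simpa using hcon
      exact Finset.disjoint_left.1 ht hx h5
    rw [mulL_apply, norm_mul, mul_pow]
    exact mul_le_mul_of_nonneg_right (pow_le_pow_left₀ (norm_nonneg _) h4.le 2) (by positivity)
  refine h3.trans ?_
  rw [← Finset.mul_sum, mul_pow]
  have h6 := lp.sum_rpow_le_norm_rpow h2 v t
  simp only [ENNReal.toReal_ofNat, Real.rpow_ofNat] at h6
  exact mul_le_mul_of_nonneg_left h6 (by positivity)

theorem comm_compact {C : Type*} [Group C] (W : C → ℂ) (K : ℝ) (hW : ∀ x, ‖W x‖ ≤ K)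
    (h0 : ∀ c : C, Filter.Tendsto (fun x => W (c⁻¹ * x) - W x) Filter.cofinite (nhds 0))
    (T : L2 C →L[ℂ] L2 C) (hT : T ∈ RedCStar C) :
    IsCompactOperator (T * mulL W K hW - mulL W K hW * T : L2 C →L[ℂ] L2 C) := by
  set M : L2 C →L[ℂ] L2 C := mulL W K hW with hM
  have hcl : IsClosed {T : L2 C →L[ℂ] L2 C | IsCompactOperator (T * M - M * T)} := by
    have h1 : IsClosed {f : L2 C →L[ℂ] L2 C | IsCompactOperator f} :=
      isClosed_setOfPred_isCompactOperator
    have h2 : Continuous fun T : L2 C →L[ℂ] L2 C => T * M - M * T := by fun_prop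
    exact h1.preimage h2
  have hsub : ((Algebra.adjoin ℂ (Set.range (lreg : C →* (L2 C →L[ℂ] L2 C)))
      : Subalgebra ℂ (L2 C →L[ℂ] L2 C)) : Set (L2 C →L[ℂ] L2 C)) ⊆
      {T : L2 C →L[ℂ] L2 C | IsCompactOperator (T * M - M * T)} := by
    intro T hT
    show IsCompactOperator (T * M - M * T : L2 C →L[ℂ] L2 C)
    refine Algebra.adjoin_induction (p := fun (T : L2 C →L[ℂ] L2 C) _ =>
      IsCompactOperator (T * M - M * T : L2 C →L[ℂ] L2 C)) ?_ ?_ ?_ ?_ hT
    · rintro _ ⟨g, rfl⟩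
      have hb : ∀ x, ‖W (g⁻¹ * x) - W x‖ ≤ K + K := fun x =>
        (norm_sub_le _ _).trans (add_le_add (hW _) (hW _))
      have h1 := (mul_compact (fun x => W (g⁻¹ * x) - W x) (K + K) hb (h0 g)).comp_clm
        (lreg g : L2 C →L[ℂ] L2 C)
      have h2 : (lreg g * M - M * lreg g : L2 C →L[ℂ] L2 C) =
          (mulL (fun x => W (g⁻¹ * x) - W x) (K + K) hb).comp (lreg g) := by
        ext v x
        simp [hM, sub_mul]
      rw [h2]
      exact h1
    · intro r
      have h1 : (algebraMap ℂ (L2 C →L[ℂ] L2 C) r * M - M * algebraMap ℂ (L2 C →L[ℂ] L2 C) r) = 0 := by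
        rw [Algebra.commutes, sub_self]
      rw [h1]
      exact isCompactOperator_zero
    · intro S T _ _ hS hT
      have h1 : (S + T) * M - M * (S + T) = (S * M - M * S) + (T * M - M * T) := by noncomm_ring
      rw [h1]
      exact hS.add hT
    · intro S T _ _ hS hT
      have h1 : (S * T) * M - M * (S * T) = S * (T * M - M * T) + (S * M - M * S) * T := by
        noncomm_ring
      rw [h1]
      exact (hT.clm_comp S).add (hS.comp_clm T)
  exact closure_minimal hsub hcl hT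

/-- square summable functions tend to zero -/
theorem tendsto_of_sq {X : Type*} {f : X → ℂ} (hf : SQ f) :
    Filter.Tendsto f Filter.cofinite (nhds 0) := by
  have h1 := hf.tendsto_cofinite_zero
  have h2 := (Real.continuous_sqrt.tendsto 0).comp h1
  rw [tendsto_zero_iff_norm_tendsto_zero]
  simpa [Function.comp_def, Real.sqrt_sq (norm_nonneg _)] using h2

end Pool.Agent.Lib.P9f173dW
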