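import Pool.Agent.Lib.P9f173dW.Defs

/-!
# Module Compr: compressions of the reduced algebra of `G` to cosets of `C`

For `T` in the reduced algebra of `G` and `a, b : G` the operator
`v ↦ (c ↦ T (extC C b v) (a c))` on `ℓ²(C)` is in the reduced algebra of `C`.

PROOF.  Let `E b : L2 C →L[ℂ] L2 G` be `extC C b` (linear, norm `≤ 1`) and
`Q a : L2 G →L[ℂ] L2 C`, `Q a ξ c = ξ (a c)` (linear, norm `≤ 1`, as `c ↦ a c` is injective).
The map `T ↦ Q a ∘ T ∘ E b` is continuous and linear in `T`, and `RedCStar C` is a closed subspace,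
so it is enough to treat `T = lreg g` (`RedCStar G` is the topological closure of
`Algebra.adjoin ℂ (range lreg)`, which is the linear span of the `lreg g`, since
`lreg g * lreg h = lreg (g h)`; `Algebra.adjoin_eq_span` or an induction
`Algebra.adjoin_induction`—for the product in the induction first show that
every element of the adjoin is in `Submodule.span ℂ (range lreg)`).
For `T = lreg g`: `(T (extC C b v)) (a c) = extC C b v (g⁻¹ a c)`; if `c₀ := b⁻¹ g⁻¹ a ∈ C` this is
`v (c₀ c) = lreg c₀⁻¹ v c`, otherwise it is `0` for all `c`.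

`h2` : the contraction `S1` of `Z9f173d.FinRes.exists_contraction`, as operators on `ℓ²(G)`: see the
proof of `Z9f173d.exact_all` for the passage from `CRed G` to `RedCStar G` (`toOld`), and apply
`(d1.map ringHom) * S1 + S2 * (d2.map ringHom) = 1` to the vector `κ` (the action of `ringHom G a` on
`L2 G` is `vth lreg a`, `Z9f173d.ringHom_coe`/`th_unique`).
-/

namespace Pool.Agent.Lib.P9f173dW

open Z9f173d

namespace ComprAux

variable {G : Type*} [Group G] (C : Subgroup G)

theorem two_pos : (0 : ℝ) < (2 : ENNReal).toReal := by norm_num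

theorem inj (a : G) : Function.Injective fun c : C => a * (c : G) := fun c c' h => by
  simpa using h

theorem extC_norm (a : G) (v : L2 C) : ‖extC C a v‖ = ‖v‖ := by
  rw [lp.norm_eq_tsum_rpow two_pos, lp.norm_eq_tsum_rpow two_pos]
  congr 1
  have h1 := (inj C a).tsum_eq (f := fun y : G => ‖extC C a v y‖ ^ (2 : ENNReal).toReal) (by
    intro y hy
    by_contra hcon
    apply hy
    have h2 : a⁻¹ * y ∉ C := fun h => hcon ⟨⟨a⁻¹ * y, h⟩, by simp⟩
    simp only
    rw [extC_apply_of_notMem C a v y h2, norm_zero]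
    exact Real.zero_rpow two_pos.ne')
  rw [← h1]
  refine tsum_congr fun c => ?_
  rw [extC_apply]

theorem extC_ext (a : G) {u v : L2 G} (h1 : ∀ c : C, u (a * c) = v (a * c))
    (h2 : ∀ y, a⁻¹ * y ∉ C → u y = v y) : u = v := by
  ext y
  by_cases h : a⁻¹ * y ∈ C
  · have h3 := h1 ⟨a⁻¹ * y, h⟩
    simpa using h3
  · exact h2 y h

/-- extension by zero from the coset `a C` -/
noncomputable def E (a : G) : L2 C →L[ℂ] L2 G :=
  LinearMap.mkContinuous
    { toFun := fun v => extC C a v
      map_add' := fun v w => by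
        refine extC_ext C a (fun c => ?_) (fun y hy => ?_)
        · rw [lp.coeFn_add, Pi.add_apply, extC_apply, extC_apply, extC_apply, lp.coeFn_add,
            Pi.add_apply]
        · rw [lp.coeFn_add, Pi.add_apply, extC_apply_of_notMem C a _ y hy,
            extC_apply_of_notMem C a _ y hy, extC_apply_of_notMem C a _ y hy, add_zero]
      map_smul' := fun k v => by
        refine extC_ext C a (fun c => ?_) (fun y hy => ?_)
        · rw [RingHom.id_apply, lp.coeFn_smul, Pi.smul_apply, extC_apply, extC_apply,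
            lp.coeFn_smul, Pi.smul_apply]
        · rw [RingHom.id_apply, lp.coeFn_smul, Pi.smul_apply, extC_apply_of_notMem C a _ y hy,
            extC_apply_of_notMem C a _ y hy, smul_zero] } 1
    (fun v => by rw [one_mul]; exact (extC_norm C a v).le)

theorem E_apply (a : G) (v : L2 C) : E C a v = extC C a v := rfl

/-- restriction to the coset `a C` -/
noncomputable def Q (a : G) : L2 G →L[ℂ] L2 C :=
  LinearMap.mkContinuous
    { toFun := fun v => ofSQ (fun c : C => v (a * c)) ((sq_coe v).comp (inj C a))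
      map_add' := fun v w => by ext c; rfl
      map_smul' := fun k v => by ext c; rfl } 1
    (fun v => by
      rw [one_mul]
      refine lp.norm_le_of_forall_sum_le two_pos (norm_nonneg _) fun s => ?_
      have h1 := lp.sum_rpow_le_norm_rpow two_pos v (s.map ⟨_, inj C a⟩)
      rw [Finset.sum_map] at h1
      exact h1)

theorem Q_apply (a : G) (v : L2 G) (c : C) : Q C a v c = v (a * c) := rfl

theorem mem_single (a b g : G) (z : ℂ) :
    (Q C a).comp ((repAlg (lreg (G := G)) (MonoidAlgebra.single g z)).comp (E C b)) ∈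
      RedCStar C := by
  by_cases h : b⁻¹ * (g⁻¹ * a) ∈ C
  · have h1 : (Q C a).comp ((repAlg (lreg (G := G)) (MonoidAlgebra.single g z)).comp (E C b)) =
        z • lreg (⟨b⁻¹ * (g⁻¹ * a), h⟩ : C)⁻¹ := by
      ext v c
      rw [ContinuousLinearMap.comp_apply, ContinuousLinearMap.comp_apply, Q_apply, repAlg_single,
        E_apply]
      have h2 : (z • lreg g (extC C b v)) (a * c) = z • extC C b v (g⁻¹ * (a * c)) := rfl
      have h3 : (z • lreg (⟨b⁻¹ * (g⁻¹ * a), h⟩ : C)⁻¹) v c =
          z • v (((⟨b⁻¹ * (g⁻¹ * a), h⟩ : C)⁻¹)⁻¹ * c) := rfl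
      rw [h2, h3, inv_inv]
      have h4 : g⁻¹ * (a * (c : G)) = b * (((⟨b⁻¹ * (g⁻¹ * a), h⟩ : C) * c : C) : G) := by
        rw [Subgroup.coe_mul]
        group
      rw [h4, extC_apply]
    rw [h1]
    exact Subalgebra.smul_mem _ (grpHom C _).2 z
  · have h1 : (Q C a).comp ((repAlg (lreg (G := G)) (MonoidAlgebra.single g z)).comp (E C b)) =
        0 := by
      ext v c
      rw [ContinuousLinearMap.comp_apply, ContinuousLinearMap.comp_apply, Q_apply, repAlg_single,
        E_apply]
      have h2 : (z • lreg g (extC C b v)) (a * c) = z • extC C b v (g⁻¹ * (a * c)) := rfl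
      rw [h2, extC_apply_of_notMem C b v, smul_zero]
      · rfl
      · intro h3
        apply h
        have h4 : b⁻¹ * (g⁻¹ * a) = b⁻¹ * (g⁻¹ * (a * (c : G))) * (c : G)⁻¹ := by group
        rw [h4]
        exact C.mul_mem h3 (C.inv_mem c.2)
    rw [h1]
    exact Subalgebra.zero_mem _

theorem mem_rep (a b : G) (e : MonoidAlgebra ℂ G) :
    (Q C a).comp ((repAlg (lreg (G := G)) e).comp (E C b)) ∈ RedCStar C := by
  induction e using MonoidAlgebra.induction_linear with
  | zero =>
    rw [map_zero, ContinuousLinearMap.zero_comp, ContinuousLinearMap.comp_zero]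
    exact Subalgebra.zero_mem _
  | add x y hx hy =>
    rw [map_add, ContinuousLinearMap.add_comp, ContinuousLinearMap.comp_add]
    exact Subalgebra.add_mem _ hx hy
  | single g z => exact mem_single C a b g z

theorem mem_all (a b : G) {T : L2 G →L[ℂ] L2 G} (hT : T ∈ RedCStar G) :
    (Q C a).comp (T.comp (E C b)) ∈ RedCStar C := by
  have hcl : IsClosed {T : L2 G →L[ℂ] L2 G | (Q C a).comp (T.comp (E C b)) ∈ RedCStar C} := by
    have h1 : IsClosed ((RedCStar C : Subalgebra ℂ (L2 C →L[ℂ] L2 C)) :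
        Set (L2 C →L[ℂ] L2 C)) := Subalgebra.isClosed_topologicalClosure _
    exact h1.preimage (continuous_const.clm_comp (continuous_id.clm_comp continuous_const))
  have hT' : T ∈ closure ((Algebra.adjoin ℂ (Set.range (lreg : G →* (L2 G →L[ℂ] L2 G)))
        : Subalgebra ℂ (L2 G →L[ℂ] L2 G)) : Set (L2 G →L[ℂ] L2 G)) := hT
  refine closure_minimal ?_ hcl hT'
  intro S hS
  have hle : Algebra.adjoin ℂ (Set.range (lreg : G →* (L2 G →L[ℂ] L2 G)))
      ≤ (repAlg (lreg (G := G))).range := by
    refine Algebra.adjoin_le ?_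
    rintro _ ⟨g, rfl⟩
    refine ⟨MonoidAlgebra.single g 1, ?_⟩
    ext1 ξ
    show repAlg lreg (MonoidAlgebra.single g 1) ξ = _
    rw [repAlg_single, one_smul]
  obtain ⟨e, rfl⟩ := hle hS
  exact mem_rep C a b e

end ComprAux

theorem compr {G : Type*} [Group G] (C : Subgroup G) (T : L2 G →L[ℂ] L2 G) (hT : T ∈ RedCStar G)
    (a b : G) : ∃ T' : L2 C →L[ℂ] L2 C, T' ∈ RedCStar C ∧
      ∀ (v : L2 C) (c : C), T (extC C b v) (a * c) = T' v c := by
  exact ⟨_, ComprAux.mem_all C a b hT, fun v c => rfl⟩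

theorem exists_h2 {G : Type*} [Group G] (R : FinRes G) (h0 : ¬ Nontrivial (R.homology 0))
    (h1 : ¬ Nontrivial (R.homology 1)) (h2 : ¬ Nontrivial (R.homology 2)) :
    ∃ S1 : Fin (R.rank 1) → Fin (R.rank 2) → (L2 G →L[ℂ] L2 G), (∀ i j, S1 i j ∈ RedCStar G) ∧
      ∀ κ : Fin (R.rank 2) → L2 G, mact (vth lreg) (R.d 2) κ = 0 →
        mact (vth lreg) (R.d 1) (fun i => ∑ j, S1 i j (κ j)) = κ := by
  obtain ⟨S0, S1, S2, e0, e1, e2⟩ := R.exists_contraction (CRed G) (toCRed G) h0 h1 h2
  have hd : ∀ i, (R.dA (CRed G) (toCRed G) i).map (toOld G) = (R.d i).map (ringHom G) := by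
    intro i
    ext1 a b
    exact toOld_toCRed _
  have e3 : (R.d 1).map (ringHom G) * S1.map (toOld G) +
      S2.map (toOld G) * (R.d 2).map (ringHom G) = 1 := by
    rw [← hd, ← hd]
    exact map_one_of_mul_add (toOld G) _ _ _ _ e2
  refine ⟨fun i j => (toOld G (S1 i j) : L2 G →L[ℂ] L2 G), fun i j => (toOld G (S1 i j)).2,
    fun κ hκ => ?_⟩
  let θ : RedCStar G →+* AddMonoid.End (L2 G) :=
    (toEnd (L2 G)).comp (RedCStar G).val.toRingHom
  have hθ : ∀ a : MonoidAlgebra ℤ G, θ (ringHom G a) = vth lreg a := by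
    intro a
    have h3 : θ (ringHom G a) = toEnd (L2 G) ((ringHom G a : RedCStar G) : L2 G →L[ℂ] L2 G) := rfl
    rw [h3, ringHom_coe, ← cth_cmap]
    rfl
  have hmact : ∀ {m n : ℕ} (D : Matrix (Fin m) (Fin n) (MonoidAlgebra ℤ G)) (f : Fin n → L2 G),
      mact θ (D.map (ringHom G)) f = mact (vth lreg) D f := by
    intro m n D f
    ext1 i
    rw [mact_apply, mact_apply]
    refine Finset.sum_congr rfl fun j _ => ?_
    rw [Matrix.map_apply, hθ]
  have h4 := congrArg (fun M => mact θ M κ) e3
  simp only [mact_add, mact_mul, mact_one, hmact, hκ, map_zero, add_zero] at h4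
  exact h4

end Pool.Agent.Lib.P9f173dW
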