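import Mathlib

/-!
# Module Fred: Toeplitz operators with a real structure

`H` a complex Banach space, `J` an antilinear involution, `P` an idempotent commuting with `J`, `A, A'`
operators with `A' J = J A`, `A A' - 1` and `(1 - P) A' P` compact.  If the compression `P A` is injective
on the range of `P` then it is onto the range of `P`.

PROOF.  `T = P A P + (1 - P)`, `T' = P A' P + (1 - P)`.
`T T' = P A P A' P + (1 - P) = P A A' P - P A (1 - P) A' P + (1 - P)
 = P (A A' - 1) P - P A ((1 - P) A' P) + 1 = 1 + K`, `K` compact.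
`T` is injective: `T x = 0` gives `(1 - P) x = 0` (apply `1 - P`) and `P A P x = 0`, so `x = P x`,
`P (A x) = 0`, `x = 0`.  `T' (J x) = J (T x)` and `J` is bijective with `J 0 = 0`, so `T'` is injective.
Hence `T T'` is injective; by the Fredholm alternative
(`IsCompactOperator.hasEigenvalue_or_mem_resolventSet` for `-K` and `μ = 1`:
`1` is not an eigenvalue of `-K`; then `1 - (-K)` is a unit, in particular onto) `T T'` is onto, so `T` is onto.
For `y = P y` let `T x = y`; applying `1 - P` gives `(1 - P) x = 0`, so `x = P x` and `P (A x) = y`.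
-/

namespace Pool.Agent.Lib.P9f173dW

open scoped ComplexConjugate

namespace FredAux

open Function

/-- injective and a compact perturbation of the identity implies surjective -/
theorem surjective_of_injective_of_compact {X : Type*} [NormedAddCommGroup X] [NormedSpace ℂ X]
    [CompleteSpace X] {T : X →L[ℂ] X} (hT : IsCompactOperator (T - 1 : X →L[ℂ] X))
    (hi : Injective T) : Surjective T := by
  have hT' : IsCompactOperator (1 - T : X →L[ℂ] X) := by
    have h1 := hT.neg
    have h2 : (-(⇑(T - 1)) : X → X) = ⇑(1 - T : X →L[ℂ] X) := by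
      ext x; simp
    rwa [h2] at h1
  rcases hT'.hasEigenvalue_or_mem_resolventSet (one_ne_zero) with h | h
  · exfalso
    obtain ⟨v, hv⟩ := h.exists_hasEigenvector
    have h1 := hv.apply_eq_smul
    have h2 : T v = 0 := by
      have : v - T v = v := by simpa using h1
      exact sub_eq_self.mp this
    exact hv.2 (hi (by rw [h2, map_zero]))
  · rw [spectrum.mem_resolventSet_iff, ContinuousLinearMap.isUnit_iff_bijective] at h
    intro y
    obtain ⟨x, hx⟩ := h.2 y
    refine ⟨x, ?_⟩
    rw [← hx]
    simp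

end FredAux

theorem toeplitz {H : Type*} [NormedAddCommGroup H] [NormedSpace ℂ H] [CompleteSpace H]
    (J : H → H) (hJadd : ∀ x y, J (x + y) = J x + J y) (hJJ : ∀ x, J (J x) = x)
    (P A A' : H →L[ℂ] H) (hP : P * P = P) (hPJ : ∀ x, P (J x) = J (P x))
    (hA : ∀ x, A' (J x) = J (A x)) (h1 : IsCompactOperator (A * A' - 1 : H →L[ℂ] H))
    (h2 : IsCompactOperator ((1 - P) * A' * P : H →L[ℂ] H))
    (hinj : ∀ x, P x = x → P (A x) = 0 → x = 0) :
    ∀ y, P y = y → ∃ x, P x = x ∧ P (A x) = y := by
  have hPP : ∀ x, P (P x) = P x := fun x => by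
    have := congrArg (fun T : H →L[ℂ] H => T x) hP
    simpa using this
  have hJ0 : J 0 = 0 := by
    have h := hJadd 0 0
    rw [add_zero] at h
    exact left_eq_add.mp h
  have hJsub : ∀ x y, J (x - y) = J x - J y := by
    intro x y
    have := hJadd (x - y) y
    rw [sub_add_cancel] at this
    rw [this, add_sub_cancel_right]
  let Q : H →L[ℂ] H := 1 - P
  have hQ : ∀ x, Q x = x - P x := fun x => rfl
  have hQP : ∀ x, Q (P x) = 0 := fun x => by rw [hQ, hPP, sub_self]
  have hPQ : ∀ x, P (Q x) = 0 := fun x => by rw [hQ, map_sub, hPP, sub_self]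
  have hQQ : ∀ x, Q (Q x) = Q x := fun x => by rw [hQ (Q x), hPQ, sub_zero]
  have hJQ : ∀ x, J (Q x) = Q (J x) := fun x => by rw [hQ, hQ, hJsub, hPJ]
  have hA' : ∀ x, A' x = J (A (J x)) := fun x => by rw [← hA, hJJ]
  let T : H →L[ℂ] H := P ∘L A ∘L P + Q
  let T' : H →L[ℂ] H := P ∘L A' ∘L P + Q
  have hT : ∀ x, T x = P (A (P x)) + Q x := fun x => rfl
  have hT' : ∀ x, T' x = P (A' (P x)) + Q x := fun x => rfl
  have hTJ : ∀ x, T' x = J (T (J x)) := by
    intro x
    rw [hT', hT, hJadd, hJQ, hJJ, hA', ← hPJ (A (P (J x))), ← hPJ x]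
  have hiT : Function.Injective T := by
    rw [injective_iff_map_eq_zero]
    intro x hx
    rw [hT] at hx
    have h1 : Q x = 0 := by
      have := congrArg Q hx
      rwa [map_add, hQP, hQQ, zero_add, map_zero] at this
    have h2 : P x = x := by
      rw [hQ] at h1
      exact (sub_eq_zero.mp h1).symm
    rw [h1, add_zero, h2] at hx
    exact hinj x h2 hx
  have hiT' : Function.Injective T' := by
    rw [injective_iff_map_eq_zero]
    intro x hx
    rw [hTJ] at hx
    have h1 := congrArg J hx
    rw [hJJ, hJ0] at h1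
    have h2 : J x = 0 := (injective_iff_map_eq_zero T).1 hiT _ h1
    rw [← hJJ x, h2, hJ0]
  have hcomp : IsCompactOperator (T ∘L T' - 1 : H →L[ℂ] H) := by
    have h3 : (T ∘L T' - 1 : H →L[ℂ] H) =
        P ∘L ((A * A' - 1) ∘L P) - P ∘L (A ∘L ((1 - P) * A' * P)) := by
      ext x
      have e1 : (T ∘L T' - 1 : H →L[ℂ] H) x = T (T' x) - x := rfl
      have e2 : (P ∘L ((A * A' - 1) ∘L P) - P ∘L (A ∘L ((1 - P) * A' * P)) : H →L[ℂ] H) x =
          P (A (A' (P x)) - P x) - P (A (Q (A' (P x)))) := rfl
      rw [e1, e2, hT, hT']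
      have h3 : P (P (A' (P x)) + Q x) = P (A' (P x)) := by
        rw [map_add, hPP, hPQ, add_zero]
      have h4 : Q (P (A' (P x)) + Q x) = Q x := by
        rw [map_add, hQP, hQQ, zero_add]
      rw [h3, h4]
      have h5 : P (A' (P x)) = A' (P x) - Q (A' (P x)) := by rw [hQ]; abel
      rw [h5, map_sub, map_sub, map_sub, hPP]
      have h6 : x = P x + Q x := by rw [hQ]; abel
      nth_rewrite 4 [h6]
      abel
    rw [h3]
    have h4 : IsCompactOperator (P ∘L ((A * A' - 1) ∘L P)) :=
      (h1.comp_clm P).clm_comp P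
    have h5 : IsCompactOperator (P ∘L (A ∘L ((1 - P) * A' * P))) :=
      (h2.clm_comp A).clm_comp P
    exact h4.sub h5
  have hs : Function.Surjective (T ∘L T') :=
    FredAux.surjective_of_injective_of_compact hcomp (hiT.comp hiT')
  intro y hy
  obtain ⟨z, hz⟩ := hs y
  have hz' : T (T' z) = y := hz
  rw [hT] at hz'
  have h3 : Q (T' z) = 0 := by
    have := congrArg Q hz'
    rw [map_add, hQP, hQQ, zero_add, hQ y, hy, sub_self] at this
    exact this
  have h4 : P (T' z) = T' z := by
    rw [hQ] at h3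
    exact (sub_eq_zero.mp h3).symm
  rw [h3, add_zero, h4] at hz'
  exact ⟨T' z, h4, hz'⟩

end Pool.Agent.Lib.P9f173dW
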