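import Pool.Agent.Lib.P9f173dW.OpP
import Pool.Agent.Lib.P9f173dW.Fred

/-!
# Module Core: a nonzero solution of the Riemann-Hilbert problem

PROOF.  Let `A`, `A'` be the operators of multiplication by `W` and `conj W` (`exists_opA`; the
hypotheses for `conj W` are those for `W`), `P2` as in `exists_P2`, `P = 1 - P2`, `J` as in `exists_J`.
`P2` is idempotent (`P2 h` has `pot (P2 h) ∈ D2`), so `P` is.  `P2 (J h) = J (P2 h)`: `pot (J (P2 h)) =
conj (pot (P2 h)) ∈ D2` and `pot (J h) - pot (J (P2 h)) = conj (pot h - pot (P2 h)) ∈ D1`, so by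
linearity `P2 (J h) = P2 (J h - J (P2 h)) + P2 (J (P2 h)) = 0 + J (P2 h)` (`pot` is linear).
`A A' - 1` is compact (`opA_comp`, `W conj W = 1`), `(1 - P) A' P = P2 A' (1 - P2)` is compact.
Range of `P`: `P h = h` iff `P2 h = 0` iff `pot h ∈ D1`.
CASE 1: there is `h ≠ 0` with `P h = h`, `P (A h) = 0`.  `φ = pot h ∈ D1`, `φ ∉ ℓ²` by `uniq` (`k = 0`), and
`P2 (A h) = A h`, `pot (A h) ∈ D2`, `W φ ∈ pot (A h) + const + ℓ² ⊆ D2`.
CASE 2: otherwise `toeplitz` applies.  Let `W = pot h₁ + k₁ + ℓ²` (`D.decomp` for `W`; `DC W` by the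
hypothesis) and `y = P h₁`.  There is `h` with `P h = h`, `P (A h) = P h₁`.  So
`A h - h₁ = P2 (A h - h₁)`, `pot (A h) - pot h₁ ∈ D2`, so `W (pot h - 1) ∈ D2`; `φ = pot h - 1 ∈ D1`.  If
`φ ∈ ℓ²` then `h = 0` by `uniq` (`k = 1`), `φ = -1`, not square summable since `C` is infinite.
-/

namespace Pool.Agent.Lib.P9f173dW

open Z9f173d

universe u

theorem core {C : Type u} [Group C] [Infinite C] {S : Finset C} {ℓ : C → ℝ} (hℓ : ∀ x, 0 ≤ ℓ x)
    (D : PotData C S ℓ) (E : DecData C S) (W : C → ℂ) (hW : ∀ x, ‖W x‖ = 1)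
    (hWd : ∀ c : C, Summable fun x => (1 + ℓ x) ^ 2 * ‖W (c⁻¹ * x) - W x‖ ^ 2) :
    ∃ φ ∈ E.D1, ¬ SQ φ ∧ (fun x => W x * φ x) ∈ E.D2 := by
  classical
  have hWc : ∀ x, W x * (starRingEnd ℂ) (W x) = 1 := fun x => by
    rw [Complex.mul_conj, Complex.normSq_eq_norm_sq, hW]; norm_num
  have hWK : ∀ x, ‖W x‖ ≤ 1 := fun x => (hW x).le
  have hWK' : ∀ x, ‖(starRingEnd ℂ) (W x)‖ ≤ 1 := fun x => by
    rw [RCLike.norm_conj]; exact hWK x
  have hWd' : ∀ c : C, Summable fun x =>
      (1 + ℓ x) ^ 2 * ‖(starRingEnd ℂ) (W (c⁻¹ * x)) - (starRingEnd ℂ) (W x)‖ ^ 2 := fun c => by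
    simpa only [← map_sub, RCLike.norm_conj] using hWd c
  have hDC : DC W := fun c => by
    refine Summable.of_nonneg_of_le (fun x => by positivity) (fun x => ?_) (hWd c)
    rw [df_apply]
    refine le_mul_of_one_le_left (by positivity) ?_
    nlinarith [hℓ x]
  obtain ⟨A, hA⟩ := exists_opA D W 1 hWK hWd
  obtain ⟨A', hA'⟩ := exists_opA D (fun x => (starRingEnd ℂ) (W x)) 1 hWK' hWd'
  obtain ⟨P2, hP2D2, hP2D1, hP2fix, hP2zero, hP2comp⟩ := exists_P2 D E
  obtain ⟨J, hJpot, hJadd, hJJ⟩ := exists_J D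
  have hJA : ∀ h, A' (J h) = J (A h) := fun h => J_opA D J hJpot W A A' hA hA' h
  have hP2P2 : ∀ h, P2 (P2 h) = P2 h := fun h => hP2fix _ (hP2D2 h)
  have hPapp : ∀ h, (1 - P2) h = h - P2 h := fun h => rfl
  have hP2z : ∀ h, P2 h = 0 ↔ D.pot h ∈ E.D1 := fun h => by
    refine ⟨fun h0 => ?_, hP2zero h⟩
    have h1 := hP2D1 h
    rwa [h0, map_zero, sub_zero] at h1
  have hPiff : ∀ h, (1 - P2) h = h ↔ D.pot h ∈ E.D1 := fun h => by
    rw [← hP2z, hPapp, sub_eq_self]
  have hPz : ∀ h, (1 - P2) h = 0 → D.pot h ∈ E.D2 := fun h h0 => by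
    rw [hPapp, sub_eq_zero] at h0
    rw [h0]
    exact hP2D2 h
  -- membership of `W pot h`
  have hWmem : ∀ h, D.pot (A h) ∈ E.D2 → (fun x => W x * D.pot h x) ∈ E.D2 := by
    intro h hAh
    obtain ⟨k, hk⟩ := hA h
    have h1 : (fun x => W x * D.pot h x) =
        D.pot (A h) + (fun _ => k) + fun x => W x * D.pot h x - D.pot (A h) x - k := by
      funext x
      simp only [Pi.add_apply]
      ring
    rw [h1]
    exact add_mem (add_mem hAh (E.const2 k)) (E.sq2 _ hk)
  by_cases hcase : ∃ h, (1 - P2) h = h ∧ (1 - P2) (A h) = 0 ∧ h ≠ 0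
  · obtain ⟨h, hPh, hPAh, hne⟩ := hcase
    refine ⟨D.pot h, (hPiff h).1 hPh, fun hsq => hne (D.uniq h 0 (by simpa using hsq)), ?_⟩
    exact hWmem h (hPz _ hPAh)
  · push Not at hcase
    have hJz : J 0 = 0 := by
      have h := hJadd 0 0
      rw [add_zero] at h
      exact left_eq_add.mp h
    have hJsub : ∀ x y, J (x - y) = J x - J y := by
      intro x y
      have := hJadd (x - y) y
      rw [sub_add_cancel] at this
      rw [this, add_sub_cancel_right]
    have hJP2 : ∀ h, P2 (J h) = J (P2 h) := fun h => by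
      have h1 : P2 (J (P2 h)) = J (P2 h) := by
        refine hP2fix _ ?_
        have h2 : D.pot (J (P2 h)) = fun x => (starRingEnd ℂ) (D.pot (P2 h) x) :=
          funext fun x => hJpot _ x
        rw [h2]
        exact E.conj2 _ (hP2D2 h)
      have h3 : P2 (J (h - P2 h)) = 0 := by
        refine hP2zero _ ?_
        have h2 : D.pot (J (h - P2 h)) = fun x => (starRingEnd ℂ) (D.pot (h - P2 h) x) :=
          funext fun x => hJpot _ x
        rw [h2]
        refine E.conj1 _ ?_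
        rw [map_sub]
        exact hP2D1 h
      have h4 : J h = J (h - P2 h) + J (P2 h) := by rw [← hJadd, sub_add_cancel]
      rw [h4, map_add, h3, h1, zero_add]
    have hTo := toeplitz J hJadd hJJ (1 - P2) A A'
      (by
        ext h
        change (h - P2 h) - P2 (h - P2 h) = h - P2 h
        rw [map_sub, hP2P2, sub_self, sub_zero])
      (fun h => by rw [hPapp, hPapp, hJP2, hJsub])
      hJA (opA_comp D W _ 1 hWK hWc hDC A A' hA hA')
      (by
        have h1 : (1 - (1 - P2) : D.H →L[ℂ] D.H) = P2 := sub_sub_cancel 1 P2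
        rw [h1]
        exact hP2comp _ 1 hWK' hWd' hℓ A' hA')
      (fun h h1 h2 => hcase h h1 h2)
    obtain ⟨k₁, hk₁⟩ := D.decomp W hDC
    set h₁ := D.prj (fun s => dL W hDC (s : C)) with hh₁
    obtain ⟨h, hPh, hPA⟩ := hTo ((1 - P2) h₁) (by
      change (h₁ - P2 h₁) - P2 (h₁ - P2 h₁) = h₁ - P2 h₁
      rw [map_sub, hP2P2, sub_self, sub_zero])
    have hpot2 : D.pot (A h - h₁) ∈ E.D2 := hPz _ (by rw [map_sub, hPA, sub_self])
    refine ⟨D.pot h - fun _ => 1, sub_mem ((hPiff h).1 hPh) (E.const1 1), fun hsq => ?_, ?_⟩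
    · have h0 : h = 0 := D.uniq h 1 hsq
      rw [h0, map_zero, zero_sub] at hsq
      have h2 : Summable fun _ : C => (1 : ℝ) := by
        refine hsq.congr fun x => ?_
        simp
      exact one_ne_zero (tendsto_nhds_unique tendsto_const_nhds h2.tendsto_cofinite_zero)
    · obtain ⟨k, hk⟩ := hA h
      have h1 : (fun x => W x * (D.pot h - fun _ => (1 : ℂ) : C → ℂ) x) =
          D.pot (A h - h₁) + (fun _ => k - k₁) +
            ((fun x => W x * D.pot h x - D.pot (A h) x - k) -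
              fun x => D.lpart (fun s => dL W hDC (s : C)) x) := by
        funext x
        have h2 := hk₁ x
        simp only [Pi.add_apply, Pi.sub_apply, map_sub]
        rw [mul_sub, mul_one]
        linear_combination -h2
      rw [h1]
      exact add_mem (add_mem hpot2 (E.const2 _)) (sub_mem (E.sq2 _ hk) (E.sq2 _ (sq_coe _)))

end Pool.Agent.Lib.P9f173dW
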