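import Pool.Agent.Lib.P9f173dW.Defs

/-!
# Module Sub: stability of the spaces of square summable functions

Everything is elementary manipulation of `SQ f = Summable fun x => ‖f x‖ ^ 2` (API in `Defs`:
`SQ.add, neg, sub, mono, comp, of_finite, finite`).  `M` is any normed group (`ℂ`, `ℝ`, `ℤ`,
`UnitAddCircle`).

PROOFS.
* `sq_zsmul` : `‖n • x‖ ≤ |n| ‖x‖` (`norm_zsmul_le`) and `SQ.mono`.
* `sq_of_cosets` : if `f` is square summable on every coset `x C` and vanishes outside the cosets
  `a C`, `a ∈ F`, `F` finite, then `f` is square summable.  Induction on `F`, or: the sum over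
  `a ∈ F` of `∑_c ‖f (a c)‖²` bounds every finite sum of `‖f x‖²`.  Alternatively: `f` is the
  sum/dominated by finitely many functions supported on one coset each, and for a function
  supported on `a C` use that `c ↦ a c` is injective with range containing the support
  (`Function.Injective.summable_iff`).
* `tr_mem_of` : an additive subgroup `B` of `G → M` stable under all translations
  `f ↦ f (g⁻¹ ·)` is stable under `tr M a` for every `a ∈ ℤ[G]`: induction on `a`
  (`MonoidAlgebra.induction_linear`, `tr_single`, `AddSubgroup.zsmul_mem`).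
* translations: `SQG`: `x ↦ g⁻¹ x` is injective.  `LC`: `f (g⁻¹ (x c)) = f ((g⁻¹ x) c)`.
  `BA`: `A.indicator (f (g⁻¹ ·))` is, outside the finitely many cosets where
  `g⁻¹ x ∈ A` and `x ∈ A` differ (`AI.fin` for `g⁻¹`), equal to the translate of `A.indicator f`;
  the difference of `A.indicator (x ↦ f (g⁻¹ x))` and `x ↦ A.indicator f (g⁻¹ x)` is in `LC` and supported
  in finitely many cosets: `sq_of_cosets`.
* `indicator_mem_LC` : `‖A.indicator f x‖ ≤ ‖f x‖`.
* `indicator_mem_BA` : `A.indicator (Aᶜ.indicator f) = 0`.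
* `sq_of_mem_BA` : `f = A.indicator f + Aᶜ.indicator f`.
* `tr_indicator` : induction on `a`; for `a = single g z`:
  `f (g⁻¹ x) (1_A(g⁻¹ x) - 1_A(x))` is in `LC` and vanishes outside finitely many cosets.
* `mact_indicator`, `mact_mem`, `fpair_mem` : finite sums of the previous.
* `mact_indicator_support` : the value at `x` is a sum of terms
  `z • f_j (g⁻¹ x) (1_A(g⁻¹ x) - 1_A(x))`, `g` in the (finite) supports of the entries of `D`; take
  the union of the sets `F` of `AI.fin g⁻¹`.  (First for one element `a`, by induction on `a`.)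
-/

namespace Pool.Agent.Lib.P9f173dW

open Z9f173d

variable {G : Type*} [Group G] {M : Type*} [NormedAddCommGroup M] {C : Subgroup G} {A : Set G}

theorem sq_zsmul {X : Type*} {f : X → M} (hf : SQ f) (n : ℤ) : SQ (n • f) := by
  refine hf.mono ‖n‖ fun x => ?_
  simpa using norm_zsmul_le n (f x)

namespace SubAux

theorem indicator_sq {f : G → M} (s : Set G) (hf : SQ f) : SQ (s.indicator f) :=
  hf.mono 1 fun x => by rw [one_mul]; exact norm_indicator_le_norm_self f x

theorem indicator_LC {f : G → M} (s : Set G) (hf : f ∈ LC C M) : s.indicator f ∈ LC C M := by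
  rw [mem_LC] at hf ⊢
  intro x
  exact (hf x).mono 1 fun c => by rw [one_mul]; exact norm_indicator_le_norm_self f _

theorem sq_one_coset (a : G) (f : G → M) (hf : f ∈ LC C M) (h : ∀ x, f x ≠ 0 → a⁻¹ * x ∈ C) :
    SQ f := by
  have hi : Function.Injective (fun c : C => a * (c : G)) := fun c d hcd =>
    Subtype.ext (mul_left_cancel hcd)
  have h1 : Summable ((fun x => ‖f x‖ ^ 2) ∘ fun c : C => a * (c : G)) := hf a
  refine (hi.summable_iff ?_).1 h1
  intro x hx
  by_contra h2
  apply hx
  have h3 : f x ≠ 0 := by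
    intro h4
    apply h2
    simp [h4]
  exact ⟨⟨a⁻¹ * x, h x h3⟩, by simp⟩

end SubAux

/-- The key lemma: finitely many cosets. -/
theorem sq_of_cosets (F : Finset G) (f : G → M) (hf : f ∈ LC C M)
    (h : ∀ x, f x ≠ 0 → ∃ a ∈ F, a⁻¹ * x ∈ C) : SQ f := by
  classical
  induction F using Finset.induction_on generalizing f with
  | empty =>
    have : f = 0 := by
      ext x
      by_contra hx
      obtain ⟨a, ha, _⟩ := h x hx
      simp at ha
    rw [this]
    exact SQ.zero
  | insert a F _ ih =>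
    have h1 : SQ (({x | a⁻¹ * x ∈ C} : Set G).indicator f) := by
      refine SubAux.sq_one_coset a _ (SubAux.indicator_LC _ hf) fun x hx => ?_
      by_contra h2
      have h3 : x ∉ ({x | a⁻¹ * x ∈ C} : Set G) := h2
      exact hx (Set.indicator_of_notMem h3 f)
    have h2 : SQ (({x | a⁻¹ * x ∈ C} : Set G)ᶜ.indicator f) := by
      refine ih _ (SubAux.indicator_LC _ hf) fun x hx => ?_
      have hxm : x ∈ ({x | a⁻¹ * x ∈ C} : Set G)ᶜ := by
        by_contra h3
        exact hx (Set.indicator_of_notMem h3 f)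
      rw [Set.indicator_of_mem hxm] at hx
      obtain ⟨b, hb, hbx⟩ := h x hx
      rcases Finset.mem_insert.1 hb with rfl | hb
      · exact absurd hbx hxm
      · exact ⟨b, hb, hbx⟩
    have h3 := h1.add h2
    rwa [Set.indicator_self_add_compl] at h3

theorem tr_mem_of (B : AddSubgroup (G → M)) (hB : ∀ (g : G), ∀ f ∈ B, (fun x => f (g⁻¹ * x)) ∈ B)
    (a : MonoidAlgebra ℤ G) {f : G → M} (hf : f ∈ B) : tr M a f ∈ B := by
  induction a using MonoidAlgebra.induction_linear with
  | zero => rw [map_zero, end_zero_apply]; exact B.zero_mem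
  | add a b ha hb => rw [map_add, end_add_apply]; exact B.add_mem ha hb
  | single g z =>
    have h : tr M (MonoidAlgebra.single g z) f = z • (fun x => f (g⁻¹ * x)) := by
      ext x
      rw [tr_single]
      rfl
    rw [h]
    exact B.zsmul_mem (hB g f hf) z

theorem tr_mem_SQG (a : MonoidAlgebra ℤ G) {f : G → M} (hf : f ∈ SQG G M) :
    tr M a f ∈ SQG G M :=
  tr_mem_of _ (fun g _ hf => SQ.comp hf (mul_right_injective g⁻¹)) a hf

namespace SubAux

theorem transl_LC (g : G) {f : G → M} (hf : f ∈ LC C M) : (fun x => f (g⁻¹ * x)) ∈ LC C M := by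
  intro x
  have h := hf (g⁻¹ * x)
  simpa only [mul_assoc] using h

/-- the commutator of a translation and an indicator -/
theorem comm_support (g : G) (f : G → M) (x : G)
    (h : ((fun x => A.indicator f (g⁻¹ * x)) - A.indicator (fun x => f (g⁻¹ * x))) x ≠ 0) :
    ¬ (g⁻¹ * x ∈ A ↔ x ∈ A) := by
  intro h1
  apply h
  by_cases hx : x ∈ A
  · have hgx : g⁻¹ * x ∈ A := h1.2 hx
    simp [Set.indicator_of_mem hx, Set.indicator_of_mem hgx]
  · have hgx : g⁻¹ * x ∉ A := fun h2 => hx (h1.1 h2)
    simp [Set.indicator_of_notMem hx, Set.indicator_of_notMem hgx]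

theorem comm_sq (hA : AI C A) (g : G) {f : G → M} (hf : f ∈ LC C M) :
    SQ ((fun x => A.indicator f (g⁻¹ * x)) - A.indicator (fun x => f (g⁻¹ * x))) := by
  obtain ⟨F, hF⟩ := hA.fin g⁻¹
  exact sq_of_cosets F _ (AddSubgroup.sub_mem _ (transl_LC g (indicator_LC A hf))
    (indicator_LC A (transl_LC g hf))) fun x hx => hF x (comm_support g f x hx)

end SubAux

theorem tr_mem_LC (a : MonoidAlgebra ℤ G) {f : G → M} (hf : f ∈ LC C M) :
    tr M a f ∈ LC C M :=
  tr_mem_of _ (fun g _ hf => SubAux.transl_LC g hf) a hf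

theorem tr_mem_BA (hA : AI C A) (a : MonoidAlgebra ℤ G) {f : G → M} (hf : f ∈ BA C A M) :
    tr M a f ∈ BA C A M := by
  refine tr_mem_of (BA C A M) (fun g f hf => mem_BA.2 ⟨SubAux.transl_LC g hf.1, ?_⟩) a hf
  have h1 : SQ (fun x => A.indicator f (g⁻¹ * x)) := SQ.comp hf.2 (mul_right_injective g⁻¹)
  have h2 := h1.sub (SubAux.comm_sq hA g hf.1)
  rwa [sub_sub_cancel] at h2

theorem SQG_le_LC : SQG G M ≤ LC C M := by
  intro f hf x
  exact SQ.comp hf fun c d hcd => Subtype.ext (mul_left_cancel hcd)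

theorem SQG_le_BA : SQG G M ≤ BA C A M :=
  fun _ hf => ⟨SQG_le_LC hf, SubAux.indicator_sq A hf⟩

theorem BA_le_LC : BA C A M ≤ LC C M := fun _ h => h.1

theorem sq_of_mem_BA {f : G → M} (h1 : f ∈ BA C A M) (h2 : f ∈ BA C Aᶜ M) : SQ f := by
  have h3 := h1.2.add h2.2
  rwa [Set.indicator_self_add_compl] at h3

theorem indicator_mem_LC {f : G → M} (hf : f ∈ LC C M) : A.indicator f ∈ LC C M :=
  SubAux.indicator_LC A hf

theorem indicator_compl_mem_BA {f : G → M} (hf : f ∈ LC C M) : Aᶜ.indicator f ∈ BA C A M := by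
  refine ⟨SubAux.indicator_LC _ hf, ?_⟩
  have : A.indicator (Aᶜ.indicator f) = 0 := by
    rw [Set.indicator_indicator, Set.inter_compl_self, Set.indicator_empty']
  rw [this]
  exact SQ.zero

theorem indicator_mem_BA_compl {f : G → M} (hf : f ∈ LC C M) : A.indicator f ∈ BA C Aᶜ M := by
  refine ⟨SubAux.indicator_LC _ hf, ?_⟩
  have : Aᶜ.indicator (A.indicator f) = 0 := by
    rw [Set.indicator_indicator, Set.compl_inter_self, Set.indicator_empty']
  rw [this]
  exact SQ.zero

namespace SubAux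

theorem single_eq (A : Set G) (g : G) (z : ℤ) (f : G → M) :
    tr M (MonoidAlgebra.single g z) (A.indicator f) -
        A.indicator (tr M (MonoidAlgebra.single g z) f) =
      z • ((fun x => A.indicator f (g⁻¹ * x)) - A.indicator (fun x => f (g⁻¹ * x))) := by
  ext x
  simp only [Pi.sub_apply, Pi.smul_apply, tr_single]
  by_cases hx : x ∈ A
  · rw [Set.indicator_of_mem hx, Set.indicator_of_mem hx, tr_single, smul_sub]
  · rw [Set.indicator_of_notMem hx, Set.indicator_of_notMem hx, sub_zero, sub_zero]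

theorem zero_eq (A : Set G) (f : G → M) :
    tr M 0 (A.indicator f) - A.indicator (tr M 0 f) = 0 := by
  rw [map_zero, end_zero_apply, end_zero_apply, Set.indicator_zero', sub_zero]

theorem add_eq (A : Set G) (a b : MonoidAlgebra ℤ G) (f : G → M) :
    tr M (a + b) (A.indicator f) - A.indicator (tr M (a + b) f) =
      (tr M a (A.indicator f) - A.indicator (tr M a f)) +
        (tr M b (A.indicator f) - A.indicator (tr M b f)) := by
  rw [map_add, end_add_apply, end_add_apply, Set.indicator_add']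
  abel

end SubAux

theorem tr_indicator (hA : AI C A) (a : MonoidAlgebra ℤ G) {f : G → M} (hf : f ∈ LC C M) :
    tr M a (A.indicator f) - A.indicator (tr M a f) ∈ SQG G M := by
  induction a using MonoidAlgebra.induction_linear with
  | zero => rw [SubAux.zero_eq]; exact AddSubgroup.zero_mem _
  | add a b ha hb => rw [SubAux.add_eq]; exact AddSubgroup.add_mem _ ha hb
  | single g z =>
    rw [SubAux.single_eq]
    exact AddSubgroup.zsmul_mem _ (SubAux.comm_sq hA g hf) z

theorem mact_mem (B : AddSubgroup (G → M)) (hB : ∀ (a : MonoidAlgebra ℤ G), ∀ f ∈ B, tr M a f ∈ B)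
    {m n : ℕ} (D : Matrix (Fin m) (Fin n) (MonoidAlgebra ℤ G)) (f : Fin n → G → M)
    (hf : ∀ j, f j ∈ B) (i : Fin m) : mact (tr M) D f i ∈ B := by
  rw [mact_apply]
  exact AddSubgroup.sum_mem _ fun j _ => hB _ _ (hf j)

theorem fpair_mem (B : AddSubgroup (G → M)) (hB : ∀ (a : MonoidAlgebra ℤ G), ∀ f ∈ B, tr M a f ∈ B)
    {n : ℕ} (f : Fin n → G → M) (hf : ∀ j, f j ∈ B) (v : Fin n → MonoidAlgebra ℤ G) :
    fpair f v ∈ B := by
  rw [fpair]
  exact AddSubgroup.sum_mem _ fun j _ => hB _ _ (hf j)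

namespace SubAux

theorem indicator_sum {ι : Type*} (s : Finset ι) (A : Set G) (f : ι → G → M) :
    A.indicator (∑ j ∈ s, f j) = ∑ j ∈ s, A.indicator (f j) := by
  classical
  induction s using Finset.induction_on with
  | empty => simp
  | insert a s ha ih => rw [Finset.sum_insert ha, Finset.sum_insert ha, Set.indicator_add', ih]

theorem mact_eq (A : Set G) {m n : ℕ} (D : Matrix (Fin m) (Fin n) (MonoidAlgebra ℤ G))
    (f : Fin n → G → M) (i : Fin m) :
    mact (tr M) D (fun j => A.indicator (f j)) i - A.indicator (mact (tr M) D f i) =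
      ∑ j, (tr M (D i j) (A.indicator (f j)) - A.indicator (tr M (D i j) (f j))) := by
  rw [mact_apply, mact_apply, indicator_sum, Finset.sum_sub_distrib]

theorem tr_support (hA : AI C A) (a : MonoidAlgebra ℤ G) :
    ∃ F : Finset G, ∀ (f : G → M) (x : G),
      (tr M a (A.indicator f) - A.indicator (tr M a f)) x ≠ 0 → ∃ a ∈ F, a⁻¹ * x ∈ C := by
  classical
  induction a using MonoidAlgebra.induction_linear with
  | zero =>
    refine ⟨∅, fun f x hx => ?_⟩
    rw [zero_eq] at hx
    exact absurd rfl hx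
  | add a b ha hb =>
    obtain ⟨F, hF⟩ := ha
    obtain ⟨F', hF'⟩ := hb
    refine ⟨F ∪ F', fun f x hx => ?_⟩
    rw [add_eq, Pi.add_apply] at hx
    by_cases h1 : (tr M a (A.indicator f) - A.indicator (tr M a f)) x = 0
    · rw [h1, zero_add] at hx
      obtain ⟨c, hc, hcx⟩ := hF' f x hx
      exact ⟨c, Finset.mem_union_right _ hc, hcx⟩
    · obtain ⟨c, hc, hcx⟩ := hF f x h1
      exact ⟨c, Finset.mem_union_left _ hc, hcx⟩
  | single g z =>
    obtain ⟨F, hF⟩ := hA.fin g⁻¹
    refine ⟨F, fun f x hx => hF x (comm_support g f x fun h => hx ?_)⟩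
    rw [single_eq, Pi.smul_apply, h, smul_zero]

end SubAux

theorem mact_indicator (hA : AI C A) {m n : ℕ} (D : Matrix (Fin m) (Fin n) (MonoidAlgebra ℤ G))
    (f : Fin n → G → M) (hf : ∀ j, f j ∈ LC C M) (i : Fin m) :
    mact (tr M) D (fun j => A.indicator (f j)) i - A.indicator (mact (tr M) D f i) ∈ SQG G M := by
  rw [SubAux.mact_eq]
  exact AddSubgroup.sum_mem _ fun j _ => tr_indicator hA _ (hf j)

/-- The support of the commutator with the indicator of an almost invariant set. -/
theorem mact_indicator_support (hA : AI C A) {m n : ℕ}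
    (D : Matrix (Fin m) (Fin n) (MonoidAlgebra ℤ G)) :
    ∃ F : Finset G, ∀ (f : Fin n → G → M) (i : Fin m) (x : G),
      (mact (tr M) D (fun j => A.indicator (f j)) i - A.indicator (mact (tr M) D f i)) x ≠ 0 →
        ∃ a ∈ F, a⁻¹ * x ∈ C := by
  classical
  choose F hF using fun a : MonoidAlgebra ℤ G => SubAux.tr_support (M := M) hA a
  refine ⟨Finset.univ.biUnion fun p : Fin m × Fin n => F (D p.1 p.2), fun f i x hx => ?_⟩
  rw [SubAux.mact_eq, Finset.sum_apply] at hx
  obtain ⟨j, _, hj⟩ := Finset.exists_ne_zero_of_sum_ne_zero hx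
  obtain ⟨c, hc, hcx⟩ := hF _ _ x hj
  exact ⟨c, Finset.mem_biUnion.2 ⟨(i, j), Finset.mem_univ _, hc⟩, hcx⟩

theorem mem_LC_int {f : G → ℤ} : f ∈ LC C ℤ ↔ ∀ x : G, {c : C | f (x * c) ≠ 0}.Finite := by
  rw [mem_LC]
  exact forall_congr' fun x => ⟨fun h => h.finite, fun h => SQ.of_finite h⟩

theorem mem_SQG_int {f : G → ℤ} : f ∈ SQG G ℤ ↔ (Function.support f).Finite :=
  ⟨fun h => SQ.finite h, fun h => SQ.of_finite h⟩

end Pool.Agent.Lib.P9f173dW
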