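import Pool.Agent.Lib.P9f173dW.Path
import Pool.Agent.Lib.P9f173dW.Sub

/-!
# Module Deg1: functions with square summable differences on an acyclic group

If the homology of `R` with coefficients in the reduced algebra vanishes in degrees `0, 1, 2` and
`f : G → ℂ` has square summable differences `g f - f`, then `f` is a constant plus a square
summable function.

PROOF.  Apply `Z9f173d.exact_all C h0 h1 h2 ρ hρ` (`Z9f173d/Rep.lean`) to `ρ = lreg` (weak containment is
trivial: `fun e => le_rfl`); its second component says that an `ℓ²`-cocycle of degree `1` is a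
coboundary.  The cochain `b = mact (tr ℂ) (R.d 0) (jm R f)` is in `SQG G ℂ` entrywise (`jm_mem` with
`tr_mem_SQG`), so it is the image of a vector `v : Fin (rank 1) → L2 G` (`ofSQ`), and it is a cocycle
(`mact_mul`, `R.d_mul_d`, `mact_zero`).  For vectors of `L2 G` the action `vth lreg` is the
restriction of `tr ℂ`: `(vth lreg a v : G → ℂ) = tr ℂ a v` (use `mact_nat` with the additive
inclusion `L2 G →+ (G → ℂ)`, and `th_nat`).  So `b = mact (tr ℂ) (R.d 0) q` with `q` square summable
entrywise, and `const_of_cocycle` applied to `jm R f - q` gives `κ` with `aug b • f - q_b = aug b • κ`.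
Choose `b` with `aug b ≠ 0` (`Z9f173d.exists_aug_ne`) and divide.
-/

namespace Pool.Agent.Lib.P9f173dW

open Z9f173d
open scoped Matrix

/-- the additive inclusion of `ℓ²(G)` in the functions -/
def incl (G : Type*) : L2 G →+ (G → ℂ) where
  toFun v := fun x => v x
  map_zero' := rfl
  map_add' _ _ := rfl

@[simp] theorem incl_apply {G : Type*} (v : L2 G) (x : G) : incl G v x = v x := rfl

theorem incl_vth {G : Type*} [Group G] (a : MonoidAlgebra ℤ G) (v : L2 G) :
    incl G (vth lreg a v) = tr ℂ a (incl G v) :=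
  th_nat _ _ (incl G) (fun _ _ => rfl) a v

theorem incl_mact {G : Type*} [Group G] {m n : ℕ} (D : Matrix (Fin m) (Fin n) (MonoidAlgebra ℤ G))
    (v : Fin n → L2 G) : mact (tr ℂ) D (fun j => incl G (v j))
      = fun i => incl G (mact (vth lreg) D v i) :=
  mact_nat (vth lreg) (tr ℂ) (incl G) (fun a w => incl_vth a w) D v

theorem deg1 {G : Type*} [Group G] (R : FinRes G) (h0 : ¬ Nontrivial (R.homology 0))
    (h1 : ¬ Nontrivial (R.homology 1)) (h2 : ¬ Nontrivial (R.homology 2)) (f : G → ℂ)
    (hf : ∀ g, SQ (df g f)) : ∃ k : ℂ, SQ fun x => f x - k := by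
  have hb : ∀ i, mact (tr ℂ) (R.d 0) (jm R f) i ∈ SQG G ℂ :=
    jm_mem R (SQG G ℂ) (fun a g hg => tr_mem_SQG a hg) f hf
  set v : Fin (R.rank 1) → L2 G := fun i => ofSQ (mact (tr ℂ) (R.d 0) (jm R f) i) (hb i) with hv
  have hincl : (fun i => incl G (v i)) = mact (tr ℂ) (R.d 0) (jm R f) := by
    funext i x
    rfl
  have hinj : ∀ u : L2 G, incl G u = 0 → u = 0 := by
    intro u hu
    ext x
    exact congrFun hu x
  have hcoc : mact (vth lreg) (R.d 1) v = 0 := by
    funext i
    apply hinj
    have h1 := congrFun (incl_mact (R.d 1) v) i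
    rw [hincl, ← mact_mul, R.d_mul_d 0, mact_zero] at h1
    exact h1.symm
  obtain ⟨w, hw⟩ := (exact_all R h0 h1 h2 (lreg : G →* (L2 G →L[ℂ] L2 G)) (fun e => le_rfl)).2.1 v hcoc
  have hF : mact (tr ℂ) (R.d 0) (jm R f - fun j => incl G (w j)) = 0 := by
    rw [map_sub, incl_mact, hw, hincl, sub_self]
  obtain ⟨κ, hκ⟩ := R.const_of_cocycle _ hF
  obtain ⟨b, hb0⟩ := exists_aug_ne R
  refine ⟨κ, (sq_coe (w b)).mono 1 (fun x => ?_)⟩
  have h3 : R.aug b • f x - w b x = R.aug b • κ := hκ b x
  have h4 : ((R.aug b : ℤ) : ℂ) * (f x - κ) = w b x := by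
    rw [zsmul_eq_mul, zsmul_eq_mul] at h3
    linear_combination h3
  rw [one_mul, ← h4, norm_mul, Complex.norm_intCast]
  have h5 : (1 : ℝ) ≤ |((R.aug b : ℤ) : ℝ)| := by
    exact_mod_cast Int.one_le_abs hb0
  have h6 := norm_nonneg (f x - κ)
  nlinarith

end Pool.Agent.Lib.P9f173dW
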