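import Pool.Agent.Lib.P9f173dW.Defs

/-!
# Module Rep: functions on `C` that are given by operators in the reduced algebra

`Rep Θ`: the function `Θ α` on `C`, depending on a function `α` with square summable differences, is
a finite sum `∑_c T_c (c α - α)` with `T_c` in the reduced algebra of `C`.

PROOFS: all immediate.  For `add`, `sum`: take unions of the finite sets, with
`T c = if c ∈ F then .. else 0`.  `shift`: `F = {c⁻¹}`, `T = 1`: `α (c x) - α x = dL α hα c⁻¹ x`.
`comp`: `T'` in the reduced algebra; `T' ∘ T_c` is in the reduced algebra and `T'` is linear.  `sq`: finite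
sum of elements of `ℓ²`.
-/

namespace Pool.Agent.Lib.P9f173dW

open Z9f173d

variable {C : Type*} [Group C]

/-- see the header -/
def Rep (Θ : ∀ α : C → ℂ, DC α → C → ℂ) : Prop :=
  ∃ (F : Finset C) (T : C → (L2 C →L[ℂ] L2 C)), (∀ c, T c ∈ RedCStar C) ∧
    ∀ α hα x, Θ α hα x = (∑ c ∈ F, T c (dL α hα c)) x

theorem sum_coe {ι : Type*} (s : Finset ι) (f : ι → L2 C) (x : C) :
    (∑ i ∈ s, f i) x = ∑ i ∈ s, f i x := by
  rw [lp.coeFn_sum, Finset.sum_apply]

theorem Rep.zero : Rep (C := C) fun _ _ _ => 0 :=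
  ⟨∅, fun _ => 0, fun _ => Subalgebra.zero_mem _, fun α hα x => by simp⟩

theorem Rep.add {Θ Θ' : ∀ α : C → ℂ, DC α → C → ℂ} (h : Rep Θ) (h' : Rep Θ') :
    Rep fun α hα x => Θ α hα x + Θ' α hα x := by
  classical
  obtain ⟨F, T, hT, h⟩ := h
  obtain ⟨F', T', hT', h'⟩ := h'
  refine ⟨F ∪ F', fun c => (if c ∈ F then T c else 0) + (if c ∈ F' then T' c else 0),
    fun c => ?_, fun α hα x => ?_⟩
  · refine Subalgebra.add_mem _ ?_ ?_
    · split_ifs
      · exact hT c
      · exact Subalgebra.zero_mem _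
    · split_ifs
      · exact hT' c
      · exact Subalgebra.zero_mem _
  · show Θ α hα x + Θ' α hα x = _
    rw [h α hα x, h' α hα x, sum_coe, sum_coe, sum_coe]
    have h1 : ∑ c ∈ F, (T c (dL α hα c)) x
        = ∑ c ∈ F ∪ F', ((if c ∈ F then T c else 0) (dL α hα c)) x := by
      rw [← Finset.sum_subset (Finset.subset_union_left (s₁ := F) (s₂ := F'))]
      · exact Finset.sum_congr rfl fun c hc => by rw [if_pos hc]
      · intro c _ hc
        rw [if_neg hc]
        simp
    have h2 : ∑ c ∈ F', (T' c (dL α hα c)) x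
        = ∑ c ∈ F ∪ F', ((if c ∈ F' then T' c else 0) (dL α hα c)) x := by
      rw [← Finset.sum_subset (Finset.subset_union_right (s₁ := F) (s₂ := F'))]
      · exact Finset.sum_congr rfl fun c hc => by rw [if_pos hc]
      · intro c _ hc
        rw [if_neg hc]
        simp
    rw [h1, h2, ← Finset.sum_add_distrib]
    exact Finset.sum_congr rfl fun c _ => rfl

theorem Rep.zsmul {Θ : ∀ α : C → ℂ, DC α → C → ℂ} (h : Rep Θ) (z : ℤ) :
    Rep fun α hα x => z • Θ α hα x := by
  obtain ⟨F, T, hT, h⟩ := h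
  refine ⟨F, fun c => z • T c, fun c => ?_, fun α hα x => ?_⟩
  · exact zsmul_mem (hT c) z
  · show z • Θ α hα x = _
    rw [h α hα x, sum_coe, sum_coe, Finset.smul_sum]
    exact Finset.sum_congr rfl fun c _ => rfl

theorem Rep.neg {Θ : ∀ α : C → ℂ, DC α → C → ℂ} (h : Rep Θ) :
    Rep fun α hα x => - Θ α hα x := by
  have h1 := h.zsmul (-1)
  simpa using h1

theorem Rep.sum {ι : Type*} (s : Finset ι) {Θ : ι → ∀ α : C → ℂ, DC α → C → ℂ}
    (h : ∀ i ∈ s, Rep (Θ i)) : Rep fun α hα x => ∑ i ∈ s, Θ i α hα x := by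
  classical
  induction s using Finset.induction_on with
  | empty => simpa using (Rep.zero (C := C))
  | insert a s ha ih =>
    simp only [Finset.sum_insert ha]
    exact (h a (Finset.mem_insert_self a s)).add
      (ih fun i hi => h i (Finset.mem_insert_of_mem hi))

theorem Rep.shift (c : C) : Rep fun α _ x => α (c * x) - α x :=
  ⟨{c⁻¹}, fun _ => 1, fun _ => Subalgebra.one_mem _, fun α hα x => by
    rw [Finset.sum_singleton]
    show α (c * x) - α x = dL α hα c⁻¹ x
    rw [dL_apply, inv_inv]⟩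

theorem Rep.sq {Θ : ∀ α : C → ℂ, DC α → C → ℂ} (h : Rep Θ) (α : C → ℂ) (hα : DC α) :
    SQ (Θ α hα) := by
  obtain ⟨F, T, hT, h⟩ := h
  have h1 : Θ α hα = fun x => (∑ c ∈ F, T c (dL α hα c)) x := by
    funext x
    exact h α hα x
  rw [h1]
  exact sq_coe _

theorem Rep.comp {Θ : ∀ α : C → ℂ, DC α → C → ℂ} (h : Rep Θ) (T' : L2 C →L[ℂ] L2 C)
    (hT' : T' ∈ RedCStar C) : Rep fun α hα x => T' (ofSQ (Θ α hα) (h.sq α hα)) x := by
  have hsq := h.sq
  obtain ⟨F, T, hT, h⟩ := h
  refine ⟨F, fun c => T' * T c, fun c => Subalgebra.mul_mem _ hT' (hT c), fun α hα x => ?_⟩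
  have h1 : ofSQ (Θ α hα) (hsq α hα) = ∑ c ∈ F, T c (dL α hα c) := by
    ext y
    rw [ofSQ_apply]
    exact h α hα y
  show (T' (ofSQ (Θ α hα) (hsq α hα))) x = _
  rw [h1, map_sum]
  rfl

/-- Finitely many at a time. -/
theorem Rep.finset (S : Finset C) {Θ : C → ∀ α : C → ℂ, DC α → C → ℂ} (h : ∀ s, Rep (Θ s)) :
    ∃ (F : Finset C) (T : C → C → (L2 C →L[ℂ] L2 C)), (∀ s c, T s c ∈ RedCStar C) ∧
      ∀ s ∈ S, ∀ α hα x, Θ s α hα x = (∑ c ∈ F, T s c (dL α hα c)) x := by
  classical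
  choose F T hT h using h
  refine ⟨S.biUnion F, fun s c => if c ∈ F s then T s c else 0, fun s c => ?_,
    fun s hs α hα x => ?_⟩
  · dsimp only
    split_ifs
    · exact hT s c
    · exact Subalgebra.zero_mem _
  · rw [h s α hα x, sum_coe, sum_coe,
      ← Finset.sum_subset (Finset.subset_biUnion_of_mem F hs)]
    · refine Finset.sum_congr rfl fun c hc => ?_
      show (T s c (dL α hα c)) x = ((if c ∈ F s then T s c else 0) (dL α hα c)) x
      rw [if_pos hc]
    · intro c _ hc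
      show ((if c ∈ F s then T s c else 0) (dL α hα c)) x = 0
      rw [if_neg hc]
      simp

end Pool.Agent.Lib.P9f173dW
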