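import Pool.Agent.Lib.P9f173dW.Compr
import Pool.Agent.Lib.P9f173dW.Deg1
import Pool.Agent.Lib.P9f173dW.Rep

/-!
# Module Dec: decomposition of the functions on `C` with square summable differences

`R` is acyclic in degrees `0, 1, 2`, `A` a `C`-almost invariant set, `S` a finite subset of `C`.  Every
`α : C → ℂ` with square summable differences is `(α - f) + f` with `f ∈ Dres C Aᶜ`,
`α - f ∈ Dres C A` and `s f - f = ∑_c T_{s,c} (c α - α)`, `T_{s,c}` in the reduced algebra of `C`.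

PROOF.  Let `tau C : G → C` be as in `Z9f173d/Quasi.lean` (`x = out (x C) * tau C x`,
`tau_mul : tau C (x c) = tau C x * c`).  Put `at x = α (tau C x)`.
(1) RepF calculus.  Call `Φ : ∀ α, DC α → G → ℂ` an RepF if for every `x : G` the function
`(α, c) ↦ Φ α (x c)` is `Rep` (Module Rep).  RepF's are stable under sums, `tr ℂ a` (induction on `a`:
`Φ (g⁻¹ x c)`), `mact`, `fpair _ v`, and under `A.indicator` (by `AI.inv`, `x c ∈ A ↔ x ∈ A`).
(2) For every `a ∈ ℤ[G]` and `x`: `(α, c) ↦ tr ℂ a at (x c) - eps a • α c` is `Rep`: induction on `a`,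
`at (g⁻¹ x c) = α (tau C (g⁻¹ x) * c)` and `Rep.shift`.  Hence `b = mact (tr ℂ) (R.d 0) (jm R at)` is RepF:
`b_i = tr (∑_b aug b • d_{ib}) at` and the augmentation of `∑_b aug b • d_{ib}` is `0`
(`R.sum_row_zero`).  Also `df g at` is RepF, and `fpair (jm R at) x0 - at` is RepF: with
`fpair (jm R at) x0 = tr (∑ aug b • x0_b) at`, `eps = 1`, and `at (x c) - α c` is Rep.  In
particular (`Rep.sq`) `b_i ∈ LC C ℂ`, `df g at ∈ LC C ℂ`.
(3) `κ = mact (tr ℂ) (R.d 1) (Aᶜ.indicator ∘ b)` is RepF; since `mact (R.d 1) b = 0`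
(`mact_mul, d_mul_d`), `κ_i = mact .. (Aᶜ.indicator ∘ b) i - Aᶜ.indicator (mact .. b i)` is
supported in finitely many cosets not depending on `α` (`mact_indicator_support hA.compl`) and is
square summable (`mact_indicator`).  `mact (R.d 2) κ = 0`.
(4) Let `S1` be as in `exists_h2` and `lam_i = ∑_j S1 i j κ_j ∈ ℓ²(G)` (`κ_j` as a vector, `ofSQ`); by
`exists_h2` (and `incl_mact` to pass between `vth lreg` and `tr ℂ`) `mact (R.d 1) lam = κ`.
`lam` is RepF: choose a finite set `F'` of representatives of DISTINCT cosets containing the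
support of all `κ_j`; then `κ_j = ∑_{a ∈ F'} extC C a (κ_j(a ·))` and
`lam_i (x c) = ∑_j ∑_{a ∈ F'} (compression of S1 i j to (x, a)) (κ_j (a ·)) (c)` by `compr`; use
`Rep.comp`, `Rep.sum`.
(5) `ω2 = A.indicator ∘ b + lam` is RepF, entrywise in `BA C Aᶜ ℂ` (`indicator_mem_BA_compl`,
`SQG_le_BA`), and a cocycle: `mact (R.d 1) (A.indicator ∘ b) = mact (R.d 1) b - κ = - κ`... precisely
`b = A.indicator b + Aᶜ.indicator b`, so `mact (R.d 1) (A.indicator ∘ b) = - κ`, and
`mact (R.d 1) lam = κ`.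
Let `ω2 = mact (R.d 0) p2` (`R.exists_primitive`, `ℂ` divisible) and `F2 = fpair p2 x0`
(`R.augMap x0 = 1`, `R.exists_x`).  By `df_mem` `df g F2 ∈ BA C Aᶜ ℂ`; so `f := F2|C ∈ Dres C Aᶜ`.
For `s ∈ C` take `w_s` with `w_s ᵥ* d 0 = gs s x0 - x0` (`exists_path`); by `df_fpair`
`df s F2 = fpair ω2 w_s`, which is RepF; at `x = 1` this gives the `Rep` of
`(α, c) ↦ f (s⁻¹ c) - f c`.  Use `Rep.finset`.
(6) `α - f ∈ Dres C A`: let `F1 = fpair (jm R at - p2) x0`.  `mact (R.d 0) (jm R at - p2) = b - ω2 =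
Aᶜ.indicator ∘ b - lam` is entrywise in `BA C A ℂ`, so `df g F1 ∈ BA C A ℂ` (`df_mem` with
`B = BA C A ℂ`).  On `C`: `α - f - F1 = α - fpair (jm R at) x0`, which is square summable on `C` by (2).
Hence `α - f` is the sum of `F1|C ∈ Dres C A` and of a square summable function `β` on `C`, which is
in `Dres C A` too: `extC C 1 β` is square summable on `G`, with differences in
`SQG G ℂ ≤ BA C A ℂ`.
-/

namespace Pool.Agent.Lib.P9f173dW

open Z9f173d

namespace DecAux

noncomputable section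

open scoped Matrix

theorem rep_congr {H : Type*} [Group H] {Θ Θ' : ∀ α : H → ℂ, DC α → H → ℂ} (h : Rep Θ)
    (e : ∀ α hα x, Θ' α hα x = Θ α hα x) : Rep Θ' := by
  have h1 : Θ' = Θ := by
    funext α hα x
    exact e α hα x
  rw [h1]
  exact h

variable {G : Type*} [Group G] {C : Subgroup G}

/-- functions on `G` all of whose restrictions to the cosets of `C` are given by operators -/
def RepF (C : Subgroup G) (Φ : ∀ α : C → ℂ, DC α → G → ℂ) : Prop :=
  ∀ x : G, Rep (C := C) fun α hα c => Φ α hα (x * (c : G))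

theorem RepF.congr {Φ Φ' : ∀ α : C → ℂ, DC α → G → ℂ} (h : RepF C Φ)
    (e : ∀ α hα, Φ' α hα = Φ α hα) : RepF C Φ' := fun x =>
  rep_congr (h x) fun α hα c => by rw [e]

theorem RepF.add {Φ Φ' : ∀ α : C → ℂ, DC α → G → ℂ} (h : RepF C Φ) (h' : RepF C Φ') :
    RepF C fun α hα => Φ α hα + Φ' α hα := fun x =>
  rep_congr ((h x).add (h' x)) fun _ _ _ => rfl

theorem RepF.neg {Φ : ∀ α : C → ℂ, DC α → G → ℂ} (h : RepF C Φ) :
    RepF C fun α hα => - Φ α hα := fun x =>
  rep_congr (h x).neg fun _ _ _ => rfl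

theorem RepF.sum {ι : Type*} (s : Finset ι) {Φ : ι → ∀ α : C → ℂ, DC α → G → ℂ}
    (h : ∀ i ∈ s, RepF C (Φ i)) : RepF C fun α hα => ∑ i ∈ s, Φ i α hα := fun x =>
  rep_congr (Rep.sum s fun i hi => h i hi x) fun _ _ _ => Finset.sum_apply _ _ _

theorem RepF.tr {Φ : ∀ α : C → ℂ, DC α → G → ℂ} (h : RepF C Φ) (a : MonoidAlgebra ℤ G) :
    RepF C fun α hα => Z9f173d.tr ℂ a (Φ α hα) := by
  induction a using MonoidAlgebra.induction_linear with
  | zero =>
    intro x
    refine rep_congr Rep.zero fun α hα c => ?_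
    rw [map_zero]
    rfl
  | add a b ha hb =>
    refine (ha.add hb).congr fun α hα => ?_
    rw [map_add]
    rfl
  | single g z =>
    intro x
    refine rep_congr ((h (g⁻¹ * x)).zsmul z) fun α hα c => ?_
    beta_reduce
    rw [tr_single, mul_assoc]

theorem RepF.mact {m n : ℕ} {Φ : Fin n → ∀ α : C → ℂ, DC α → G → ℂ} (h : ∀ j, RepF C (Φ j))
    (D : Matrix (Fin m) (Fin n) (MonoidAlgebra ℤ G)) (i : Fin m) :
    RepF C fun α hα => Z9f173d.mact (Z9f173d.tr ℂ) D (fun j => Φ j α hα) i :=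
  (RepF.sum Finset.univ fun j _ => (h j).tr (D i j)).congr fun _ _ => rfl

theorem RepF.fpair {n : ℕ} {Φ : Fin n → ∀ α : C → ℂ, DC α → G → ℂ} (h : ∀ j, RepF C (Φ j))
    (v : Fin n → MonoidAlgebra ℤ G) :
    RepF C fun α hα => Z9f173d.fpair (fun j => Φ j α hα) v :=
  (RepF.sum Finset.univ fun j _ => (h j).tr (v j)).congr fun _ _ => rfl

theorem RepF.indicator {A : Set G} (hA : AI C A) {Φ : ∀ α : C → ℂ, DC α → G → ℂ}
    (h : RepF C Φ) : RepF C fun α hα => A.indicator (Φ α hα) := by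
  intro x
  by_cases hx : x ∈ A
  · refine rep_congr (h x) fun α hα c => ?_
    beta_reduce
    rw [Set.indicator_of_mem ((hA.inv x c).2 hx)]
  · refine rep_congr Rep.zero fun α hα c => ?_
    beta_reduce
    rw [Set.indicator_of_notMem (fun h' => hx ((hA.inv x c).1 h'))]

theorem RepF.mem_LC {Φ : ∀ α : C → ℂ, DC α → G → ℂ} (h : RepF C Φ) (α : C → ℂ) (hα : DC α) :
    Φ α hα ∈ LC C ℂ := fun x => (h x).sq α hα

/-- the function on `G` given by a function on `C` -/
def at' (C : Subgroup G) (α : C → ℂ) : G → ℂ := fun x => α (tau C x)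

theorem rep_tr (a : MonoidAlgebra ℤ G) (x : G) :
    Rep (C := C) fun α _ c => tr ℂ a (at' C α) (x * (c : G)) - eps G a • α c := by
  induction a using MonoidAlgebra.induction_linear with
  | zero =>
    refine rep_congr Rep.zero fun α hα c => ?_
    simp
  | add a b ha hb =>
    refine rep_congr (ha.add hb) fun α hα c => ?_
    simp only [map_add, end_add_apply, Pi.add_apply, add_smul]
    ring
  | single g z =>
    refine rep_congr ((Rep.shift (tau C (g⁻¹ * x))).zsmul z) fun α hα c => ?_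
    rw [tr_single, at', ← mul_assoc, tau_mul]
    simp [eps]
    ring

variable (R : FinRes G)

theorem tr_zsmul (a : MonoidAlgebra ℤ G) (z : ℤ) (f : G → ℂ) : tr ℂ a (z • f) = z • tr ℂ a f :=
  map_zsmul _ _ _

theorem rep_fpair (v : Fin (R.rank 0) → MonoidAlgebra ℤ G) (x : G) :
    Rep (C := C) fun α _ c => fpair (jm R (at' C α)) v (x * (c : G)) - R.augMap v • α c := by
  refine rep_congr (Rep.sum Finset.univ fun j (_ : j ∈ Finset.univ) =>
    (rep_tr (C := C) (v j) x).zsmul (R.aug j)) fun α hα c => ?_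
  rw [fpair, Finset.sum_apply, FinRes.augMap_apply, Finset.sum_smul, ← Finset.sum_sub_distrib]
  refine Finset.sum_congr rfl fun j _ => ?_
  rw [jm, tr_zsmul, Pi.smul_apply, smul_sub, smul_smul, mul_comm (R.aug j)]

/-- the one-cochain -/
def bb (C : Subgroup G) (α : C → ℂ) : Fin (R.rank 1) → G → ℂ := mact (tr ℂ) (R.d 0) (jm R (at' C α))

theorem bb_eq (α : C → ℂ) (i : Fin (R.rank 1)) : bb R C α i = fpair (jm R (at' C α)) (R.d 0 i) := rfl

theorem repF_bb (i : Fin (R.rank 1)) : RepF C fun α _ => bb R C α i := by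
  intro x
  refine rep_congr (rep_fpair (C := C) R (R.d 0 i) x) fun α hα c => ?_
  have h : R.augMap (R.d 0 i) = 0 := R.sum_row_zero i
  beta_reduce
  rw [h, zero_smul, sub_zero, bb_eq]

theorem mact_bb (α : C → ℂ) : mact (tr ℂ) (R.d 1) (bb R C α) = 0 := by
  rw [bb, ← mact_mul, R.d_mul_d, mact_zero]

/-- the two-cochain -/
def kk (C : Subgroup G) (A : Set G) (α : C → ℂ) : Fin (R.rank 2) → G → ℂ :=
  mact (tr ℂ) (R.d 1) (fun j => Aᶜ.indicator (bb R C α j))

variable {A : Set G} (hA : AI C A)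
include hA

theorem repF_kk (i : Fin (R.rank 2)) : RepF C fun α _ => kk R C A α i :=
  RepF.mact (fun j => RepF.indicator hA.compl (repF_bb R j)) (R.d 1) i

omit hA in
theorem kk_eq (α : C → ℂ) (i : Fin (R.rank 2)) : kk R C A α i =
    mact (tr ℂ) (R.d 1) (fun j => Aᶜ.indicator (bb R C α j)) i -
      Aᶜ.indicator (mact (tr ℂ) (R.d 1) (bb R C α) i) := by
  rw [mact_bb, kk]
  simp

theorem sq_kk (α : C → ℂ) (hα : DC α) (i : Fin (R.rank 2)) : SQ (kk R C A α i) := by
  rw [kk_eq R]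
  exact mact_indicator hA.compl (R.d 1) (bb R C α) (fun j => (repF_bb R j).mem_LC α hα) i

theorem kk_supp : ∃ F : Finset G, ∀ (α : C → ℂ) (i : Fin (R.rank 2)) (x : G), kk R C A α i x ≠ 0 →
    ∃ a ∈ F, a⁻¹ * x ∈ C := by
  obtain ⟨F, hF⟩ := mact_indicator_support (M := ℂ) hA.compl (R.d 1)
  refine ⟨F, fun α i x hx => hF (bb R C α) i x ?_⟩
  rwa [← kk_eq R]

omit hA in
theorem mact_kk (α : C → ℂ) : mact (tr ℂ) (R.d 2) (kk R C A α) = 0 := by
  rw [kk, ← mact_mul, R.d_mul_d, mact_zero]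

omit hA in
/-- the representatives of the cosets -/
theorem exists_reps (F : Finset G) : ∃ F' : Finset G, (∀ a ∈ F', ∀ a' ∈ F', a⁻¹ * a' ∈ C → a = a') ∧
    ∀ x, (∃ a ∈ F, a⁻¹ * x ∈ C) → ∃ a ∈ F', a⁻¹ * x ∈ C := by
  classical
  refine ⟨F.image (fun a : G => Quotient.out (a : G ⧸ C)), ?_, ?_⟩
  · intro a ha a' ha' h
    obtain ⟨u, -, rfl⟩ := Finset.mem_image.1 ha
    obtain ⟨u', -, rfl⟩ := Finset.mem_image.1 ha'
    have h1 := QuotientGroup.eq.2 h
    rw [QuotientGroup.out_eq', QuotientGroup.out_eq'] at h1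
    rw [h1]
  · rintro x ⟨a, ha, hx⟩
    refine ⟨_, Finset.mem_image_of_mem (fun a : G => Quotient.out (a : G ⧸ C)) ha, ?_⟩
    rw [← QuotientGroup.eq, QuotientGroup.out_eq']
    exact QuotientGroup.eq.2 hx

/-- the two-cochain as vectors -/
def kL (α : C → ℂ) (hα : DC α) (i : Fin (R.rank 2)) : L2 G :=
  ofSQ (kk R C A α i) (sq_kk R hA α hα i)

theorem kL_apply (α : C → ℂ) (hα : DC α) (i : Fin (R.rank 2)) (x : G) :
    kL R hA α hα i x = kk R C A α i x := rfl

omit hA in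
theorem l2_sum {X ι : Type*} (s : Finset ι) (f : ι → L2 X) (x : X) :
    (∑ i ∈ s, f i) x = ∑ i ∈ s, f i x := by
  rw [lp.coeFn_sum, Finset.sum_apply]

theorem kL_dec (j : Fin (R.rank 2)) {F' : Finset G}
    (h1 : ∀ a ∈ F', ∀ a' ∈ F', a⁻¹ * a' ∈ C → a = a')
    (h2 : ∀ (α : C → ℂ) (i : Fin (R.rank 2)) (x : G), kk R C A α i x ≠ 0 → ∃ a ∈ F', a⁻¹ * x ∈ C)
    (α : C → ℂ) (hα : DC α) : kL R hA α hα j = ∑ a ∈ F', extC C a
      (ofSQ (fun c : C => kk R C A α j (a * (c : G))) ((repF_kk R hA j a).sq α hα)) := by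
  ext y
  rw [kL_apply, l2_sum]
  have h3 : ∀ a : G, a⁻¹ * y ∈ C → extC C a
      (ofSQ (fun c : C => kk R C A α j (a * (c : G))) ((repF_kk R hA j a).sq α hα)) y =
        kk R C A α j y := by
    intro a ha
    have h4 := extC_apply C a
      (ofSQ (fun c : C => kk R C A α j (a * (c : G))) ((repF_kk R hA j a).sq α hα)) ⟨a⁻¹ * y, ha⟩
    rw [mul_inv_cancel_left] at h4
    rw [h4, ofSQ_apply]
    simp only [mul_inv_cancel_left]
  by_cases hy : kk R C A α j y = 0
  · rw [hy]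
    symm
    refine Finset.sum_eq_zero fun a _ => ?_
    by_cases ha : a⁻¹ * y ∈ C
    · rw [h3 a ha, hy]
    · exact extC_apply_of_notMem C a _ y ha
  · obtain ⟨a, haF, ha⟩ := h2 α j y hy
    rw [Finset.sum_eq_single a, h3 a ha]
    · intro b hb hba
      refine extC_apply_of_notMem C b _ y fun hby => hba ?_
      refine h1 b hb a haF ?_
      have h5 := C.mul_mem hby (C.inv_mem ha)
      have h6 : b⁻¹ * y * (a⁻¹ * y)⁻¹ = b⁻¹ * a := by group
      rwa [h6] at h5
    · intro h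
      exact absurd haF h

theorem repF_lam (S1 : Fin (R.rank 1) → Fin (R.rank 2) → (L2 G →L[ℂ] L2 G))
    (hS1 : ∀ i j, S1 i j ∈ RedCStar G) (i : Fin (R.rank 1)) :
    RepF C fun α hα => incl G (∑ j, S1 i j (kL R hA α hα j)) := by
  intro x
  obtain ⟨F, hF⟩ := kk_supp R hA
  obtain ⟨F', h1, h2⟩ := exists_reps (C := C) F
  have h3 : ∀ (α : C → ℂ) (i : Fin (R.rank 2)) (x : G), kk R C A α i x ≠ 0 →
      ∃ a ∈ F', a⁻¹ * x ∈ C := fun α i x hx => h2 x (hF α i x hx)
  choose T' hT' hT'e using fun (j : Fin (R.rank 2)) (a : G) => compr C (S1 i j) (hS1 i j) x a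
  refine rep_congr (Rep.sum Finset.univ fun j (_ : j ∈ Finset.univ) => Rep.sum F' fun a _ =>
    (repF_kk R hA j a).comp (T' j a) (hT' j a)) fun α hα c => ?_
  beta_reduce
  rw [incl_apply, l2_sum]
  refine Finset.sum_congr rfl fun j _ => ?_
  rw [kL_dec R hA j h1 h3 α hα, map_sum, l2_sum]
  refine Finset.sum_congr rfl fun a _ => ?_
  exact hT'e j a _ c

end

end DecAux

open DecAux

theorem exists_dec {G : Type*} [Group G] (R : FinRes G) (h0 : ¬ Nontrivial (R.homology 0))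
    (h1 : ¬ Nontrivial (R.homology 1)) (h2 : ¬ Nontrivial (R.homology 2)) (C : Subgroup G)
    (A : Set G) (hA : AI C A) (S : Finset C) :
    ∃ (F : Finset C) (T : C → C → (L2 C →L[ℂ] L2 C)), (∀ s c, T s c ∈ RedCStar C) ∧
      ∀ (α : C → ℂ) (hα : DC α), ∃ f ∈ Dres C Aᶜ, α - f ∈ Dres C A ∧
        ∀ s ∈ S, ∀ x, f (s⁻¹ * x) - f x = (∑ c ∈ F, T s c (dL α hα c)) x := by
  obtain ⟨S1, hS1, hS1e⟩ := exists_h2 R h0 h1 h2
  obtain ⟨x0, hx0⟩ := R.exists_x
  -- the corrected cochain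
  obtain ⟨lam, hlam⟩ : ∃ lam : ∀ α : C → ℂ, DC α → Fin (R.rank 1) → L2 G, lam = fun α hα i =>
      ∑ j, S1 i j (kL R hA α hα j) := ⟨_, rfl⟩
  have hlamR : ∀ i, RepF C fun α hα => incl G (lam α hα i) := by
    intro i
    rw [hlam]
    exact repF_lam R hA S1 hS1 i
  have hlamd : ∀ α hα, mact (tr ℂ) (R.d 1) (fun j => incl G (lam α hα j)) = kk R C A α := by
    intro α hα
    have e1 : mact (vth lreg) (R.d 2) (kL R hA α hα) = 0 := by
      have e2 := incl_mact (R.d 2) (kL R hA α hα)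
      have e3 : mact (tr ℂ) (R.d 2) (fun j => incl G (kL R hA α hα j)) = 0 := mact_kk R α
      rw [e3] at e2
      funext i
      ext x
      exact (congrFun (congrFun e2 i) x).symm
    have e4 := hS1e (kL R hA α hα) e1
    rw [incl_mact]
    funext i
    rw [hlam]
    beta_reduce
    rw [e4]
    rfl
  obtain ⟨om, hom⟩ : ∃ om : ∀ α : C → ℂ, DC α → Fin (R.rank 1) → G → ℂ, om = fun α hα i =>
      A.indicator (bb R C α i) + incl G (lam α hα i) := ⟨_, rfl⟩
  have homR : ∀ i, RepF C fun α hα => om α hα i := by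
    intro i
    rw [hom]
    exact (RepF.indicator hA (repF_bb R i)).add (hlamR i)
  have homd : ∀ α hα, mact (tr ℂ) (R.d 1) (om α hα) = 0 := by
    intro α hα
    have e1 : om α hα = (fun i => A.indicator (bb R C α i)) + fun i => incl G (lam α hα i) := by
      rw [hom]
      rfl
    have e2 : bb R C α = (fun i => A.indicator (bb R C α i)) + fun i => Aᶜ.indicator (bb R C α i) := by
      funext i
      exact (Set.indicator_self_add_compl A (bb R C α i)).symm
    have e3 := mact_bb R (C := C) α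
    rw [e2, map_add] at e3
    rw [e1, map_add, hlamd]
    exact e3
  have homB : ∀ α hα i, om α hα i ∈ BA C Aᶜ ℂ := by
    intro α hα i
    rw [hom]
    exact AddSubgroup.add_mem _ (indicator_mem_BA_compl ((repF_bb R i).mem_LC α hα))
      (SQG_le_BA (sq_coe (lam α hα i)))
  -- the paths
  choose w hw using fun s : C => exists_path R x0 hx0 (s : G)
  obtain ⟨F, T, hT, hTe⟩ := Rep.finset S (Θ := fun s α hα x => fpair (om α hα) (w s) (x : G)) (by
    intro s
    refine rep_congr (RepF.fpair homR (w s) 1) fun α hα x => ?_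
    beta_reduce
    rw [one_mul])
  refine ⟨F, T, hT, fun α hα => ?_⟩
  obtain ⟨p2, hp2⟩ := R.exists_primitive (om α hα) (homd α hα)
  have hBc : ∀ (a : MonoidAlgebra ℤ G), ∀ f ∈ BA C Aᶜ ℂ, tr ℂ a f ∈ BA C Aᶜ ℂ := fun a f hf =>
    tr_mem_BA hA.compl a hf
  have hB : ∀ (a : MonoidAlgebra ℤ G), ∀ f ∈ BA C A ℂ, tr ℂ a f ∈ BA C A ℂ := fun a f hf =>
    tr_mem_BA hA a hf
  have hF2 : ∀ g, df g (fpair p2 x0) ∈ BA C Aᶜ ℂ := fun g =>
    df_mem R (BA C Aᶜ ℂ) hBc x0 hx0 p2 (fun i => by rw [hp2]; exact homB α hα i) g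
  refine ⟨fun c => fpair p2 x0 (c : G), ⟨fpair p2 x0, hF2, fun _ => rfl⟩, ?_, ?_⟩
  · -- the other part
    have hβ : SQ fun c : C => fpair (jm R (at' C α)) x0 (c : G) - α c := by
      have e1 := (rep_fpair (C := C) R x0 1).sq α hα
      rw [hx0] at e1
      simpa using e1
    have hF1 : ∀ g, df g (fpair (jm R (at' C α) - p2) x0) ∈ BA C A ℂ := by
      intro g
      refine df_mem R (BA C A ℂ) hB x0 hx0 _ (fun i => ?_) g
      have e1 : mact (tr ℂ) (R.d 0) (jm R (at' C α) - p2) i = Aᶜ.indicator (bb R C α i) -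
          incl G (lam α hα i) := by
        rw [map_sub, hp2, Pi.sub_apply, hom]
        show bb R C α i - (A.indicator (bb R C α i) + incl G (lam α hα i)) = _
        rw [← sub_sub, sub_left_inj]
        rw [sub_eq_iff_eq_add, add_comm]
        exact (Set.indicator_self_add_compl A (bb R C α i)).symm
      rw [e1]
      exact AddSubgroup.sub_mem _ (indicator_compl_mem_BA ((repF_bb R i).mem_LC α hα))
        (SQG_le_BA (sq_coe (lam α hα i)))
    set E : G → ℂ := incl G (extC C 1 (ofSQ _ hβ)) with hE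
    have hEg : ∀ g, df g E ∈ BA C A ℂ := by
      intro g
      have e1 : E ∈ SQG G ℂ := sq_coe (extC C 1 (ofSQ _ hβ))
      have e2 : df g E = tr ℂ (MonoidAlgebra.single g 1) E - E := by
        funext x
        rw [df_apply, Pi.sub_apply, tr_single, one_smul]
      rw [e2]
      exact SQG_le_BA (AddSubgroup.sub_mem _ (tr_mem_SQG _ e1) e1)
    refine ⟨fpair (jm R (at' C α) - p2) x0 - E, fun g => ?_, fun c => ?_⟩
    · have e1 : df g (fpair (jm R (at' C α) - p2) x0 - E) =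
          df g (fpair (jm R (at' C α) - p2) x0) - df g E := by
        funext x
        simp only [df_apply, Pi.sub_apply]
        ring
      rw [e1]
      exact AddSubgroup.sub_mem _ (hF1 g) (hEg g)
    · have e1 : E (c : G) = fpair (jm R (at' C α)) x0 (c : G) - α c := by
        have e2 := extC_apply C 1 (ofSQ _ hβ) c
        rw [one_mul] at e2
        rw [hE, incl_apply, e2, ofSQ_apply]
      have e3 : fpair (jm R (at' C α) - p2) x0 = fpair (jm R (at' C α)) x0 - fpair p2 x0 := by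
        simp only [fpair, Pi.sub_apply, map_sub, Finset.sum_sub_distrib]
      rw [Pi.sub_apply, e1, e3, Pi.sub_apply, Pi.sub_apply]
      ring
  · intro s hs x
    rw [← hTe s hs α hα x]
    have e1 := congrFun (df_fpair R x0 (s : G) (w s) (hw s) p2) (x : G)
    rw [hp2, df_apply] at e1
    rw [← e1]
    rfl

end Pool.Agent.Lib.P9f173dW
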