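import Pool.Agent.Lib.Z9f173d.Defs

/-!
# Almost invariant sets and thin subgroups: definitions used in the final statement

* `cob D f` : the action of a matrix `D` over `ℤ[G]` on a tuple `f` of functions on `G`, where
  `g` acts by `(g f)(x) = f(g⁻¹ x)`; for the boundary matrix `D = R.d i` of a resolution `R` this is
  the coboundary of the `i`-cochain `f`;
* `L2Van S` : `H²(C; ℓ²(C)) = 0` for a group `C` with resolution `S`;
* `Thin S` : `C` is amenable or `H²(C; ℓ²(C)) = 0`;
* `AI C A` : the set `A` is almost invariant with respect to the subgroup `C`.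
-/

namespace Pool.Agent.Lib.P9f173dW

open Z9f173d

noncomputable section

/-- The action of a matrix over `ℤ[G]` on a tuple of functions on `G`, where `g` acts by
`(g f)(x) = f(g⁻¹ x)`: the coboundary of the cochain `f` if `D` is a boundary matrix. -/
def cob {G M : Type*} [Group G] [AddCommGroup M] {m n : ℕ}
    (D : Matrix (Fin m) (Fin n) (MonoidAlgebra ℤ G)) (f : Fin n → G → M) : Fin m → G → M :=
  fun i x => ∑ j, (D i j).coeff.sum fun g z => z • f j (g⁻¹ * x)

/-- `H²(C; ℓ²(C)) = 0`, in terms of a resolution `S` of the group `C`: every square summable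
`2`-cocycle is the coboundary of a square summable `1`-cochain. -/
def L2Van {C : Type*} [Group C] (S : FinRes C) : Prop :=
  ∀ u : Fin (S.rank 2) → C → ℂ, (∀ i, Summable fun x => ‖u i x‖ ^ 2) → cob (S.d 2) u = 0 →
    ∃ w : Fin (S.rank 1) → C → ℂ, (∀ j, Summable fun x => ‖w j x‖ ^ 2) ∧ cob (S.d 1) w = u

/-- The group `C` is amenable or `H²(C; ℓ²(C)) = 0`. -/
def Thin {C : Type*} [Group C] (S : FinRes C) : Prop := FoelnerAmenable C ∨ L2Van S

/-- `A` is invariant under right multiplication by the subgroup `C`, and for every `g` membership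
in `A` of `x` and of `g x` agree outside finitely many cosets `f C`: an almost invariant set. -/
structure AI {G : Type*} [Group G] (C : Subgroup G) (A : Set G) : Prop where
  inv : ∀ (x : G) (c : C), x * (c : G) ∈ A ↔ x ∈ A
  fin : ∀ g : G, ∃ F : Finset G, ∀ x : G, ¬ (g * x ∈ A ↔ x ∈ A) → ∃ f ∈ F, f⁻¹ * x ∈ C

end

end Pool.Agent.Lib.P9f173dW
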