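import Pool.Agent.Lib.Z9f173d.Final1
import Pool.Agent.Lib.P9f173dW.Stmt

/-!
# Almost invariant sets and square summable functions: definitions
-/

namespace Pool.Agent.Lib.P9f173dW

open Z9f173d
open scoped ComplexConjugate

noncomputable section

/-! ### Square summable functions -/

/-- square summable functions -/
def SQ {X M : Type*} [NormedAddCommGroup M] (f : X → M) : Prop := Summable fun x => ‖f x‖ ^ 2

theorem SQ.zero {X M : Type*} [NormedAddCommGroup M] : SQ (0 : X → M) := by
  simp [SQ, summable_zero]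

theorem SQ.add {X M : Type*} [NormedAddCommGroup M] {f g : X → M} (hf : SQ f) (hg : SQ g) :
    SQ (f + g) := by
  refine Summable.of_nonneg_of_le (fun x => by positivity) (fun x => ?_)
    ((hf.mul_left 2).add (hg.mul_left 2))
  have h := norm_add_le (f x) (g x)
  have h2 : ‖(f + g) x‖ ^ 2 ≤ (‖f x‖ + ‖g x‖) ^ 2 := pow_le_pow_left₀ (norm_nonneg _) h 2
  nlinarith [sq_nonneg (‖f x‖ - ‖g x‖)]

theorem SQ.neg {X M : Type*} [NormedAddCommGroup M] {f : X → M} (hf : SQ f) : SQ (-f) := by
  simpa [SQ] using hf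

theorem SQ.sub {X M : Type*} [NormedAddCommGroup M] {f g : X → M} (hf : SQ f) (hg : SQ g) :
    SQ (f - g) := by
  rw [sub_eq_add_neg]; exact hf.add hg.neg

theorem SQ.mono {X M M' : Type*} [NormedAddCommGroup M] [NormedAddCommGroup M'] {f : X → M}
    {g : X → M'} (hf : SQ f) (K : ℝ) (h : ∀ x, ‖g x‖ ≤ K * ‖f x‖) : SQ g := by
  refine Summable.of_nonneg_of_le (fun x => by positivity) (fun x => ?_) (hf.mul_left (K ^ 2))
  rw [← mul_pow]
  exact pow_le_pow_left₀ (norm_nonneg _) (h x) 2

theorem SQ.comp {X Y M : Type*} [NormedAddCommGroup M] {f : X → M} (hf : SQ f) {i : Y → X}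
    (hi : Function.Injective i) : SQ (fun y => f (i y)) :=
  Summable.comp_injective hf hi

theorem SQ.of_finite {X M : Type*} [NormedAddCommGroup M] {f : X → M}
    (hf : (Function.support f).Finite) : SQ f := by
  refine summable_of_hasFiniteSupport (hf.subset ?_)
  intro x hx
  simp only [Function.mem_support, ne_eq] at hx ⊢
  intro h
  apply hx
  rw [h, norm_zero]
  norm_num

theorem SQ.finite {X : Type*} {f : X → ℤ} (hf : SQ f) : (Function.support f).Finite := by
  have h := (hf.tendsto_cofinite_zero).eventually (gt_mem_nhds (show (0 : ℝ) < 1 by norm_num))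
  rw [Filter.eventually_cofinite] at h
  refine h.subset ?_
  intro x hx
  simp only [Function.mem_support, ne_eq] at hx
  simp only [Set.mem_ofPred_eq, not_lt]
  have h1 : (1 : ℝ) ≤ ‖f x‖ := by
    rw [Int.norm_eq_abs]
    exact_mod_cast Int.one_le_abs hx
  nlinarith

/-- square summable complex functions as vectors of `ℓ²(X)` -/
def ofSQ {X : Type*} (f : X → ℂ) (hf : SQ f) : L2 X :=
  ⟨f, memℓp_gen (by simpa [SQ] using hf)⟩

@[simp] theorem ofSQ_apply {X : Type*} (f : X → ℂ) (hf : SQ f) (x : X) : ofSQ f hf x = f x := rfl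

theorem sq_coe {X : Type*} (v : L2 X) : SQ (fun x => v x) := by
  have h := (lp.memℓp v).summable (by norm_num)
  simpa [SQ] using h

/-! ### Functions on a group -/

section
variable {G : Type*} [Group G]

theorem AI.compl {C : Subgroup G} {A : Set G} (h : AI C A) : AI C Aᶜ where
  inv x c := by simp [h.inv x c]
  fin g := by
    obtain ⟨F, hF⟩ := h.fin g
    refine ⟨F, fun x hx => hF x fun h' => hx ?_⟩
    simp [h']

/-- square summable functions, as a subgroup -/
def SQG (X M : Type*) [NormedAddCommGroup M] : AddSubgroup (X → M) where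
  carrier := {f | SQ f}
  zero_mem' := SQ.zero
  add_mem' := SQ.add
  neg_mem' := SQ.neg

theorem mem_SQG {X M : Type*} [NormedAddCommGroup M] {f : X → M} : f ∈ SQG X M ↔ SQ f := Iff.rfl

/-- functions whose restriction to every coset `x C` is square summable -/
def LC (C : Subgroup G) (M : Type*) [NormedAddCommGroup M] : AddSubgroup (G → M) where
  carrier := {f | ∀ x : G, SQ fun c : C => f (x * c)}
  zero_mem' := fun _ => SQ.zero
  add_mem' := fun hf hg x => (hf x).add (hg x)
  neg_mem' := fun hf x => (hf x).neg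

theorem mem_LC {C : Subgroup G} {M : Type*} [NormedAddCommGroup M] {f : G → M} :
    f ∈ LC C M ↔ ∀ x : G, SQ fun c : C => f (x * c) := Iff.rfl

/-- functions in `LC C M` that are square summable on `A` -/
def BA (C : Subgroup G) (A : Set G) (M : Type*) [NormedAddCommGroup M] : AddSubgroup (G → M) where
  carrier := {f | f ∈ LC C M ∧ SQ (A.indicator f)}
  zero_mem' := ⟨AddSubgroup.zero_mem _, by simpa using (SQ.zero : SQ (0 : G → M))⟩
  add_mem' := fun {f g} hf hg => ⟨AddSubgroup.add_mem _ hf.1 hg.1, by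
    rw [Set.indicator_add']; exact hf.2.add hg.2⟩
  neg_mem' := fun {f} hf => ⟨AddSubgroup.neg_mem _ hf.1, by
    rw [Set.indicator_neg']; exact hf.2.neg⟩

theorem mem_BA {C : Subgroup G} {A : Set G} {M : Type*} [NormedAddCommGroup M] {f : G → M} :
    f ∈ BA C A M ↔ f ∈ LC C M ∧ SQ (A.indicator f) := Iff.rfl

/-- the difference `g f - f` -/
def df {M : Type*} [AddCommGroup M] (g : G) (f : G → M) : G → M := fun x => f (g⁻¹ * x) - f x

@[simp] theorem df_apply {M : Type*} [AddCommGroup M] (g : G) (f : G → M) (x : G) :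
    df g f x = f (g⁻¹ * x) - f x := rfl

/-- functions with square summable differences -/
def DC (α : G → ℂ) : Prop := ∀ g : G, SQ (df g α)

/-- the difference `g α - α` as a vector of `ℓ²` -/
def dL (α : G → ℂ) (hα : DC α) (g : G) : L2 G := ofSQ (df g α) (hα g)

@[simp] theorem dL_apply (α : G → ℂ) (hα : DC α) (g x : G) :
    dL α hα g x = α (g⁻¹ * x) - α x := rfl

/-- Restrictions to the subgroup `C` of the functions `f` on `G` all of whose differences `g f - f` are
in `BA C A`. -/
def Dres (C : Subgroup G) (A : Set G) : Submodule ℂ (C → ℂ) where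
  carrier := {α | ∃ f : G → ℂ, (∀ g, df g f ∈ BA C A ℂ) ∧ ∀ c : C, f c = α c}
  zero_mem' := ⟨0, fun g => by
    have : df g (0 : G → ℂ) = 0 := by ext x; simp
    rw [this]; exact AddSubgroup.zero_mem _, fun c => rfl⟩
  add_mem' := by
    rintro α β ⟨f, hf, hfα⟩ ⟨f', hf', hfβ⟩
    refine ⟨f + f', fun g => ?_, fun c => ?_⟩
    · have : df g (f + f') = df g f + df g f' := by ext x; simp; ring
      rw [this]; exact AddSubgroup.add_mem _ (hf g) (hf' g)
    · simp [hfα, hfβ]
  smul_mem' := by
    rintro k α ⟨f, hf, hfα⟩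
    refine ⟨k • f, fun g => ?_, fun c => ?_⟩
    · have : df g (k • f) = k • df g f := by ext x; simp; ring
      rw [this]
      refine ⟨fun x => ((hf g).1 x).mono ‖k‖ fun c => ?_, ?_⟩
      · simp
      · refine (hf g).2.mono ‖k‖ fun x => ?_
        by_cases hx : x ∈ A
        · simp [Set.indicator_of_mem hx]
        · simp [Set.indicator_of_notMem hx]
    · simp [hfα]

theorem mem_Dres {C : Subgroup G} {A : Set G} {α : C → ℂ} :
    α ∈ Dres C A ↔ ∃ f : G → ℂ, (∀ g, df g f ∈ BA C A ℂ) ∧ ∀ c : C, f c = α c := Iff.rfl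

/-- the vector of `ℓ²(G)` that is `v` on the coset `a C` and zero elsewhere -/
def extC (C : Subgroup G) (a : G) (v : L2 C) : L2 G := by
  classical
  exact ofSQ (fun y => if h : a⁻¹ * y ∈ C then v ⟨a⁻¹ * y, h⟩ else 0) (by
    have hi : Function.Injective fun c : C => a * (c : G) := fun c c' h => by
      simpa using h
    have h1 : SQ fun c : C => (fun y : G => if h : a⁻¹ * y ∈ C then v ⟨a⁻¹ * y, h⟩ else 0)
        (a * (c : G)) := by
      have h2 : (fun c : C => (fun y : G => if h : a⁻¹ * y ∈ C then v ⟨a⁻¹ * y, h⟩ else 0)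
        (a * (c : G))) = fun c => v c := by
        funext c
        have h3 : a⁻¹ * (a * (c : G)) = c := by simp
        simp [h3]
      rw [h2]; exact sq_coe v
    have h4 := (Function.Injective.summable_iff (f := fun y : G =>
      ‖(if h : a⁻¹ * y ∈ C then v ⟨a⁻¹ * y, h⟩ else 0 : ℂ)‖ ^ 2) hi (by
        intro y hy
        have h5 : a⁻¹ * y ∉ C := fun h => hy ⟨⟨a⁻¹ * y, h⟩, by simp⟩
        simp [h5])).1 h1
    exact h4)

theorem extC_apply (C : Subgroup G) (a : G) (v : L2 C) (c : C) : extC C a v (a * c) = v c := by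
  have h3 : a⁻¹ * (a * (c : G)) = c := by simp
  simp [extC, h3]

theorem extC_apply_of_notMem (C : Subgroup G) (a : G) (v : L2 C) (y : G) (h : a⁻¹ * y ∉ C) :
    extC C a v y = 0 := by
  simp [extC, h]

/-- the word length: the least length of a list of elements of `S` with product `x` -/
def wl (S : Finset G) (x : G) : ℕ :=
  sInf {n : ℕ | ∃ l : List G, l.length = n ∧ (∀ s ∈ l, s ∈ S) ∧ l.prod = x}

end

/-- multiplication by a bounded function -/
def mulL {X : Type*} (m : X → ℂ) (K : ℝ) (hm : ∀ x, ‖m x‖ ≤ K) : L2 X →L[ℂ] L2 X :=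
  LinearMap.mkContinuous
    { toFun := fun v => ofSQ (fun x => m x * v x) ((sq_coe v).mono K fun x => by
        rw [norm_mul]; exact mul_le_mul_of_nonneg_right (hm x) (norm_nonneg _))
      map_add' := fun v w => by ext x; simp [mul_add]
      map_smul' := fun k v => by ext x; simp; ring } |K| (fun v => by
      have h2 : (0 : ℝ) < (2 : ENNReal).toReal := by norm_num
      refine lp.norm_le_of_forall_sum_le h2 (by positivity) fun s => ?_
      have hK : ∀ x, ‖m x‖ ≤ |K| := fun x => (hm x).trans (le_abs_self K)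
      have h3 : ∀ x : X, ‖m x * v x‖ ^ (2 : ENNReal).toReal
          ≤ |K| ^ (2 : ENNReal).toReal * ‖v x‖ ^ (2 : ENNReal).toReal := fun x => by
        rw [norm_mul, Real.mul_rpow (norm_nonneg _) (norm_nonneg _)]
        exact mul_le_mul_of_nonneg_right (Real.rpow_le_rpow (norm_nonneg _) (hK x) h2.le)
          (by positivity)
      refine (Finset.sum_le_sum fun x _ => h3 x).trans ?_
      rw [← Finset.mul_sum, Real.mul_rpow (abs_nonneg _) (norm_nonneg _)]
      exact mul_le_mul_of_nonneg_left (lp.sum_rpow_le_norm_rpow h2 v s) (by positivity))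

@[simp] theorem mulL_apply {X : Type*} (m : X → ℂ) (K : ℝ) (hm : ∀ x, ‖m x‖ ≤ K) (v : L2 X)
    (x : X) : mulL m K hm v x = m x * v x := rfl

/-- Dirichlet functions on a group modulo square summable functions and constants, as a Banach
space `H`; `pot h` is the representative function of `h`, `grad c h = c (pot h) - pot h`; for a
function `α` with square summable differences, `prj` gives its class and `lpart` its square
summable part, as functions of the differences `s α - α` for `s` in a finite set. -/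
structure PotData.{u} (C : Type u) [Group C] (S : Finset C) (ℓ : C → ℝ) where
  /-- the space -/
  H : Type u
  [nacg : NormedAddCommGroup H]
  [ns : NormedSpace ℂ H]
  [cs : CompleteSpace H]
  /-- the representative -/
  pot : H →ₗ[ℂ] (C → ℂ)
  /-- the differences -/
  grad : C → (H →L[ℂ] L2 C)
  grad_apply : ∀ c h x, grad c h x = pot h (c⁻¹ * x) - pot h x
  growth : ∃ K : ℝ, ∀ h x, ‖pot h x‖ ≤ K * (1 + ℓ x) * ‖h‖
  /-- the class of a function with given differences -/
  prj : (S → L2 C) →L[ℂ] H
  /-- the square summable part of a function with given differences -/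
  lpart : (S → L2 C) →L[ℂ] L2 C
  decomp : ∀ (α : C → ℂ) (hα : DC α), ∃ k : ℂ, ∀ x,
    α x = pot (prj fun s => dL α hα (s : C)) x + k + lpart (fun s => dL α hα (s : C)) x
  uniq : ∀ (h : H) (k : ℂ), SQ (fun x => pot h x - k) → h = 0
  conj_mem : ∀ h : H, ∃ h' : H, ∀ x, pot h' x = conj (pot h x)

attribute [instance] PotData.nacg PotData.ns PotData.cs

/-- A decomposition of the functions with square summable differences on a group `C` as sums of
elements of two subspaces, in such a way that the differences of the second summand are given by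
operators in the reduced algebra. -/
structure DecData.{u} (C : Type u) [Group C] (S : Finset C) where
  /-- the first subspace -/
  D1 : Submodule ℂ (C → ℂ)
  /-- the second subspace -/
  D2 : Submodule ℂ (C → ℂ)
  dc1 : ∀ α ∈ D1, DC α
  dc2 : ∀ α ∈ D2, DC α
  sq1 : ∀ α : C → ℂ, SQ α → α ∈ D1
  sq2 : ∀ α : C → ℂ, SQ α → α ∈ D2
  const1 : ∀ k : ℂ, (fun _ => k) ∈ D1
  const2 : ∀ k : ℂ, (fun _ => k) ∈ D2
  conj1 : ∀ α ∈ D1, (fun x => conj (α x)) ∈ D1
  conj2 : ∀ α ∈ D2, (fun x => conj (α x)) ∈ D2
  cap : ∀ α ∈ D1, α ∈ D2 → ∃ k : ℂ, SQ fun x => α x - k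
  /-- a finite set -/
  F : Finset C
  /-- the operators -/
  T : C → C → (L2 C →L[ℂ] L2 C)
  T_mem : ∀ s c, T s c ∈ RedCStar C
  dec : ∀ (α : C → ℂ) (hα : DC α), ∃ f ∈ D2, α - f ∈ D1 ∧
    ∀ s ∈ S, ∀ x, f (s⁻¹ * x) - f x = (∑ c ∈ F, T s c (dL α hα c)) x

/-! ### Functionals and functions -/

section
variable {G : Type*} [Group G]

/-- the action of `g` on `ℤ[G]^n` -/
def gs {n : ℕ} (g : G) (v : Fin n → MonoidAlgebra ℤ G) : Fin n → MonoidAlgebra ℤ G :=
  fun j => MonoidAlgebra.single g 1 * v j

/-- the tuple of functions `G → M` given by an additive functional on `ℤ[G]^n`; inverse to `pair` -/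
def fn {M : Type*} [AddCommGroup M] {n : ℕ} (θ : (Fin n → MonoidAlgebra ℤ G) →+ M) :
    Fin n → G → M := fun j x => θ (sv j (MonoidAlgebra.single x⁻¹ 1))

/-- `H²(C; ℓ²(C)) = 0` for a group with a resolution `S` of length at most two: every square
summable `2`-cochain is the coboundary of a square summable `1`-cochain. -/
def L2Onto {C : Type*} [Group C] (S : FinRes C) : Prop :=
  ∀ u : Fin (S.rank 2) → L2 C, ∃ w : Fin (S.rank 1) → L2 C, mact (vth lreg) (S.d 1) w = u

end

end

end Pool.Agent.Lib.P9f173dW
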