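import Pool.Agent.Lib.P9f173dW.TreeDefs
import Pool.Agent.Lib.P9f173dW.Fn

/-!
# Module EdgeConj: conjugation of edge data

If `EdgeOK R H m K P` and `H' = g H g⁻¹` then `EdgeOK R H' m (cj g K) (cj g P)`.

PROOF.  `gs g ∘ gs h = gs (g h)` (`gs_gs`), `gs g (v ᵥ* D) = gs g v ᵥ* D` (`gs_vecMul`).  For `h' = g h g⁻¹`:
`cj g K (gs h' r) = gs g (K (gs (g⁻¹ h') r)) = gs g (K (gs h (gs g⁻¹ r))) = gs (g h) (K (gs g⁻¹ r)) =
gs h' (cj g K r)`.  `htpy`: apply `htpy` to `gs g⁻¹ r` and `gs g`.  `fin`: `s' k = gs g (s k)`;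
`cj g P r = gs g (P (gs g⁻¹ r))` and `gs g` (additive) maps the generator `gs h (s k)` to
`gs (g h g⁻¹) (gs g (s k))` (`AddSubgroup.closure_induction` or `AddMonoidHom.map_closure`).
`good`: given `θ'` for `H'` and `A'` with `AI H' A'`, let `θ = θ' ∘ gs g`, `A = {x | x g⁻¹ ∈ A'}`.
`θ (gs h r) = θ' (gs (g h g⁻¹) (gs g r))`, cocycle condition clear.  `AI H A`:
`(x h) g⁻¹ = (x g⁻¹) (g h g⁻¹)`; `(γ x) g⁻¹ = γ (x g⁻¹)`, and `f'⁻¹ (x g⁻¹) ∈ H'` iff
`(f' g)⁻¹ x ∈ H` (`g⁻¹ f'⁻¹ x g⁻¹ g`), so `F = {f' g}`.  Let `z` be given by `good` for `θ, A`;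
`z' j x = z j (x g)`.  We have `fn (θ'.comp (cj g P)) j x = θ' (gs g (P (gs g⁻¹ (sv j (single x⁻¹ 1))))) =
θ (P (sv j (single (x g)⁻¹ 1))) = fn (θ.comp P) j (x g)` and `x ∈ A' ↔ x g ∈ A`, so the right hand side
function is the right translate by `g` of the one for `θ, A`; `mact (tr ℤ) D` commutes with right
translations (`tr_single`; or `mact_nat` for the additive endomorphism `f ↦ f (· g)`), and right
translation preserves finiteness of supports.
`stE_smul`: the stabiliser of `(g v, g w)` is the conjugate.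
-/

namespace Pool.Agent.Lib.P9f173dW

open Z9f173d

namespace EdgeConjAux

variable {G : Type*} [Group G] {m n : ℕ}

theorem conj_mem {H H' : Subgroup G} {g : G} (hH : ∀ x, x ∈ H' ↔ g⁻¹ * x * g ∈ H) (h : H) :
    g * (h : G) * g⁻¹ ∈ H' := by
  rw [hH]
  have : g⁻¹ * (g * (h : G) * g⁻¹) * g = h := by group
  rw [this]
  exact h.2

theorem cj_gs {H H' : Subgroup G} {g : G} (hH : ∀ x, x ∈ H' ↔ g⁻¹ * x * g ∈ H)
    (F : (Fin m → MonoidAlgebra ℤ G) →+ (Fin n → MonoidAlgebra ℤ G))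
    (hF : ∀ h : H, ∀ r, F (gs (h : G) r) = gs (h : G) (F r)) (h : H')
    (r : Fin m → MonoidAlgebra ℤ G) : cj g F (gs (h : G) r) = gs (h : G) (cj g F r) := by
  have h1 := hF ⟨g⁻¹ * (h : G) * g, (hH _).1 h.2⟩ (gs g⁻¹ r)
  have h2 : gs g⁻¹ (gs (h : G) r) = gs (g⁻¹ * (h : G) * g) (gs g⁻¹ r) := by
    rw [gs_gs, gs_gs]
    congr 1
    group
  rw [cj_apply, cj_apply, h2, h1, gs_gs, gs_gs]
  congr 1
  group

theorem ai_conj {H H' : Subgroup G} {g : G} (hH : ∀ x, x ∈ H' ↔ g⁻¹ * x * g ∈ H) {A : Set G}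
    (hA : AI H' A) : AI H {x | x * g⁻¹ ∈ A} where
  inv x c := by
    show x * (c : G) * g⁻¹ ∈ A ↔ x * g⁻¹ ∈ A
    have h1 := hA.inv (x * g⁻¹) ⟨g * (c : G) * g⁻¹, conj_mem hH c⟩
    have h2 : x * g⁻¹ * (g * (c : G) * g⁻¹) = x * (c : G) * g⁻¹ := by group
    rw [← h1]
    show _ ↔ x * g⁻¹ * (g * (c : G) * g⁻¹) ∈ A
    rw [h2]
  fin γ := by
    classical
    obtain ⟨F, hF⟩ := hA.fin γ
    refine ⟨F.image (· * g), fun x hx => ?_⟩
    have h1 : ¬ (γ * (x * g⁻¹) ∈ A ↔ x * g⁻¹ ∈ A) := by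
      rw [← mul_assoc]
      exact hx
    obtain ⟨f, hf, hfx⟩ := hF _ h1
    refine ⟨f * g, Finset.mem_image_of_mem _ hf, ?_⟩
    rw [hH] at hfx
    have h2 : g⁻¹ * (f⁻¹ * (x * g⁻¹)) * g = (f * g)⁻¹ * x := by group
    rwa [h2] at hfx

/-- right translation -/
def rtr (g : G) : (G → ℤ) →+ (G → ℤ) where
  toFun f := fun x => f (x * g)
  map_zero' := rfl
  map_add' _ _ := rfl

theorem rtr_tr (g : G) (a : MonoidAlgebra ℤ G) (f : G → ℤ) :
    rtr g (tr ℤ a f) = tr ℤ a (rtr g f) := by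
  induction a using MonoidAlgebra.induction_linear with
  | zero => simp
  | add a b ha hb =>
    rw [map_add]
    have h1 := (rtr g).map_add (tr ℤ a f) (tr ℤ b f)
    rw [ha, hb] at h1
    exact h1
  | single c z =>
    funext x
    show tr ℤ (MonoidAlgebra.single c z) f (x * g) = _
    rw [tr_single, tr_single, ← mul_assoc]
    rfl

theorem mact_rtr (g : G) (D : Matrix (Fin m) (Fin n) (MonoidAlgebra ℤ G)) (f : Fin n → G → ℤ) :
    mact (tr ℤ) D (fun j => rtr g (f j)) = fun i => rtr g (mact (tr ℤ) D f i) :=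
  mact_nat (tr ℤ) (tr ℤ) (rtr g) (fun r w => rtr_tr g r w) D f

end EdgeConjAux

open EdgeConjAux

theorem EdgeOK.conj {G : Type*} [Group G] {R : FinRes G} {H H' : Subgroup G} {m : ℕ}
    {K : (Fin (R.rank m) → MonoidAlgebra ℤ G) →+ (Fin (R.rank (m + 1)) → MonoidAlgebra ℤ G)}
    {P : (Fin (R.rank (m + 1)) → MonoidAlgebra ℤ G) →+ (Fin (R.rank (m + 1)) → MonoidAlgebra ℤ G)}
    (h : EdgeOK R H m K P) (g : G) (hH : ∀ x, x ∈ H' ↔ g⁻¹ * x * g ∈ H) :
    EdgeOK R H' m (cj g K) (cj g P) := by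
  constructor
  · exact fun k r => cj_gs hH K h.K_gs k r
  · exact fun k r => cj_gs hH P h.P_gs k r
  · intro r
    obtain ⟨t, ht⟩ := h.htpy (gs g⁻¹ r)
    refine ⟨gs g t, ?_⟩
    have h1 : r = gs g (gs g⁻¹ r) := by rw [gs_gs, mul_inv_cancel, gs_one]
    calc r = gs g (gs g⁻¹ r) := h1
      _ = gs g (Matrix.vecMul t (R.d (m + 1)) + K (Matrix.vecMul (gs g⁻¹ r) (R.d m)) + P (gs g⁻¹ r)) := by rw [← ht]
      _ = _ := by rw [gs_add, gs_add, gs_vecMul, cj_apply, cj_apply, gs_vecMul]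
  · obtain ⟨ι, s, hs⟩ := h.fin
    refine ⟨ι, fun k => gs g (s k), fun r => ?_⟩
    have h1 := AddSubgroup.mem_map_of_mem (gsHom (R.rank (m + 1)) g) (hs (gs g⁻¹ r))
    rw [AddMonoidHom.map_closure] at h1
    rw [cj_apply]
    refine AddSubgroup.closure_mono ?_ h1
    rintro _ ⟨_, ⟨k, i, rfl⟩, rfl⟩
    refine ⟨⟨g * (k : G) * g⁻¹, conj_mem hH k⟩, i, ?_⟩
    show gs g (gs (k : G) (s i)) = gs (g * (k : G) * g⁻¹) (gs g (s i))
    rw [gs_gs, gs_gs]
    congr 1
    group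
  · intro θ' hf hc A' hA'
    have h1 : ∀ r, {k : H | (θ'.comp (gsHom _ g)) (gs (k : G) r) ≠ 0}.Finite := by
      intro r
      have hi : Function.Injective fun k : H => (⟨g * (k : G) * g⁻¹, conj_mem hH k⟩ : H') := by
        intro k k' hk
        have := congrArg Subtype.val hk
        simpa using this
      refine ((hf (gs g r)).preimage (hi.injOn)).subset fun k hk => ?_
      have hk1 : θ' (gs g (gs (k : G) r)) ≠ 0 := hk
      show θ' (gs (g * (k : G) * g⁻¹) (gs g r)) ≠ 0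
      have h2 : gs (g * (k : G) * g⁻¹) (gs g r) = gs g (gs (k : G) r) := by
        rw [gs_gs, gs_gs]
        congr 1
        group
      rw [h2]
      exact hk1
    have h2 : ∀ r, (θ'.comp (gsHom _ g)) (Matrix.vecMul r (R.d (m + 1))) = 0 := by
      intro r
      show θ' (gs g (Matrix.vecMul r (R.d (m + 1)))) = 0
      rw [gs_vecMul]
      exact hc _
    obtain ⟨z, hz, hzd⟩ := h.good _ h1 h2 _ (ai_conj hH hA')
    refine ⟨fun j => rtr g (z j), fun j => ?_, ?_⟩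
    · refine ((hz j).preimage (f := fun x : G => x * g)
        ((mul_left_injective g).injOn)).subset fun x hx => hx
    · have h3 : (fun j => A'.indicator (fn (θ'.comp (cj g P)) j)) = fun j =>
          rtr g (Set.indicator {x | x * g⁻¹ ∈ A'}
            (fn ((θ'.comp (gsHom _ g)).comp P) j)) := by
        funext j x
        show A'.indicator (fn (θ'.comp (cj g P)) j) x = Set.indicator {x | x * g⁻¹ ∈ A'}
            (fn ((θ'.comp (gsHom _ g)).comp P) j) (x * g)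
        have h4 : fn (θ'.comp (cj g P)) j x = fn ((θ'.comp (gsHom _ g)).comp P) j (x * g) := by
          show θ' (gs g (P (gs g⁻¹ (sv j (MonoidAlgebra.single x⁻¹ 1)))))
            = θ' (gs g (P (sv j (MonoidAlgebra.single (x * g)⁻¹ 1))))
          rw [gs_sv, mul_inv_rev]
        by_cases hx : x ∈ A'
        · have hx' : x * g ∈ {x | x * g⁻¹ ∈ A'} := by
            show x * g * g⁻¹ ∈ A'
            rwa [mul_inv_cancel_right]
          rw [Set.indicator_of_mem hx, Set.indicator_of_mem hx', h4]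
        · have hx' : x * g ∉ {x | x * g⁻¹ ∈ A'} := by
            show ¬ (x * g * g⁻¹ ∈ A')
            rwa [mul_inv_cancel_right]
          rw [Set.indicator_of_notMem hx, Set.indicator_of_notMem hx']
      rw [h3, mact_rtr, mact_rtr, hzd]

theorem stE_smul {G V : Type*} [Group G] [MulAction G V] (g : G) (v w : V) (x : G) :
    x ∈ stE G (g • v) (g • w) ↔ g⁻¹ * x * g ∈ stE G v w := by
  simp only [stE, Subgroup.mem_inf, MulAction.mem_stabilizer_iff, mul_smul, inv_smul_eq_iff]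

theorem cj_one {G : Type*} [Group G] {m n : ℕ}
    (F : (Fin m → MonoidAlgebra ℤ G) →+ (Fin n → MonoidAlgebra ℤ G)) : cj 1 F = F := by
  refine AddMonoidHom.ext fun v => ?_
  rw [cj_apply, inv_one, gs_one, gs_one]

theorem cj_mul {G : Type*} [Group G] {m n : ℕ} (g h : G)
    (F : (Fin m → MonoidAlgebra ℤ G) →+ (Fin n → MonoidAlgebra ℤ G)) :
    cj (g * h) F = cj g (cj h F) := by
  refine AddMonoidHom.ext fun v => ?_
  rw [cj_apply, cj_apply, cj_apply, gs_gs, gs_gs, mul_inv_rev]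

end Pool.Agent.Lib.P9f173dW
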