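import Pool.Agent.Lib.P9f173dW.Defs

/-!
# Module FGen: groups with a finite resolution are finitely generated

PROOF.  Let `T` be the (finite) set of all elements `g⁻¹ * g'` with `g, g'` in the support of some entries
`R.d 0 i b`, `R.d 0 i b'` of the same row `i`, and `H` the subgroup generated by `T`.  Let
`f : C → ℤ` be the indicator of `H`.  For a row `i` and `x : C`
`(mact (tr ℤ) (R.d 0) (fun b => aug b • f)) i x = ∑_b ∑_g (R.d 0 i b)(g) aug b f (g⁻¹ x)`, and
`f (g⁻¹ x)` has the same value for all `g` occurring in row `i`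
(`g'⁻¹ x = (g⁻¹ g')⁻¹ (g⁻¹ x)`, `g⁻¹ g' ∈ H`), so this is
that value times `∑_b eps (R.d 0 i b) aug b = 0` (`sum_row_zero`).
By `const_of_cocycle` `aug b * f h = aug b * κ` for all `b`, `h`; as some `aug b ≠ 0`
(`exists_aug_ne`), `f` is constant, `H = C`.  `S0 = T ∪ T⁻¹`.
-/

namespace Pool.Agent.Lib.P9f173dW

open Z9f173d

namespace FGenAux

variable {C : Type*} [Group C]

theorem tr_eq_sum (a : MonoidAlgebra ℤ C) (f : C → ℤ) (x : C) :
    tr ℤ a f x = ∑ g ∈ a.coeff.support, a.coeff g • f (g⁻¹ * x) := by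
  have h : a = ∑ g ∈ a.coeff.support, MonoidAlgebra.single g (a.coeff g) := by
    have := MonoidAlgebra.sum_coeff_single a
    rw [Finsupp.sum] at this
    exact this.symm
  have h2 : tr ℤ a f x = tr ℤ (∑ g ∈ a.coeff.support, MonoidAlgebra.single g (a.coeff g)) f x := by
    rw [← h]
  rw [h2, map_sum, end_sum_apply, Finset.sum_apply]
  exact Finset.sum_congr rfl fun g _ => tr_single _ _ _ _

theorem tr_const_of (a : MonoidAlgebra ℤ C) (f : C → ℤ) (x : C) (c : ℤ)
    (h : ∀ g ∈ a.coeff.support, f (g⁻¹ * x) = c) : tr ℤ a f x = eps C a * c := by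
  have h1 := tr_eq_sum a f x
  have h2 := tr_eq_sum a (fun _ => c) x
  rw [tr_const] at h2
  rw [h1, Finset.sum_congr rfl fun g hg => by rw [h g hg], ← h2, smul_eq_mul]

end FGenAux

open FGenAux in
theorem exists_generators {C : Type*} [Group C] (R : FinRes C) :
    ∃ S0 : Finset C, (∀ s ∈ S0, s⁻¹ ∈ S0) ∧ Subgroup.closure (S0 : Set C) = ⊤ := by
  classical
  -- the supports of the rows
  let Sup : Fin (R.rank 1) → Finset C := fun i =>
    Finset.univ.biUnion fun b : Fin (R.rank 0) => (R.d 0 i b).coeff.support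
  let T : Finset C := Finset.univ.biUnion fun i : Fin (R.rank 1) =>
    ((Sup i) ×ˢ (Sup i)).image fun p => p.1⁻¹ * p.2
  have hT : ∀ i, ∀ g ∈ Sup i, ∀ g' ∈ Sup i, g⁻¹ * g' ∈ T := by
    intro i g hg g' hg'
    refine Finset.mem_biUnion.2 ⟨i, Finset.mem_univ _, Finset.mem_image.2 ⟨(g, g'), ?_, rfl⟩⟩
    exact Finset.mem_product.2 ⟨hg, hg'⟩
  have hmemS : ∀ i b g, g ∈ (R.d 0 i b).coeff.support → g ∈ Sup i := fun i b g hg =>
    Finset.mem_biUnion.2 ⟨b, Finset.mem_univ _, hg⟩
  let H : Subgroup C := Subgroup.closure (T : Set C)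
  let f : C → ℤ := fun x => if x ∈ H then 1 else 0
  -- `f (g⁻¹ x)` is the same for all `g` in a row
  have hrow : ∀ i, ∀ g ∈ Sup i, ∀ g' ∈ Sup i, ∀ x, f (g⁻¹ * x) = f (g'⁻¹ * x) := by
    intro i g hg g' hg' x
    have hmem : g'⁻¹ * g ∈ H := Subgroup.subset_closure (hT i g' hg' g hg)
    have hiff : g⁻¹ * x ∈ H ↔ g'⁻¹ * x ∈ H := by
      have e : g'⁻¹ * x = (g'⁻¹ * g) * (g⁻¹ * x) := by group
      rw [e, H.mul_mem_cancel_left hmem]
    simp only [f, hiff]
  have hcoc : mact (tr ℤ) (R.d 0) (fun b => R.aug b • f) = 0 := by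
    ext i x
    rw [mact_apply, Finset.sum_apply]
    by_cases hne : (Sup i).Nonempty
    · obtain ⟨g0, hg0⟩ := hne
      have h1 : ∀ b, tr ℤ (R.d 0 i b) (R.aug b • f) x
          = eps C (R.d 0 i b) * (R.aug b * f (g0⁻¹ * x)) := by
        intro b
        refine tr_const_of _ _ _ _ fun g hg => ?_
        rw [Pi.smul_apply, smul_eq_mul, hrow i g (hmemS i b g hg) g0 hg0]
      rw [Finset.sum_congr rfl fun b _ => h1 b]
      have h2 : ∀ b, eps C (R.d 0 i b) * (R.aug b * f (g0⁻¹ * x))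
          = (eps C (R.d 0 i b) * R.aug b) * f (g0⁻¹ * x) := fun b => by ring
      rw [Finset.sum_congr rfl fun b _ => h2 b, ← Finset.sum_mul, R.sum_row_zero i, zero_mul]
      rfl
    · rw [Finset.not_nonempty_iff_eq_empty] at hne
      have h1 : ∀ b, tr ℤ (R.d 0 i b) (R.aug b • f) x = eps C (R.d 0 i b) * 0 := by
        intro b
        refine tr_const_of _ _ _ _ fun g hg => ?_
        have := hmemS i b g hg
        rw [hne] at this
        exact absurd this (Finset.notMem_empty _)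
      rw [Finset.sum_congr rfl fun b _ => h1 b]
      simp
  obtain ⟨κ, hκ⟩ := R.const_of_cocycle _ hcoc
  obtain ⟨j, hj⟩ := exists_aug_ne R
  have hH : H = ⊤ := by
    rw [Subgroup.eq_top_iff']
    intro x
    by_contra hx
    have h1 := hκ j x
    have h2 := hκ j 1
    simp only [Pi.smul_apply, smul_eq_mul] at h1 h2
    have h3 : f x = 0 := if_neg hx
    have h4 : f 1 = 1 := if_pos H.one_mem
    rw [h3, mul_zero] at h1
    rw [h4, mul_one, ← h1] at h2
    exact hj h2
  refine ⟨T ∪ T.image fun x => x⁻¹, ?_, ?_⟩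
  · intro s hs
    rw [Finset.mem_union, Finset.mem_image] at hs ⊢
    rcases hs with hs | ⟨t, ht, rfl⟩
    · exact Or.inr ⟨s, hs, rfl⟩
    · rw [inv_inv]
      exact Or.inl ht
  · rw [eq_top_iff, ← hH]
    refine Subgroup.closure_mono ?_
    intro x hx
    rw [Finset.mem_coe] at hx ⊢
    exact Finset.mem_union_left _ hx

end Pool.Agent.Lib.P9f173dW
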