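import Pool.Agent.Lib.P9f173dW.Cap

/-!
# Module Glue: unimodular functions on the two sides

PROOF.  Let `f1` (with `df g f1 ∈ BA C A ℂ`, `f1 = φ` on `C`) and `f2` (`df g f2 ∈ BA C Aᶜ ℂ`,
`f2 = W φ` on `C`) be given by the hypotheses.  `‖f1‖`, `‖f2‖ : G → ℝ` satisfy
`df g ‖f1‖ ∈ BA C A ℝ` (`|‖a‖ - ‖b‖| ≤ ‖a - b‖`, monotonicity `SQ.mono` on cosets and for the
indicator), `df g ‖f2‖ ∈ BA C Aᶜ ℝ`, and they agree on `C` (`‖W φ‖ = ‖φ‖`).  By `sq_df_glue` the function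
`F = ‖f1‖` on `A`, `‖f2‖` on `Aᶜ` has square summable differences; `deg1` for `(F : ℂ)` gives `k : ℂ` with
`F - k` square summable on `G`.  `G` is infinite (it contains `C`), so `F → k` along `cofinite`, hence
`k = r` is real and `≥ 0` (or: `|F - r| ≤ |F - k|` for `r = re k`, and `F ≥ 0`: if `r < 0` then
`|F - r| ≥ |r|` for infinitely many points, contradiction with summability).  On `C` (which
lies in `A` or in `Aᶜ`, and `F = ‖φ‖` on `C` in both cases) `‖φ‖ - r` is square summable; if `r = 0`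
then `φ` is square summable, contradiction.  So `r > 0`.
`‖f1‖ - r` is square summable on `A` (it is `F - r` there) and on every coset `x C`:
`‖f1 (x c)‖ - r = (‖f1 (x c)‖ - ‖f1 c‖) + (‖φ c‖ - r)`, and `f1 (x c) - f1 c = df x⁻¹ f1 c` is square
summable in `c` (`df x⁻¹ f1 ∈ LC`, coset of `1`).
Put `U1 x = f1 x / ‖f1 x‖` if `f1 x ≠ 0`, else `1`.  Then `‖U1 x - f1 x / r‖ = |1 - ‖f1 x‖ / r| ≤
|‖f1 x‖ - r| / r` in both cases, so `U1 - f1 / r ∈ BA C A ℂ` and
`df g U1 = df g (U1 - f1 / r) + df g f1 / r ∈ BA C A ℂ` (`df g` of an element of `BA` is in `BA`: `tr_mem_BA`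
with `a = single g 1`).  The same for `U2`, with `Aᶜ` (`hA.compl`).
`W U1 - U2 ∈ LC C ℂ`: `U1 - f1 / r ∈ LC`, `U2 - f2 / r ∈ LC`, and `W f1 - f2 ∈ LC`: on `x C`,
`W (x c) f1 (x c) - f2 (x c)` with `f2 (x c) = f2 c + ℓ² = W c f1 c + ℓ²`; so it remains
`W (x c) f1 (x c) - W c f1 c = W (x c) (f1 (x c) - f1 c) + (W (x c) - W c) f1 c`.
The last term: `f1 c = φ c` is not bounded, so use instead the functions of norm one: on `x C`,
`U1 (x c) = U1 c + ℓ²` (`df x⁻¹ U1 ∈ LC`), `U2 (x c) = U2 c + ℓ²`, `W (x c) = W c + ℓ²` (`hWd`), all bounded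
by `1`, so `W (x c) U1 (x c) - U2 (x c) = W c U1 c - U2 c + ℓ²`, and
`W c U1 c - U2 c = W c (U1 c - φ c / r) - (U2 c - W c φ c / r)` is square summable.
-/

namespace Pool.Agent.Lib.P9f173dW

open Z9f173d

namespace GlueAux

variable {G : Type*} [Group G] {C : Subgroup G} {A : Set G}

theorem LC_mono {M M' : Type*} [NormedAddCommGroup M] [NormedAddCommGroup M'] {f : G → M}
    {g : G → M'} (hf : f ∈ LC C M) (K : ℝ) (h : ∀ x, ‖g x‖ ≤ K * ‖f x‖) : g ∈ LC C M' :=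
  fun x => (hf x).mono K fun c => h (x * c)

theorem BA_mono {M M' : Type*} [NormedAddCommGroup M] [NormedAddCommGroup M'] {f : G → M}
    {g : G → M'} (hf : f ∈ BA C A M) (K : ℝ) (h : ∀ x, ‖g x‖ ≤ K * ‖f x‖) : g ∈ BA C A M' := by
  refine ⟨LC_mono hf.1 K h, hf.2.mono K fun x => ?_⟩
  by_cases hx : x ∈ A
  · rw [Set.indicator_of_mem hx, Set.indicator_of_mem hx]; exact h x
  · rw [Set.indicator_of_notMem hx, Set.indicator_of_notMem hx]; simp

theorem sq_coset {M : Type*} [NormedAddCommGroup M] {f : G → M} (hf : ∀ g, df g f ∈ LC C M)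
    (x : G) : SQ fun c : C => f (x * c) - f c := by
  have h := hf x⁻¹ 1
  simpa [df_apply] using h

theorem df_mem_BA {M : Type*} [NormedAddCommGroup M] (hA : AI C A) {f : G → M}
    (hf : f ∈ BA C A M) (g : G) : df g f ∈ BA C A M := by
  have h : df g f = tr M (MonoidAlgebra.single g 1) f - f := by
    ext x
    rw [Pi.sub_apply, tr_single, one_smul, df_apply]
  rw [h]
  exact AddSubgroup.sub_mem _ (tr_mem_BA hA _ hf) hf

theorem norm_df {f : G → ℂ} (hf : ∀ g, df g f ∈ BA C A ℂ) (g : G) :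
    df g (fun x => ‖f x‖) ∈ BA C A ℝ := by
  refine BA_mono (hf g) 1 fun x => ?_
  rw [df_apply, df_apply, one_mul, Real.norm_eq_abs]
  exact abs_norm_sub_norm_le _ _

/-- normalisation -/
theorem exists_U (hA : AI C A) {f : G → ℂ} (hf : ∀ g, df g f ∈ BA C A ℂ) {r : ℝ} (hr : 0 < r)
    (hN : (fun x => ‖f x‖ - r) ∈ BA C A ℝ) :
    ∃ U : G → ℂ, (∀ x, ‖U x‖ = 1) ∧ (∀ g, df g U ∈ BA C A ℂ) ∧
      (fun x => U x - f x / r) ∈ BA C A ℂ := by
  classical
  have hrne : (r : ℂ) ≠ 0 := by exact_mod_cast hr.ne'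
  have hV : (fun x => (if f x = 0 then (1 : ℂ) else f x / ‖f x‖) - f x / r) ∈ BA C A ℂ := by
    refine BA_mono hN (1 / r) fun x => ?_
    by_cases hx : f x = 0
    · simp only [hx, if_pos, zero_div, sub_zero, norm_one, norm_zero, zero_sub, norm_neg]
      rw [Real.norm_eq_abs, abs_of_pos hr]
      field_simp
      exact le_refl _
    · rw [if_neg hx]
      have hn : (0 : ℝ) < ‖f x‖ := norm_pos_iff.2 hx
      have hnne : ((‖f x‖ : ℝ) : ℂ) ≠ 0 := by exact_mod_cast hn.ne'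
      have h1 : f x / ‖f x‖ - f x / r = f x * (((r - ‖f x‖) / (‖f x‖ * r) : ℝ) : ℂ) := by
        push_cast
        field_simp
      rw [h1, norm_mul, Complex.norm_real, Real.norm_eq_abs, Real.norm_eq_abs, abs_div,
        abs_of_pos (mul_pos hn hr), abs_sub_comm]
      apply le_of_eq
      field_simp
  refine ⟨fun x => if f x = 0 then (1 : ℂ) else f x / ‖f x‖, fun x => ?_, fun g => ?_, hV⟩
  · by_cases hx : f x = 0
    · simp [hx]
    · have hn : (0 : ℝ) < ‖f x‖ := norm_pos_iff.2 hx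
      simp only [hx, if_false]
      rw [norm_div, Complex.norm_real, norm_norm, div_self hn.ne']
  · have h1 := df_mem_BA hA hV g
    have h2 : (fun x => df g f x / r) ∈ BA C A ℂ := by
      refine BA_mono (hf g) (1 / r) fun x => ?_
      rw [norm_div, Complex.norm_real, Real.norm_eq_abs, abs_of_pos hr]
      apply le_of_eq
      ring
    have h3 := AddSubgroup.add_mem _ h1 h2
    convert h3 using 1
    ext x
    simp only [df_apply, Pi.add_apply]
    ring

theorem BA_of_indicator {f : G → ℂ} (hf : ∀ g, df g f ∈ BA C A ℂ) (r : ℝ)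
    (hC : SQ fun c : C => ‖f c‖ - r) (hI : SQ (A.indicator fun x => ‖f x‖ - r)) :
    (fun x => ‖f x‖ - r) ∈ BA C A ℝ := by
  refine ⟨fun x => ?_, hI⟩
  have h1 := sq_coset (fun g => (norm_df hf g).1) x
  have h2 := h1.add hC
  convert h2 using 1
  ext c
  simp

end GlueAux

open GlueAux in
theorem glue {G : Type*} [Group G] {C : Subgroup G} {A : Set G} (R : FinRes G)
    (h0 : ¬ Nontrivial (R.homology 0)) (h1 : ¬ Nontrivial (R.homology 1))
    (h2 : ¬ Nontrivial (R.homology 2)) [Infinite C] (hA : AI C A) (W : G → ℂ)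
    (hW : ∀ x, ‖W x‖ = 1) (hWd : ∀ g, df g W ∈ LC C ℂ) (φ : C → ℂ) (hφ1 : φ ∈ Dres C A)
    (hφ2 : (fun c : C => W c * φ c) ∈ Dres C Aᶜ) (hφ : ¬ SQ φ) :
    ∃ U1 U2 : G → ℂ, (∀ x, ‖U1 x‖ = 1) ∧ (∀ x, ‖U2 x‖ = 1) ∧ (∀ g, df g U1 ∈ BA C A ℂ) ∧
      (∀ g, df g U2 ∈ BA C Aᶜ ℂ) ∧ (fun x => W x * U1 x - U2 x) ∈ LC C ℂ := by
  classical
  obtain ⟨f1, hf1, hf1C⟩ := hφ1
  obtain ⟨f2, hf2, hf2C⟩ := hφ2
  have hn2 : ∀ c : C, ‖f2 c‖ = ‖φ c‖ := fun c => by rw [hf2C, norm_mul, hW, one_mul]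
  have hn1 : ∀ c : C, ‖f1 c‖ = ‖φ c‖ := fun c => by rw [hf1C]
  have hFC : SQ fun c : C => ‖f1 c‖ - ‖f2 c‖ := by
    have : (fun c : C => ‖f1 c‖ - ‖f2 c‖) = 0 := by
      ext c; simp [hn1, hn2]
    rw [this]; exact SQ.zero
  have hF := sq_df_glue hA (fun x => ‖f1 x‖) (fun x => ‖f2 x‖) (norm_df hf1) (norm_df hf2) hFC
  obtain ⟨k, hk⟩ := deg1 R h0 h1 h2
    (fun x => (((if x ∈ A then ‖f1 x‖ else ‖f2 x‖ : ℝ)) : ℂ)) (fun g => (hF g).mono 1 fun x => by
      rw [df_apply, df_apply, one_mul, ← Complex.ofReal_sub, Complex.norm_real])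
  have hr : SQ fun x => (if x ∈ A then ‖f1 x‖ else ‖f2 x‖ : ℝ) - k.re := by
    refine hk.mono 1 fun x => ?_
    rw [one_mul]
    have := Complex.abs_re_le_norm ((((if x ∈ A then ‖f1 x‖ else ‖f2 x‖ : ℝ)) : ℂ) - k)
    rwa [Complex.sub_re, Complex.ofReal_re, ← Real.norm_eq_abs] at this
  have hφr : SQ fun c : C => ‖φ c‖ - k.re := by
    have h := hr.comp (i := fun c : C => (c : G)) Subtype.val_injective
    convert h using 1
    ext c
    by_cases hc : (c : G) ∈ A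
    · simp [hc, hn1]
    · simp [hc, hn2]
  have hr0 : 0 < k.re := by
    by_contra hneg
    push Not at hneg
    apply hφ
    refine hφr.mono 1 fun c => ?_
    rw [one_mul, Real.norm_eq_abs, abs_of_nonneg]
    · linarith
    · have := norm_nonneg (φ c)
      linarith
  have hB1 : (fun x => ‖f1 x‖ - k.re) ∈ BA C A ℝ := by
    refine BA_of_indicator hf1 _ (by simpa only [hn1] using hφr) (hr.mono 1 fun x => ?_)
    by_cases hx : x ∈ A
    · simp [hx]
    · simp [hx]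
  have hB2 : (fun x => ‖f2 x‖ - k.re) ∈ BA C Aᶜ ℝ := by
    refine BA_of_indicator hf2 _ (by simpa only [hn2] using hφr) (hr.mono 1 fun x => ?_)
    by_cases hx : x ∈ A
    · simp [hx]
    · simp [hx]
  obtain ⟨U1, hU1, hU1d, hV1⟩ := exists_U hA hf1 hr0 hB1
  obtain ⟨U2, hU2, hU2d, hV2⟩ := exists_U hA.compl hf2 hr0 hB2
  refine ⟨U1, U2, hU1, hU2, hU1d, hU2d, fun x => ?_⟩
  have e1 : SQ fun c : C => (W (x * c) - W c) * U1 (x * c) := by
    refine (sq_coset hWd x).mono 1 fun c => ?_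
    rw [norm_mul, hU1, mul_one, one_mul]
  have e2 : SQ fun c : C => W c * (U1 (x * c) - U1 c) := by
    refine (sq_coset (fun g => (hU1d g).1) x).mono 1 fun c => ?_
    rw [norm_mul, hW, one_mul]
  have e3 : SQ fun c : C => U2 (x * c) - U2 c := sq_coset (fun g => (hU2d g).1) x
  have e4 : SQ fun c : C => W c * (U1 c - f1 c / (k.re : ℂ)) := by
    have := hV1.1 1
    simp only [one_mul] at this
    refine this.mono 1 fun c => ?_
    rw [norm_mul, hW, one_mul]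
  have e5 : SQ fun c : C => U2 c - f2 c / (k.re : ℂ) := by
    have := hV2.1 1
    simpa only [one_mul] using this
  have e := ((e1.add e2).sub e3).add (e4.sub e5)
  convert e using 1
  ext c
  have h3 : f2 c = W c * f1 c := by rw [hf2C, hf1C]
  simp only [Pi.add_apply, Pi.sub_apply, h3]
  ring

end Pool.Agent.Lib.P9f173dW
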