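import Pool.Agent.Lib.P9f173dW.Path
import Pool.Agent.Lib.P9f173dW.Sub
import Pool.Agent.Lib.P9f173dW.Circ

/-!
# Module IntPart: the integral bookkeeping

Notation: `δ_i = mact (tr M) (R.d i)` for any `M`, `pT : ℝ →+ ℝ/ℤ`, `iR : ℤ →+ ℝ`, `compHom` (Z9f173d).
Given: `u1, u2 : G → ℝ/ℤ` with `df g u1 ∈ BA C A`, `df g u2 ∈ BA C Aᶜ`; `w` a `0`-cochain in `ℝ/ℤ`, `η` a
real `1`-cochain in `LC` with `δ_0 w = η mod 1`, `δ_1 η = y` integral; `u = fpair w x0`,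
`u + u1 - u2 ∈ LC C (ℝ/ℤ)`.

PROOF.  (All the spaces `LC, BA` are stable under `tr` (`tr_mem_LC`, `tr_mem_BA hA`, `tr_mem_BA hA.compl`).)
(1) `t1 = δ_0 (jm R u1)` is entrywise in `BA C A (ℝ/ℤ)` by `jm_mem`.  Let `θ1` be a small real lift
(`exists_small_lift`, entrywise): `θ1 ∈ BA C A ℝ` (same norms).  `δ_1 θ1` reduces mod `1` to `δ_1 δ_0 = 0`
(`compHom_mact pT`, `mact_mul`, `d_mul_d`), so `δ_1 θ1 = iR z1` with `z1` integer valued
(`exists_int_of_pT`), and `δ_1 θ1 ∈ BA C A ℝ` entrywise, so `z1 ∈ BA C A ℤ` (`‖(n : ℝ)‖ = ‖n‖`).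
Similarly `θ2, z2` for `u2` with `Aᶜ`.
(2) `v_b = w_b + aug b • (u1 - u2)`: `w_b - aug b • u ∈ LC C (ℝ/ℤ)` by `sub_aug_mem` (`δ_0 w = η mod 1` is
entrywise in `LC C (ℝ/ℤ)`, since `‖pT r‖ ≤ |r|`), and `aug b • (u + u1 - u2) ∈ LC`.  So `v_b ∈ LC C (ℝ/ℤ)`; let
`vt_b ∈ LC C ℝ` be a small lift.
(3) `n = η + θ1 - θ2 - δ_0 vt ∈ LC C ℝ` entrywise; mod `1` it is `δ_0 w + δ_0 jm u1 - δ_0 jm u2 - δ_0 v = 0`
(`jm` is additive), so `n = iR N`, `N ∈ LC C ℤ` entrywise.  Apply `δ_1`: `δ_1 N = y + z1 - z2` (as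
integers; `δ_1 δ_0 vt = 0`).
(4) `N1_j = Aᶜ.indicator (N_j) ∈ BA C A ℤ`, `N2_j = A.indicator (N_j) ∈ BA C Aᶜ ℤ`, `N = N1 + N2`.
`z1' = z1 - δ_1 N1 ∈ BA C A ℤ`, `z2' = z2 + δ_1 N2 ∈ BA C Aᶜ ℤ` entrywise, `y = z2' - z1'`.
`δ_2 z1 = 0` since `δ_2 (iR z1) = δ_2 δ_1 θ1 = 0` and `iR` is injective; the same for `z2`; so
`δ_2 z1' = δ_2 z2' = 0`.
(5) `A.indicator y = A.indicator z2' - A.indicator z1' = z2' - Aᶜ.indicator z2' - A.indicator z1'`, so with
`z = -(Aᶜ.indicator z2' + A.indicator z1')`, finitely supported entrywise (`SQ.finite`),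
`δ_2 (A.indicator y) = δ_2 z2' + δ_2 z = δ_2 z`.
-/

namespace Pool.Agent.Lib.P9f173dW

open Z9f173d

namespace IntPartAux

section
variable {G : Type*} [Group G] {C : Subgroup G} {A : Set G}

theorem LC_le {M M' : Type*} [NormedAddCommGroup M] [NormedAddCommGroup M'] {f : G → M}
    {g : G → M'} (hf : f ∈ LC C M) (h : ∀ x, ‖g x‖ ≤ ‖f x‖) : g ∈ LC C M' := fun x =>
  (hf x).mono 1 fun c => by rw [one_mul]; exact h _

theorem BA_le {M M' : Type*} [NormedAddCommGroup M] [NormedAddCommGroup M'] {f : G → M}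
    {g : G → M'} (hf : f ∈ BA C A M) (h : ∀ x, ‖g x‖ ≤ ‖f x‖) : g ∈ BA C A M' := by
  refine ⟨LC_le hf.1 h, hf.2.mono 1 fun x => ?_⟩
  rw [one_mul]
  by_cases hx : x ∈ A
  · rw [Set.indicator_of_mem hx, Set.indicator_of_mem hx]; exact h x
  · rw [Set.indicator_of_notMem hx, Set.indicator_of_notMem hx]; simp

theorem norm_pT_le (r : ℝ) : ‖pT r‖ ≤ ‖r‖ := QuotientAddGroup.norm_mk_le_norm

theorem iR_inj {m : ℕ} {f g : Fin m → G → ℤ} (h : (fun i => compHom iR (f i)) =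
    fun i => compHom iR (g i)) : f = g := by
  ext i x
  have h1 := congrFun (congrFun h i) x
  simp only [compHom_apply, iR_apply] at h1
  exact_mod_cast h1

theorem int_lift {m : ℕ} (f : Fin m → G → ℝ) (h : ∀ i, compHom pT (f i) = 0) :
    ∃ z : Fin m → G → ℤ, ∀ i, compHom iR (z i) = f i := by
  have h1 : ∀ i x, ∃ n : ℤ, (n : ℝ) = f i x := fun i x =>
    exists_int_of_pT (by have := congrFun (h i) x; simpa using this)
  choose z hz using h1
  exact ⟨z, fun i => by ext x; simp [hz]⟩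

theorem norm_int {z : G → ℤ} {f : G → ℝ} (h : compHom iR z = f) (x : G) : ‖z x‖ = ‖f x‖ := by
  rw [← h, compHom_apply, iR_apply, Int.norm_eq_abs, Real.norm_eq_abs]

theorem theta_part (R : FinRes G) (hA : AI C A) (u : G → UnitAddCircle)
    (hu : ∀ g, df g u ∈ BA C A UnitAddCircle) :
    ∃ (θ : Fin (R.rank 1) → G → ℝ) (z : Fin (R.rank 2) → G → ℤ), (∀ j, θ j ∈ BA C A ℝ) ∧
      (∀ j, compHom pT (θ j) = mact (tr UnitAddCircle) (R.d 0) (jm R u) j) ∧
      (mact (tr ℝ) (R.d 1) θ = fun i => compHom iR (z i)) ∧ (∀ i, z i ∈ BA C A ℤ) ∧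
      mact (tr ℤ) (R.d 2) z = 0 := by
  have ht : ∀ i, mact (tr UnitAddCircle) (R.d 0) (jm R u) i ∈ BA C A UnitAddCircle := fun i =>
    jm_mem R (BA C A UnitAddCircle) (fun a f hf => tr_mem_BA hA a hf) u hu i
  choose θ hθ1 hθ2 using fun i => exists_small_lift
    (mact (tr UnitAddCircle) (R.d 0) (jm R u) i)
  have hθ : ∀ j, θ j ∈ BA C A ℝ := fun j => BA_le (ht j) fun x => by
    rw [Real.norm_eq_abs, hθ2]
  have hθT : ∀ j, compHom pT (θ j) = mact (tr UnitAddCircle) (R.d 0) (jm R u) j := fun j => by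
    ext x
    rw [compHom_apply, pT_apply, hθ1]
  have h1 : ∀ i, compHom pT (mact (tr ℝ) (R.d 1) θ i) = 0 := by
    intro i
    have h2 := congrFun (compHom_mact pT (R.d 1) θ) i
    rw [← h2]
    have h3 : (fun j => compHom pT (θ j)) = mact (tr UnitAddCircle) (R.d 0) (jm R u) :=
      funext hθT
    rw [h3, ← mact_mul, R.d_mul_d 0, mact_zero]
    rfl
  obtain ⟨z, hz⟩ := int_lift _ h1
  refine ⟨θ, z, hθ, hθT, (funext hz).symm, fun i => ?_, ?_⟩
  · have h4 : mact (tr ℝ) (R.d 1) θ i ∈ BA C A ℝ :=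
      mact_mem (BA C A ℝ) (fun a f hf => tr_mem_BA hA a hf) (R.d 1) θ hθ i
    exact BA_le h4 fun x => (norm_int (hz i) x).le
  · apply iR_inj
    rw [← compHom_mact iR (R.d 2) z, funext hz, ← mact_mul, R.d_mul_d 1, mact_zero]
    ext i x
    simp

end

end IntPartAux

open IntPartAux

theorem int_part {G : Type*} [Group G] {C : Subgroup G} {A : Set G} (R : FinRes G) (hA : AI C A)
    (x0 : Fin (R.rank 0) → MonoidAlgebra ℤ G) (hx0 : R.augMap x0 = 1)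
    (u1 u2 : G → UnitAddCircle) (hu1 : ∀ g, df g u1 ∈ BA C A UnitAddCircle)
    (hu2 : ∀ g, df g u2 ∈ BA C Aᶜ UnitAddCircle)
    (w : Fin (R.rank 0) → G → UnitAddCircle) (η : Fin (R.rank 1) → G → ℝ)
    (hη : ∀ j, η j ∈ LC C ℝ)
    (hw : mact (tr UnitAddCircle) (R.d 0) w = fun i => compHom pT (η i))
    (hu : fpair w x0 + u1 - u2 ∈ LC C UnitAddCircle)
    (y : Fin (R.rank 2) → G → ℤ)
    (hηy : mact (tr ℝ) (R.d 1) η = fun i => compHom iR (y i)) :
    ∃ z : Fin (R.rank 2) → G → ℤ, (∀ j, (Function.support (z j)).Finite) ∧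
      mact (tr ℤ) (R.d 2) z = mact (tr ℤ) (R.d 2) fun j => A.indicator (y j) := by
  have hLT : ∀ (a : MonoidAlgebra ℤ G), ∀ f ∈ LC C UnitAddCircle,
      tr UnitAddCircle a f ∈ LC C UnitAddCircle := fun a f hf => tr_mem_LC a hf
  obtain ⟨θ1, z1, hθ1, hθT1, hz1, hzB1, hdz1⟩ := theta_part R hA u1 hu1
  obtain ⟨θ2, z2, hθ2, hθT2, hz2, hzB2, hdz2⟩ := theta_part R hA.compl u2 hu2
  -- the 0-cochain v
  have hwL : ∀ i, mact (tr UnitAddCircle) (R.d 0) w i ∈ LC C UnitAddCircle := fun i => by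
    rw [hw]
    exact LC_le (hη i) fun x => norm_pT_le _
  have hv : ∀ b, w b + R.aug b • (u1 - u2) ∈ LC C UnitAddCircle := fun b => by
    have h1 := sub_aug_mem R (LC C UnitAddCircle) hLT x0 hx0 w hwL b
    have h2 := AddSubgroup.zsmul_mem _ hu (R.aug b)
    have h3 := AddSubgroup.add_mem _ h1 h2
    have h4 : w b - R.aug b • fpair w x0 + R.aug b • (fpair w x0 + u1 - u2) =
        w b + R.aug b • (u1 - u2) := by
      simp only [smul_sub, smul_add]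
      abel
    rwa [h4] at h3
  choose vt hvt1 hvt2 using fun b => exists_small_lift (w b + R.aug b • (u1 - u2))
  have hvtL : ∀ b, vt b ∈ LC C ℝ := fun b => LC_le (hv b) fun x => by
    rw [Real.norm_eq_abs, hvt2]
  have hvtT : ∀ b, compHom pT (vt b) = w b + R.aug b • (u1 - u2) := fun b => by
    ext x
    rw [compHom_apply, pT_apply, hvt1]
  have hn : ∀ i, compHom pT (η i + θ1 i - θ2 i - mact (tr ℝ) (R.d 0) vt i) = 0 := by
    intro i
    have h1 := congrFun (compHom_mact pT (R.d 0) vt) i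
    have h2 : (fun j => compHom pT (vt j)) = w + jm R u1 - jm R u2 := by
      ext1 b
      rw [hvtT]
      simp only [jm, Pi.sub_apply, Pi.add_apply, smul_sub]
      abel
    rw [map_sub, map_sub, map_add, hθT1, hθT2, ← h1, h2, map_sub, map_add, hw]
    simp only [Pi.sub_apply, Pi.add_apply]
    abel
  obtain ⟨N, hN⟩ := int_lift _ hn
  have hNL : ∀ i, N i ∈ LC C ℤ := fun i => by
    have h1 : η i + θ1 i - θ2 i - mact (tr ℝ) (R.d 0) vt i ∈ LC C ℝ :=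
      AddSubgroup.sub_mem _ (AddSubgroup.sub_mem _ (AddSubgroup.add_mem _ (hη i) (hθ1 i).1)
        (hθ2 i).1) (mact_mem (LC C ℝ) (fun a f hf => tr_mem_LC a hf) (R.d 0) vt hvtL i)
    exact LC_le h1 fun x => (norm_int (hN i) x).le
  have hdN : mact (tr ℤ) (R.d 1) N = y + z1 - z2 := by
    apply iR_inj
    rw [← compHom_mact iR (R.d 1) N, funext hN]
    have h1 : (fun i => η i + θ1 i - θ2 i - mact (tr ℝ) (R.d 0) vt i) =
        η + θ1 - θ2 - mact (tr ℝ) (R.d 0) vt := rfl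
    rw [h1, map_sub, map_sub, map_add, hηy, hz1, hz2, ← mact_mul, R.d_mul_d 0, mact_zero]
    ext i x
    simp
  -- the decomposition
  set N1 : Fin (R.rank 1) → G → ℤ := fun j => Aᶜ.indicator (N j) with hN1
  set N2 : Fin (R.rank 1) → G → ℤ := fun j => A.indicator (N j) with hN2
  have hN12 : N1 + N2 = N := by
    ext j x
    exact congrFun (Set.indicator_compl_add_self A (N j)) x
  have hN1B : ∀ j, N1 j ∈ BA C A ℤ := fun j => indicator_compl_mem_BA (hNL j)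
  have hN2B : ∀ j, N2 j ∈ BA C Aᶜ ℤ := fun j => indicator_mem_BA_compl (hNL j)
  set z1' : Fin (R.rank 2) → G → ℤ := z1 - mact (tr ℤ) (R.d 1) N1 with hz1'
  set z2' : Fin (R.rank 2) → G → ℤ := z2 + mact (tr ℤ) (R.d 1) N2 with hz2'
  have hz1B : ∀ i, z1' i ∈ BA C A ℤ := fun i => AddSubgroup.sub_mem _ (hzB1 i)
    (mact_mem (BA C A ℤ) (fun a f hf => tr_mem_BA hA a hf) (R.d 1) N1 hN1B i)
  have hz2B : ∀ i, z2' i ∈ BA C Aᶜ ℤ := fun i => AddSubgroup.add_mem _ (hzB2 i)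
    (mact_mem (BA C Aᶜ ℤ) (fun a f hf => tr_mem_BA hA.compl a hf) (R.d 1) N2 hN2B i)
  have hy : y = z2' - z1' := by
    have h1 : mact (tr ℤ) (R.d 1) N1 + mact (tr ℤ) (R.d 1) N2 = y + z1 - z2 := by
      rw [← map_add, hN12, hdN]
    rw [hz1', hz2']
    have h2 : y = mact (tr ℤ) (R.d 1) N1 + mact (tr ℤ) (R.d 1) N2 - z1 + z2 := by
      rw [h1]; abel
    nth_rewrite 1 [h2]
    abel
  have hd2 : mact (tr ℤ) (R.d 2) z2' = 0 := by
    rw [hz2', map_add, hdz2, ← mact_mul, R.d_mul_d 1, mact_zero, add_zero]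
  have hS1 : ∀ i, SQ (A.indicator (z1' i)) := fun i => (hz1B i).2
  have hS2 : ∀ i, SQ (Aᶜ.indicator (z2' i)) := fun i => (hz2B i).2
  refine ⟨fun i => -(Aᶜ.indicator (z2' i) + A.indicator (z1' i)), fun i => ?_, ?_⟩
  · exact ((hS2 i).add (hS1 i)).neg.finite
  · have h1 : (fun j => A.indicator (y j)) =
        z2' + fun i => -(Aᶜ.indicator (z2' i) + A.indicator (z1' i)) := by
      ext j x
      have h2 : y j x = z2' j x - z1' j x := by rw [hy]; rfl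
      simp only [Pi.add_apply, Pi.neg_apply]
      by_cases hx : x ∈ A
      · have hx' : x ∉ Aᶜ := fun h => h hx
        rw [Set.indicator_of_mem hx, Set.indicator_of_notMem hx', Set.indicator_of_mem hx, h2]
        ring
      · have hx' : x ∈ Aᶜ := hx
        rw [Set.indicator_of_notMem hx, Set.indicator_of_mem hx', Set.indicator_of_notMem hx]
        ring
    rw [h1, map_add, hd2, zero_add]

end Pool.Agent.Lib.P9f173dW
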