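import Pool.Agent.Lib.P9f173dW.Comp

/-!
# Module OpA: multiplication by a unimodular function with decaying differences

`D : PotData C S ℓ` (a Banach space `H` of functions with square summable differences modulo
constants and `ℓ²`), `m : C → ℂ` bounded by `K` with `∑ (1 + ℓ x)² |m (c⁻¹ x) - m x|² < ∞` for `c ∈ S`.

`exists_opA` : there is `A : H →L H` with `m * pot h - pot (A h) ∈ const + ℓ²` for all `h`.
PROOF.  `s (m α) - m α = m (s α - α) + (s m - m)(s α - α) + (s m - m) α` (`α = pot h`): check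
`(s m)(s α) - m α = (s m) (s α - α) + (s m - m) α`.  The map `G_s : H →L L2 C`,
`G_s h = (s m) · grad s h + N_s h` where `N_s` is the operator of `wcompact` with
`e x h = pot h x`, `w x = 1 + ℓ x`, and `(s m) ·` is `mulL`.  `A h = prj (fun s => G_s h)`.  The function
`m * pot h` has square summable differences for every `c`, by hypothesis `hm` for all `c`.  `decomp`.
`opA_unique` : two such operators are equal, by `uniq` (difference of the two relations, linearity of
`pot`).
`opA_comp` : if `m m' = 1`, `A` for `m`, `A'` for `m'`, then `A A' - 1` is compact (rank one).  PROOF: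
`m' pot h = pot (A' h) + k + v`, `v ∈ ℓ²`, so `m pot (A' h) = pot h - k m - m v`, and
`m pot (A' h) = pot (A (A' h)) + const + ℓ²`.  So with `h₁ := prj (differences of m)`, i.e.
`m = pot h₁ + const + ℓ²`: `pot h - pot (A A' h) - k pot h₁ ∈ const + ℓ²`, `h - A A' h = k h₁` by `uniq`.
If `h₁ = 0` then `A A' = 1`.  Otherwise `(A A' - 1) h` is in the line of `h₁` for every `h`: an
operator with range in a one dimensional space is compact.
`exists_J` : the conjugation `J` on `H` with `pot (J h) = conj (pot h)` (unique by `uniq` with `k = 0`, as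
`pot` is injective), additive, involutive, and intertwines the operators of `m` and `conj m`.
-/

namespace Pool.Agent.Lib.P9f173dW

open Z9f173d
open scoped ComplexConjugate

universe u

variable {C : Type u} [Group C] {S : Finset C} {ℓ : C → ℝ} (D : PotData C S ℓ)

/-- `A` is the operator of multiplication by `m` modulo constants and square summable functions. -/
def IsMulOp (m : C → ℂ) (A : D.H →L[ℂ] D.H) : Prop :=
  ∀ h, ∃ k : ℂ, SQ fun x => m x * D.pot h x - D.pot (A h) x - k

namespace OpAAux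

theorem pot_inj {h h' : D.H} (H : ∀ x, D.pot h x = D.pot h' x) : h = h' := by
  have h1 : SQ (fun x => D.pot (h - h') x - 0) := by
    have : (fun x => D.pot (h - h') x - 0) = (0 : C → ℂ) := by
      ext x
      simp [H x]
    rw [this]
    exact SQ.zero
  exact sub_eq_zero.1 (D.uniq _ _ h1)

theorem finite_range {H : Type*} [NormedAddCommGroup H] [NormedSpace ℂ H] (T : H →L[ℂ] H) (v : H)
    (hT : ∀ h, ∃ k : ℂ, T h = k • v) : IsCompactOperator T := by
  have hr : ∀ h, T h ∈ Submodule.span ℂ {v} := fun h => by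
    obtain ⟨k, hk⟩ := hT h
    rw [hk]
    exact Submodule.smul_mem _ _ (Submodule.mem_span_singleton_self v)
  have : ProperSpace (Submodule.span ℂ {v}) := FiniteDimensional.proper ℂ _
  have h1 : IsCompactOperator (T.codRestrict (Submodule.span ℂ {v}) hr) :=
    isCompactOperator_of_locallyCompactSpace_dom _
  exact h1.clm_comp (Submodule.span ℂ {v}).subtypeL

end OpAAux

theorem exists_opA (m : C → ℂ) (K : ℝ) (hmK : ∀ x, ‖m x‖ ≤ K)
    (hm : ∀ c : C, Summable fun x => (1 + ℓ x) ^ 2 * ‖m (c⁻¹ * x) - m x‖ ^ 2) :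
    ∃ A : D.H →L[ℂ] D.H, IsMulOp D m A := by
  obtain ⟨K₁, hK₁⟩ := D.growth
  have hN : ∀ c : C, ∃ N : D.H →L[ℂ] L2 C, IsCompactOperator N ∧
      ∀ h x, N h x = (m (c⁻¹ * x) - m x) * D.pot h x := fun c => by
    obtain ⟨N, hN, hN'⟩ := wcompact (fun x => (LinearMap.proj x).comp D.pot : C → D.H →ₗ[ℂ] ℂ)
      (fun x => 1 + ℓ x) K₁ (fun x h => hK₁ h x) (fun x => m (c⁻¹ * x) - m x) (hm c)
    exact ⟨N, hN, hN'⟩
  choose N _ hN using hN
  let G : C → (D.H →L[ℂ] L2 C) := fun c =>
    (mulL (fun x => m (c⁻¹ * x)) K fun x => hmK _).comp (D.grad c) + N c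
  have hG : ∀ c h x, G c h x = m (c⁻¹ * x) * D.pot h (c⁻¹ * x) - m x * D.pot h x := by
    intro c h x
    have h1 : G c h x = m (c⁻¹ * x) * D.grad c h x + N c h x := rfl
    rw [h1, hN, D.grad_apply]
    ring
  refine ⟨D.prj.comp (ContinuousLinearMap.pi fun s : S => G s), fun h => ?_⟩
  have hα : DC (fun x => m x * D.pot h x) := by
    intro c
    have h1 : df c (fun x => m x * D.pot h x) = fun x => G c h x := by
      ext x
      rw [hG]
      rfl
    rw [h1]
    exact sq_coe _
  have hd : ∀ c, dL (fun x => m x * D.pot h x) hα c = G c h := by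
    intro c
    ext x
    rw [hG]
    rfl
  obtain ⟨k, hk⟩ := D.decomp _ hα
  refine ⟨k, ?_⟩
  have h2 : (fun x => m x * D.pot h x -
      D.pot ((D.prj.comp (ContinuousLinearMap.pi fun s : S => G s)) h) x - k) =
      fun x => D.lpart (fun s => dL (fun x => m x * D.pot h x) hα (s : C)) x := by
    ext x
    have h3 : (D.prj.comp (ContinuousLinearMap.pi fun s : S => G s)) h =
        D.prj fun s : S => dL (fun x => m x * D.pot h x) hα (s : C) := by
      simp only [hd]
      rfl
    rw [h3, hk x]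
    ring
  rw [h2]
  exact sq_coe _

theorem opA_comp (m m' : C → ℂ) (K : ℝ) (hmK : ∀ x, ‖m x‖ ≤ K) (hm' : ∀ x, m x * m' x = 1)
    (hm : DC m) (A A' : D.H →L[ℂ] D.H) (hA : IsMulOp D m A) (hA' : IsMulOp D m' A') :
    IsCompactOperator (A * A' - 1 : D.H →L[ℂ] D.H) := by
  obtain ⟨k₁, hk₁⟩ := D.decomp m hm
  set h₁ := D.prj fun s => dL m hm (s : C) with hh₁
  refine OpAAux.finite_range _ h₁ fun h => ?_
  obtain ⟨k, hk⟩ := hA' h
  obtain ⟨k₂, hk₂⟩ := hA (A' h)
  refine ⟨-k, ?_⟩
  have e1 : SQ fun x => m x * (m' x * D.pot h x - D.pot (A' h) x - k) :=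
    hk.mono K fun x => by
      rw [norm_mul]
      exact mul_le_mul_of_nonneg_right (hmK x) (norm_nonneg _)
  have e2 : SQ fun x => k * D.lpart (fun s => dL m hm (s : C)) x :=
    (sq_coe (D.lpart fun s => dL m hm (s : C))).mono ‖k‖ fun x => by rw [norm_mul]
  have e3 : SQ fun x => D.pot (h - A (A' h) - k • h₁) x - (k₂ + k * k₁) := by
    have h3 : (fun x => D.pot (h - A (A' h) - k • h₁) x - (k₂ + k * k₁)) =
        (fun x => m x * (m' x * D.pot h x - D.pot (A' h) x - k)) +
        (fun x => m x * D.pot (A' h) x - D.pot (A (A' h)) x - k₂) +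
        fun x => k * D.lpart (fun s => dL m hm (s : C)) x := by
      ext x
      have h4 : m x * (m' x * D.pot h x - D.pot (A' h) x - k) =
          D.pot h x - m x * D.pot (A' h) x - k * m x := by
        have := hm' x
        linear_combination D.pot h x * this
      simp only [Pi.add_apply, h4, map_sub, map_smul, Pi.sub_apply, Pi.smul_apply, smul_eq_mul]
      have h5 := hk₁ x
      linear_combination k * h5
    rw [h3]
    exact (e1.add hk₂).add e2
  have h6 := D.uniq _ _ e3
  have h7 : (A * A' - 1 : D.H →L[ℂ] D.H) h = A (A' h) - h := rfl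
  rw [h7, neg_smul, eq_neg_iff_add_eq_zero]
  rw [← neg_eq_zero, ← h6]
  abel

theorem exists_J : ∃ J : D.H → D.H, (∀ h x, D.pot (J h) x = conj (D.pot h x)) ∧
    (∀ h h', J (h + h') = J h + J h') ∧ (∀ h, J (J h) = h) := by
  choose J hJ using D.conj_mem
  refine ⟨J, hJ, fun h h' => ?_, fun h => ?_⟩
  · refine OpAAux.pot_inj D fun x => ?_
    rw [hJ, map_add, map_add, Pi.add_apply, Pi.add_apply, map_add, hJ, hJ]
  · refine OpAAux.pot_inj D fun x => ?_
    rw [hJ, hJ, Complex.conj_conj]

theorem J_opA (J : D.H → D.H) (hJ : ∀ h x, D.pot (J h) x = conj (D.pot h x)) (m : C → ℂ)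
    (A A' : D.H →L[ℂ] D.H) (hA : IsMulOp D m A) (hA' : IsMulOp D (fun x => conj (m x)) A')
    (h : D.H) : A' (J h) = J (A h) := by
  obtain ⟨k, hk⟩ := hA h
  obtain ⟨k', hk'⟩ := hA' (J h)
  have e1 : SQ fun x => conj (m x * D.pot h x - D.pot (A h) x - k) :=
    hk.mono 1 fun x => by rw [RCLike.norm_conj, one_mul]
  have e2 : SQ fun x => D.pot (A' (J h) - J (A h)) x - (conj k - k') := by
    have h3 : (fun x => D.pot (A' (J h) - J (A h)) x - (conj k - k')) =
        (fun x => conj (m x * D.pot h x - D.pot (A h) x - k)) -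
        fun x => conj (m x) * D.pot (J h) x - D.pot (A' (J h)) x - k' := by
      ext x
      simp only [Pi.sub_apply, map_sub, map_mul, hJ]
      ring
    rw [h3]
    exact e1.sub hk'
  exact sub_eq_zero.1 (D.uniq _ _ e2)

end Pool.Agent.Lib.P9f173dW
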