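import Pool.Agent.Lib.P9f173dW.OpA

/-!
# Module OpP: the projection along the first subspace, and the compact Hankel operator

`D : PotData C S ℓ`, `E : DecData C S`.

`exists_P2` : there is `P2 : H →L H` with: `P2 h` = class of the second component of `pot h`.
PROOF.  `Ψ_s h = ∑_{c ∈ F} T s c (grad c h)` is continuous linear `H → L2 C`; `P2 h = prj (fun s => Ψ_s h)`
(`dL (pot h) _ c = grad c h`).  For `α = pot h` let `f` be as in `E.dec`: `f ∈ D2`, `α - f ∈ D1`,
`s f - f = Ψ_s h`.  `D.decomp` for `f`: `f - pot (P2 h) ∈ const + ℓ²`.  Hence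
(a) `pot (P2 h) ∈ D2` and `pot h - pot (P2 h) ∈ D1` (both subspaces contain constants and `ℓ²`);
(b) `pot h ∈ D2` ⟹ `P2 h = h`: `pot h - pot (P2 h) ∈ D1 ∩ D2 ⊆ const + ℓ²` (`cap`), `uniq`;
(c) `pot h ∈ D1` ⟹ `P2 h = 0`: `pot (P2 h) ∈ D1 ∩ D2`, `uniq`.
`P2_spec` (c) general form: for any `β` with `DC β`, `prj (fun s => ∑_c T s c (dL β _ c)) = P2 (class of β)`;
see below.

`hankel_compact` : let `m` be bounded with `∑ (1 + ℓ x)² |m (c⁻¹ x) - m x|² < ∞` for all `c` and `A'` the
operator of multiplication by `m` (`IsMulOp D m A'`).  Then `P2 A' (1 - P2)` is compact.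
PROOF.  For `β` with `DC β` put `Ψ(β)_s = ∑_{c ∈ F} T s c (dL β _ c) ∈ L2 C` and `Q(β) = prj (Ψ(β))`.
`Q` is additive, and `Q(β) = 0` for `β ∈ const + ℓ²`: with `f` of `E.dec` for `β`, `β ∈ D1`, so
`f = β - (β - f) ∈ D1 ∩ D2`, `f ∈ const + ℓ²`, and by `D.decomp` for `f`, `pot (Q β) ∈ const + ℓ²`, `Q β = 0`.
Let `h ∈ H`, `h₁ = (1 - P2) h`, `α = pot h₁ ∈ D1`.  `m α = pot (A' h₁) + k + v`, so
`P2 (A' h₁) = Q(pot (A' h₁)) = Q(m α)`.  Now
`c (m α) - m α = m (c α - α) + (c m - m)(c α - α) + (c m - m) α` so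
`Ψ(m α)_s = m Ψ(α)_s + ∑_c [T s c, m] (grad c h₁) + ∑_c T s c ((c m - m) · grad c h₁) + ∑_c T s c (N_c h₁)`,
`N_c` the compact operator of `wcompact` with multiplier `c m - m` and evaluations `pot · x`; the
multiplication by `c m - m` is compact (`mul_compact`, `tendsto_of_sq`), `[T s c, m]` is compact
(`comm_compact`).  And `Ψ(α) = (s v' - v')_s` with `v' = lpart (Ψ(α))`: by (c) `prj (Ψ α) = P2 h₁ = 0`, and
with `f` of `E.dec` for `α`, `D.decomp` for `f` gives `f = k' + lpart (Ψ α)`.  So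
`m Ψ(α)_s = m (s v' - v') = [s (m v') - m v'] - (s m - m) (s v')`, the second term is
(mul by `s m - m`) ∘ `lreg s` ∘ `lpart` ∘ `Ψ` applied to `h₁`, compact in `h₁`; the first is the family of
differences of the `ℓ²` function `m v'`, which `prj` kills (`D.decomp` and `uniq`).
So `P2 A' (1 - P2) = prj ∘ (compact : H → (S → L2 C)) ∘ (1 - P2)`.  A map into the finite product
`S → L2 C` with compact components is compact: write it as a finite sum of
`ContinuousLinearMap.single`-type maps composed with the components.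
-/

namespace Pool.Agent.Lib.P9f173dW

open Z9f173d

universe u

variable {C : Type u} [Group C] {S : Finset C} {ℓ : C → ℝ}

namespace OpPAux

noncomputable section

variable (D : PotData C S ℓ) (E : DecData C S)

theorem dc_pot (h : D.H) : DC (D.pot h) := fun c => by
  have h1 : df c (D.pot h) = fun x => D.grad c h x := by
    funext x
    rw [D.grad_apply]
    rfl
  rw [h1]
  exact sq_coe _

theorem dL_pot (h : D.H) (hα : DC (D.pot h)) (c : C) : dL (D.pot h) hα c = D.grad c h := by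
  ext x
  rw [dL_apply, D.grad_apply]

/-- the differences of the second component -/
def psi (β : C → ℂ) (hβ : DC β) : S → L2 C := fun s => ∑ c ∈ E.F, E.T s c (dL β hβ c)

/-- the class of the second component -/
def Q (β : C → ℂ) (hβ : DC β) : D.H := D.prj (psi E β hβ)

theorem key (β : C → ℂ) (hβ : DC β) : ∃ f ∈ E.D2, β - f ∈ E.D1 ∧
    (∀ (s : S) (x : C), f ((s : C)⁻¹ * x) - f x = psi E β hβ s x) ∧
    ∃ k : ℂ, ∀ x, f x = D.pot (Q D E β hβ) x + k + D.lpart (psi E β hβ) x := by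
  obtain ⟨f, hf, hf1, hf2⟩ := E.dec β hβ
  have h1 : (fun s : S => dL f (E.dc2 f hf) (s : C)) = psi E β hβ := by
    funext s
    ext x
    rw [dL_apply]
    exact hf2 s s.2 x
  obtain ⟨k, hk⟩ := D.decomp f (E.dc2 f hf)
  rw [h1] at hk
  exact ⟨f, hf, hf1, fun s x => hf2 s s.2 x, k, hk⟩

theorem pot_mem2 (β : C → ℂ) (hβ : DC β) : D.pot (Q D E β hβ) ∈ E.D2 := by
  obtain ⟨f, hf, -, -, k, hk⟩ := key D E β hβ
  have h1 : D.pot (Q D E β hβ) = f - (fun _ => k) - (fun x => D.lpart (psi E β hβ) x) := by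
    funext x
    simp only [Pi.sub_apply]
    rw [hk]
    ring
  rw [h1]
  exact Submodule.sub_mem _ (Submodule.sub_mem _ hf (E.const2 k)) (E.sq2 _ (sq_coe _))

theorem sub_mem1 (β : C → ℂ) (hβ : DC β) : β - D.pot (Q D E β hβ) ∈ E.D1 := by
  obtain ⟨f, -, hf, -, k, hk⟩ := key D E β hβ
  have h1 : β - D.pot (Q D E β hβ) = (β - f) + (fun _ => k) +
      (fun x => D.lpart (psi E β hβ) x) := by
    funext x
    simp only [Pi.sub_apply, Pi.add_apply]
    rw [hk]
    ring
  rw [h1]
  exact Submodule.add_mem _ (Submodule.add_mem _ hf (E.const1 k)) (E.sq1 _ (sq_coe _))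

theorem eq_zero_of (h : D.H) (h1 : D.pot h ∈ E.D1) (h2 : D.pot h ∈ E.D2) : h = 0 := by
  obtain ⟨k, hk⟩ := E.cap _ h1 h2
  exact D.uniq h k hk

theorem Q_congr (β β' : C → ℂ) (hβ : DC β) (hβ' : DC β') (k : ℂ)
    (h : SQ fun x => β x - β' x - k) : Q D E β hβ = Q D E β' hβ' := by
  rw [← sub_eq_zero]
  refine eq_zero_of D E _ ?_ ?_
  · have h1 : D.pot (Q D E β hβ - Q D E β' hβ') =
        ((β' - D.pot (Q D E β' hβ')) - (β - D.pot (Q D E β hβ))) +
          ((fun x => β x - β' x - k) + fun _ => k) := by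
      rw [map_sub]
      funext x
      simp only [Pi.sub_apply, Pi.add_apply]
      ring
    rw [h1]
    exact Submodule.add_mem _ (Submodule.sub_mem _ (sub_mem1 D E _ _) (sub_mem1 D E _ _))
      (Submodule.add_mem _ (E.sq1 _ h) (E.const1 k))
  · rw [map_sub]
    exact Submodule.sub_mem _ (pot_mem2 D E _ _) (pot_mem2 D E _ _)

theorem Q_eq_zero (β : C → ℂ) (hβ : DC β) (h : β ∈ E.D1) : Q D E β hβ = 0 := by
  refine eq_zero_of D E _ ?_ (pot_mem2 D E _ _)
  have h1 : D.pot (Q D E β hβ) = β - (β - D.pot (Q D E β hβ)) := by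
    funext x
    simp only [Pi.sub_apply]
    ring
  rw [h1]
  exact Submodule.sub_mem _ h (sub_mem1 D E _ _)

/-- the differences of the second component of a class -/
def Psi : D.H →L[ℂ] (S → L2 C) :=
  ContinuousLinearMap.pi fun s : S => ∑ c ∈ E.F, (E.T s c).comp (D.grad c)

theorem Psi_apply (h : D.H) (hα : DC (D.pot h)) : Psi D E h = psi E (D.pot h) hα := by
  funext s
  simp only [Psi, psi, ContinuousLinearMap.pi_apply, _root_.sum_apply,
    ContinuousLinearMap.comp_apply]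
  exact Finset.sum_congr rfl fun c _ => by rw [dL_pot]

/-- the projection -/
def P2 : D.H →L[ℂ] D.H := D.prj.comp (Psi D E)

theorem P2_apply (h : D.H) (hα : DC (D.pot h)) : P2 D E h = Q D E (D.pot h) hα := by
  change D.prj (Psi D E h) = D.prj (psi E (D.pot h) hα)
  rw [Psi_apply]

theorem prj_diff (u : L2 C) : D.prj (fun s : S => lreg (s : C) u - u) = 0 := by
  have hu : DC fun x => u x := fun c => by
    have h1 : SQ fun x => u (c⁻¹ * x) := (sq_coe u).comp (mul_right_injective c⁻¹)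
    exact h1.sub (sq_coe u)
  obtain ⟨k, hk⟩ := D.decomp (fun x => u x) hu
  have h1 : (fun s : S => dL (fun x => u x) hu (s : C)) = fun s : S => lreg (s : C) u - u := by
    funext s
    ext x
    rfl
  rw [h1] at hk
  refine D.uniq _ (-k) ?_
  have h2 : (fun x => D.pot (D.prj fun s : S => lreg (s : C) u - u) x - -k) =
      fun x => (u - D.lpart (fun s : S => lreg (s : C) u - u) : L2 C) x := by
    funext x
    change _ = u x - D.lpart (fun s : S => lreg (s : C) u - u) x
    rw [hk x]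
    ring
  rw [h2]
  exact sq_coe _

theorem compact_sum {ι : Type*} (t : Finset ι) {H₁ H₂ : Type*} [NormedAddCommGroup H₁]
    [NormedSpace ℂ H₁] [NormedAddCommGroup H₂] [NormedSpace ℂ H₂] (f : ι → (H₁ →L[ℂ] H₂))
    (hf : ∀ i ∈ t, IsCompactOperator (f i)) : IsCompactOperator (∑ i ∈ t, f i : H₁ →L[ℂ] H₂) := by
  classical
  induction t using Finset.induction_on with
  | empty =>
    rw [Finset.sum_empty]
    exact isCompactOperator_zero
  | insert i t hi ih =>
    rw [Finset.sum_insert hi]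
    exact (hf i (Finset.mem_insert_self _ _)).add
      (ih fun j hj => hf j (Finset.mem_insert_of_mem hj))

theorem hankel (m : C → ℂ) (K : ℝ) (hmK : ∀ x, ‖m x‖ ≤ K)
    (hm : ∀ c : C, Summable fun x => (1 + ℓ x) ^ 2 * ‖m (c⁻¹ * x) - m x‖ ^ 2)
    (hℓ : ∀ x, 0 ≤ ℓ x) (A' : D.H →L[ℂ] D.H) (hA' : IsMulOp D m A') :
    IsCompactOperator (P2 D E * A' * (1 - P2 D E) : D.H →L[ℂ] D.H) := by
  classical
  obtain ⟨Kg, hKg⟩ := D.growth
  let mc : C → C → ℂ := fun c x => m (c⁻¹ * x) - m x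
  have hmcK : ∀ c x, ‖mc c x‖ ≤ K + K := fun c x =>
    (norm_sub_le _ _).trans (add_le_add (hmK _) (hmK _))
  have hsq : ∀ c, SQ (mc c) := fun c => by
    refine Summable.of_nonneg_of_le (fun x => by positivity) (fun x => ?_) (hm c)
    have h1 : (1 : ℝ) ≤ (1 + ℓ x) ^ 2 := by
      have := hℓ x
      nlinarith
    exact le_mul_of_one_le_left (by positivity) h1
  have hN : ∀ c, ∃ N : D.H →L[ℂ] L2 C, IsCompactOperator N ∧
      ∀ h x, N h x = mc c x * D.pot h x := fun c =>
    wcompact (fun x => (LinearMap.proj x).comp D.pot) (fun x => 1 + ℓ x) Kg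
      (fun x h => hKg h x) (mc c) (hm c)
  choose N hNc hN using hN
  let M : L2 C →L[ℂ] L2 C := mulL m K hmK
  let Mc : C → (L2 C →L[ℂ] L2 C) := fun c => mulL (mc c) (K + K) (hmcK c)
  have hMc : ∀ c, IsCompactOperator (Mc c) := fun c =>
    mul_compact _ _ _ (tendsto_of_sq (hsq c))
  have hcomm : ∀ s c, IsCompactOperator (E.T s c * M - M * E.T s c : L2 C →L[ℂ] L2 C) :=
    fun s c => comm_compact m K hmK (fun c => tendsto_of_sq (hsq c)) _ (E.T_mem s c)
  let R : S → (D.H →L[ℂ] L2 C) := fun s => ∑ c ∈ E.F,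
    ((E.T s c * M - M * E.T s c : L2 C →L[ℂ] L2 C).comp (D.grad c) +
      (E.T s c).comp ((Mc c).comp (D.grad c)) + (E.T s c).comp (N c))
  have hR : ∀ s, IsCompactOperator (R s) := fun s => compact_sum _ _ fun c _ =>
    (((hcomm s c).comp_clm (D.grad c)).add (((hMc c).comp_clm (D.grad c)).clm_comp (E.T s c))).add
      ((hNc c).clm_comp (E.T s c))
  let G : S → (D.H →L[ℂ] L2 C) := fun s =>
    R s - (Mc s).comp ((lreg (s : C)).comp (D.lpart.comp (Psi D E)))
  have hG : ∀ s, IsCompactOperator (G s) := fun s =>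
    (hR s).sub ((hMc s).comp_clm ((lreg (s : C)).comp (D.lpart.comp (Psi D E))))
  let Tot : D.H →L[ℂ] D.H := ∑ s : S,
    (D.prj.comp (ContinuousLinearMap.single ℂ (fun _ : S => L2 C) s)).comp (G s)
  have hTot : IsCompactOperator Tot := compact_sum _ _ fun s _ =>
    (hG s).clm_comp (D.prj.comp (ContinuousLinearMap.single ℂ (fun _ : S => L2 C) s))
  have hTotv : ∀ h, Tot h = D.prj (fun s => G s h) := by
    intro h
    have h1 : Tot h = ∑ s : S, D.prj (Pi.single s (G s h)) := by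
      simp only [Tot, _root_.sum_apply]
      rfl
    rw [h1, ← map_sum]
    congr 1
    exact Finset.univ_sum_single (fun s => G s h)
  have hmain : (P2 D E * A' * (1 - P2 D E) : D.H →L[ℂ] D.H) = Tot * (1 - P2 D E) := by
    refine ContinuousLinearMap.ext fun h => ?_
    change P2 D E (A' ((1 - P2 D E) h)) = Tot ((1 - P2 D E) h)
    set h₁ : D.H := (1 - P2 D E) h with hh₁
    have hD1 : D.pot h₁ ∈ E.D1 := by
      have h1 : h₁ = h - P2 D E h := rfl
      rw [h1, map_sub, P2_apply D E h (dc_pot D h)]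
      exact sub_mem1 D E _ _
    have hα := dc_pot D h₁
    have hdiff : ∀ c, df c (fun x => m x * D.pot h₁ x) = fun x =>
        (M (D.grad c h₁) + Mc c (D.grad c h₁) + N c h₁ : L2 C) x := by
      intro c
      funext x
      change _ = m x * D.grad c h₁ x + mc c x * D.grad c h₁ x + N c h₁ x
      rw [hN, D.grad_apply, df_apply]
      simp only [mc]
      ring
    have hmα : DC fun x => m x * D.pot h₁ x := fun c => by
      rw [hdiff]
      exact sq_coe _
    have hdL : ∀ c, dL _ hmα c = M (D.grad c h₁) + Mc c (D.grad c h₁) + N c h₁ := by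
      intro c
      ext x
      exact congrFun (hdiff c) x
    obtain ⟨k, hk⟩ := hA' h₁
    have e1 : P2 D E (A' h₁) = D.prj (psi E _ hmα) := by
      rw [P2_apply D E (A' h₁) (dc_pot D _)]
      refine Q_congr D E _ _ _ _ (-k) ?_
      have h2 : (fun x => D.pot (A' h₁) x - m x * D.pot h₁ x - -k) =
          -(fun x => m x * D.pot h₁ x - D.pot (A' h₁) x - k) := by
        funext x
        simp only [Pi.neg_apply]
        ring
      rw [h2]
      exact hk.neg
    set v : L2 C := D.lpart (Psi D E h₁) with hv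
    have e2 : ∀ s : S, Psi D E h₁ s = lreg (s : C) v - v := by
      intro s
      obtain ⟨f, -, -, hf, k', hk'⟩ := key D E _ hα
      ext x
      have h3 := hf s x
      rw [hk', hk', Q_eq_zero D E _ hα hD1, map_zero, ← Psi_apply D E h₁ hα, ← hv] at h3
      rw [← h3]
      change _ = v ((s : C)⁻¹ * x) - v x
      simp only [Pi.zero_apply]
      ring
    have e3 : ∀ s : S, psi E _ hmα s = G s h₁ + (lreg (s : C) (M v) - M v) := by
      intro s
      have h4 : psi E _ hmα s = R s h₁ + M (Psi D E h₁ s) := by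
        simp only [psi, R, Psi, ContinuousLinearMap.pi_apply, _root_.sum_apply, map_sum]
        rw [← Finset.sum_add_distrib]
        refine Finset.sum_congr rfl fun c _ => ?_
        rw [hdL, map_add, map_add]
        change _ = ((E.T s c (M (D.grad c h₁)) - M (E.T s c (D.grad c h₁))) +
          E.T s c (Mc c (D.grad c h₁)) + E.T s c (N c h₁)) + M (E.T s c (D.grad c h₁))
        abel
      rw [h4, e2 s]
      have h5 : M (lreg (s : C) v - v) =
          (lreg (s : C) (M v) - M v) - Mc s (lreg (s : C) v) := by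
        ext x
        change m x * (v ((s : C)⁻¹ * x) - v x) =
          (m ((s : C)⁻¹ * x) * v ((s : C)⁻¹ * x) - m x * v x) -
            (m ((s : C)⁻¹ * x) - m x) * v ((s : C)⁻¹ * x)
        ring
      rw [h5]
      have h6 : G s h₁ = R s h₁ - Mc s (lreg (s : C) v) := rfl
      rw [h6]
      abel
    rw [e1, hTotv]
    have e4 : psi E _ hmα = (fun s => G s h₁) + fun s : S => lreg (s : C) (M v) - M v := by
      funext s
      exact e3 s
    rw [e4, map_add, prj_diff, add_zero]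
  rw [hmain]
  exact hTot.comp_clm _

end

end OpPAux

open OpPAux

theorem exists_P2 (D : PotData C S ℓ) (E : DecData C S) : ∃ P2 : D.H →L[ℂ] D.H,
    (∀ h, D.pot (P2 h) ∈ E.D2) ∧ (∀ h, D.pot h - D.pot (P2 h) ∈ E.D1) ∧
    (∀ h, D.pot h ∈ E.D2 → P2 h = h) ∧ (∀ h, D.pot h ∈ E.D1 → P2 h = 0) ∧
    ∀ (m : C → ℂ) (K : ℝ) (_ : ∀ x, ‖m x‖ ≤ K)
      (_ : ∀ c : C, Summable fun x => (1 + ℓ x) ^ 2 * ‖m (c⁻¹ * x) - m x‖ ^ 2)
      (_ : ∀ x, 0 ≤ ℓ x) (A' : D.H →L[ℂ] D.H) (_ : IsMulOp D m A'),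
      IsCompactOperator (P2 * A' * (1 - P2) : D.H →L[ℂ] D.H) := by
  refine ⟨P2 D E, fun h => ?_, fun h => ?_, fun h hh => ?_, fun h hh => ?_, ?_⟩
  · rw [P2_apply D E h (dc_pot D h)]
    exact pot_mem2 D E _ _
  · rw [P2_apply D E h (dc_pot D h)]
    exact sub_mem1 D E _ _
  · rw [P2_apply D E h (dc_pot D h), ← sub_eq_zero]
    refine eq_zero_of D E _ ?_ ?_
    · rw [map_sub, ← neg_sub]
      exact Submodule.neg_mem _ (sub_mem1 D E _ _)
    · rw [map_sub]
      exact Submodule.sub_mem _ (pot_mem2 D E _ _) hh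
  · rw [P2_apply D E h (dc_pot D h)]
    exact Q_eq_zero D E _ _ hh
  · intro m K hmK hm hℓ A' hA'
    exact hankel D E m K hmK hm hℓ A' hA'

end Pool.Agent.Lib.P9f173dW
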