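import Mathlib

/-!
# Module Orbit: equivariant choices

PROOFS.
* `fam_ext`: choose a representative `o x` in every orbit (`Quotient.out` for `MulAction.orbitRel G X`) and
  `γ x : G` with `γ x • o x = x`, and for every representative an `n(o x)` as in the hypothesis.  Put
  `F x = a (γ x) (n (o x))`.  `P x (F x)` by `hP`.  `F (g • x) = a (γ (g • x)) (n (o x))` (same orbit,
  same representative), and `(g γ x)⁻¹ γ (g • x)` fixes `o x`, so
  `a (γ (g • x)) n = a (g γ x) (a ((g γ x)⁻¹ γ (g • x)) n) = a (g γ x) n = a g (F x)`.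
* `exists_orient`: an orientation of the edges of a graph invariant under a group acting without
  inversions.  Let `E` be the set of ordered pairs `(v, w)` of adjacent vertices, `X` its set of orbits,
  `σ : X → X` the involution induced by `(v, w) ↦ (w, v)`; `σ x ≠ x` since there are no inversions
  (`hinv` for an edge of the orbit: `g • (v, w) = (w, v)` is excluded).  Choose a
  linear order on `X` (`exists_wellOrder`/`linearOrderOfSTO WellOrderingRel`) and let
  `o v w` iff `(v, w) ∈ E` and `[(v, w)] < σ [(v, w)]`.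
-/

namespace Pool.Agent.Lib.P9f173dW

theorem fam_ext {G X N : Type*} [Group G] [MulAction G X] (a : G → N → N)
    (ha1 : ∀ n, a 1 n = n) (hamul : ∀ g h n, a (g * h) n = a g (a h n)) (P : X → N → Prop)
    (hP : ∀ g x n, P x n → P (g • x) (a g n))
    (h : ∀ x, ∃ n, P x n ∧ ∀ g : G, g • x = x → a g n = n) :
    ∃ F : X → N, (∀ x, P x (F x)) ∧ ∀ (g : G) x, F (g • x) = a g (F x) := by
  classical
  let o : X → X := fun x => (Quotient.mk (MulAction.orbitRel G X) x).out
  have hγ : ∀ x, ∃ g : G, g • o x = x := by
    intro x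
    have h1 : (MulAction.orbitRel G X) (o x) x :=
      Quotient.exact (s := MulAction.orbitRel G X) (Quotient.out_eq _)
    have h2 : (MulAction.orbitRel G X) x (o x) := (MulAction.orbitRel G X).symm h1
    rw [MulAction.orbitRel_apply] at h2
    exact h2
  choose γ hγ using hγ
  choose n hn hfix using h
  refine ⟨fun x => a (γ x) (n (o x)), ?_, ?_⟩
  · intro x
    have := hP (γ x) (o x) (n (o x)) (hn (o x))
    rwa [hγ] at this
  · intro g x
    have ho : o (g • x) = o x := by
      have h1 : (Quotient.mk (MulAction.orbitRel G X) (g • x)) =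
          Quotient.mk (MulAction.orbitRel G X) x := by
        apply Quotient.sound
        exact MulAction.mem_orbit x g
      change (Quotient.mk (MulAction.orbitRel G X) (g • x)).out =
        (Quotient.mk (MulAction.orbitRel G X) x).out
      rw [h1]
    have h1 : ((g * γ x)⁻¹ * γ (g • x)) • o x = o x := by
      rw [mul_smul]
      nth_rewrite 1 [← ho]
      rw [hγ, inv_smul_eq_iff, mul_smul, hγ]
    have h2 : γ (g • x) = (g * γ x) * ((g * γ x)⁻¹ * γ (g • x)) := by
      rw [mul_inv_cancel_left]
    change a (γ (g • x)) (n (o (g • x))) = a g (a (γ x) (n (o x)))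
    rw [ho, h2, hamul, hfix (o x) _ h1, hamul]

theorem exists_orient {G V : Type*} [Group G] [MulAction G V] (T : SimpleGraph V)
    (hadj : ∀ (g : G) (v v' : V), T.Adj v v' → T.Adj (g • v) (g • v'))
    (hinv : ∀ (g : G) (v w : V), T.Adj v w → g • v = w → g • w ≠ v) :
    ∃ o : V → V → Prop, (∀ (g : G) v w, o v w → o (g • v) (g • w)) ∧
      (∀ v w, T.Adj v w → o v w ∨ o w v) ∧ (∀ v w, o v w → T.Adj v w) ∧
      ∀ v w, o v w → ¬ o w v := by
  classical
  let q : V → V → Quotient (MulAction.orbitRel G (V × V)) := fun v w =>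
    Quotient.mk (MulAction.orbitRel G (V × V)) (v, w)
  have hq : ∀ (g : G) v w, q (g • v) (g • w) = q v w := by
    intro g v w
    apply Quotient.sound
    exact MulAction.mem_orbit (v, w) g
  refine ⟨fun v w => T.Adj v w ∧ WellOrderingRel (q v w) (q w v), ?_, ?_, fun v w h => h.1, ?_⟩
  · rintro g v w ⟨h1, h2⟩
    refine ⟨hadj g v w h1, ?_⟩
    rw [hq, hq]
    exact h2
  · intro v w h
    rcases trichotomous_of WellOrderingRel (q v w) (q w v) with h1 | h1 | h1
    · exact Or.inl ⟨h, h1⟩
    · exfalso
      have h2 : (MulAction.orbitRel G (V × V)) (v, w) (w, v) := Quotient.exact h1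
      rw [MulAction.orbitRel_apply] at h2
      obtain ⟨g, hg⟩ := h2
      have h3 : g • w = v := congrArg Prod.fst hg
      have h4 : g • v = w := congrArg Prod.snd hg
      exact hinv g v w h h4 h3
    · exact Or.inr ⟨h.symm, h1⟩
  · rintro v w ⟨_, h1⟩ ⟨_, h2⟩
    exact asymm_of WellOrderingRel h1 h2

end Pool.Agent.Lib.P9f173dW
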