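import Pool.Agent.Lib.P9f173dW.Defs
import Pool.Agent.Lib.P9f173dU.Amen

/-!
# Module Pot: the Banach space of Dirichlet functions modulo square summable functions

`C` a group generated by the finite symmetric set `S`, not amenable.  Construct
`PotData C S (wl S)`.

PROOF.  (0) GAP: `P9f173dU.gap_of_not_foelner` gives a finite set `S₁` and `ε > 0` with
`ε ‖ξ‖² ≤ ∑_{s ∈ S₁} ‖s ξ - ξ‖²` (for `L2 C`; there `L2` is `P9f173dA.L2`, the same `lp`).  Since every `s₁` is
a product of at most `n` elements of `S` (`wl`) and `‖s t ξ - ξ‖ ≤ ‖s (t ξ - ξ)‖ + ‖s ξ - ξ‖`,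
`‖s₁ ξ - ξ‖ ≤ n max_S ‖s ξ - ξ‖`.  So there is `κ > 0` with `κ ‖ξ‖ ≤ max_{s ∈ S} ‖s ξ - ξ‖`
(`‖·‖` of `fun s : S => lreg s ξ - ξ` in `S → L2 C`).
Here `s ξ = lreg s ξ`, `(s ξ) x = ξ (s⁻¹ x)`; every `x : C` is a product of a list of `wl S x` elements
of `S` (nonempty set since `S` generates and is symmetric).
(1) Let `E = PiLp 2 (fun _ : S => L2 C)` (Hilbert space) and `d : L2 C →L E`, `d ξ = (s ξ - ξ)_s`, bounded
below by (0), so its range `B` is closed.  Let `Z ⊆ E` be the set of `ω` for which there is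
`α : C → ℂ` with `α (s⁻¹ x) - α x = ω s x` for all `s ∈ S`, `x`.  `Z` is a closed subspace: for `ω ∈ Z` there is a
unique such `α` with `α 1 = 0` and `‖α x‖ ≤ wl S x * ‖ω‖` (telescoping along a word of `x`:
`x = s₁ ⋯ s_n`, `α (s t) - α t = - ω s⁻¹`... use symmetry of `S`: `α (s t) = α t + ω s⁻¹ t`, as
`(s⁻¹)⁻¹ t = s t`), so limits of `ω`'s give pointwise limits of `α`'s.  `B ⊆ Z`.
(2) `H := Z ⊓ Bᗮ`, closed, complete.  `pot ω` = the `α` with `α 1 = 0`: linear in `ω` by uniqueness
(`α` is determined by `α 1` and the `ω s` since `S` generates), growth with `K = 1`.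
`grad c` : `c α - α` is in `ℓ²` with norm `≤ wl S c * ‖ω‖`: for a word `c = s₁ ⋯ s_n`,
`c α - α = ∑_i s₁ ⋯ s_{i-1} (s_i α - α)`.
(3) `prj` : `(S → L2 C) ≃ E →` (orthogonal projection) `H`.  `lpart` : `(S → L2 C) ≃ E →` (orthogonal
projection onto `B`) `B ≃ L2 C` (the inverse of `d`, bounded).  `decomp` : for `α` with
square summable differences `ω = (s α - α)_s ∈ Z`, and `ω = P_H ω + P_B ω` for `ω ∈ Z` (since
`ω - P_B ω ∈ Z ⊓ Bᗮ`), so `α - pot (P_H ω) - d⁻¹ P_B ω` has zero differences for `s ∈ S`, hence is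
constant.
(4) `uniq` : if `pot h - k ∈ ℓ²` then `h = d (pot h - k) ∈ B`, and `h ∈ Bᗮ`.
(5) `conj_mem` : conjugation `(ω̄ s) x = conj (ω s x)` preserves `Z` and `B`, hence `H`
(`⟪ω̄, β̄⟫ = conj ⟪ω, β⟫`).
-/

namespace Pool.Agent.Lib.P9f173dW

open Z9f173d

universe u

namespace PotAux

open scoped ComplexConjugate InnerProductSpace

noncomputable section

variable {C : Type u} [Group C] {S : Finset C}

/-- the Hilbert space of families of square summable functions -/
abbrev EE (S : Finset C) : Type u := PiLp 2 (fun _ : S => L2 C)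

/-- the product of a list -/
def pr (l : List S) : C := (l.map Subtype.val).prod

@[simp] theorem pr_nil : pr ([] : List S) = 1 := rfl

@[simp] theorem pr_cons (s : S) (l : List S) : pr (s :: l) = s * pr l := by
  simp [pr]

@[simp] theorem pr_append (l l' : List S) : pr (l ++ l') = pr l * pr l' := by
  simp [pr]

/-- the difference `c α - α`, `c` the product of the list, in terms of the differences `s α - α` -/
def gl : List S → (EE S →L[ℂ] L2 C)
  | [] => 0
  | s :: l => (lreg (s : C)).comp (gl l) + PiLp.proj 2 (fun _ : S => L2 C) s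

theorem gl_nil (ω : EE S) : gl ([] : List S) ω = 0 := rfl

theorem gl_cons (s : S) (l : List S) (ω : EE S) (x : C) :
    gl (s :: l) ω x = gl l ω ((s : C)⁻¹ * x) + ω s x := rfl

theorem gl_append (l l' : List S) (ω : EE S) (x : C) :
    gl (l ++ l') ω x = gl l ω x + gl l' ω ((pr l)⁻¹ * x) := by
  induction l generalizing x with
  | nil => simp [gl_nil]
  | cons s l ih =>
    rw [List.cons_append, gl_cons, gl_cons, ih, pr_cons, mul_inv_rev, mul_assoc]
    ring

theorem gl_pot {α : C → ℂ} {ω : EE S} (h : ∀ (s : S) (x : C), α ((s : C)⁻¹ * x) - α x = ω s x)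
    (l : List S) (x : C) : gl l ω x = α ((pr l)⁻¹ * x) - α x := by
  induction l generalizing x with
  | nil => simp [gl_nil]
  | cons s l ih =>
    rw [gl_cons, ih, ← h, pr_cons, mul_inv_rev, mul_assoc]
    ring

theorem norm_gl_le (l : List S) (ω : EE S) : ‖gl l ω‖ ≤ l.length * ‖ω‖ := by
  induction l with
  | nil => simp [gl_nil]
  | cons s l ih =>
    have h1 : gl (s :: l) ω = lreg (s : C) (gl l ω) + ω s := rfl
    have h2 : ‖lreg (s : C) (gl l ω)‖ = ‖gl l ω‖ := norm_lregLin (s : C) _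
    have h3 : ‖ω s‖ ≤ ‖ω‖ := PiLp.norm_apply_le ω s
    rw [h1, List.length_cons]
    push_cast
    calc _ ≤ ‖lreg (s : C) (gl l ω)‖ + ‖ω s‖ := norm_add_le _ _
      _ ≤ l.length * ‖ω‖ + ‖ω‖ := by rw [h2]; exact add_le_add ih h3
      _ = _ := by ring

/-- the identification with the product space -/
def eq (S : Finset C) : EE S ≃L[ℂ] (S → L2 C) := PiLp.continuousLinearEquiv 2 ℂ (fun _ : S => L2 C)

omit [Group C] in
@[simp] theorem eq_symm_apply (w : S → L2 C) (s : S) : (eq S).symm w s = w s := rfl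

/-- the differences of a square summable function -/
def d (S : Finset C) : L2 C →L[ℂ] EE S :=
  ((eq S).symm : (S → L2 C) →L[ℂ] EE S).comp (ContinuousLinearMap.pi fun s : S => lreg (s : C) - 1)

@[simp] theorem d_apply (v : L2 C) (s : S) (x : C) : d S v s x = v ((s : C)⁻¹ * x) - v x := rfl

theorem gl_d (l : List S) (v : L2 C) : gl l (d S v) = lreg (pr l) v - v := by
  ext x
  rw [gl_pot (α := fun x => v x) (fun s x => (d_apply v s x).symm)]
  rfl

theorem exists_inv (hinv : ∀ s ∈ S, s⁻¹ ∈ S) (l : List S) : ∃ l' : List S, pr l' = (pr l)⁻¹ := by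
  induction l with
  | nil => exact ⟨[], by simp⟩
  | cons s l ih =>
    obtain ⟨l', hl'⟩ := ih
    refine ⟨l' ++ [⟨(s : C)⁻¹, hinv s s.2⟩], ?_⟩
    rw [pr_append, hl', pr_cons, pr_cons, pr_nil, mul_inv_rev, mul_one]

theorem exists_list (hinv : ∀ s ∈ S, s⁻¹ ∈ S) (hgen : Subgroup.closure (S : Set C) = ⊤) (x : C) :
    ∃ l : List S, pr l = x := by
  have hx : x ∈ Subgroup.closure (S : Set C) := by rw [hgen]; trivial
  induction hx using Subgroup.closure_induction with
  | mem x hx => exact ⟨[⟨x, hx⟩], by simp⟩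
  | one => exact ⟨[], rfl⟩
  | mul x y _ _ hx hy =>
    obtain ⟨l, rfl⟩ := hx
    obtain ⟨l', rfl⟩ := hy
    exact ⟨l ++ l', pr_append _ _⟩
  | inv x _ hx =>
    obtain ⟨l, rfl⟩ := hx
    exact exists_inv hinv l

theorem exists_word (hinv : ∀ s ∈ S, s⁻¹ ∈ S) (hgen : Subgroup.closure (S : Set C) = ⊤) (x : C) :
    ∃ l : List S, pr l = x ∧ l.length = wl S x := by
  have hne : {n : ℕ | ∃ l : List C, l.length = n ∧ (∀ s ∈ l, s ∈ S) ∧ l.prod = x}.Nonempty := by
    obtain ⟨l, hl⟩ := exists_list hinv hgen x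
    refine ⟨l.length, l.map Subtype.val, by simp, ?_, hl⟩
    intro s hs
    obtain ⟨t, -, rfl⟩ := List.mem_map.1 hs
    exact t.2
  obtain ⟨l, hl1, hl2, hl3⟩ := Nat.sInf_mem hne
  refine ⟨l.attach.map fun s => ⟨s.1, hl2 s.1 s.2⟩, ?_, ?_⟩
  · rw [pr, List.map_map]
    have : (Subtype.val ∘ fun s : {y // y ∈ l} => (⟨s.1, hl2 s.1 s.2⟩ : S)) = Subtype.val := rfl
    rw [this, List.attach_map_subtype_val, hl3]
  · rw [List.length_map, List.length_attach, hl1]
    rfl

theorem gap (hinv : ∀ s ∈ S, s⁻¹ ∈ S) (hgen : Subgroup.closure (S : Set C) = ⊤)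
    (hC : ¬ FoelnerAmenable C) : ∃ K : NNReal, ∀ v : L2 C, ‖v‖ ≤ K * ‖d S v‖ := by
  obtain ⟨S₁, ε, hε, hgap⟩ := P9f173dU.gap_of_not_foelner hC
  choose word hw using exists_list (S := S) hinv hgen
  set M : ℝ := ∑ s ∈ S₁, ((word s⁻¹).length : ℝ) ^ 2 with hM
  have hM0 : 0 ≤ M := Finset.sum_nonneg fun s _ => by positivity
  refine ⟨⟨Real.sqrt (M / ε), Real.sqrt_nonneg _⟩, fun v => ?_⟩
  have hsq : ∀ u : L2 C, ∑' x, ‖u x‖ ^ 2 = ‖u‖ ^ 2 := fun u => by
    have h1 := lp.norm_rpow_eq_tsum (p := 2) (by norm_num) u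
    simp only [ENNReal.toReal_ofNat] at h1
    rw [← Real.rpow_natCast]
    push_cast
    rw [h1]
    refine tsum_congr fun x => ?_
    rw [← Real.rpow_natCast]
    norm_num
  have h1 := hgap v
  rw [hsq v] at h1
  have h2 : ∑ s ∈ S₁, ∑' x, ‖v (s * x) - v x‖ ^ 2 ≤ M * ‖d S v‖ ^ 2 := by
    rw [hM, Finset.sum_mul]
    refine Finset.sum_le_sum fun s _ => ?_
    have h3 : ∑' x, ‖v (s * x) - v x‖ ^ 2 = ‖gl (word s⁻¹) (d S v)‖ ^ 2 := by
      rw [← hsq]
      refine tsum_congr fun x => ?_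
      rw [gl_d, hw]
      have : (lreg s⁻¹ v - v : L2 C) x = v (s⁻¹⁻¹ * x) - v x := rfl
      rw [this, inv_inv]
    rw [h3, ← mul_pow]
    exact pow_le_pow_left₀ (norm_nonneg _) (norm_gl_le _ _) 2
  have h3 : ‖v‖ ^ 2 ≤ M / ε * ‖d S v‖ ^ 2 := by
    rw [div_mul_eq_mul_div, le_div_iff₀ hε]
    linarith
  change ‖v‖ ≤ Real.sqrt (M / ε) * ‖d S v‖
  refine le_of_sq_le_sq ?_ (by positivity)
  rw [mul_pow, Real.sq_sqrt (by positivity)]
  exact h3

/-- the families of differences of a function -/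
def ZZ (S : Finset C) : Submodule ℂ (EE S) :=
  ⨅ p : {p : List S × List S // pr p.1 = pr p.2},
    LinearMap.ker ((gl p.1.1 - gl p.1.2 : EE S →L[ℂ] L2 C) : EE S →ₗ[ℂ] L2 C)

theorem mem_ZZ {ω : EE S} : ω ∈ ZZ S ↔ ∀ l l' : List S, pr l = pr l' → gl l ω = gl l' ω := by
  rw [ZZ, Submodule.mem_iInf]
  constructor
  · intro h l l' hl
    have h1 := h ⟨(l, l'), hl⟩
    rw [LinearMap.mem_ker] at h1
    exact sub_eq_zero.1 h1
  · rintro h ⟨⟨l, l'⟩, hl⟩
    rw [LinearMap.mem_ker]
    exact sub_eq_zero.2 (h l l' hl)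

theorem isClosed_ZZ : IsClosed (ZZ S : Set (EE S)) := by
  have : (ZZ S : Set (EE S)) = ⋂ p : {p : List S × List S // pr p.1 = pr p.2},
      {ω | (gl p.1.1 - gl p.1.2 : EE S →L[ℂ] L2 C) ω = 0} := by
    rw [ZZ, Submodule.coe_iInf]
    rfl
  rw [this]
  exact isClosed_iInter fun p => isClosed_eq (gl p.1.1 - gl p.1.2).continuous continuous_const

theorem mem_ZZ_of_pot {α : C → ℂ} {ω : EE S}
    (h : ∀ (s : S) (x : C), α ((s : C)⁻¹ * x) - α x = ω s x) : ω ∈ ZZ S := by
  rw [mem_ZZ]
  intro l l' hl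
  ext x
  rw [gl_pot h, gl_pot h, hl]

/-- the function with the given differences -/
def potF (word : C → List S) : EE S →ₗ[ℂ] (C → ℂ) where
  toFun ω x := -(gl (word x) ω x)
  map_add' ω ω' := by
    funext x
    change -(gl (word x) (ω + ω') x) = -(gl (word x) ω x) + -(gl (word x) ω' x)
    rw [map_add]
    change -(gl (word x) ω x + gl (word x) ω' x) = _
    ring
  map_smul' c ω := by
    funext x
    change -(gl (word x) (c • ω) x) = c * -(gl (word x) ω x)
    rw [map_smul]
    change -(c * gl (word x) ω x) = _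
    ring

theorem potF_apply (word : C → List S) (ω : EE S) (x : C) :
    potF word ω x = -(gl (word x) ω x) := rfl

theorem gl_potF {word : C → List S} (hw : ∀ x, pr (word x) = x) {ω : EE S} (hω : ω ∈ ZZ S)
    (l : List S) (x : C) : gl l ω x = potF word ω ((pr l)⁻¹ * x) - potF word ω x := by
  have h1 : gl (word x) ω = gl (l ++ word ((pr l)⁻¹ * x)) ω := by
    refine mem_ZZ.1 hω _ _ ?_
    rw [pr_append, hw, hw, mul_inv_cancel_left]
  rw [potF_apply, potF_apply, h1, gl_append]
  ring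

theorem potF_one {word : C → List S} (hw : ∀ x, pr (word x) = x) {ω : EE S} (hω : ω ∈ ZZ S) :
    potF word ω 1 = 0 := by
  have h1 : gl (word 1) ω = gl [] ω := mem_ZZ.1 hω _ _ (by rw [hw, pr_nil])
  rw [potF_apply, h1, gl_nil]
  simp

theorem single_apply (s : S) (ω : EE S) (x : C) : gl [s] ω x = ω s x := by
  rw [gl_cons, gl_nil]
  simp

theorem potF_diff {word : C → List S} (hw : ∀ x, pr (word x) = x) {ω : EE S} (hω : ω ∈ ZZ S)
    (s : S) (x : C) : potF word ω ((s : C)⁻¹ * x) - potF word ω x = ω s x := by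
  have h1 := gl_potF hw hω [s] x
  rw [single_apply, pr_cons, pr_nil, mul_one] at h1
  exact h1.symm

theorem const_of_inv {word : C → List S} (hw : ∀ x, pr (word x) = x) {β : C → ℂ}
    (h : ∀ (s : S) (x : C), β ((s : C)⁻¹ * x) = β x) (x : C) : β x = β 1 := by
  have key : ∀ (l : List S) (x : C), β ((pr l)⁻¹ * x) = β x := by
    intro l
    induction l with
    | nil => intro x; simp
    | cons s l ih =>
      intro x
      rw [pr_cons, mul_inv_rev, mul_assoc, ih, h]
  have h1 := key (word x) x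
  rw [hw, inv_mul_cancel] at h1
  exact h1.symm

omit [Group C] in
theorem inner_star (a b : L2 C) : ⟪a, star b⟫_ℂ = star ⟪star a, b⟫_ℂ := by
  rw [lp.inner_eq_tsum, lp.inner_eq_tsum, tsum_star]
  refine tsum_congr fun i => ?_
  simp [RCLike.inner_apply, lp.star_apply]

theorem star_d (v : L2 C) (s : S) : star (d S v s) = d S (star v) s := by
  ext x
  rw [lp.star_apply, d_apply, d_apply, star_sub]
  rfl

end

end PotAux

open PotAux
open scoped ComplexConjugate InnerProductSpace

theorem exists_potData (C : Type u) [Group C] (S : Finset C) (hinv : ∀ s ∈ S, s⁻¹ ∈ S)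
    (hgen : Subgroup.closure (S : Set C) = ⊤) (hC : ¬ FoelnerAmenable C) :
    Nonempty (PotData C S fun x => (wl S x : ℝ)) := by
  classical
  choose word hw1 hw2 using exists_word (S := S) hinv hgen
  obtain ⟨K, hK⟩ := gap (S := S) hinv hgen hC
  have hanti : AntilipschitzWith K (d S) := ContinuousLinearMap.antilipschitz_of_bound (d S) hK
  have hinj : Function.Injective (d S) := hanti.injective
  have hcl : IsClosed (Set.range (d S)) := hanti.isClosed_range (d S).uniformContinuous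
  set B : Submodule ℂ (EE S) := (d S).range with hB
  have hBcl : IsClosed (B : Set (EE S)) := by
    have : (B : Set (EE S)) = Set.range (d S) := by
      ext z
      rw [hB]
      simp
    rw [this]
    exact hcl
  have : CompleteSpace B := hBcl.completeSpace_coe
  set Hs : Submodule ℂ (EE S) := ZZ S ⊓ Bᗮ with hHs
  have hHcl : IsClosed (Hs : Set (EE S)) := by
    rw [hHs, Submodule.coe_inf]
    exact isClosed_ZZ.inter (Submodule.isClosed_orthogonal B)
  have : CompleteSpace Hs := hHcl.completeSpace_coe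
  have hdZ : ∀ v, d S v ∈ ZZ S := fun v =>
    mem_ZZ_of_pot (α := fun x => v x) fun s x => (d_apply v s x).symm
  have hdB : ∀ v, d S v ∈ B := fun v => by rw [hB]; exact ⟨v, rfl⟩
  have hHZ : ∀ ω ∈ Hs, ω ∈ ZZ S := fun ω hω => hω.1
  have hHB : ∀ ω ∈ Hs, ω ∈ Bᗮ := fun ω hω => hω.2
  let inv : B →L[ℂ] L2 C := ((d S).equivRange hinj hcl).symm
  have hinvd : ∀ b : B, d S (inv b) = b := by
    intro b
    have h1 := ((d S).equivRange hinj hcl).apply_symm_apply b
    exact congrArg Subtype.val h1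
  refine ⟨{
    H := Hs
    pot := (potF word).comp Hs.subtype
    grad := fun c => (gl (word c)).comp Hs.subtypeL
    grad_apply := ?_
    growth := ⟨1, ?_⟩
    prj := (Hs.orthogonalProjectionOnto).comp ((eq S).symm : (S → L2 C) →L[ℂ] EE S)
    lpart := inv.comp ((B.orthogonalProjectionOnto).comp ((eq S).symm : (S → L2 C) →L[ℂ] EE S))
    decomp := ?_
    uniq := ?_
    conj_mem := ?_ }⟩
  · intro c h x
    have h1 := gl_potF hw1 (hHZ _ h.2) (word c) x
    rw [hw1] at h1
    exact h1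
  · intro h x
    have h1 : ‖(potF word).comp Hs.subtype h x‖ = ‖gl (word x) (h : EE S) x‖ := by
      change ‖-(gl (word x) (h : EE S) x)‖ = _
      rw [norm_neg]
    rw [h1]
    calc ‖gl (word x) (h : EE S) x‖ ≤ ‖gl (word x) (h : EE S)‖ :=
          lp.norm_apply_le_norm (by norm_num) _ _
      _ ≤ (word x).length * ‖(h : EE S)‖ := norm_gl_le _ _
      _ ≤ 1 * (1 + (wl S x : ℝ)) * ‖h‖ := by
          rw [hw2, one_mul]
          refine mul_le_mul_of_nonneg_right ?_ (norm_nonneg _)
          linarith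
  · intro α hα
    set ω : EE S := (eq S).symm (fun s => dL α hα (s : C)) with hω
    have hωs : ∀ (s : S) (x : C), α ((s : C)⁻¹ * x) - α x = ω s x := fun s x => rfl
    have hωZ : ω ∈ ZZ S := mem_ZZ_of_pot hωs
    set v : L2 C := inv (B.orthogonalProjectionOnto ω) with hv
    have hdv : d S v = B.starProjection ω := by
      rw [hv, hinvd]
      rfl
    have hres : ω - d S v ∈ Hs := by
      refine ⟨(ZZ S).sub_mem hωZ (hdZ v), ?_⟩
      rw [hdv]
      exact Submodule.sub_starProjection_mem_orthogonal ω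
    have hproj : Hs.starProjection ω = ω - d S v := by
      refine Submodule.eq_starProjection_of_mem_orthogonal' hres (z := d S v) ?_ (by simp)
      rw [Submodule.mem_orthogonal]
      intro w hw
      have h1 := (Submodule.mem_orthogonal _ _).1 (hHB w hw) (d S v) (hdB v)
      rw [← inner_conj_symm, h1, map_zero]
    have hcoe : ((Hs.orthogonalProjectionOnto ω : Hs) : EE S) = ω - d S v := hproj
    let β : C → ℂ := fun x => α x - potF word (ω - d S v) x - v x
    have hinvar : ∀ (s : S) (x : C), β ((s : C)⁻¹ * x) = β x := by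
      intro s x
      have h1 := potF_diff hw1 (hHZ _ hres) s x
      have h2 : (ω - d S v) s x = ω s x - d S v s x := rfl
      rw [h2, ← hωs, d_apply] at h1
      simp only [β]
      linear_combination -h1
    refine ⟨α 1 - potF word (ω - d S v) 1 - v 1, fun x => ?_⟩
    have h1 := const_of_inv (β := β) hw1 hinvar x
    simp only [β] at h1
    change α x = potF word ((Hs.orthogonalProjectionOnto ω : Hs) : EE S) x + _ + v x
    rw [hcoe]
    linear_combination h1
  · intro h k hsq
    have h1 : (h : EE S) = d S (ofSQ _ hsq) := by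
      ext s x
      have h2 := potF_diff hw1 (hHZ _ h.2) s x
      rw [d_apply, ofSQ_apply, ofSQ_apply, ← h2]
      change _ = potF word (h : EE S) _ - k - (potF word (h : EE S) x - k)
      ring
    have h2 : (h : EE S) ∈ B := by rw [h1]; exact hdB _
    have h3 := (Submodule.mem_orthogonal _ _).1 (hHB _ h.2) _ h2
    rw [inner_self_eq_zero] at h3
    exact Subtype.ext h3
  · intro h
    let β : C → ℂ := fun x => conj (potF word (h : EE S) x)
    let ω' : EE S := (eq S).symm (fun s => star ((h : EE S) s))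
    have hconj : ∀ (s : S) (x : C), β ((s : C)⁻¹ * x) - β x = ω' s x := by
      intro s x
      simp only [β]
      rw [← map_sub, potF_diff hw1 (hHZ _ h.2) s x]
      rfl
    have hZ' : ω' ∈ ZZ S := mem_ZZ_of_pot (α := β) hconj
    have hB' : ω' ∈ Bᗮ := by
      rw [Submodule.mem_orthogonal]
      rintro u hu
      rw [hB] at hu
      obtain ⟨v, rfl⟩ := hu
      have h1 := (Submodule.mem_orthogonal _ _).1 (hHB _ h.2) (d S (star v)) (hdB _)
      rw [PiLp.inner_apply] at h1 ⊢
      have h2 : ∀ s : S, ⟪d S v s, ω' s⟫_ℂ =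
          star ⟪d S (star v) s, (h : EE S) s⟫_ℂ := by
        intro s
        rw [← star_d, ← inner_star]
        rfl
      have h3 : ∑ s : S, ⟪d S v s, ω' s⟫_ℂ = 0 := by
        rw [Finset.sum_congr rfl fun s _ => h2 s, ← star_sum, h1, star_zero]
      exact h3
    refine ⟨⟨_, hZ', hB'⟩, fun x => ?_⟩
    change potF word ω' x = conj (potF word (h : EE S) x)
    rw [potF_apply, gl_pot (α := β) (ω := ω') hconj, hw1, inv_mul_cancel]
    simp only [β]
    rw [potF_one hw1 (hHZ _ h.2), map_zero]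
    ring

end Pool.Agent.Lib.P9f173dW
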