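import Pool.Agent.Lib.P9f173dW.TreeFun
import Pool.Agent.Lib.P9f173dW.EdgeConj

/-!
# Functionals attached to the vertices of a tree
-/

namespace Pool.Agent.Lib.P9f173dW

open Z9f173d
open scoped Matrix

theorem cj_gs {G : Type*} [Group G] {m n : ℕ} (g : G)
    (F : (Fin m → MonoidAlgebra ℤ G) →+ (Fin n → MonoidAlgebra ℤ G)) (r) :
    cj g F (gs g r) = gs g (F r) := by
  rw [cj_apply, gs_gs, inv_mul_cancel, gs_one]

theorem closure_basis {G : Type*} [Group G] {n : ℕ} (v : Fin n → MonoidAlgebra ℤ G) :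
    v ∈ AddSubgroup.closure {v : Fin n → MonoidAlgebra ℤ G |
      ∃ (j : Fin n) (x : G), v = sv j (MonoidAlgebra.single x 1)} := by
  set L := AddSubgroup.closure {v : Fin n → MonoidAlgebra ℤ G |
      ∃ (j : Fin n) (x : G), v = sv j (MonoidAlgebra.single x 1)} with hL
  have h : (QuotientAddGroup.mk' L : (Fin n → MonoidAlgebra ℤ G) →+ _) = 0 := by
    apply addHom_ext
    intro j x
    show QuotientAddGroup.mk' L _ = 0
    rw [QuotientAddGroup.mk'_apply, QuotientAddGroup.eq_zero_iff]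
    exact AddSubgroup.subset_closure ⟨j, x, rfl⟩
  have h2 : QuotientAddGroup.mk' L v = 0 := by rw [h]; rfl
  rwa [QuotientAddGroup.mk'_apply, QuotientAddGroup.eq_zero_iff] at h2

/-- finiteness of orbits needs to be checked on basis vectors only -/
theorem finite_of_basis {G : Type*} [Group G] {n : ℕ}
    (F : G → ((Fin n → MonoidAlgebra ℤ G) →+ ℤ))
    (h : ∀ j x, {g : G | F g (sv j (MonoidAlgebra.single (g * x) 1)) ≠ 0}.Finite)
    (r : Fin n → MonoidAlgebra ℤ G) : {g : G | F g (gs g r) ≠ 0}.Finite := by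
  have h3 := closure_basis r
  induction h3 using AddSubgroup.closure_induction with
  | mem v hv =>
    obtain ⟨j, x, rfl⟩ := hv
    refine (h j x).subset ?_
    intro g hg
    have hg' : F g (gs g (sv j (MonoidAlgebra.single x 1))) ≠ 0 := hg
    rw [gs_sv] at hg'
    exact hg'
  | zero =>
    refine Set.finite_empty.subset ?_
    intro g hg
    have hg' : F g (gs g 0) ≠ 0 := hg
    exact absurd (by rw [← gsHom_apply, map_zero, map_zero]) hg'
  | add v w _ _ hv hw =>
    refine (hv.union hw).subset ?_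
    intro g hg
    have hg' : F g (gs g (v + w)) ≠ 0 := hg
    rw [gs_add, map_add] at hg'
    by_contra hcon
    rw [Set.mem_union, not_or] at hcon
    have h4 : F g (gs g v) = 0 := not_not.1 hcon.1
    have h5 : F g (gs g w) = 0 := not_not.1 hcon.2
    rw [h4, h5, add_zero] at hg'
    exact hg' rfl
  | neg v _ hv =>
    refine hv.subset ?_
    intro g hg
    have hg' : F g (gs g (-v)) ≠ 0 := hg
    rw [← gsHom_apply, map_neg, map_neg, gsHom_apply] at hg'
    exact neg_ne_zero.1 hg'

theorem pair_finite {G : Type*} [Group G] {n : ℕ} (c : Fin n → G → ℤ)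
    (hc : ∀ i, (Function.support (c i)).Finite) (r : Fin n → MonoidAlgebra ℤ G) :
    {g : G | pair c (gs g r) ≠ 0}.Finite := by
  refine finite_of_basis (fun _ => pair c) (fun j x => ?_) r
  have h4 : Function.Injective fun g : G => (g * x)⁻¹ := by
    intro a b hab
    exact mul_right_cancel (inv_injective hab)
  refine ((hc j).preimage h4.injOn).subset ?_
  intro g hg
  have hg' : pair c (sv j (MonoidAlgebra.single (g * x) 1)) ≠ 0 := hg
  have h3 := pair_sv_single c j (g * x)⁻¹
  rw [inv_inv] at h3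
  rw [h3] at hg'
  exact hg'

/-- the boundary as an additive map -/
noncomputable def vm {G : Type*} [Group G] {m n : ℕ} (D : Matrix (Fin m) (Fin n) (MonoidAlgebra ℤ G)) :
    (Fin m → MonoidAlgebra ℤ G) →+ (Fin n → MonoidAlgebra ℤ G) where
  toFun v := v ᵥ* D
  map_zero' := Matrix.zero_vecMul _
  map_add' _ _ := Matrix.add_vecMul _ _ _

@[simp] theorem vm_apply {G : Type*} [Group G] {m n : ℕ}
    (D : Matrix (Fin m) (Fin n) (MonoidAlgebra ℤ G)) (v) : vm D v = v ᵥ* D := rfl

theorem vertex_sum {G V : Type*} [Group G] [MulAction G V] {T : SimpleGraph V} (hT : T.IsTree)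
    (R : FinRes G) (m : ℕ) (o : V → V → Prop)
    (ho0 : ∀ (g : G) v w, o v w → o (g • v) (g • w)) (ho1 : ∀ v w, T.Adj v w → o v w ∨ o w v)
    (ho2 : ∀ v w, o v w → T.Adj v w) (ho3 : ∀ v w, o v w → ¬ o w v)
    (E0 : Finset (V × V)) (hE0 : ∀ v w, o v w → ∃ g : G, (g • v, g • w) ∈ E0)
    (KV : V → (Fin (R.rank (m + 1)) → MonoidAlgebra ℤ G) →+ (Fin (R.rank (m + 2)) → MonoidAlgebra ℤ G))
    (hKV : ∀ (g : G) v, KV (g • v) = cj g (KV v))
    (hKV2 : ∀ v r, ∃ t, r = t ᵥ* R.d (m + 2) + KV v (r ᵥ* R.d (m + 1)))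
    (KE : V → V → (Fin (R.rank m) → MonoidAlgebra ℤ G) →+ (Fin (R.rank (m + 1)) → MonoidAlgebra ℤ G))
    (PE : V → V →
      (Fin (R.rank (m + 1)) → MonoidAlgebra ℤ G) →+ (Fin (R.rank (m + 1)) → MonoidAlgebra ℤ G))
    (hKE : ∀ (g : G) v w, KE (g • v) (g • w) = cj g (KE v w))
    (hPE : ∀ (g : G) v w, PE (g • v) (g • w) = cj g (PE v w))
    (hE : ∀ v w, o v w → EdgeOK R (stE G v w) m (KE v w) (PE v w))
    (c : Fin (R.rank (m + 2)) → G → ℤ) (hcf : ∀ i, (Function.support (c i)).Finite)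
    (hcd : mact (tr ℤ) (R.d (m + 2)) c = 0) :
    ∃ (b : V → ((Fin (R.rank (m + 1)) → MonoidAlgebra ℤ G) →+ ℤ)) (E1 : Finset (V × V)),
      (∀ v r, b v (r ᵥ* R.d (m + 1)) = pair c r) ∧
      (∀ v r, {g : G | b (g • v) (gs g r) ≠ 0}.Finite) ∧
      (∀ e ∈ E1, o e.1 e.2) ∧ (∀ v w, o v w → (v, w) ∉ E1 → b v = b w) ∧
      ∀ e ∈ E1, ∃ θ : (Fin (R.rank (m + 1)) → MonoidAlgebra ℤ G) →+ ℤ,
        (∀ r, {h : stE G e.1 e.2 | θ (gs (h : G) r) ≠ 0}.Finite) ∧
        (∀ r, θ (r ᵥ* R.d (m + 1)) = 0) ∧ b e.1 - b e.2 = θ.comp (PE e.1 e.2) := by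
  classical
  have hcd' : ∀ t, pair c (t ᵥ* R.d (m + 2)) = 0 := by
    intro t
    rw [pair_vecMul, hcd]
    simp [pair_apply]
  -- the functionals of the vertices
  set b0 : V → ((Fin (R.rank (m + 1)) → MonoidAlgebra ℤ G) →+ ℤ) := fun v => (pair c).comp (KV v)
    with hb0
  have hb0d : ∀ v r, b0 v (r ᵥ* R.d (m + 1)) = pair c r := by
    intro v r
    obtain ⟨t, ht⟩ := hKV2 v r
    have h3 := congrArg (pair c) ht
    rw [map_add, hcd', zero_add] at h3
    exact h3.symm
  have hb0f : ∀ v r, {g : G | b0 (g • v) (gs g r) ≠ 0}.Finite := by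
    intro v r
    refine (pair_finite c hcf (KV v r)).subset ?_
    intro g hg
    have hg' : pair c (KV (g • v) (gs g r)) ≠ 0 := hg
    rw [hKV, cj_gs] at hg'
    exact hg'
  set y : V → V → ((Fin (R.rank (m + 1)) → MonoidAlgebra ℤ G) →+ ℤ) := fun v w => b0 v - b0 w
    with hy
  have hyd : ∀ v w r, y v w (r ᵥ* R.d (m + 1)) = 0 := by
    intro v w r
    show b0 v _ - b0 w _ = 0
    rw [hb0d, hb0d, sub_self]
  have hyf : ∀ v w r, {g : G | y (g • v) (g • w) (gs g r) ≠ 0}.Finite := by
    intro v w r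
    refine ((hb0f v r).union (hb0f w r)).subset ?_
    intro g hg
    have hg' : b0 (g • v) (gs g r) - b0 (g • w) (gs g r) ≠ 0 := hg
    by_contra hcon
    rw [Set.mem_union, not_or] at hcon
    rw [not_not.1 hcon.1, not_not.1 hcon.2, sub_zero] at hg'
    exact hg' rfl
  set u : V → V → ((Fin (R.rank m) → MonoidAlgebra ℤ G) →+ ℤ) := fun v w => (y v w).comp (KE v w)
    with hu
  have huf : ∀ v w r, {g : G | u (g • v) (g • w) (gs g r) ≠ 0}.Finite := by
    intro v w r
    refine (hyf v w (KE v w r)).subset ?_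
    intro g hg
    have hg' : y (g • v) (g • w) (KE (g • v) (g • w) (gs g r)) ≠ 0 := hg
    rw [hKE, cj_gs] at hg'
    exact hg'
  -- potentials
  have huf' : ∀ v w (j : Fin (R.rank m)), (Function.support
      fun g : G => u (g • v) (g • w) (sv j (MonoidAlgebra.single g 1))).Finite := by
    intro v w j
    refine (huf v w (sv j (MonoidAlgebra.single 1 1))).subset ?_
    intro g hg
    show u (g • v) (g • w) (gs g (sv j (MonoidAlgebra.single 1 1))) ≠ 0
    rw [gs_sv, mul_one]
    exact hg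
  set F : Fin (R.rank m) → V → V → (G →₀ ℤ) := fun j v w =>
    Finsupp.ofSupportFinite _ (huf' v w j) with hF
  have hFa : ∀ j v w g, F j v w g = u (g • v) (g • w) (sv j (MonoidAlgebra.single g 1)) :=
    fun _ _ _ _ => rfl
  have hpot : ∀ j, ∃ t : V → (G →₀ ℤ), ∀ v w, o v w → t v - t w = F j v w := by
    intro j
    obtain ⟨t, ht⟩ := exists_potential (M := G →₀ ℤ) hT
      (fun v w => if o v w then F j v w else - F j w v) (by
        intro v w hvw
        rcases ho1 v w hvw with h | h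
        · rw [if_pos h, if_neg (ho3 v w h), neg_neg]
        · rw [if_neg (ho3 w v h), if_pos h])
    refine ⟨t, fun v w h => ?_⟩
    rw [ht v w (ho2 v w h), if_pos h]
  choose t ht using hpot
  choose uh huh using fun v : V => exists_addHom (G := G) (n := R.rank m)
    fun j g => t j (g⁻¹ • v) g
  have huhd : ∀ v w, o v w → uh v - uh w = u v w := by
    intro v w h
    apply addHom_ext
    intro j g
    rw [AddMonoidHom.sub_apply, huh, huh, ← Finsupp.sub_apply, ht j _ _ (ho0 g⁻¹ v w h), hFa,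
      smul_inv_smul, smul_inv_smul]
  have huhf : ∀ v r, {g : G | uh (g • v) (gs g r) ≠ 0}.Finite := by
    intro v r
    refine finite_of_basis (fun g => uh (g • v)) (fun j x => ?_) r
    have h3 : Function.Injective fun g : G => g * x := mul_left_injective x
    refine ((t j (x⁻¹ • v)).support.finite_toSet.preimage h3.injOn).subset ?_
    intro g hg
    have hg' : uh (g • v) (sv j (MonoidAlgebra.single (g * x) 1)) ≠ 0 := hg
    rw [huh, mul_inv_rev, mul_smul, inv_smul_smul] at hg'
    show g * x ∈ (t j (x⁻¹ • v)).support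
    exact Finsupp.mem_support_iff.2 hg'
  -- the corrected functionals
  set b : V → ((Fin (R.rank (m + 1)) → MonoidAlgebra ℤ G) →+ ℤ) :=
    fun v => b0 v - (uh v).comp (vm (R.d m)) with hb
  have hba : ∀ v r, b v r = b0 v r - uh v (r ᵥ* R.d m) := fun v r => rfl
  have hbd : ∀ v r, b v (r ᵥ* R.d (m + 1)) = pair c r := by
    intro v r
    rw [hba, hb0d, Matrix.vecMul_vecMul, R.d_mul_d, Matrix.vecMul_zero, map_zero, sub_zero]
  have hbf : ∀ v r, {g : G | b (g • v) (gs g r) ≠ 0}.Finite := by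
    intro v r
    refine ((hb0f v r).union (huhf v (r ᵥ* R.d m))).subset ?_
    intro g hg
    have hg' : b0 (g • v) (gs g r) - uh (g • v) (gs g r ᵥ* R.d m) ≠ 0 := hg
    by_contra hcon
    rw [Set.mem_union, not_or] at hcon
    rw [← gs_vecMul, not_not.1 hcon.1, not_not.1 hcon.2, sub_zero] at hg'
    exact hg' rfl
  have hbdiff : ∀ v w, o v w → b v - b w = (y v w).comp (PE v w) := by
    intro v w h
    refine AddMonoidHom.ext fun r => ?_
    obtain ⟨t', ht'⟩ := (hE v w h).htpy r
    have h3 := congrArg (y v w) ht'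
    rw [map_add, map_add, hyd, zero_add] at h3
    have h4 := DFunLike.congr_fun (huhd v w h) (r ᵥ* R.d m)
    rw [AddMonoidHom.sub_apply] at h4
    rw [AddMonoidHom.sub_apply, hba, hba]
    have h5 : u v w (r ᵥ* R.d m) = y v w (KE v w (r ᵥ* R.d m)) := rfl
    have h6 : y v w r = b0 v r - b0 w r := rfl
    have h7 : ((y v w).comp (PE v w)) r = y v w (PE v w r) := rfl
    rw [h7]
    rw [h6] at h3
    rw [h5] at h4
    linarith
  -- finiteness of the set of edges
  have hfin : {e : V × V | o e.1 e.2 ∧ b e.1 ≠ b e.2}.Finite := by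
    have h3 : ∀ e : V × V, {e' : V × V | ∃ g : G, g • e.1 = e'.1 ∧ g • e.2 = e'.2 ∧ o e.1 e.2 ∧
        o e'.1 e'.2 ∧ b e'.1 ≠ b e'.2}.Finite := by
      intro e
      by_cases he : o e.1 e.2
      · obtain ⟨ι, s, hs⟩ := (hE _ _ he).fin
        have h4 : (⋃ k : Fin ι, (fun g : G => (g • e.1, g • e.2)) ''
            {g : G | y (g • e.1) (g • e.2) (gs g (s k)) ≠ 0}).Finite :=
          Set.finite_iUnion fun k => (hyf e.1 e.2 (s k)).image _
        refine h4.subset ?_
        rintro ⟨v, w⟩ ⟨g, hgv, hgw, -, ho', hne⟩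
        simp only at hgv hgw ho' hne
        subst hgv hgw
        by_contra hcon
        apply hne
        have h5 : ∀ r, y (g • e.1) (g • e.2) (gs g (PE e.1 e.2 r)) = 0 := by
          intro r
          have h6 := hs r
          generalize PE e.1 e.2 r = q at h6 ⊢
          induction h6 using AddSubgroup.closure_induction with
          | mem v hv =>
            obtain ⟨h, k, rfl⟩ := hv
            by_contra h7
            apply hcon
            have hh : (h : G) • e.1 = e.1 ∧ (h : G) • e.2 = e.2 := Subgroup.mem_inf.1 h.2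
            refine Set.mem_iUnion.2 ⟨k, g * (h : G), ?_, ?_⟩
            · show y ((g * (h : G)) • e.1) ((g * (h : G)) • e.2) (gs (g * (h : G)) (s k)) ≠ 0
              rw [mul_smul, mul_smul, hh.1, hh.2, ← gs_gs]
              exact h7
            · simp only [mul_smul, hh.1, hh.2]
          | zero => rw [← gsHom_apply, map_zero, map_zero]
          | add v w _ _ hv hw => rw [gs_add, map_add, hv, hw, add_zero]
          | neg v _ hv => rw [← gsHom_apply, map_neg, map_neg, gsHom_apply, hv, neg_zero]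
        have h6 := hbdiff _ _ ho'
        have h7 : (y (g • e.1) (g • e.2)).comp (PE (g • e.1) (g • e.2)) = 0 := by
          refine AddMonoidHom.ext fun r => ?_
          show y (g • e.1) (g • e.2) (PE (g • e.1) (g • e.2) r) = 0
          rw [hPE, cj_apply]
          exact h5 _
        rw [h7, sub_eq_zero] at h6
        exact h6
      · refine Set.finite_empty.subset ?_
        rintro e' ⟨g, -, -, h, -⟩
        exact absurd h he
    refine (Set.Finite.biUnion E0.finite_toSet fun e _ => h3 e).subset ?_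
    rintro ⟨v, w⟩ ⟨h4, h5⟩
    obtain ⟨g, hg⟩ := hE0 v w h4
    refine Set.mem_biUnion (Finset.mem_coe.2 hg) ⟨g⁻¹, inv_smul_smul _ _, inv_smul_smul _ _,
      ho0 g v w h4, h4, h5⟩
  refine ⟨b, hfin.toFinset, hbd, hbf, fun e he => ((Set.Finite.mem_toFinset _).1 he).1,
    fun v w h hn => ?_, fun e he => ?_⟩
  · by_contra h3
    exact hn ((Set.Finite.mem_toFinset _).2 ⟨h, h3⟩)
  · have he' := ((Set.Finite.mem_toFinset _).1 he).1
    refine ⟨y e.1 e.2, fun r => ?_, hyd e.1 e.2, hbdiff e.1 e.2 he'⟩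
    have h3 := (hyf e.1 e.2 r).preimage
      (Subtype.coe_injective (p := (· ∈ stE G e.1 e.2))).injOn
    refine h3.subset ?_
    intro h hh
    have hh2 : (h : G) • e.1 = e.1 ∧ (h : G) • e.2 = e.2 := Subgroup.mem_inf.1 h.2
    show y ((h : G) • e.1) ((h : G) • e.2) (gs (h : G) r) ≠ 0
    rw [hh2.1, hh2.2]
    exact hh

end Pool.Agent.Lib.P9f173dW
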