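import Pool.Agent.Lib.P9f173dW.TreeFun
import Pool.Agent.Lib.P9f173dW.TreeAI
import Pool.Agent.Lib.P9f173dW.Fn

/-!
# Summation over the tree
-/

namespace Pool.Agent.Lib.P9f173dW

open Z9f173d
open scoped Matrix

/-- The functionals `b v`, attached to the vertices of a tree, are equal at the ends of all but finitely
many edges, and for these the differences come from edge data. -/
theorem tree_sum {G V : Type*} [Group G] [MulAction G V] {T : SimpleGraph V} (hT : T.IsTree)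
    (hadj : ∀ (g : G) (v v' : V), T.Adj v v' → T.Adj (g • v) (g • v')) [Nonempty V]
    (R : FinRes G) (m : ℕ) (o : V → V → Prop) (ho1 : ∀ v w, T.Adj v w → o v w ∨ o w v)
    (ho2 : ∀ v w, o v w → T.Adj v w) (ho3 : ∀ v w, o v w → ¬ o w v)
    (KE : V → V → (Fin (R.rank m) → MonoidAlgebra ℤ G) →+ (Fin (R.rank (m + 1)) → MonoidAlgebra ℤ G))
    (PE : V → V →
      (Fin (R.rank (m + 1)) → MonoidAlgebra ℤ G) →+ (Fin (R.rank (m + 1)) → MonoidAlgebra ℤ G))
    (hE : ∀ v w, o v w → EdgeOK R (stE G v w) m (KE v w) (PE v w))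
    (c : Fin (R.rank (m + 2)) → G → ℤ)
    (b : V → ((Fin (R.rank (m + 1)) → MonoidAlgebra ℤ G) →+ ℤ))
    (hbc : ∀ v r, b v (r ᵥ* R.d (m + 1)) = pair c r)
    (hbf : ∀ v r, {g : G | b (g • v) (gs g r) ≠ 0}.Finite)
    (E1 : Finset (V × V)) (hE1 : ∀ e ∈ E1, o e.1 e.2) (hb0 : ∀ v w, o v w → (v, w) ∉ E1 → b v = b w)
    (hb1 : ∀ e ∈ E1, ∃ θ : (Fin (R.rank (m + 1)) → MonoidAlgebra ℤ G) →+ ℤ,
      (∀ r, {h : stE G e.1 e.2 | θ (gs (h : G) r) ≠ 0}.Finite) ∧
      (∀ r, θ (r ᵥ* R.d (m + 1)) = 0) ∧ b e.1 - b e.2 = θ.comp (PE e.1 e.2)) :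
    ∃ z : Fin (R.rank (m + 1)) → G → ℤ, (∀ j, (Function.support (z j)).Finite) ∧
      mact (tr ℤ) (R.d (m + 1)) z = c := by
  classical
  obtain ⟨v0⟩ := ‹Nonempty V›
  -- the edge functionals
  have hgood : ∀ e : V × V, ∃ z : Fin (R.rank (m + 1)) → G → ℤ, e ∈ E1 →
      (∀ j, (Function.support (z j)).Finite) ∧
      mact (tr ℤ) (R.d (m + 1)) z = mact (tr ℤ) (R.d (m + 1))
        fun j => (AE G T v0 e.1 e.2).indicator (fn (b e.1 - b e.2) j) := by
    intro e
    by_cases he : e ∈ E1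
    · obtain ⟨θ, hθ1, hθ2, hθ3⟩ := hb1 e he
      obtain ⟨z, hz1, hz2⟩ := (hE e.1 e.2 (hE1 e he)).good θ hθ1 hθ2 (AE G T v0 e.1 e.2)
        (ai_edge hT hadj v0 e.1 e.2 (ho2 _ _ (hE1 e he)))
      refine ⟨z, fun _ => ⟨hz1, ?_⟩⟩
      rw [hz2, hθ3]
    · exact ⟨0, fun h => absurd h he⟩
  choose zE hzE using hgood
  -- the differences along the edges
  have hdiff : ∀ v w, T.Adj v w → b v - b w
      = (if (v, w) ∈ E1 then b v - b w else 0) - (if (w, v) ∈ E1 then b w - b v else 0) := by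
    intro v w hvw
    rcases ho1 v w hvw with h | h
    · have h3 : (w, v) ∉ E1 := fun h4 => ho3 v w h (hE1 _ h4)
      rw [if_neg h3, sub_zero]
      split_ifs with h4
      · rfl
      · rw [hb0 v w h h4, sub_self]
    · have h3 : (v, w) ∉ E1 := fun h4 => ho3 w v h (hE1 _ h4)
      rw [if_neg h3, zero_sub]
      split_ifs with h4
      · rw [neg_sub]
      · rw [hb0 w v h h4]; simp
  have htree := fun a a' => tree_diff hT b (fun v w => b v - b w) E1
    (fun e he => ho2 _ _ (hE1 e he)) hdiff a a'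
  -- the finitely supported part
  set z0 : Fin (R.rank (m + 1)) → G → ℤ := fun j x =>
    b (x⁻¹ • v0) (sv j (MonoidAlgebra.single x⁻¹ 1)) with hz0
  have hz0f : ∀ j, (Function.support (z0 j)).Finite := by
    intro j
    have h3 := hbf v0 (sv j (MonoidAlgebra.single 1 1))
    refine (h3.image (fun g => g⁻¹)).subset ?_
    intro x hx
    refine ⟨x⁻¹, ?_, inv_inv x⟩
    show b (x⁻¹ • v0) (gs x⁻¹ (sv j (MonoidAlgebra.single 1 1))) ≠ 0
    rw [gs_sv, mul_one]
    exact hx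
  set κ : V × V → ℤ := fun e => if v0 ∈ side T e.1 e.2 then 1 else 0 with hκ
  have hdec : fn (b v0) = z0 + ∑ e ∈ E1, ((fun j => (AE G T v0 e.1 e.2).indicator
      (fn (b e.1 - b e.2) j)) - κ e • fn (b e.1 - b e.2)) := by
    ext j x
    have h3 := DFunLike.congr_fun (htree v0 (x⁻¹ • v0)) (sv j (MonoidAlgebra.single x⁻¹ 1))
    rw [AddMonoidHom.sub_apply, AddMonoidHom.finsetSum_apply] at h3
    rw [Pi.add_apply, Pi.add_apply, Finset.sum_apply, Finset.sum_apply]
    show b v0 _ = b (x⁻¹ • v0) _ + _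
    rw [← sub_eq_iff_eq_add', h3]
    refine Finset.sum_congr rfl fun e _ => ?_
    rw [Pi.sub_apply, Pi.sub_apply, Pi.smul_apply, Pi.smul_apply, AddMonoidHom.sub_apply]
    congr 1
    · by_cases h4 : x⁻¹ • v0 ∈ side T e.1 e.2
      · rw [if_pos h4, Set.indicator_of_mem (show x ∈ AE G T v0 e.1 e.2 from h4)]
        rfl
      · rw [if_neg h4, Set.indicator_of_notMem (show x ∉ AE G T v0 e.1 e.2 from h4)]
        rfl
    · simp only [hκ]
      split_ifs with h4
      · rw [one_smul]; rfl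
      · rw [zero_smul]; rfl
  have hc : c = mact (tr ℤ) (R.d (m + 1)) (fn (b v0)) := by
    have h3 := fn_vecMul (b v0) (pair c) (R.d (m + 1)) (fun v => (hbc v0 v).symm)
    rw [fn_pair] at h3
    exact h3
  have hbd : ∀ e : V × V, mact (tr ℤ) (R.d (m + 1)) (fn (b e.1 - b e.2)) = 0 := by
    intro e
    have h3 := fn_vecMul (b e.1 - b e.2) 0 (R.d (m + 1)) (fun v => by
      rw [AddMonoidHom.sub_apply, hbc, hbc, sub_self]; rfl)
    rw [← h3]
    ext j x; rfl
  refine ⟨z0 + ∑ e ∈ E1, zE e, fun j => ?_, ?_⟩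
  · have h3 : (z0 + ∑ e ∈ E1, zE e) j = z0 j + ∑ e ∈ E1, zE e j := by
      rw [Pi.add_apply, Finset.sum_apply]
    rw [h3]
    refine ((hz0f j).union (Set.Finite.subset (Set.Finite.biUnion E1.finite_toSet
      (fun e he => (hzE e he).1 j)) ?_)).subset (Function.support_add (z0 j) (∑ e ∈ E1, zE e j))
    intro x hx
    by_contra hx2
    apply hx
    rw [Finset.sum_apply]
    refine Finset.sum_eq_zero fun e he => ?_
    by_contra h4
    exact hx2 (Set.mem_biUnion (Finset.mem_coe.2 he) h4)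
  · rw [map_add, map_sum, hc, hdec, map_add, map_sum]
    congr 1
    refine Finset.sum_congr rfl fun e he => ?_
    rw [map_sub, map_zsmul, hbd, smul_zero, sub_zero]
    exact (hzE e he).2

end Pool.Agent.Lib.P9f173dW
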