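import Pool.Agent.Lib.P9f173dW.Defs
import Pool.Agent.Lib.P9f173dW.Fn

/-!
# Module Wl: word length and weighted sums

PROOFS.  Every `x` is the product of a list of elements of `S0` (`S0` generates and is symmetric:
`Subgroup.closure_induction` or `Subgroup.exists_list_of_mem_closure`), the infimum `wl S0 x` is
attained (`Nat.sInf_mem`), and concatenation of lists gives `wl_mul`.
`shift`: `(1 + wl (x⁻¹ c')) ≤ (1 + wl x⁻¹) (1 + wl c')`, and `c ↦ x c` is a bijection.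
`pullback`: `θ` a functional on `ℤ[C]^n`; for `v` a finite sum `v = ∑ n_i gs (x_i)⁻¹ e_{j_i}` one has
`θ (gs c⁻¹ v) = ∑ n_i fn θ j_i (x_i c)` (`fn_mul`), and `shift` with `(∑_{i ≤ m} a_i)² ≤ m ∑ a_i²`.
(Compare `summable_of` in Module Fn.)
-/

namespace Pool.Agent.Lib.P9f173dW

open Z9f173d

variable {C : Type*} [Group C] (S0 : Finset C)

namespace WlAux

theorem exists_word (hinv : ∀ s ∈ S0, s⁻¹ ∈ S0) (hgen : Subgroup.closure (S0 : Set C) = ⊤) (x : C) :
    ∃ l : List C, l.length = wl S0 x ∧ (∀ s ∈ l, s ∈ S0) ∧ l.prod = x := by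
  have h1 : {n : ℕ | ∃ l : List C, l.length = n ∧ (∀ s ∈ l, s ∈ S0) ∧ l.prod = x}.Nonempty := by
    have hx : x ∈ Subgroup.closure (S0 : Set C) := by
      rw [hgen]
      exact Subgroup.mem_top x
    have hx' : ∃ l : List C, (∀ s ∈ l, s ∈ S0) ∧ l.prod = x := by
      induction hx using Subgroup.closure_induction with
      | mem y hy => exact ⟨[y], fun s hs => by rw [List.mem_singleton.1 hs]; exact hy, by simp⟩
      | one => exact ⟨[], fun s hs => absurd hs (List.not_mem_nil), rfl⟩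
      | mul y z _ _ hy hz =>
        obtain ⟨l, hl, rfl⟩ := hy
        obtain ⟨l', hl', rfl⟩ := hz
        refine ⟨l ++ l', fun s hs => ?_, List.prod_append⟩
        rcases List.mem_append.1 hs with h | h
        · exact hl s h
        · exact hl' s h
      | inv y _ hy =>
        obtain ⟨l, hl, rfl⟩ := hy
        refine ⟨(l.map fun a => a⁻¹).reverse, fun s hs => ?_, (List.prod_inv_reverse l).symm⟩
        obtain ⟨t, ht, rfl⟩ := List.mem_map.1 (List.mem_reverse.1 hs)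
        exact hinv t (hl t ht)
    obtain ⟨l, hl, hlx⟩ := hx'
    exact ⟨l.length, l, rfl, hl, hlx⟩
  exact Nat.sInf_mem h1

end WlAux

theorem wl_mul (hinv : ∀ s ∈ S0, s⁻¹ ∈ S0) (hgen : Subgroup.closure (S0 : Set C) = ⊤) (x y : C) :
    wl S0 (x * y) ≤ wl S0 x + wl S0 y := by
  obtain ⟨l, hl, hlS, hlx⟩ := WlAux.exists_word S0 hinv hgen x
  obtain ⟨l', hl', hlS', hlx'⟩ := WlAux.exists_word S0 hinv hgen y
  rw [← hl, ← hl', ← List.length_append]
  refine Nat.sInf_le ⟨l ++ l', rfl, fun s hs => ?_, ?_⟩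
  · rcases List.mem_append.1 hs with h | h
    · exact hlS s h
    · exact hlS' s h
  · rw [List.prod_append, hlx, hlx']

theorem shift (hinv : ∀ s ∈ S0, s⁻¹ ∈ S0) (hgen : Subgroup.closure (S0 : Set C) = ⊤)
    (f : C → ℝ) (hf : Summable fun c => (1 + (wl S0 c : ℝ)) ^ 2 * f c ^ 2) (x : C) :
    Summable fun c => (1 + (wl S0 c : ℝ)) ^ 2 * f (x * c) ^ 2 := by
  have h1 : Summable fun c => (1 + (wl S0 x⁻¹ : ℝ)) ^ 2 * ((1 + (wl S0 (x * c) : ℝ)) ^ 2 * f (x * c) ^ 2) :=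
    ((Equiv.mulLeft x).summable_iff.2 hf).mul_left _
  refine Summable.of_nonneg_of_le (fun c => by positivity) (fun c => ?_) h1
  have h2 : wl S0 c ≤ wl S0 x⁻¹ + wl S0 (x * c) := by
    have h3 := wl_mul S0 hinv hgen x⁻¹ (x * c)
    rwa [inv_mul_cancel_left] at h3
  have h4 : (wl S0 c : ℝ) ≤ wl S0 x⁻¹ + wl S0 (x * c) := by exact_mod_cast h2
  have h5 : 1 + (wl S0 c : ℝ) ≤ (1 + (wl S0 x⁻¹ : ℝ)) * (1 + (wl S0 (x * c) : ℝ)) := by
    have h6 : (0 : ℝ) ≤ (wl S0 x⁻¹ : ℝ) * (wl S0 (x * c) : ℝ) := by positivity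
    nlinarith
  calc (1 + (wl S0 c : ℝ)) ^ 2 * f (x * c) ^ 2
      ≤ ((1 + (wl S0 x⁻¹ : ℝ)) * (1 + (wl S0 (x * c) : ℝ))) ^ 2 * f (x * c) ^ 2 :=
        mul_le_mul_of_nonneg_right (pow_le_pow_left₀ (by positivity) h5 2) (sq_nonneg _)
    _ = (1 + (wl S0 x⁻¹ : ℝ)) ^ 2 * ((1 + (wl S0 (x * c) : ℝ)) ^ 2 * f (x * c) ^ 2) := by ring

theorem pullback (hinv : ∀ s ∈ S0, s⁻¹ ∈ S0) (hgen : Subgroup.closure (S0 : Set C) = ⊤) {n : ℕ}
    (θ : (Fin n → MonoidAlgebra ℤ C) →+ ℝ)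
    (h : ∀ j, Summable fun c => (1 + (wl S0 c : ℝ)) ^ 2 * fn θ j c ^ 2)
    (v : Fin n → MonoidAlgebra ℤ C) :
    Summable fun c => (1 + (wl S0 c : ℝ)) ^ 2 * θ (gs c⁻¹ v) ^ 2 := by
  have hzero : Summable fun c => (1 + (wl S0 c : ℝ)) ^ 2 *
      θ (gs c⁻¹ (0 : Fin n → MonoidAlgebra ℤ C)) ^ 2 := by
    have h1 : ∀ c : C, gs c⁻¹ (0 : Fin n → MonoidAlgebra ℤ C) = 0 := by
      intro c
      funext j
      exact mul_zero _
    simp only [h1, map_zero]
    simp [summable_zero]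
  have hadd : ∀ a b : Fin n → MonoidAlgebra ℤ C,
      (Summable fun c => (1 + (wl S0 c : ℝ)) ^ 2 * θ (gs c⁻¹ a) ^ 2) →
      (Summable fun c => (1 + (wl S0 c : ℝ)) ^ 2 * θ (gs c⁻¹ b) ^ 2) →
      Summable fun c => (1 + (wl S0 c : ℝ)) ^ 2 * θ (gs c⁻¹ (a + b)) ^ 2 := by
    intro a b ha hb
    refine Summable.of_nonneg_of_le (fun c => by positivity) (fun c => ?_)
      ((ha.mul_left 2).add (hb.mul_left 2))
    rw [gs_add, map_add]
    have h1 : (θ (gs c⁻¹ a) + θ (gs c⁻¹ b)) ^ 2 ≤ 2 * θ (gs c⁻¹ a) ^ 2 + 2 * θ (gs c⁻¹ b) ^ 2 := by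
      nlinarith [sq_nonneg (θ (gs c⁻¹ a) - θ (gs c⁻¹ b))]
    have h2 : (0 : ℝ) ≤ (1 + (wl S0 c : ℝ)) ^ 2 := by positivity
    nlinarith [mul_le_mul_of_nonneg_left h1 h2]
  have hsingle : ∀ (j : Fin n) (a : MonoidAlgebra ℤ C),
      Summable fun c => (1 + (wl S0 c : ℝ)) ^ 2 * θ (gs c⁻¹ (sv j a)) ^ 2 := by
    intro j a
    induction a using MonoidAlgebra.induction_linear with
    | zero =>
      have h1 : sv j (0 : MonoidAlgebra ℤ C) = 0 := by simp [sv]
      rw [h1]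
      exact hzero
    | add a b ha hb =>
      have h1 : sv j (a + b) = sv j a + sv j b := by simp [sv, Pi.single_add]
      rw [h1]
      exact hadd _ _ ha hb
    | single x z =>
      have h1 : ∀ c : C, θ (gs c⁻¹ (sv j (MonoidAlgebra.single x z))) = z * fn θ j (x⁻¹ * c) := by
        intro c
        rw [fn_mul, inv_inv]
        have h2 : gs c⁻¹ (sv j (MonoidAlgebra.single x z : MonoidAlgebra ℤ C)) =
            z • gs c⁻¹ (sv j (MonoidAlgebra.single x 1)) := by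
          have h3 : (sv j (MonoidAlgebra.single x z : MonoidAlgebra ℤ C)) =
              z • sv j (MonoidAlgebra.single x 1) := by
            funext i
            by_cases hi : i = j
            · subst hi
              simp [sv]
            · simp [sv, hi]
          rw [h3]
          funext i
          simp only [gs, Pi.smul_apply]
          exact mul_smul_comm z _ _
        rw [h2, map_zsmul, zsmul_eq_mul]
      refine ((shift S0 hinv hgen (fn θ j) (h j) x⁻¹).mul_left ((z : ℝ) ^ 2)).congr fun c => ?_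
      rw [h1]
      ring
  have hv : v = ∑ j, sv j (v j) := by
    funext i
    rw [Finset.sum_apply, Finset.sum_eq_single i]
    · simp [sv]
    · intro b _ hb
      simp [sv, Ne.symm hb]
    · intro hh
      exact absurd (Finset.mem_univ i) hh
  rw [hv]
  refine Finset.sum_induction (fun j => sv j (v j)) (fun w =>
    Summable fun c => (1 + (wl S0 c : ℝ)) ^ 2 * θ (gs c⁻¹ w) ^ 2) hadd hzero fun j _ => hsingle j (v j)

end Pool.Agent.Lib.P9f173dW
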