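import Pool.Agent.Lib.P9f173dW.WtA

/-!
# A finitely supported approximate right inverse on cocycles

The same as `exists_B`, for vectors in the kernel of a second matrix.
-/

namespace Pool.Agent.Lib.P9f173dW

open Z9f173d

open WtAAux in
theorem exists_B2 {C : Type*} [Group C] {m1 m2 m3 : ℕ}
    (D : Matrix (Fin m2) (Fin m1) (MonoidAlgebra ℤ C))
    (E : Matrix (Fin m3) (Fin m2) (MonoidAlgebra ℤ C)) (hED : E * D = 0)
    (hD : ∀ u : Fin m2 → L2 C, mact (vth lreg) E u = 0 →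
      ∃ w : Fin m1 → L2 C, mact (vth lreg) D w = u) :
    ∃ (B : Matrix (Fin m1) (Fin m2) (MonoidAlgebra ℂ C)) (q : ℝ), 0 ≤ q ∧ q < 1 ∧
      ∀ v : Fin m2 → L2 C, mact (vth lreg) E v = 0 →
        ∑ i, ‖(v - mact (vth lreg) D (mact (cth lreg) B v)) i‖ ^ 2 ≤ q ^ 2 * ∑ i, ‖v i‖ ^ 2 := by
  classical
  choose adj hadj using fun a : MonoidAlgebra ℤ C => exists_adj a
  let B0 : Matrix (Fin m1) (Fin m2) (MonoidAlgebra ℂ C) := fun j i => adj (D i j)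
  let DL : (Fin m1 → L2 C) →L[ℂ] (Fin m2 → L2 C) := mactL lreg (D.map (cmap C))
  let BL : (Fin m2 → L2 C) →L[ℂ] (Fin m1 → L2 C) := mactL lreg B0
  have hDL : ∀ w, DL w = mact (vth lreg) D w := fun w => by
    show mactL lreg (D.map (cmap C)) w = _
    rw [mactL_apply, mact_cmap]
  have hBL : ∀ v, BL v = mact (cth lreg) B0 v := fun v => mactL_apply _ _ _
  -- adjointness
  have hadjM : ∀ (u : Fin m2 → L2 C) (w : Fin m1 → L2 C),
      ∑ j, inner ℂ (BL u j) (w j) = ∑ i, inner ℂ (u i) (DL w i) := by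
    intro u w
    simp only [hDL, hBL, mact_apply]
    simp only [sum_inner, inner_sum]
    rw [Finset.sum_comm]
    refine Finset.sum_congr rfl fun i _ => Finset.sum_congr rfl fun j _ => ?_
    exact hadj (D i j) (u i) (w j)
  let EL : (Fin m2 → L2 C) →L[ℂ] (Fin m3 → L2 C) := mactL lreg (E.map (cmap C))
  have hEL : ∀ w, EL w = mact (vth lreg) E w := fun w => by
    show mactL lreg (E.map (cmap C)) w = _
    rw [mactL_apply, mact_cmap]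
  let Z : Submodule ℂ (Fin m2 → L2 C) := (EL : (Fin m2 → L2 C) →ₗ[ℂ] (Fin m3 → L2 C)).ker
  have hZ : ∀ u, u ∈ Z ↔ EL u = 0 := fun u => LinearMap.mem_ker
  have hDE : ∀ w, DL w ∈ Z := fun w => by
    rw [hZ, hEL, hDL, ← mact_mul, hED, mact_zero]
  let DK : (Fin m1 → L2 C) →L[ℂ] Z := DL.codRestrict Z hDE
  have hclosed : IsClosed (Z : Set (Fin m2 → L2 C)) := EL.isClosed_ker
  have : CompleteSpace Z := hclosed.completeSpace_coe
  have hsurj : Function.Surjective DK := fun u => by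
    obtain ⟨w, hw⟩ := hD u (by rw [← hEL]; exact (hZ _).1 u.2)
    exact ⟨w, Subtype.ext (by
      show DL w = u
      rw [hDL, hw])⟩
  obtain ⟨K, hK0, hK'⟩ := DK.exists_preimage_norm_le hsurj
  have hK : ∀ u, mact (vth lreg) E u = 0 → ∃ w, DL w = u ∧ ‖w‖ ≤ K * ‖u‖ := by
    intro u hu
    obtain ⟨w, hw, hwn⟩ := hK' ⟨u, by rw [hZ, hEL, hu]⟩
    exact ⟨w, congrArg Subtype.val hw, hwn⟩
  obtain ⟨M, hM0, hM⟩ := bound DL
  have hlow : ∀ u : Fin m2 → L2 C, mact (vth lreg) E u = 0 →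
      ∑ i, ‖u i‖ ^ 2 ≤ (m1 * K ^ 2 + 1) * ∑ j, ‖BL u j‖ ^ 2 := by
    intro u hu
    obtain ⟨w, hw, hwn⟩ := hK u hu
    have h1 : (∑ i, inner ℂ (u i) (DL w i)).re = ∑ i, ‖u i‖ ^ 2 := by
      rw [hw, Complex.re_sum]
      exact Finset.sum_congr rfl fun i _ => inner_self_eq_norm_sq (𝕜 := ℂ) (u i)
    have h2 := cs (BL u) w
    rw [hadjM, h1] at h2
    have h3 : ∑ j, ‖w j‖ ^ 2 ≤ m1 * K ^ 2 * ∑ i, ‖u i‖ ^ 2 := by
      calc ∑ j, ‖w j‖ ^ 2 ≤ m1 * ‖w‖ ^ 2 := le_sup _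
        _ ≤ m1 * (K * ‖u‖) ^ 2 := by gcongr
        _ = m1 * K ^ 2 * ‖u‖ ^ 2 := by ring
        _ ≤ _ := mul_le_mul_of_nonneg_left (sup_le u) (by positivity)
    have hu0 : (0 : ℝ) ≤ ∑ i, ‖u i‖ ^ 2 := Finset.sum_nonneg fun i _ => by positivity
    have hb0 : (0 : ℝ) ≤ ∑ j, ‖BL u j‖ ^ 2 := Finset.sum_nonneg fun i _ => by positivity
    have h4 : (∑ i, ‖u i‖ ^ 2) ^ 2 ≤
        (∑ j, ‖BL u j‖ ^ 2) * (m1 * K ^ 2 * ∑ i, ‖u i‖ ^ 2) :=
      h2.trans (mul_le_mul_of_nonneg_left h3 hb0)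
    rcases hu0.eq_or_lt with h0 | h0
    · rw [← h0]
      positivity
    · have h5 : (∑ i, ‖u i‖ ^ 2) * (∑ i, ‖u i‖ ^ 2) ≤
          (m1 * K ^ 2 * ∑ j, ‖BL u j‖ ^ 2) * (∑ i, ‖u i‖ ^ 2) := by
        calc _ = (∑ i, ‖u i‖ ^ 2) ^ 2 := by ring
          _ ≤ _ := h4
          _ = _ := by ring
      have h6 := le_of_mul_le_mul_right h5 h0
      nlinarith [h6, hb0]
  set K2 : ℝ := m1 * K ^ 2 + 1 with hK2
  have hK21 : 1 ≤ K2 := by
    have : (0 : ℝ) ≤ m1 * K ^ 2 := by positivity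
    linarith
  set N : ℝ := M + 1 with hN
  have hN1 : 1 ≤ N := by linarith
  have hN0 : 0 < N := by linarith
  have hK20 : 0 < K2 := by linarith
  have hfrac : 0 < 1 / (K2 * N) := by positivity
  have hfrac1 : 1 / (K2 * N) ≤ 1 := by
    rw [div_le_one (by positivity)]
    nlinarith
  refine ⟨((1 / N : ℝ) : ℂ) • B0, Real.sqrt (1 - 1 / (K2 * N)), Real.sqrt_nonneg _, ?_, ?_⟩
  · rw [Real.sqrt_lt' one_pos]
    linarith
  intro v hvE
  have hB : mact (cth lreg) (((1 / N : ℝ) : ℂ) • B0) v = ((1 / N : ℝ) : ℂ) • BL v := by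
    rw [hBL]
    ext1 i
    rw [mact_apply, Pi.smul_apply, mact_apply, Finset.smul_sum]
    refine Finset.sum_congr rfl fun j _ => ?_
    rw [cth_apply, cth_apply, Matrix.smul_apply, map_smul]
    rfl
  have hfun : ∀ i, (v - mact (vth lreg) D (mact (cth lreg) (((1 / N : ℝ) : ℂ) • B0) v)) i =
      v i - ((1 / N : ℝ) : ℂ) • (DL (BL v)) i := by
    intro i
    rw [hB, ← hDL, map_smul]
    rfl
  simp only [hfun]
  rw [norm_sub_expand, Real.sq_sqrt (by linarith)]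
  have h1 : (∑ i, inner ℂ (v i) (DL (BL v) i)).re = ∑ j, ‖BL v j‖ ^ 2 := by
    rw [← hadjM, Complex.re_sum]
    exact Finset.sum_congr rfl fun i _ => inner_self_eq_norm_sq (𝕜 := ℂ) (BL v i)
  rw [h1]
  have h2 := hM (BL v)
  have h3 := hlow v hvE
  have hb0 : (0 : ℝ) ≤ ∑ j, ‖BL v j‖ ^ 2 := Finset.sum_nonneg fun i _ => by positivity
  have h4 : (1 / N) ^ 2 * ∑ i, ‖DL (BL v) i‖ ^ 2 ≤ 1 / N * ∑ j, ‖BL v j‖ ^ 2 := by
    calc (1 / N) ^ 2 * ∑ i, ‖DL (BL v) i‖ ^ 2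
        ≤ (1 / N) ^ 2 * (M * ∑ j, ‖BL v j‖ ^ 2) := mul_le_mul_of_nonneg_left h2 (by positivity)
      _ ≤ (1 / N) ^ 2 * (N * ∑ j, ‖BL v j‖ ^ 2) := by
          refine mul_le_mul_of_nonneg_left ?_ (by positivity)
          exact mul_le_mul_of_nonneg_right (by linarith) hb0
      _ = 1 / N * ∑ j, ‖BL v j‖ ^ 2 := by field_simp
  have h5 : 1 / (K2 * N) * ∑ i, ‖v i‖ ^ 2 ≤ 1 / N * ∑ j, ‖BL v j‖ ^ 2 := by
    calc 1 / (K2 * N) * ∑ i, ‖v i‖ ^ 2 ≤ 1 / (K2 * N) * (K2 * ∑ j, ‖BL v j‖ ^ 2) :=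
          mul_le_mul_of_nonneg_left h3 hfrac.le
      _ = 1 / N * ∑ j, ‖BL v j‖ ^ 2 := by field_simp
  linarith

end Pool.Agent.Lib.P9f173dW
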