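import Pool.Agent.Lib.P9f173dW.WtB
import Pool.Agent.Lib.P9f173dW.WtC

/-!
# Weighted primitives of cocycles

The same as `weighted`, for cocycles.
-/

namespace Pool.Agent.Lib.P9f173dW

open Z9f173d

open WtBAux in
theorem weighted2 {C : Type*} [Group C] {m1 m2 m3 : ℕ}
    (D : Matrix (Fin m2) (Fin m1) (MonoidAlgebra ℤ C))
    (F : Matrix (Fin m3) (Fin m2) (MonoidAlgebra ℤ C)) (hFD : F * D = 0)
    (hD : ∀ u : Fin m2 → L2 C, mact (vth lreg) F u = 0 →
      ∃ w : Fin m1 → L2 C, mact (vth lreg) D w = u)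
    (S0 : Finset C) (hinv : ∀ s ∈ S0, s⁻¹ ∈ S0) (hgen : Subgroup.closure (S0 : Set C) = ⊤)
    (s : Fin m2 → C → ℤ) (hs : ∀ i, (Function.support (s i)).Finite)
    (hsF : mact (tr ℤ) F s = 0) :
    ∃ η : Fin m1 → C → ℝ, (∀ j, Summable fun c => (1 + (wl S0 c : ℝ)) ^ 2 * η j c ^ 2) ∧
      mact (tr ℝ) D η = fun i => compHom iR (s i) := by
  classical
  obtain ⟨B, q, hq0, hq1, hB⟩ := exists_B2 D F hFD hD
  have hℓ := wl_mul_le S0 hinv hgen
  obtain ⟨ρB, hρB⟩ := spreadM hℓ B
  obtain ⟨ρD, hρD⟩ := spreadM hℓ (D.map (cmap C))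
  -- the starting vector
  have hsq : ∀ i, SQ fun c => (s i c : ℂ) := fun i => SQ.of_finite ((hs i).subset fun c hc => by
    simpa using hc)
  let v0 : Fin m2 → L2 C := fun i => ofSQ (fun c => (s i c : ℂ)) (hsq i)
  obtain ⟨ρ0, hρ0⟩ : ∃ ρ0 : ℕ, ∀ i, Bl (wl S0) ρ0 (v0 i) := by
    refine ⟨∑ i, (hs i).toFinset.sup (wl S0), fun i x hx => ?_⟩
    have hx' : x ∈ (hs i).toFinset := by
      rw [Set.Finite.mem_toFinset, Function.mem_support]
      intro h
      apply hx
      show ((s i x : ℤ) : ℂ) = 0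
      rw [h]; simp
    have h1 : wl S0 x ≤ (hs i).toFinset.sup (wl S0) := Finset.le_sup hx'
    have h2 : (hs i).toFinset.sup (wl S0) ≤ ∑ i, (hs i).toFinset.sup (wl S0) :=
      Finset.single_le_sum (f := fun i => (hs i).toFinset.sup (wl S0))
        (fun _ _ => Nat.zero_le _) (Finset.mem_univ i)
    exact h1.trans h2
  -- the iterates
  let E : (Fin m2 → L2 C) → (Fin m2 → L2 C) := fun v =>
    v - mact (vth lreg) D (mact (cth lreg) B v)
  let V : ℕ → (Fin m2 → L2 C) := fun k => E^[k] v0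
  have hV0 : V 0 = v0 := rfl
  have hVs : ∀ k, V (k + 1) = V k - mact (vth lreg) D (mact (cth lreg) B (V k)) := by
    intro k
    show E^[k + 1] v0 = _
    rw [Function.iterate_succ_apply']
  have hv0F : mact (vth lreg) F v0 = 0 := by
    let I : L2 C →+ (C → ℂ) :=
      { toFun := fun v => fun x => v x
        map_zero' := rfl
        map_add' := fun _ _ => rfl }
    have h2 : mact (tr ℂ) F (fun j => I (v0 j)) = fun i => I (mact (vth lreg) F v0 i) :=
      mact_nat _ _ I (fun a v => incl_vth I (fun _ _ => rfl) a v) F v0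
    have h3 : (fun j => I (v0 j)) = fun j => compHom (Int.castAddHom ℂ) (s j) := rfl
    rw [h3, compHom_mact (Int.castAddHom ℂ) F s, hsF] at h2
    ext1 i
    have h4 := congrFun h2 i
    refine lp.ext ?_
    show (I (mact (vth lreg) F v0 i)) = _
    rw [← h4]
    ext x
    simp
  have hVF : ∀ k, mact (vth lreg) F (V k) = 0 := by
    intro k
    induction k with
    | zero => rw [hV0, hv0F]
    | succ k ih => rw [hVs, map_sub, ih, ← mact_mul, hFD, mact_zero, sub_zero]
  set c2 : ℝ := ∑ i, ‖v0 i‖ ^ 2 with hc2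
  have hVn : ∀ k, ∑ i, ‖V k i‖ ^ 2 ≤ (q ^ k) ^ 2 * c2 := by
    intro k
    induction k with
    | zero => rw [hV0]; simp [hc2]
    | succ k ih =>
      rw [hVs]
      refine (hB (V k) (hVF k)).trans ?_
      calc q ^ 2 * ∑ i, ‖V k i‖ ^ 2 ≤ q ^ 2 * ((q ^ k) ^ 2 * c2) :=
            mul_le_mul_of_nonneg_left ih (sq_nonneg _)
        _ = (q ^ (k + 1)) ^ 2 * c2 := by ring
  have hc20 : 0 ≤ c2 := Finset.sum_nonneg fun i _ => by positivity
  have hVi : ∀ k i, ‖V k i‖ ≤ q ^ k * Real.sqrt c2 := by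
    intro k i
    have h1 : ‖V k i‖ ^ 2 ≤ (q ^ k * Real.sqrt c2) ^ 2 := by
      rw [mul_pow, Real.sq_sqrt hc20]
      refine le_trans ?_ (hVn k)
      exact Finset.single_le_sum (f := fun i => ‖V k i‖ ^ 2) (fun _ _ => by positivity)
        (Finset.mem_univ i)
    exact (sq_le_sq₀ (norm_nonneg _) (by positivity)).1 h1
  have hVb : ∀ k i, Bl (wl S0) (ρ0 + (ρB + ρD) * k) (V k i) := by
    intro k
    induction k with
    | zero => intro i; rw [hV0]; simpa using hρ0 i
    | succ k ih =>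
      intro i
      rw [hVs, Pi.sub_apply]
      refine ((ih i).mono (by ring_nf; omega)).sub ?_
      rw [← mact_cmap]
      exact (hρD _ _ (hρB _ _ ih) i).mono (by ring_nf; omega)
  -- the terms
  let H : ℕ → (Fin m1 → L2 C) := fun k => mact (cth lreg) B (V k)
  have hHb : ∀ k j, Bl (wl S0) (ρB + (ρ0 + (ρB + ρD) * k)) (H k j) := fun k =>
    hρB _ _ (hVb k)
  let KB : ℝ := ∑ j, ∑ i, ‖repAlg (lreg (G := C)) (B j i)‖
  have hHn : ∀ k j, ‖H k j‖ ≤ KB * Real.sqrt c2 * q ^ k := by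
    intro k j
    show ‖mact (cth lreg) B (V k) j‖ ≤ _
    rw [mact_apply]
    refine (norm_sum_le _ _).trans ?_
    have h1 : ∀ i, ‖cth lreg (B j i) (V k i)‖
        ≤ ‖repAlg (lreg (G := C)) (B j i)‖ * (q ^ k * Real.sqrt c2) := by
      intro i
      rw [cth_apply]
      exact (ContinuousLinearMap.le_opNorm _ _).trans
        (mul_le_mul_of_nonneg_left (hVi k i) (norm_nonneg _))
    refine (Finset.sum_le_sum fun i _ => h1 i).trans ?_
    rw [← Finset.sum_mul]
    have h2 : ∑ i, ‖repAlg (lreg (G := C)) (B j i)‖ ≤ KB :=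
      Finset.single_le_sum (f := fun j => ∑ i, ‖repAlg (lreg (G := C)) (B j i)‖)
        (fun _ _ => Finset.sum_nonneg fun _ _ => norm_nonneg _) (Finset.mem_univ j)
    calc (∑ i, ‖repAlg (lreg (G := C)) (B j i)‖) * (q ^ k * Real.sqrt c2)
        ≤ KB * (q ^ k * Real.sqrt c2) := mul_le_mul_of_nonneg_right h2 (by positivity)
      _ = KB * Real.sqrt c2 * q ^ k := by ring
  have hqn : ‖q‖ < 1 := by rwa [Real.norm_eq_abs, abs_of_nonneg hq0]
  have hgeo : Summable fun k : ℕ => q ^ k := summable_geometric_of_lt_one hq0 hq1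
  have hgeo1 : Summable fun k : ℕ => (k : ℝ) ^ 1 * q ^ k :=
    summable_pow_mul_geometric_of_norm_lt_one 1 hqn
  have hKB : 0 ≤ KB := Finset.sum_nonneg fun _ _ => Finset.sum_nonneg fun _ _ => norm_nonneg _
  have hHs : Summable H := by
    refine Summable.of_norm_bounded (hgeo.mul_left (KB * Real.sqrt c2)) fun k => ?_
    rw [pi_norm_le_iff_of_nonneg (by positivity)]
    exact hHn k
  obtain ⟨η, hη⟩ := hHs
  have hηj : ∀ j, HasSum (fun k => H k j) (η j) := fun j => (Pi.hasSum.1 hη) j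
  -- the equation
  have hDH : ∀ k, mactL lreg (D.map (cmap C)) (H k) = V k - V (k + 1) := by
    intro k
    rw [mactL_apply, mact_cmap, hVs]
    abel
  have hDη : mact (vth lreg) D η = v0 := by
    rw [← mact_cmap, ← mactL_apply]
    have h1 : HasSum (fun k => mactL lreg (D.map (cmap C)) (H k))
        (mactL lreg (D.map (cmap C)) η) := hη.mapL (mactL lreg (D.map (cmap C)))
    simp only [hDH] at h1
    have h2 := h1.tendsto_sum_nat
    have h3 : ∀ n, ∑ k ∈ Finset.range n, (V k - V (k + 1)) = v0 - V n := by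
      intro n
      rw [Finset.sum_range_sub', hV0]
    simp only [h3] at h2
    have h4 : Filter.Tendsto V Filter.atTop (nhds 0) := by
      rw [tendsto_pi_nhds]
      intro i
      refine squeeze_zero_norm (fun k => hVi k i) ?_
      have := (tendsto_pow_atTop_nhds_zero_of_lt_one hq0 hq1).mul_const (Real.sqrt c2)
      simpa using this
    have h5 : Filter.Tendsto (fun n => v0 - V n) Filter.atTop (nhds (v0 - 0)) :=
      tendsto_const_nhds.sub h4
    rw [sub_zero] at h5
    exact tendsto_nhds_unique h2 h5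
  -- weights
  have hwt : ∀ j, Summable fun c => (1 + (wl S0 c : ℝ)) ^ 2 * ‖η j c‖ ^ 2 := by
    intro j
    refine sum_weighted (wl S0) (fun k => H k j) (fun k => ρB + (ρ0 + (ρB + ρD) * k))
      (fun k => hHb k j) ?_ (η j) (hηj j)
    refine Summable.of_nonneg_of_le (fun k => by positivity) (fun k => ?_)
      ((hgeo.mul_left ((1 + ρB + ρ0) * (KB * Real.sqrt c2))).add
        (hgeo1.mul_left ((ρB + ρD) * (KB * Real.sqrt c2))))
    calc (1 + ((ρB + (ρ0 + (ρB + ρD) * k) : ℕ) : ℝ)) * ‖H k j‖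
        ≤ (1 + ((ρB + (ρ0 + (ρB + ρD) * k) : ℕ) : ℝ)) * (KB * Real.sqrt c2 * q ^ k) :=
          mul_le_mul_of_nonneg_left (hHn k j) (by positivity)
      _ = (1 + ρB + ρ0) * (KB * Real.sqrt c2) * q ^ k
          + (ρB + ρD) * (KB * Real.sqrt c2) * ((k : ℝ) ^ 1 * q ^ k) := by
          push_cast; ring
  refine ⟨fun j c => (η j c).re, fun j => ?_, ?_⟩
  · refine Summable.of_nonneg_of_le (fun c => by positivity) (fun c => ?_) (hwt j)
    refine mul_le_mul_of_nonneg_left ?_ (by positivity)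
    rw [← sq_abs]
    exact pow_le_pow_left₀ (abs_nonneg _) (Complex.abs_re_le_norm _) 2
  · let I : L2 C →+ (C → ℂ) :=
      { toFun := fun v => fun x => v x
        map_zero' := rfl
        map_add' := fun _ _ => rfl }
    have h1 : (fun j : Fin m1 => fun c : C => (η j c).re) = fun j => compHom reR (I (η j)) := rfl
    have h2 : mact (tr ℂ) D (fun j => I (η j)) = fun i => I (mact (vth lreg) D η i) :=
      mact_nat _ _ I (fun a v => incl_vth I (fun _ _ => rfl) a v) D η
    rw [h1, compHom_mact reR D (fun j => I (η j)), h2, hDη]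
    ext i c
    simp only [compHom_apply, reR_apply, iR_apply]
    show ((s i c : ℂ)).re = _
    simp

end Pool.Agent.Lib.P9f173dW
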