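import Pool.Agent.Lib.P9f173dW.Wall
import Pool.Agent.Lib.P9f173dW.WtD
import Pool.Agent.Lib.P9f173dW.CmpEx
import Pool.Agent.Lib.P9f173dW.Wl
import Pool.Agent.Lib.P9f173dW.FGen
import Pool.Agent.Lib.P9f173dW.AmenBr

/-!
# Theorem C: the connecting map of an almost invariant set vanishes
-/

namespace Pool.Agent.Lib.P9f173dW

open Z9f173d
open scoped Matrix

universe u

theorem tr_apply {G M : Type*} [Group G] [AddCommGroup M] (a : MonoidAlgebra ℤ G) (f : G → M)
    (x : G) : tr M a f x = a.coeff.sum fun g z => z • f (g⁻¹ * x) := by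
  induction a using MonoidAlgebra.induction_linear with
  | zero => simp
  | add a b ha hb =>
    rw [map_add, end_add_apply, Pi.add_apply, ha, hb]
    exact (Finsupp.sum_add_index' (h := fun g z => z • f (g⁻¹ * x)) (fun g => zero_smul _ _)
      (fun g z z' => add_smul _ _ _)).symm
  | single g z =>
    rw [tr_single]
    exact (Finsupp.sum_single_index (h := fun g z => z • f (g⁻¹ * x)) (zero_smul _ _)).symm

/-- the two descriptions of the coboundary -/
theorem cob_eq {G M : Type*} [Group G] [AddCommGroup M] {m n : ℕ}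
    (D : Matrix (Fin m) (Fin n) (MonoidAlgebra ℤ G)) (f : Fin n → G → M) :
    cob D f = mact (tr M) D f := by
  ext i x
  rw [mact_apply, Finset.sum_apply]
  exact Finset.sum_congr rfl fun j _ => (tr_apply _ _ _).symm

/-- `ℓ²(C)` in the functions on `C` -/
def inclL2 {C : Type*} : L2 C →+ (C → ℂ) where
  toFun v := fun x => v x
  map_zero' := rfl
  map_add' := fun _ _ => rfl

theorem inclL2_vth {C : Type*} [Group C] (a : MonoidAlgebra ℤ C) (v : L2 C) :
    inclL2 (vth lreg a v) = tr ℂ a (inclL2 v) := by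
  refine th_nat _ _ inclL2 (fun g w => ?_) a v
  ext x
  rfl

theorem L2Van.onto {C : Type*} [Group C] {S : FinRes C} (h : L2Van S)
    (u : Fin (S.rank 2) → L2 C) (hu : mact (vth lreg) (S.d 2) u = 0) :
    ∃ w : Fin (S.rank 1) → L2 C, mact (vth lreg) (S.d 1) w = u := by
  obtain ⟨w, hw, hwd⟩ := h (fun i => inclL2 (u i)) (fun i => sq_coe (u i)) (by
    rw [cob_eq]
    have h3 := mact_nat (vth lreg) (tr ℂ) inclL2 inclL2_vth (S.d 2) u
    rw [hu] at h3
    exact h3)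
  rw [cob_eq] at hwd
  refine ⟨fun j => ofSQ (w j) (hw j), ?_⟩
  have h3 := mact_nat (vth lreg) (tr ℂ) inclL2 inclL2_vth (S.d 1) fun j => ofSQ (w j) (hw j)
  have h4 : (fun j => inclL2 (ofSQ (w j) (hw j))) = w := by ext j x; rfl
  rw [h4, hwd] at h3
  ext i x
  exact (congrFun (congrFun h3 i) x).symm

theorem thmC {G : Type u} [Group G] (R : FinRes G)
    (h0 : ¬ Nontrivial (R.homology 0)) (h1 : ¬ Nontrivial (R.homology 1))
    (h2 : ¬ Nontrivial (R.homology 2)) (C : Subgroup G) (S : FinRes C) (hS : Thin S)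
    (A : Set G) (hA : AI C A) (y : Fin (R.rank 2) → G → ℤ) (hy : ∀ j, y j ∈ LC C ℤ)
    (hyc : mact (tr ℤ) (R.d 2) y = 0) :
    ∃ z : Fin (R.rank 2) → G → ℤ, (∀ j, (Function.support (z j)).Finite) ∧
      mact (tr ℤ) (R.d 2) z = mact (tr ℤ) (R.d 2) fun j => A.indicator (y j) := by
  by_cases hC : FoelnerAmenable C
  · exact amen_branch R h0 h1 h2 C hC A hA y hy hyc
  have hS' : L2Van S := hS.resolve_left hC
  obtain ⟨S0, hinv, hgen⟩ := exists_generators S
  obtain ⟨D⟩ := exists_cmp C R S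
  set θ : (Fin (R.rank 2) → MonoidAlgebra ℤ G) →+ ℤ := pair y with hθ
  have hθfn : fn θ = y := fn_pair y
  have hθfin : ∀ v, {h : C | θ (gs (h : G) v) ≠ 0}.Finite := by
    rw [finite_iff, hθfn]
    intro j x
    exact (mem_LC_int.1 (hy j)) x
  have hθd : ∀ v, θ (v ᵥ* R.d 2) = 0 := by
    intro v
    rw [hθ, pair_vecMul, hyc]
    simp [pair_apply]
  -- the functional on `S`
  set s : (Fin (S.rank 2) → MonoidAlgebra ℤ C) →+ ℤ := θ.comp (D.Ψ 2) with hs
  have hsfin : ∀ i, (Function.support (fn s i)).Finite := by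
    intro i
    have h3 := hθfin (D.Ψ 2 (sv i (MonoidAlgebra.single 1 1)))
    have h4 : Function.support (fn s i)
        ⊆ (fun h : C => h⁻¹) '' {h : C | θ (gs (h : G) (D.Ψ 2 (sv i (MonoidAlgebra.single 1 1)))) ≠ 0} := by
      intro x hx
      refine ⟨x⁻¹, ?_, inv_inv x⟩
      have h5 : fn s i x ≠ 0 := hx
      have h6 : fn s i x = θ (gs ((x⁻¹ : C) : G) (D.Ψ 2 (sv i (MonoidAlgebra.single 1 1)))) := by
        rw [← D.Ψ_gs, gs_sv, mul_one]
        rfl
      rw [Set.mem_ofPred_eq, ← h6]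
      exact h5
    exact (h3.image _).subset h4
  have hsd : mact (tr ℤ) (S.d 2) (fn s) = 0 := by
    have h3 := fn_vecMul s 0 (S.d 2) (fun v => by
      show 0 = θ (D.Ψ 2 (v ᵥ* S.d 2))
      rw [D.Ψ_d 2 v]
      exact (hθd _).symm)
    rw [← h3]
    ext i x; rfl
  obtain ⟨ηS, hηS, hηSd⟩ := weighted2 (S.d 1) (S.d 2) (S.d_mul_d 1) hS'.onto S0 hinv hgen (fn s)
    hsfin hsd
  set θS : (Fin (S.rank 1) → MonoidAlgebra ℤ C) →+ ℝ := pair ηS with hθS
  set η' : (Fin (R.rank 1) → MonoidAlgebra ℤ G) →+ ℝ := θS.comp (D.Φ 1) with hη'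
  have hθSd : ∀ v, θS (v ᵥ* S.d 1) = (s v : ℝ) := by
    intro v
    rw [hθS, pair_vecMul, hηSd]
    have h3 : (fun i => compHom iR (fn s i)) = fn ((Int.castAddHom ℝ).comp s) := by
      ext i x; simp [fn]
    rw [h3, pair_fn]
    rfl
  have hη'd : ∀ v, (((s.comp (D.Φ 2)) v : ℤ) : ℝ) = η' (v ᵥ* R.d 1) := by
    intro v
    show ((s (D.Φ 2 v) : ℤ) : ℝ) = θS (D.Φ 1 (v ᵥ* R.d 1))
    rw [D.Φ_d, hθSd]
  obtain ⟨z', hz', hz'd⟩ := wall R h0 h1 h2 C S0 hinv hgen hC A hA (fn η') (by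
    intro j x
    have h3 := pullback S0 hinv hgen θS (by
      intro i
      rw [hθS, fn_pair]
      exact hηS i) (D.Φ 1 (sv j (MonoidAlgebra.single x⁻¹ 1)))
    refine h3.congr ?_
    intro c
    have h4 : fn η' j (x * (c : G)) = θS (gs c⁻¹ (D.Φ 1 (sv j (MonoidAlgebra.single x⁻¹ 1)))) := by
      rw [fn_mul, hη']
      show θS (D.Φ 1 _) = _
      rw [← D.Φ_gs]
      rfl
    show _ = ‖(1 + (wl S0 c : ℝ)) * fn η' j (x * (c : G))‖ ^ 2
    rw [h4, norm_mul, mul_pow, Real.norm_eq_abs, Real.norm_eq_abs, sq_abs, sq_abs])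
    (fn (s.comp (D.Φ 2))) (by
      have h3 := fn_vecMul (M := ℝ) η' ((Int.castAddHom ℝ).comp (s.comp (D.Φ 2))) (R.d 1) hη'd
      rw [← h3]
      ext i x; simp [fn])
  -- the difference is a coboundary
  set κ : (Fin (R.rank 1) → MonoidAlgebra ℤ G) →+ ℤ := θ.comp (D.K 1) with hκ
  have hκLC : ∀ j, fn κ j ∈ LC C ℤ := by
    intro j
    rw [mem_LC_int]
    refine (finite_iff C κ).1 ?_ j
    intro v
    refine (hθfin (D.K 1 v)).subset ?_
    intro h hh
    have h3 : κ (gs (h : G) v) ≠ 0 := hh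
    show θ (gs (h : G) (D.K 1 v)) ≠ 0
    rw [← D.K_gs]
    exact h3
  have hyeq : y = fn (s.comp (D.Φ 2)) + mact (tr ℤ) (R.d 1) (fn κ) := by
    have h3 : fn (κ.comp (Matrix.vecMulLinear (R.d 1)).toAddMonoidHom) = mact (tr ℤ) (R.d 1) (fn κ) :=
      fn_vecMul κ _ (R.d 1) fun v => rfl
    rw [← h3, ← hθfn]
    ext j x
    simp only [fn, Pi.add_apply]
    set v := sv j (MonoidAlgebra.single x⁻¹ 1 : MonoidAlgebra ℤ G) with hv
    show θ v = s (D.Φ 2 v) + κ (v ᵥ* R.d 1)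
    have h4 := congrArg θ (D.K_succ 1 v)
    rw [map_sub, map_add, hθd, zero_add] at h4
    have h5 : θ (D.K 1 (v ᵥ* R.d 1)) = κ (v ᵥ* R.d 1) := rfl
    have h6 : θ (D.Ψ (1 + 1) (D.Φ (1 + 1) v)) = s (D.Φ 2 v) := rfl
    rw [h5, h6] at h4
    linarith
  -- conclusion
  set e : Fin (R.rank 2) → G → ℤ := fun i => mact (tr ℤ) (R.d 1) (fun j => A.indicator (fn κ j)) i
    - A.indicator (mact (tr ℤ) (R.d 1) (fn κ) i) with he
  have hefin : ∀ j, (Function.support (e j)).Finite := fun j =>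
    SQ.finite (mact_indicator hA (R.d 1) (fn κ) hκLC j)
  refine ⟨z' - e, fun j => ?_, ?_⟩
  · refine ((hz' j).union (hefin j)).subset ?_
    exact Function.support_sub (z' j) (e j)
  · have h3 : (fun j => A.indicator (y j)) = (fun j => A.indicator (fn (s.comp (D.Φ 2)) j))
        + (mact (tr ℤ) (R.d 1) (fun j => A.indicator (fn κ j)) - e) := by
      ext1 j
      simp only [Pi.add_apply, Pi.sub_apply, he]
      rw [sub_sub_cancel]
      have h4 := congrFun hyeq j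
      rw [h4, Pi.add_apply, Set.indicator_add']
    rw [h3, map_add, map_sub (mact (tr ℤ) (R.d 2)) (mact (tr ℤ) (R.d 1) _), map_sub, hz'd,
      ← mact_mul, R.d_mul_d, mact_zero]
    abel

end Pool.Agent.Lib.P9f173dW
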