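import Pool.Agent.Lib.P9f173dW.Defs

/-!
# Definitions for groups acting on trees
-/

namespace Pool.Agent.Lib.P9f173dW

open Z9f173d
open scoped Matrix

noncomputable section

section
variable {V : Type*}

/-- the vertices closer to `w` than to `v` -/
def side (T : SimpleGraph V) (v w : V) : Set V := {x | T.dist x w < T.dist x v}

variable {G : Type*} [Group G] [MulAction G V]

/-- the elements `x` of `G` such that `x⁻¹ • v0` is closer to `w` than to `v` -/
def AE (G : Type*) [Group G] [MulAction G V] (T : SimpleGraph V) (v0 v w : V) : Set G :=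
  {x | x⁻¹ • v0 ∈ side T v w}

/-- the stabiliser of the edge with ends `v`, `w` -/
abbrev stE (G : Type*) [Group G] [MulAction G V] (v w : V) : Subgroup G :=
  MulAction.stabilizer G v ⊓ MulAction.stabilizer G w

end

section
variable {G : Type*} [Group G] {m n : ℕ}

/-- `gs g` as an additive map -/
def gsHom (n : ℕ) (g : G) : (Fin n → MonoidAlgebra ℤ G) →+ (Fin n → MonoidAlgebra ℤ G) where
  toFun v := gs g v
  map_zero' := by ext1 j; simp [gs]
  map_add' v w := by ext1 j; simp [gs, mul_add]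

@[simp] theorem gsHom_apply (g : G) (v : Fin n → MonoidAlgebra ℤ G) : gsHom n g v = gs g v := rfl

/-- the conjugate by `g` of an additive map -/
def cj (g : G) (F : (Fin m → MonoidAlgebra ℤ G) →+ (Fin n → MonoidAlgebra ℤ G)) :
    (Fin m → MonoidAlgebra ℤ G) →+ (Fin n → MonoidAlgebra ℤ G) :=
  (gsHom n g).comp (F.comp (gsHom m g⁻¹))

@[simp] theorem cj_apply (g : G) (F : (Fin m → MonoidAlgebra ℤ G) →+ (Fin n → MonoidAlgebra ℤ G))
    (v : Fin m → MonoidAlgebra ℤ G) : cj g F v = gs g (F (gs g⁻¹ v)) := rfl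

/-- Homotopies `K` and projections `P` in degree `m + 1` for a subgroup `H`:
equivariance, the homotopy relation modulo boundaries, finiteness of the image of `P` over `H`, and
vanishing of the connecting maps on the cocycles `θ ∘ P`. -/
structure EdgeOK (R : FinRes G) (H : Subgroup G) (m : ℕ)
    (K : (Fin (R.rank m) → MonoidAlgebra ℤ G) →+ (Fin (R.rank (m + 1)) → MonoidAlgebra ℤ G))
    (P : (Fin (R.rank (m + 1)) → MonoidAlgebra ℤ G) →+ (Fin (R.rank (m + 1)) → MonoidAlgebra ℤ G)) :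
    Prop where
  K_gs : ∀ h : H, ∀ r, K (gs (h : G) r) = gs (h : G) (K r)
  P_gs : ∀ h : H, ∀ r, P (gs (h : G) r) = gs (h : G) (P r)
  htpy : ∀ r, ∃ t, r = t ᵥ* R.d (m + 1) + K (r ᵥ* R.d m) + P r
  fin : ∃ (ι : ℕ) (s : Fin ι → Fin (R.rank (m + 1)) → MonoidAlgebra ℤ G),
    ∀ r, P r ∈ AddSubgroup.closure {v | ∃ (h : H) (k : Fin ι), v = gs (h : G) (s k)}
  good : ∀ θ : (Fin (R.rank (m + 1)) → MonoidAlgebra ℤ G) →+ ℤ,
    (∀ r, {h : H | θ (gs (h : G) r) ≠ 0}.Finite) → (∀ r, θ (r ᵥ* R.d (m + 1)) = 0) →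
    ∀ A : Set G, AI H A → ∃ z : Fin (R.rank (m + 1)) → G → ℤ,
      (∀ j, (Function.support (z j)).Finite) ∧
      mact (tr ℤ) (R.d (m + 1)) z
        = mact (tr ℤ) (R.d (m + 1)) fun j => A.indicator (fn (θ.comp P) j)

end

end

end Pool.Agent.Lib.P9f173dW
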