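import Pool.Agent.Lib.P9f173dW.ThmC
import Pool.Agent.Lib.P9f173dW.TreeDefs

/-!
# Vertex data and edge data
-/

namespace Pool.Agent.Lib.P9f173dW

open Z9f173d
open scoped Matrix

universe u

theorem vertex_data {G : Type*} [Group G] (R : FinRes G) (H : Subgroup G) (S : FinRes H)
    (hS : ∀ i, 2 < i → S.rank i = 0) (m : ℕ) (hm : 1 ≤ m) :
    ∃ K : (Fin (R.rank (m + 1)) → MonoidAlgebra ℤ G) →+ (Fin (R.rank (m + 2)) → MonoidAlgebra ℤ G),
      (∀ h : H, ∀ r, K (gs (h : G) r) = gs (h : G) (K r)) ∧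
      ∀ r, ∃ t, r = t ᵥ* R.d (m + 2) + K (r ᵥ* R.d (m + 1)) := by
  obtain ⟨D⟩ := exists_cmp H R S
  refine ⟨D.K (m + 1), fun h r => D.K_gs (m + 1) h r, fun r => ⟨D.K (m + 2) r, ?_⟩⟩
  have h1 := D.K_succ (m + 1) r
  have h2 : S.rank (m + 2) = 0 := hS _ (by omega)
  have h3 : D.Φ (m + 2) r = 0 := by
    ext1 a
    exact Fin.elim0 (Fin.cast h2 a)
  have h4 : D.Ψ (m + 1 + 1) (D.Φ (m + 1 + 1) r) = 0 := by
    show D.Ψ (m + 2) (D.Φ (m + 2) r) = 0
    rw [h3, map_zero]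
  rw [h4, sub_zero] at h1
  exact h1

/-- every vector is in the subgroup generated by the basis vectors -/
theorem mem_closure_basis {G : Type*} [Group G] {n : ℕ} (v : Fin n → MonoidAlgebra ℤ G) :
    v ∈ AddSubgroup.closure {v : Fin n → MonoidAlgebra ℤ G |
      ∃ (j : Fin n) (x : G), v = sv j (MonoidAlgebra.single x 1)} := by
  set L := AddSubgroup.closure {v : Fin n → MonoidAlgebra ℤ G |
      ∃ (j : Fin n) (x : G), v = sv j (MonoidAlgebra.single x 1)} with hL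
  have h : (QuotientAddGroup.mk' L : (Fin n → MonoidAlgebra ℤ G) →+ _) = 0 := by
    apply addHom_ext
    intro j x
    show QuotientAddGroup.mk' L _ = 0
    rw [QuotientAddGroup.mk'_apply, QuotientAddGroup.eq_zero_iff]
    exact AddSubgroup.subset_closure ⟨j, x, rfl⟩
  have h2 : QuotientAddGroup.mk' L v = 0 := by rw [h]; rfl
  rwa [QuotientAddGroup.mk'_apply, QuotientAddGroup.eq_zero_iff] at h2

theorem edge_data {G : Type u} [Group G] (R : FinRes G)
    (h0 : ¬ Nontrivial (R.homology 0)) (h1 : ¬ Nontrivial (R.homology 1))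
    (h2 : ¬ Nontrivial (R.homology 2)) (H : Subgroup G) (S : FinRes H)
    (hS : ∀ i, 2 < i → S.rank i = 0) (hT : Thin S) (m : ℕ) (hm : 1 ≤ m) :
    ∃ K P, EdgeOK R H m K P := by
  obtain ⟨D⟩ := exists_cmp H R S
  refine ⟨D.K m, (D.Ψ (m + 1)).comp (D.Φ (m + 1)), ?_⟩
  have hPgs : ∀ h : H, ∀ r, (D.Ψ (m + 1)).comp (D.Φ (m + 1)) (gs (h : G) r)
      = gs (h : G) ((D.Ψ (m + 1)).comp (D.Φ (m + 1)) r) := by
    intro h r
    show D.Ψ (m + 1) (D.Φ (m + 1) (gs (h : G) r)) = gs (h : G) (D.Ψ (m + 1) (D.Φ (m + 1) r))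
    rw [D.Φ_gs, D.Ψ_gs]
  refine ⟨fun h r => D.K_gs m h r, hPgs, fun r => ⟨D.K (m + 1) r, ?_⟩, ?_, ?_⟩
  · have h3 := D.K_succ m r
    show r = D.K (m + 1) r ᵥ* R.d (m + 1) + D.K m (r ᵥ* R.d m) + D.Ψ (m + 1) (D.Φ (m + 1) r)
    rw [← h3, sub_add_cancel]
  · refine ⟨S.rank (m + 1), fun k => D.Ψ (m + 1) (sv k (MonoidAlgebra.single 1 1)), fun r => ?_⟩
    show D.Ψ (m + 1) (D.Φ (m + 1) r) ∈ _
    generalize D.Φ (m + 1) r = v
    have h3 := mem_closure_basis v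
    induction h3 using AddSubgroup.closure_induction with
    | mem v hv =>
      obtain ⟨j, x, rfl⟩ := hv
      refine AddSubgroup.subset_closure ⟨x, j, ?_⟩
      rw [← D.Ψ_gs, gs_sv, mul_one]
    | zero => rw [map_zero]; exact AddSubgroup.zero_mem _
    | add v w _ _ hv hw => rw [map_add]; exact AddSubgroup.add_mem _ hv hw
    | neg v _ hv => rw [map_neg]; exact AddSubgroup.neg_mem _ hv
  · intro θ hθ hθd A hA
    rcases Nat.lt_or_ge m 2 with hm2 | hm2
    · obtain rfl : m = 1 := by omega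
      refine thmC R h0 h1 h2 H S hT A hA (fn (θ.comp ((D.Ψ (1 + 1)).comp (D.Φ (1 + 1))))) ?_ ?_
      · intro j
        rw [mem_LC_int]
        refine (finite_iff H _).1 ?_ j
        intro v
        refine (hθ (((D.Ψ (1 + 1)).comp (D.Φ (1 + 1))) v)).subset ?_
        intro h hh
        show θ (gs (h : G) _) ≠ 0
        rw [← hPgs]
        exact hh
      · have h3 := fn_vecMul (θ.comp ((D.Ψ (1 + 1)).comp (D.Φ (1 + 1)))) 0 (R.d 2) (by
          intro v
          show 0 = θ (D.Ψ (1 + 1) (D.Φ (1 + 1) (v ᵥ* R.d 2)))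
          have h4 := D.Φ_d 2 v
          have h5 := D.Ψ_d 2 (D.Φ (2 + 1) v)
          rw [show D.Φ (1 + 1) (v ᵥ* R.d 2) = D.Φ (2 + 1) v ᵥ* S.d 2 from h4]
          rw [show D.Ψ (1 + 1) (D.Φ (2 + 1) v ᵥ* S.d 2) = D.Ψ (2 + 1) (D.Φ (2 + 1) v) ᵥ* R.d 2
            from h5]
          exact (hθd _).symm)
        rw [← h3]
        ext j x
        rfl
    · have h3 : S.rank (m + 1) = 0 := hS _ (by omega)
      have h4 : θ.comp ((D.Ψ (m + 1)).comp (D.Φ (m + 1))) = 0 := by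
        refine AddMonoidHom.ext fun v => ?_
        show θ (D.Ψ (m + 1) (D.Φ (m + 1) v)) = 0
        have h5 : D.Φ (m + 1) v = 0 := by
          ext1 a
          exact Fin.elim0 (Fin.cast h3 a)
        rw [h5, map_zero, map_zero]
      refine ⟨0, fun j => by simp, ?_⟩
      rw [h4]
      congr 1
      ext j x
      simp [fn, Set.indicator]

end Pool.Agent.Lib.P9f173dW
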