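import Pool.Agent.Lib.P9f173dW.TreeDefs

/-!
# Module TreeFun: functions on a tree with prescribed differences along the edges

PROOFS.
* `exists_potential`: fix a root `r`; for a walk `p` from `r` to `x` let `S(p)` be the sum of `- f a b` over the
  steps `a → b` of `p`.  In a tree `S(p)` depends only on `x`: removing a backtrack `a → b → a` does
  not change `S` (`f b a = - f a b`), i.e. take `t x = S(the unique path from r to x)`
  (`hT.existsUnique_path`).  For adjacent `v`, `w`: one of the two paths from `r` extends the other by the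
  edge `v w` (`dist r v = dist r w ± 1`; if `dist r w = dist r v + 1` then (path to `v`) + (v → w) has length
  `dist r w`, so it is the path to `w`), so `t w = t v - f v w`.  Alternative: induction on `dist r x` with choice of
  the parent `π x` (the neighbour of `x` closer to `r`, unique) and recursion on the distance.
* `crossing`: for adjacent `v`, `w` and adjacent `a`, `b`: if `v` and `w` are on different sides of `(a, b)` then
  `{v, w} = {a, b}` (see the header of Module TreeAI, (0)); `w ∈ side T v w`, `v ∉ side T v w`.
* `tree_diff`: let `B x = - ∑_{e ∈ E0} (if x ∈ side T e.1 e.2 then f e.1 e.2 else 0)`.  For adjacent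
  `v`, `w`, `B v - B w` has contributions only from `e = (v, w)` (it is `f v w`, as `w ∈ side T v w`,
  `v ∉ side T v w`) and `e = (w, v)` (it is `- f w v`), by `crossing`, so `B v - B w = b v - b w` by `h`.
  So `b - B` is constant along edges, hence constant (`hT.connected`): `b a - b a' = B a - B a'`.
-/

namespace Pool.Agent.Lib.P9f173dW

variable {V : Type*} {T : SimpleGraph V} {M : Type*} [AddCommGroup M]

namespace TreeFunAux

/-- minus the sum of `f` along a walk -/
def wsum (f : V → V → M) : ∀ {a b : V}, T.Walk a b → M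
  | _, _, SimpleGraph.Walk.nil => 0
  | a, _, SimpleGraph.Walk.cons (v := c) _ p => - f a c + wsum f p

theorem wsum_concat (f : V → V → M) {a b c : V} (p : T.Walk a b) (h : T.Adj b c) :
    wsum f (p.concat h) = wsum f p - f b c := by
  induction p with
  | nil =>
    rw [SimpleGraph.Walk.concat_nil]
    simp [wsum]
  | cons h' p ih =>
    rw [SimpleGraph.Walk.concat_cons]
    simp only [wsum]
    rw [ih h]
    abel

theorem mem_walk (hT : T.IsTree) {a b c : V} (h : T.dist a c = T.dist a b + T.dist b c)
    (W : T.Walk a c) : b ∈ W.support := by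
  classical
  obtain ⟨P₁, h1⟩ := hT.connected.exists_walk_length_eq_dist a b
  obtain ⟨P₂, h2⟩ := hT.connected.exists_walk_length_eq_dist b c
  have hP : (P₁.append P₂).IsPath := by
    apply SimpleGraph.Walk.isPath_of_length_eq_dist
    rw [SimpleGraph.Walk.length_append, h1, h2, h]
  have hQ : W.bypass.IsPath := W.bypass_isPath
  have e : P₁.append P₂ = W.bypass := (hT.existsUnique_path a c).unique hP hQ
  have hb : b ∈ (P₁.append P₂).support := by
    rw [SimpleGraph.Walk.mem_support_append_iff]
    exact Or.inl P₁.end_mem_support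
  rw [e] at hb
  exact W.support_bypass_subset hb

theorem dist_mem (hT : T.IsTree) {a b c : V} (h : ∀ W : T.Walk a c, b ∈ W.support) :
    T.dist a b + T.dist b c ≤ T.dist a c := by
  classical
  obtain ⟨P, hP⟩ := hT.connected.exists_walk_length_eq_dist a c
  have h1 := congrArg SimpleGraph.Walk.length (P.take_spec (h P))
  rw [SimpleGraph.Walk.length_append] at h1
  have h2 := T.dist_le (P.takeUntil b (h P))
  have h3 := T.dist_le (P.dropUntil b (h P))
  omega

theorem const_of_adj (hT : T.IsTree) {c : V → M} (h : ∀ v w, T.Adj v w → c v = c w) (a a' : V) :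
    c a = c a' := by
  obtain ⟨p⟩ := hT.connected a a'
  induction p with
  | nil => rfl
  | cons h' p ih => exact (h _ _ h').trans ih

end TreeFunAux

open TreeFunAux

theorem exists_potential (hT : T.IsTree) (f : V → V → M)
    (hf : ∀ v w, T.Adj v w → f v w = - f w v) :
    ∃ t : V → M, ∀ v w, T.Adj v w → t v - t w = f v w := by
  obtain ⟨r⟩ := hT.connected.nonempty
  have hp : ∀ x : V, ∃ p : T.Walk r x, p.IsPath := fun x => (hT.existsUnique_path r x).exists
  choose P hP using hp
  refine ⟨fun x => wsum f (P x), fun v w hvw => ?_⟩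
  show wsum f (P v) - wsum f (P w) = f v w
  by_cases hw : w ∈ (P v).support
  · have e : P v = (P w).concat hvw.symm :=
      hT.isAcyclic.path_concat (hP w) (hP v) hvw.symm hw
    rw [e, wsum_concat, hf v w hvw]
    abel
  · have hv : v ∈ (P w).support :=
      hT.isAcyclic.mem_support_of_ne_mem_support_of_adj_of_isPath (hP w) (hP v) hvw.symm hw
    have e : P w = (P v).concat hvw := hT.isAcyclic.path_concat (hP v) (hP w) hvw hv
    rw [e, wsum_concat]
    abel

theorem crossing (hT : T.IsTree) {a b v w : V} (hab : T.Adj a b) (hvw : T.Adj v w)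
    (h1 : v ∉ side T a b) (h2 : w ∈ side T a b) : v = a ∧ w = b := by
  have h1' : ¬ T.dist v b < T.dist v a := h1
  have h2' : T.dist w b < T.dist w a := h2
  have e1 := hT.dist_eq_dist_add_one_of_adj v hab
  have e2 := hT.dist_eq_dist_add_one_of_adj w hab
  have e3 := hT.dist_eq_dist_add_one_of_adj a hvw
  have e4 := hT.dist_eq_dist_add_one_of_adj b hvw
  rw [T.dist_comm (u := a) (v := v), T.dist_comm (u := a) (v := w)] at e3
  rw [T.dist_comm (u := b) (v := v), T.dist_comm (u := b) (v := w)] at e4
  have e5 : T.dist w v = 1 := SimpleGraph.dist_eq_one_iff_adj.mpr hvw.symm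
  have hva : v = a := by
    by_contra hne
    have h3 : ∀ W : T.Walk w b, v ∈ W.support := by
      intro W
      have h4 := mem_walk hT (a := w) (b := v) (c := a) (by omega) (W.concat hab.symm)
      rw [SimpleGraph.Walk.support_concat] at h4
      simp only [List.mem_append, List.mem_singleton] at h4
      rcases h4 with h4 | h4
      · exact h4
      · exact absurd h4 hne
    have h5 := dist_mem hT h3
    omega
  refine ⟨hva, ?_⟩
  subst hva
  have e6 : T.dist v v = 0 := SimpleGraph.dist_self
  have e7 : T.dist w b = 0 := by omega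
  exact (hT.connected.dist_eq_zero_iff).1 e7

open scoped Classical in
theorem tree_diff (hT : T.IsTree) (b : V → M) (f : V → V → M) (E0 : Finset (V × V))
    (hE : ∀ e ∈ E0, T.Adj e.1 e.2)
    (h : ∀ v w, T.Adj v w → b v - b w
      = (if (v, w) ∈ E0 then f v w else 0) - (if (w, v) ∈ E0 then f w v else 0)) (a a' : V) :
    b a - b a' = ∑ e ∈ E0, ((if a' ∈ side T e.1 e.2 then f e.1 e.2 else 0)
      - (if a ∈ side T e.1 e.2 then f e.1 e.2 else 0)) := by
  set B : V → M := fun x => ∑ e ∈ E0, (if x ∈ side T e.1 e.2 then f e.1 e.2 else 0) with hB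
  have hself : ∀ v w : V, T.Adj v w → w ∈ side T v w ∧ v ∉ side T v w := by
    intro v w hvw
    have e5 : T.dist w v = 1 := SimpleGraph.dist_eq_one_iff_adj.mpr hvw.symm
    have e6 : T.dist w w = 0 := SimpleGraph.dist_self
    have e7 : T.dist v v = 0 := SimpleGraph.dist_self
    constructor
    · show T.dist w w < T.dist w v
      omega
    · show ¬ T.dist v w < T.dist v v
      omega
  have hterm : ∀ v w, T.Adj v w → ∀ e ∈ E0, ((if w ∈ side T e.1 e.2 then f e.1 e.2 else 0)
      - (if v ∈ side T e.1 e.2 then f e.1 e.2 else 0)) =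
      (if e = (v, w) then f v w else 0) - (if e = (w, v) then f w v else 0) := by
    intro v w hvw e he
    by_cases h1 : e = (v, w)
    · subst h1
      have h2 := hself v w hvw
      have h3 : ¬ ((v, w) = (w, v)) := by
        intro h4
        exact hvw.ne (Prod.ext_iff.1 h4).1
      rw [if_pos h2.1, if_neg h2.2, if_pos rfl, if_neg h3]
    by_cases h2 : e = (w, v)
    · subst h2
      have h3 := hself w v hvw.symm
      rw [if_neg h3.2, if_pos h3.1, if_neg h1, if_pos rfl]
    rw [if_neg h1, if_neg h2]
    have hiff : w ∈ side T e.1 e.2 ↔ v ∈ side T e.1 e.2 := by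
      constructor
      · intro hw
        by_contra hv
        obtain ⟨h3, h4⟩ := crossing hT (hE e he) hvw hv hw
        exact h1 (Prod.ext h3.symm h4.symm)
      · intro hv
        by_contra hw
        obtain ⟨h3, h4⟩ := crossing hT (hE e he) hvw.symm hw hv
        exact h2 (Prod.ext h3.symm h4.symm)
    by_cases hw : w ∈ side T e.1 e.2
    · rw [if_pos hw, if_pos (hiff.1 hw), sub_self, sub_zero]
    · rw [if_neg hw, if_neg (fun hv => hw (hiff.2 hv))]
  have hBd : ∀ v w, T.Adj v w → b v - b w = B w - B v := by
    intro v w hvw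
    rw [h v w hvw, hB]
    simp only
    rw [← Finset.sum_sub_distrib, Finset.sum_congr rfl (hterm v w hvw), Finset.sum_sub_distrib,
      Finset.sum_ite_eq', Finset.sum_ite_eq']
  have hc := const_of_adj hT (c := fun x => b x + B x) (fun v w hvw => by
    have h1 := hBd v w hvw
    show b v + B v = b w + B w
    rw [sub_eq_iff_eq_add] at h1
    rw [h1]
    abel) a a'
  have hc' : b a + B a = b a' + B a' := hc
  rw [Finset.sum_sub_distrib]
  show b a - b a' = B a' - B a
  rw [sub_eq_iff_eq_add]
  have h2 : b a = b a' + B a' - B a := by rw [← hc']; abel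
  rw [h2]
  abel

end Pool.Agent.Lib.P9f173dW
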