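import Pool.Agent.Lib.P9f173dW.TreeData
import Pool.Agent.Lib.P9f173dW.FinCon
import Pool.Agent.Lib.P9f173dW.Orbit
import Pool.Agent.Lib.P9f173dW.Sum1
import Pool.Agent.Lib.P9f173dW.Sum2

/-!
# Groups acting on trees
-/

namespace Pool.Agent.Lib.P9f173dW

open Z9f173d
open scoped Matrix

universe u

theorem cj_fixed {G : Type*} [Group G] {m n : ℕ}
    (F : (Fin m → MonoidAlgebra ℤ G) →+ (Fin n → MonoidAlgebra ℤ G)) (g : G)
    (h : ∀ r, F (gs g r) = gs g (F r)) : cj g F = F := by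
  refine AddMonoidHom.ext fun r => ?_
  rw [cj_apply, ← h, gs_gs, mul_inv_cancel, gs_one]

theorem tree_thm {G : Type u} [Group G] {V : Type*} [MulAction G V] (R : FinRes G) (N : ℕ)
    (hN : ∀ i, N < i → R.rank i = 0) (T : SimpleGraph V) (hT : T.IsTree)
    (hadj : ∀ (g : G) (v w : V), T.Adj v w → T.Adj (g • v) (g • w))
    (hinv : ∀ (g : G) (v w : V), T.Adj v w → g • v = w → g • w ≠ v)
    (E0 : Finset (V × V)) (hE0 : ∀ v w, T.Adj v w → ∃ g : G, (g • v, g • w) ∈ E0)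
    (hV : ∀ v : V, ∃ S : FinRes (MulAction.stabilizer G v), ∀ i, 2 < i → S.rank i = 0)
    (hE : ∀ v w : V, T.Adj v w → ∃ S : FinRes (stE G v w), (∀ i, 2 < i → S.rank i = 0) ∧ Thin S)
    (h0 : ¬ Nontrivial (R.homology 0)) (h1 : ¬ Nontrivial (R.homology 1))
    (h2 : ¬ Nontrivial (R.homology 2)) : False := by
  refine contra_of_high R N hN h0 h1 h2 fun m hm c hcf hcd => ?_
  obtain ⟨o, ho0, ho1, ho2, ho3⟩ := exists_orient (G := G) T hadj hinv
  -- vertex data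
  obtain ⟨KV, hKV1, hKV2⟩ := fam_ext (G := G) (X := V)
    (N := (Fin (R.rank (m + 1)) → MonoidAlgebra ℤ G) →+ (Fin (R.rank (m + 2)) → MonoidAlgebra ℤ G))
    (fun g F => cj g F) cj_one cj_mul
    (fun _ K => ∀ r, ∃ t, r = t ᵥ* R.d (m + 2) + K (r ᵥ* R.d (m + 1))) (by
      intro g v K hK r
      obtain ⟨t, ht⟩ := hK (gs g⁻¹ r)
      refine ⟨gs g t, ?_⟩
      have h3 := congrArg (gs g) ht
      rw [gs_gs, mul_inv_cancel, gs_one, gs_add, gs_vecMul, ← gs_vecMul g⁻¹] at h3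
      exact h3) (by
      intro v
      obtain ⟨S, hS⟩ := hV v
      obtain ⟨K, hK1, hK2⟩ := vertex_data R _ S hS m hm
      exact ⟨K, hK2, fun g hg => cj_fixed K g fun r => hK1 ⟨g, hg⟩ r⟩)
  -- edge data
  obtain ⟨KP, hKP1, hKP2⟩ := fam_ext (G := G) (X := V × V)
    (N := ((Fin (R.rank m) → MonoidAlgebra ℤ G) →+ (Fin (R.rank (m + 1)) → MonoidAlgebra ℤ G)) ×
      ((Fin (R.rank (m + 1)) → MonoidAlgebra ℤ G) →+ (Fin (R.rank (m + 1)) → MonoidAlgebra ℤ G)))
    (fun g F => (cj g F.1, cj g F.2)) (fun F => by rw [cj_one, cj_one])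
    (fun g h F => by rw [cj_mul, cj_mul])
    (fun e F => o e.1 e.2 → EdgeOK R (stE G e.1 e.2) m F.1 F.2) (by
      intro g e F hF ho
      refine (hF ?_).conj g (stE_smul g e.1 e.2)
      have := ho0 g⁻¹ _ _ ho
      rwa [Prod.smul_fst, Prod.smul_snd, inv_smul_smul, inv_smul_smul] at this) (by
      intro e
      by_cases he : o e.1 e.2
      · obtain ⟨S, hS, hTh⟩ := hE _ _ (ho2 _ _ he)
        obtain ⟨K, P, hKP⟩ := edge_data R h0 h1 h2 _ S hS hTh m hm
        refine ⟨(K, P), fun _ => hKP, fun g hg => ?_⟩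
        have hg' : g ∈ stE G e.1 e.2 :=
          Subgroup.mem_inf.2 ⟨congrArg Prod.fst hg, congrArg Prod.snd hg⟩
        refine Prod.ext ?_ ?_
        · exact cj_fixed K g fun r => hKP.K_gs ⟨g, hg'⟩ r
        · exact cj_fixed P g fun r => hKP.P_gs ⟨g, hg'⟩ r
      · refine ⟨(0, 0), fun h => absurd h he, fun g _ => ?_⟩
        refine Prod.ext ?_ ?_
        · refine AddMonoidHom.ext fun r => ?_
          show gs g (0 : Fin (R.rank (m + 1)) → MonoidAlgebra ℤ G) = 0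
          rw [← gsHom_apply, map_zero]
        · refine AddMonoidHom.ext fun r => ?_
          show gs g (0 : Fin (R.rank (m + 1)) → MonoidAlgebra ℤ G) = 0
          rw [← gsHom_apply, map_zero])
  obtain ⟨b, E1, hb1, hb2, hb3, hb4, hb5⟩ := vertex_sum hT R m o ho0 ho1 ho2 ho3 E0
    (fun v w h => hE0 v w (ho2 v w h)) KV hKV2 hKV1 (fun v w => (KP (v, w)).1)
    (fun v w => (KP (v, w)).2) (fun g v w => congrArg Prod.fst (hKP2 g (v, w)))
    (fun g v w => congrArg Prod.snd (hKP2 g (v, w))) (fun v w h => hKP1 (v, w) h) c hcf hcd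
  haveI : Nonempty V := hT.connected.nonempty
  exact tree_sum hT hadj R m o ho1 ho2 ho3 (fun v w => (KP (v, w)).1)
    (fun v w => (KP (v, w)).2) (fun v w h => hKP1 (v, w) h) c b hb1 hb2 E1 hb3 hb4 hb5

end Pool.Agent.Lib.P9f173dW
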