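import Pool.Agent.Lib.P9f173dW.Dec
import Pool.Agent.Lib.P9f173dW.Cap
import Pool.Agent.Lib.P9f173dW.Pot
import Pool.Agent.Lib.P9f173dW.Core
import Pool.Agent.Lib.P9f173dW.Glue
import Pool.Agent.Lib.P9f173dW.IntPart

/-!
# The wall theorem: assembly
-/

namespace Pool.Agent.Lib.P9f173dW

open Z9f173d
open scoped Matrix

universe u

theorem infinite_of_not_foelner {C : Type*} [Group C] (hC : ¬ FoelnerAmenable C) : Infinite C := by
  classical
  by_contra hfin
  rw [not_infinite_iff_finite] at hfin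
  apply hC
  haveI := Fintype.ofFinite C
  intro S ε hε
  refine ⟨Finset.univ, ⟨1, Finset.mem_univ _⟩, fun s _ => ?_⟩
  have : IsEmpty {k : C // k ∈ (Finset.univ : Finset C) ∧ s * k ∉ (Finset.univ : Finset C)} :=
    ⟨fun k => k.2.2 (Finset.mem_univ _)⟩
  rw [Nat.card_of_isEmpty]
  simp only [Nat.cast_zero]
  positivity

/-- functions with weighted square summable restrictions to the cosets of `C` -/
def LCw {G : Type*} [Group G] (C : Subgroup G) (ω : C → ℝ) : AddSubgroup (G → ℝ) where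
  carrier := {f | ∀ x : G, SQ fun c : C => ω c * f (x * c)}
  zero_mem' := fun x => by
    have : (fun c : C => ω c * (0 : G → ℝ) (x * c)) = 0 := by ext; simp
    rw [this]; exact SQ.zero
  add_mem' := fun {f g} hf hg x => by
    have : (fun c : C => ω c * (f + g) (x * c))
      = (fun c : C => ω c * f (x * c)) + fun c : C => ω c * g (x * c) := by ext; simp [mul_add]
    rw [this]; exact (hf x).add (hg x)
  neg_mem' := fun {f} hf x => by
    have : (fun c : C => ω c * (-f) (x * c)) = -fun c : C => ω c * f (x * c) := by ext; simp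
    rw [this]; exact (hf x).neg

theorem tr_mem_LCw {G : Type*} [Group G] {C : Subgroup G} (ω : C → ℝ) (a : MonoidAlgebra ℤ G)
    (f : G → ℝ) (hf : f ∈ LCw C ω) : tr ℝ a f ∈ LCw C ω := by
  refine tr_mem_of _ (fun g f hf x => ?_) a hf
  have := hf (g⁻¹ * x)
  simpa [mul_assoc] using this

theorem wall {G : Type u} [Group G] (R : FinRes G)
    (h0 : ¬ Nontrivial (R.homology 0)) (h1 : ¬ Nontrivial (R.homology 1))
    (h2 : ¬ Nontrivial (R.homology 2)) (C : Subgroup G) (S0 : Finset C)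
    (hinv : ∀ s ∈ S0, s⁻¹ ∈ S0) (hgen : Subgroup.closure (S0 : Set C) = ⊤)
    (hC : ¬ FoelnerAmenable C) (A : Set G) (hA : AI C A)
    (η : Fin (R.rank 1) → G → ℝ)
    (hηw : ∀ j, η j ∈ LCw C fun c => 1 + (wl S0 c : ℝ))
    (y : Fin (R.rank 2) → G → ℤ)
    (hηy : mact (tr ℝ) (R.d 1) η = fun i => compHom iR (y i)) :
    ∃ z : Fin (R.rank 2) → G → ℤ, (∀ j, (Function.support (z j)).Finite) ∧
      mact (tr ℤ) (R.d 2) z = mact (tr ℤ) (R.d 2) fun j => A.indicator (y j) := by
  haveI := infinite_of_not_foelner hC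
  have hηLC : ∀ j, η j ∈ LC C ℝ := by
    intro j x
    refine (hηw j x).mono 1 fun c => ?_
    rw [one_mul, norm_mul]
    have h3 : (1 : ℝ) ≤ ‖1 + (wl S0 c : ℝ)‖ := by
      rw [Real.norm_eq_abs]
      refine le_trans ?_ (le_abs_self _)
      have : (0 : ℝ) ≤ wl S0 c := Nat.cast_nonneg _
      linarith
    nlinarith [norm_nonneg (η j (x * c))]
  have hT : mact (tr UnitAddCircle) (R.d 1) (fun j => compHom pT (η j)) = 0 := by
    rw [compHom_mact, hηy]
    ext i x
    simp only [compHom_apply, iR_apply]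
    exact pT_int _
  obtain ⟨w, hw⟩ := R.exists_primitive _ hT
  obtain ⟨x0, hx0⟩ := R.exists_x
  set u : G → UnitAddCircle := fpair w x0 with hu
  set W : G → ℂ := fun x => (AddCircle.toCircle (u x) : ℂ) with hWdef
  have hW1 : ∀ x, ‖W x‖ = 1 := fun x => Circle.norm_coe _
  -- the differences of `W`
  have hdiff : ∀ g : G, ∃ β ∈ LCw C (fun c => 1 + (wl S0 c : ℝ)),
      ∀ x, ‖df g W x‖ ≤ 2 * Real.pi * |β x| := by
    intro g
    obtain ⟨v, hv⟩ := exists_path R x0 hx0 g
    refine ⟨fpair η v, fpair_mem _ (fun a f hf => tr_mem_LCw _ a f hf) _ hηw _, fun x => ?_⟩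
    have h3 : df g u = fun x => pT (fpair η v x) := by
      rw [hu, df_fpair R x0 g v hv w, hw]
      have h4 : compHom pT (fpair η v) = fpair (fun j => compHom pT (η j)) v := by
        simp only [fpair, map_sum, tr_nat]
      rw [← h4]
      rfl
    refine (circ_le_norm_sub _ _).trans ?_
    refine mul_le_mul_of_nonneg_left ?_ (by positivity)
    have h5 : u (g⁻¹ * x) - u x = pT (fpair η v x) := congrFun h3 x
    rw [h5]
    exact QuotientAddGroup.norm_mk_le_norm
  have hWLC : ∀ g, df g W ∈ LC C ℂ := by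
    intro g x
    obtain ⟨β, hβ, hβ'⟩ := hdiff g
    refine (hβ x).mono (2 * Real.pi) fun c => (hβ' _).trans ?_
    refine mul_le_mul_of_nonneg_left ?_ (by positivity)
    rw [norm_mul, Real.norm_eq_abs (β _)]
    have h3 : (1 : ℝ) ≤ ‖1 + (wl S0 c : ℝ)‖ := by
      rw [Real.norm_eq_abs]
      refine le_trans ?_ (le_abs_self _)
      have : (0 : ℝ) ≤ wl S0 c := Nat.cast_nonneg _
      linarith
    nlinarith [abs_nonneg (β (x * c))]
  -- the data on `C`
  obtain ⟨D⟩ := exists_potData C S0 hinv hgen hC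
  obtain ⟨F, T, hTmem, hdec⟩ := exists_dec R h0 h1 h2 C A hA S0
  let E : DecData C S0 :=
    { D1 := Dres C A
      D2 := Dres C Aᶜ
      dc1 := fun α hα => dc_of_mem_Dres hα
      dc2 := fun α hα => dc_of_mem_Dres hα
      sq1 := fun α hα => sq_mem_Dres hα
      sq2 := fun α hα => sq_mem_Dres hα
      const1 := fun k => const_mem_Dres k
      const2 := fun k => const_mem_Dres k
      conj1 := fun α hα => conj_mem_Dres hα
      conj2 := fun α hα => conj_mem_Dres hα
      cap := fun α hα hα' => cap R h0 h1 h2 hA hα hα'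
      F := F
      T := T
      T_mem := hTmem
      dec := hdec }
  obtain ⟨φ, hφ1, hφ, hφ2⟩ := core (ℓ := fun x => (wl S0 x : ℝ)) (fun x => Nat.cast_nonneg _) D E
    (fun c => W c) (fun c => hW1 c) (by
      intro c
      obtain ⟨β, hβ, hβ'⟩ := hdiff (c : G)
      have h3 := hβ 1
      have h4 : Summable fun x : C => (2 * Real.pi) ^ 2 * ‖(1 + (wl S0 x : ℝ)) * β (1 * x)‖ ^ 2 :=
        h3.mul_left _
      refine Summable.of_nonneg_of_le (fun x => by positivity) (fun x => ?_) h4
      have h5 := hβ' (x : G)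
      rw [df_apply] at h5
      have h6 : ‖W (((c⁻¹ * x : C) : G)) - W (x : G)‖ ^ 2 ≤ (2 * Real.pi * |β x|) ^ 2 := by
        refine pow_le_pow_left₀ (norm_nonneg _) ?_ 2
        simpa using h5
      have h7 := mul_le_mul_of_nonneg_left h6 (sq_nonneg (1 + (wl S0 x : ℝ)))
      refine h7.trans (le_of_eq ?_)
      rw [one_mul, norm_mul, Real.norm_eq_abs, Real.norm_eq_abs, mul_pow, mul_pow, mul_pow,
        sq_abs (1 + (wl S0 x : ℝ))]
      ring)
  obtain ⟨U1, U2, hU1, hU2, hdU1, hdU2, hU⟩ := glue R h0 h1 h2 hA W hW1 hWLC φ hφ1 hφ2 hφ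
  obtain ⟨u1, hu1⟩ := exists_log U1 hU1
  obtain ⟨u2, hu2⟩ := exists_log U2 hU2
  refine int_part R hA x0 hx0 u1 u2 ?_ ?_ w η hηLC hw ?_ y hηy
  · intro g
    refine ⟨fun x => ((hdU1 g).1 x).mono 1 fun c => ?_, (hdU1 g).2.mono 1 fun x => ?_⟩
    · rw [one_mul, df_apply, df_apply, ← hu1, ← hu1]
      exact norm_sub_le_circ _ _
    · rw [one_mul]
      by_cases hx : x ∈ A
      · rw [Set.indicator_of_mem hx, Set.indicator_of_mem hx, df_apply, df_apply, ← hu1, ← hu1]
        exact norm_sub_le_circ _ _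
      · simp [Set.indicator_of_notMem hx]
  · intro g
    refine ⟨fun x => ((hdU2 g).1 x).mono 1 fun c => ?_, (hdU2 g).2.mono 1 fun x => ?_⟩
    · rw [one_mul, df_apply, df_apply, ← hu2, ← hu2]
      exact norm_sub_le_circ _ _
    · rw [one_mul]
      by_cases hx : x ∈ Aᶜ
      · rw [Set.indicator_of_mem hx, Set.indicator_of_mem hx, df_apply, df_apply, ← hu2, ← hu2]
        exact norm_sub_le_circ _ _
      · simp [Set.indicator_of_notMem hx]
  · intro x
    refine (hU x).mono 1 fun c => ?_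
    rw [one_mul]
    show ‖u (x * c) + u1 (x * c) - u2 (x * c)‖ ≤ _
    refine (norm_sub_le_circ _ _).trans (le_of_eq ?_)
    rw [AddCircle.toCircle_add, Circle.coe_mul, hu1, hu2]

end Pool.Agent.Lib.P9f173dW
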