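import Pool.Agent.Lib.P9f173dW.Defs

/-!
# Module WtA: a finitely supported approximate right inverse

`D` an `m2 × m1` matrix over `ℤ[C]` that is onto on `ℓ²(C)`-vectors.  Then there is an `m1 × m2` matrix
`B` over `ℂ[C]` with `‖v - D B v‖ ≤ q ‖v‖`, `q < 1`, in the `ℓ²`-norm `(∑ ‖v_i‖²)^{1/2}`.

PROOF.  Work on the Hilbert spaces `PiLp 2 (fun _ : Fin m => L2 C)` (`EuclideanSpace`-like; `WithLp.toLp`).
`D` defines a continuous linear map `𝒟` (finite sums of `± lreg g`), onto.  Its adjoint `𝒟*` is given by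
the matrix `D*`: `(D*)_{ji} = ∑_g D_{ij}(g) g⁻¹` (`lreg g` is unitary with adjoint `lreg g⁻¹`); only the
following is needed: the operator `𝒟*` is the action of some matrix over `ℂ[C]`.
`𝒟` onto ⟹ `𝒟*` is bounded below: open mapping theorem: there is `K > 0` such that every `u` is `𝒟 w` with
`‖w‖ ≤ K ‖u‖` (`ContinuousLinearMap.exists_preimage_norm_le`), so
`‖u‖² = re ⟪u, 𝒟 w⟫ = re ⟪𝒟* u, w⟫ ≤ ‖𝒟* u‖ K ‖u‖`.
`T = 𝒟 𝒟*` is selfadjoint with `re ⟪T u, u⟫ = ‖𝒟* u‖² ≥ K⁻² ‖u‖²`, `‖T u‖ ≤ N ‖u‖`, `N = ‖T‖ + 1`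
(say), and `‖u - T u / N‖² = ‖u‖² - (2/N) ⟪T u, u⟫ + ‖T u‖²/N²` with `‖T u‖² = ‖T^{1/2} T^{1/2} u‖² ≤
‖T‖ ⟪T u, u⟫` (or avoid the square root: `‖T u‖² = ‖𝒟 (𝒟* u)‖² ≤ ‖𝒟‖² ‖𝒟* u‖²`, take
`N = ‖𝒟‖² + 1`), so `‖u - T u / N‖² ≤ ‖u‖² - ‖𝒟* u‖² / N ≤ (1 - 1/(K² N)) ‖u‖²`.
`B = (1/N) D*` (complex coefficients), `q² = 1 - 1/(K² N)`.
-/

namespace Pool.Agent.Lib.P9f173dW

open Z9f173d

namespace WtAAux

open scoped InnerProductSpace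

theorem inner_lreg {C : Type*} [Group C] (g : C) (x y : L2 C) :
    ⟪lreg g⁻¹ x, y⟫_ℂ = ⟪x, lreg g y⟫_ℂ := by
  rw [lp.inner_eq_tsum, lp.inner_eq_tsum]
  rw [← (Equiv.mulLeft g⁻¹).tsum_eq]
  refine tsum_congr fun k => ?_
  rw [lreg_apply, lreg_apply]
  simp

theorem exists_adj {C : Type*} [Group C] (a : MonoidAlgebra ℤ C) :
    ∃ b : MonoidAlgebra ℂ C, ∀ x y : L2 C,
      ⟪repAlg lreg b x, y⟫_ℂ = ⟪x, vth lreg a y⟫_ℂ := by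
  induction a using MonoidAlgebra.induction_linear with
  | zero => exact ⟨0, fun x y => by simp⟩
  | add a b ha hb =>
    obtain ⟨a', ha⟩ := ha
    obtain ⟨b', hb⟩ := hb
    refine ⟨a' + b', fun x y => ?_⟩
    rw [map_add, map_add, add_apply, inner_add_left, ha, hb]
    rw [show (vth lreg a + vth lreg b) y = vth lreg a y + vth lreg b y from rfl,
      inner_add_right]
  | single g z =>
    refine ⟨MonoidAlgebra.single g⁻¹ (z : ℂ), fun x y => ?_⟩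
    rw [repAlg_single, vth_single, inner_smul_left, inner_lreg, map_intCast]
    rw [← Int.cast_smul_eq_zsmul ℂ z, inner_smul_right]

theorem sup_le {C : Type*} [Group C] {m : ℕ} (u : Fin m → L2 C) :
    ‖u‖ ^ 2 ≤ ∑ i, ‖u i‖ ^ 2 := by
  have h0 : (0 : ℝ) ≤ ∑ i, ‖u i‖ ^ 2 := Finset.sum_nonneg fun i _ => by positivity
  have h : ‖u‖ ≤ Real.sqrt (∑ i, ‖u i‖ ^ 2) := by
    rw [pi_norm_le_iff_of_nonneg (Real.sqrt_nonneg _)]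
    intro i
    refine Real.le_sqrt_of_sq_le ?_
    exact Finset.single_le_sum (f := fun i => ‖u i‖ ^ 2) (fun i _ => by positivity)
      (Finset.mem_univ i)
  calc ‖u‖ ^ 2 ≤ (Real.sqrt (∑ i, ‖u i‖ ^ 2)) ^ 2 := pow_le_pow_left₀ (norm_nonneg _) h 2
    _ = _ := Real.sq_sqrt h0

theorem le_sup {C : Type*} [Group C] {m : ℕ} (u : Fin m → L2 C) :
    ∑ i, ‖u i‖ ^ 2 ≤ m * ‖u‖ ^ 2 := by
  calc ∑ i, ‖u i‖ ^ 2 ≤ ∑ _i : Fin m, ‖u‖ ^ 2 :=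
        Finset.sum_le_sum fun i _ => pow_le_pow_left₀ (norm_nonneg _) (norm_le_pi_norm u i) 2
    _ = m * ‖u‖ ^ 2 := by simp

theorem bound {C : Type*} [Group C] {m n : ℕ} (T : (Fin m → L2 C) →L[ℂ] (Fin n → L2 C)) :
    ∃ M : ℝ, 0 ≤ M ∧ ∀ w, ∑ i, ‖T w i‖ ^ 2 ≤ M * ∑ j, ‖w j‖ ^ 2 := by
  refine ⟨n * ‖T‖ ^ 2, by positivity, fun w => ?_⟩
  calc ∑ i, ‖T w i‖ ^ 2 ≤ n * ‖T w‖ ^ 2 := le_sup _
    _ ≤ n * (‖T‖ * ‖w‖) ^ 2 := by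
        gcongr
        exact T.le_opNorm w
    _ = n * ‖T‖ ^ 2 * ‖w‖ ^ 2 := by ring
    _ ≤ _ := mul_le_mul_of_nonneg_left (sup_le w) (by positivity)

theorem cs {C : Type*} [Group C] {m : ℕ} (a b : Fin m → L2 C) :
    (∑ j, ⟪a j, b j⟫_ℂ).re ^ 2 ≤ (∑ j, ‖a j‖ ^ 2) * ∑ j, ‖b j‖ ^ 2 := by
  have h1 : |(∑ j, ⟪a j, b j⟫_ℂ).re| ≤ ∑ j, ‖a j‖ * ‖b j‖ := by
    refine (Complex.abs_re_le_norm _).trans ((norm_sum_le _ _).trans ?_)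
    exact Finset.sum_le_sum fun j _ => norm_inner_le_norm _ _
  calc (∑ j, ⟪a j, b j⟫_ℂ).re ^ 2 = |(∑ j, ⟪a j, b j⟫_ℂ).re| ^ 2 := (sq_abs _).symm
    _ ≤ (∑ j, ‖a j‖ * ‖b j‖) ^ 2 := pow_le_pow_left₀ (abs_nonneg _) h1 2
    _ ≤ _ := Finset.sum_mul_sq_le_sq_mul_sq _ _ _

theorem norm_sub_expand {C : Type*} [Group C] {m : ℕ} (v t : Fin m → L2 C) (c : ℝ) :
    ∑ i, ‖v i - (c : ℂ) • t i‖ ^ 2 =
      ∑ i, ‖v i‖ ^ 2 - 2 * c * (∑ i, ⟪v i, t i⟫_ℂ).re + c ^ 2 * ∑ i, ‖t i‖ ^ 2 := by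
  rw [Complex.re_sum, Finset.mul_sum, Finset.mul_sum, ← Finset.sum_sub_distrib,
    ← Finset.sum_add_distrib]
  refine Finset.sum_congr rfl fun i _ => ?_
  rw [@norm_sub_sq ℂ, inner_smul_right, norm_smul]
  simp only [Complex.norm_real, Real.norm_eq_abs, mul_pow, sq_abs]
  have : RCLike.re ((c : ℂ) * ⟪v i, t i⟫_ℂ) = c * (⟪v i, t i⟫_ℂ).re := by
    simp
  rw [this]
  ring

end WtAAux

open WtAAux in
theorem exists_B {C : Type*} [Group C] {m1 m2 : ℕ}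
    (D : Matrix (Fin m2) (Fin m1) (MonoidAlgebra ℤ C))
    (hD : ∀ u : Fin m2 → L2 C, ∃ w : Fin m1 → L2 C, mact (vth lreg) D w = u) :
    ∃ (B : Matrix (Fin m1) (Fin m2) (MonoidAlgebra ℂ C)) (q : ℝ), 0 ≤ q ∧ q < 1 ∧
      ∀ v : Fin m2 → L2 C,
        ∑ i, ‖(v - mact (vth lreg) D (mact (cth lreg) B v)) i‖ ^ 2 ≤ q ^ 2 * ∑ i, ‖v i‖ ^ 2 := by
  classical
  choose adj hadj using fun a : MonoidAlgebra ℤ C => exists_adj a
  let B0 : Matrix (Fin m1) (Fin m2) (MonoidAlgebra ℂ C) := fun j i => adj (D i j)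
  let DL : (Fin m1 → L2 C) →L[ℂ] (Fin m2 → L2 C) := mactL lreg (D.map (cmap C))
  let BL : (Fin m2 → L2 C) →L[ℂ] (Fin m1 → L2 C) := mactL lreg B0
  have hDL : ∀ w, DL w = mact (vth lreg) D w := fun w => by
    show mactL lreg (D.map (cmap C)) w = _
    rw [mactL_apply, mact_cmap]
  have hBL : ∀ v, BL v = mact (cth lreg) B0 v := fun v => mactL_apply _ _ _
  -- adjointness
  have hadjM : ∀ (u : Fin m2 → L2 C) (w : Fin m1 → L2 C),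
      ∑ j, inner ℂ (BL u j) (w j) = ∑ i, inner ℂ (u i) (DL w i) := by
    intro u w
    simp only [hDL, hBL, mact_apply]
    simp only [sum_inner, inner_sum]
    rw [Finset.sum_comm]
    refine Finset.sum_congr rfl fun i _ => Finset.sum_congr rfl fun j _ => ?_
    exact hadj (D i j) (u i) (w j)
  have hsurj : Function.Surjective DL := fun u => by
    obtain ⟨w, hw⟩ := hD u
    exact ⟨w, by rw [hDL, hw]⟩
  obtain ⟨K, hK0, hK⟩ := DL.exists_preimage_norm_le hsurj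
  obtain ⟨M, hM0, hM⟩ := bound DL
  have hlow : ∀ u : Fin m2 → L2 C,
      ∑ i, ‖u i‖ ^ 2 ≤ (m1 * K ^ 2 + 1) * ∑ j, ‖BL u j‖ ^ 2 := by
    intro u
    obtain ⟨w, hw, hwn⟩ := hK u
    have h1 : (∑ i, inner ℂ (u i) (DL w i)).re = ∑ i, ‖u i‖ ^ 2 := by
      rw [hw, Complex.re_sum]
      exact Finset.sum_congr rfl fun i _ => inner_self_eq_norm_sq (𝕜 := ℂ) (u i)
    have h2 := cs (BL u) w
    rw [hadjM, h1] at h2
    have h3 : ∑ j, ‖w j‖ ^ 2 ≤ m1 * K ^ 2 * ∑ i, ‖u i‖ ^ 2 := by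
      calc ∑ j, ‖w j‖ ^ 2 ≤ m1 * ‖w‖ ^ 2 := le_sup _
        _ ≤ m1 * (K * ‖u‖) ^ 2 := by gcongr
        _ = m1 * K ^ 2 * ‖u‖ ^ 2 := by ring
        _ ≤ _ := mul_le_mul_of_nonneg_left (sup_le u) (by positivity)
    have hu0 : (0 : ℝ) ≤ ∑ i, ‖u i‖ ^ 2 := Finset.sum_nonneg fun i _ => by positivity
    have hb0 : (0 : ℝ) ≤ ∑ j, ‖BL u j‖ ^ 2 := Finset.sum_nonneg fun i _ => by positivity
    have h4 : (∑ i, ‖u i‖ ^ 2) ^ 2 ≤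
        (∑ j, ‖BL u j‖ ^ 2) * (m1 * K ^ 2 * ∑ i, ‖u i‖ ^ 2) :=
      h2.trans (mul_le_mul_of_nonneg_left h3 hb0)
    rcases hu0.eq_or_lt with h0 | h0
    · rw [← h0]
      positivity
    · have h5 : (∑ i, ‖u i‖ ^ 2) * (∑ i, ‖u i‖ ^ 2) ≤
          (m1 * K ^ 2 * ∑ j, ‖BL u j‖ ^ 2) * (∑ i, ‖u i‖ ^ 2) := by
        calc _ = (∑ i, ‖u i‖ ^ 2) ^ 2 := by ring
          _ ≤ _ := h4
          _ = _ := by ring
      have h6 := le_of_mul_le_mul_right h5 h0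
      nlinarith [h6, hb0]
  set K2 : ℝ := m1 * K ^ 2 + 1 with hK2
  have hK21 : 1 ≤ K2 := by
    have : (0 : ℝ) ≤ m1 * K ^ 2 := by positivity
    linarith
  set N : ℝ := M + 1 with hN
  have hN1 : 1 ≤ N := by linarith
  have hN0 : 0 < N := by linarith
  have hK20 : 0 < K2 := by linarith
  have hfrac : 0 < 1 / (K2 * N) := by positivity
  have hfrac1 : 1 / (K2 * N) ≤ 1 := by
    rw [div_le_one (by positivity)]
    nlinarith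
  refine ⟨((1 / N : ℝ) : ℂ) • B0, Real.sqrt (1 - 1 / (K2 * N)), Real.sqrt_nonneg _, ?_, ?_⟩
  · rw [Real.sqrt_lt' one_pos]
    linarith
  intro v
  have hB : mact (cth lreg) (((1 / N : ℝ) : ℂ) • B0) v = ((1 / N : ℝ) : ℂ) • BL v := by
    rw [hBL]
    ext1 i
    rw [mact_apply, Pi.smul_apply, mact_apply, Finset.smul_sum]
    refine Finset.sum_congr rfl fun j _ => ?_
    rw [cth_apply, cth_apply, Matrix.smul_apply, map_smul]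
    rfl
  have hfun : ∀ i, (v - mact (vth lreg) D (mact (cth lreg) (((1 / N : ℝ) : ℂ) • B0) v)) i =
      v i - ((1 / N : ℝ) : ℂ) • (DL (BL v)) i := by
    intro i
    rw [hB, ← hDL, map_smul]
    rfl
  simp only [hfun]
  rw [norm_sub_expand, Real.sq_sqrt (by linarith)]
  have h1 : (∑ i, inner ℂ (v i) (DL (BL v) i)).re = ∑ j, ‖BL v j‖ ^ 2 := by
    rw [← hadjM, Complex.re_sum]
    exact Finset.sum_congr rfl fun i _ => inner_self_eq_norm_sq (𝕜 := ℂ) (BL v i)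
  rw [h1]
  have h2 := hM (BL v)
  have h3 := hlow v
  have hb0 : (0 : ℝ) ≤ ∑ j, ‖BL v j‖ ^ 2 := Finset.sum_nonneg fun i _ => by positivity
  have h4 : (1 / N) ^ 2 * ∑ i, ‖DL (BL v) i‖ ^ 2 ≤ 1 / N * ∑ j, ‖BL v j‖ ^ 2 := by
    calc (1 / N) ^ 2 * ∑ i, ‖DL (BL v) i‖ ^ 2
        ≤ (1 / N) ^ 2 * (M * ∑ j, ‖BL v j‖ ^ 2) := mul_le_mul_of_nonneg_left h2 (by positivity)
      _ ≤ (1 / N) ^ 2 * (N * ∑ j, ‖BL v j‖ ^ 2) := by
          refine mul_le_mul_of_nonneg_left ?_ (by positivity)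
          exact mul_le_mul_of_nonneg_right (by linarith) hb0
      _ = 1 / N * ∑ j, ‖BL v j‖ ^ 2 := by field_simp
  have h5 : 1 / (K2 * N) * ∑ i, ‖v i‖ ^ 2 ≤ 1 / N * ∑ j, ‖BL v j‖ ^ 2 := by
    calc 1 / (K2 * N) * ∑ i, ‖v i‖ ^ 2 ≤ 1 / (K2 * N) * (K2 * ∑ j, ‖BL v j‖ ^ 2) :=
          mul_le_mul_of_nonneg_left h3 hfrac.le
      _ = 1 / N * ∑ j, ‖BL v j‖ ^ 2 := by field_simp
  linarith

end Pool.Agent.Lib.P9f173dW
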