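import Pool.Agent.Lib.P9f173dW.WtA

/-!
# Module WtB: weighted primitives

`D` as in Module WtA, `S0` a finite symmetric generating set of `C`.  Every finitely supported
integral vector `s` is `D η` with `η` real and `∑ (1 + |c|)² η_j(c)² < ∞`, `|c| = wl S0 c`.

PROOF.  Let `B, q` be as in `exists_B`, `E v = v - D B v` on vectors `v : Fin m2 → L2 C`.
`η^ℂ = ∑_{k ≥ 0} B E^k s` (`s` as a vector of `ℓ²`).  `E^k s` has norm `≤ q^k ‖s‖`
(`(∑ ‖v_i‖²)^{1/2}`) and finite support: if `s` is supported in the ball `|c| ≤ ρ₀` and `ρ` bounds the lengths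
of the group elements in the supports of the entries of `D` and `B`, then `E^k s` is supported in
`|c| ≤ ρ₀ + 2 ρ k` and `η_k = B E^k s` in `|c| ≤ ρ₀ + 2 ρ k + ρ` (`(g v)(x) = v (g⁻¹ x)`,
`wl (g y) ≤ wl g + wl y`: concatenate lists; every element has finite length since `S0` generates and is
symmetric, and the infimum is attained, `Nat.sInf_mem`).  `‖η_k‖ ≤ b q^k`.  So
`‖(1 + |·|) η_k‖_2 ≤ (1 + ρ₀ + ρ + 2 ρ k) b q^k`, summable in `k`; the series converges in `ℓ²` and in the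
weighted `ℓ²`: e.g. `η(c) = ∑_k η_k(c)` pointwise and for every finite set `X` of points, by the
triangle inequality in `ℓ²(X)`, `(∑_{c ∈ X} (1+|c|)² |η(c)|²)^{1/2} ≤ ∑_k (1 + ρ₀ + ρ + 2ρk) b q^k`.
`D η^ℂ = ∑_k D B E^k s = ∑_k (E^k s - E^{k+1} s) = s` (telescoping, `E^k s → 0`; `D` is continuous on
vectors of `ℓ²`, or compute pointwise).  Finally `η = re η^ℂ`: `D` has integer coefficients, so it commutes
with real parts (`Z9f173d.real_part` or `compHom_mact reR`).
-/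

namespace Pool.Agent.Lib.P9f173dW

open Z9f173d

namespace WtBAux

variable {C : Type*} [Group C]

theorem wl_nonempty (S0 : Finset C) (hinv : ∀ s ∈ S0, s⁻¹ ∈ S0)
    (hgen : Subgroup.closure (S0 : Set C) = ⊤) (x : C) :
    {n : ℕ | ∃ l : List C, l.length = n ∧ (∀ s ∈ l, s ∈ S0) ∧ l.prod = x}.Nonempty := by
  have hx : x ∈ Subgroup.closure (S0 : Set C) := by rw [hgen]; trivial
  rw [← Subgroup.mem_toSubmonoid, Subgroup.closure_toSubmonoid] at hx
  obtain ⟨l, hl, hp⟩ := Submonoid.exists_list_of_mem_closure hx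
  refine ⟨l.length, l, rfl, fun s hs => ?_, hp⟩
  rcases hl s hs with h | h
  · exact h
  · have := hinv _ (Set.mem_inv.1 h)
    simpa using this

theorem wl_mul_le (S0 : Finset C) (hinv : ∀ s ∈ S0, s⁻¹ ∈ S0)
    (hgen : Subgroup.closure (S0 : Set C) = ⊤) (g x : C) :
    wl S0 (g * x) ≤ wl S0 g + wl S0 x := by
  obtain ⟨l1, h1, h1', h1''⟩ := Nat.sInf_mem (wl_nonempty S0 hinv hgen g)
  obtain ⟨l2, h2, h2', h2''⟩ := Nat.sInf_mem (wl_nonempty S0 hinv hgen x)
  refine Nat.sInf_le ⟨l1 ++ l2, ?_, ?_, ?_⟩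
  · rw [List.length_append, h1, h2]; rfl
  · intro s hs
    rcases List.mem_append.1 hs with h | h
    exacts [h1' s h, h2' s h]
  · rw [List.prod_append, h1'', h2'']

/-- support in a ball -/
def Bl (ℓ : C → ℕ) (N : ℕ) (v : L2 C) : Prop := ∀ x, v x ≠ 0 → ℓ x ≤ N

omit [Group C] in
theorem Bl.mono {ℓ : C → ℕ} {N N' : ℕ} {v : L2 C} (h : Bl ℓ N v) (hN : N ≤ N') : Bl ℓ N' v :=
  fun x hx => (h x hx).trans hN

omit [Group C] in
theorem Bl.zero {ℓ : C → ℕ} {N : ℕ} : Bl ℓ N (0 : L2 C) := fun _ hx => (hx rfl).elim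

omit [Group C] in
theorem Bl.add {ℓ : C → ℕ} {N : ℕ} {v w : L2 C} (h : Bl ℓ N v) (h' : Bl ℓ N w) :
    Bl ℓ N (v + w) := by
  intro x hx
  by_cases hv : v x = 0
  · refine h' x fun hw => hx ?_
    rw [lp.coeFn_add, Pi.add_apply, hv, hw, add_zero]
  · exact h x hv

omit [Group C] in
theorem Bl.sub {ℓ : C → ℕ} {N : ℕ} {v w : L2 C} (h : Bl ℓ N v) (h' : Bl ℓ N w) :
    Bl ℓ N (v - w) := by
  intro x hx
  by_cases hv : v x = 0
  · refine h' x fun hw => hx ?_
    rw [lp.coeFn_sub, Pi.sub_apply, hv, hw, sub_zero]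
  · exact h x hv

omit [Group C] in
theorem Bl.sum {ℓ : C → ℕ} {N : ℕ} {ι : Type*} (s : Finset ι) (f : ι → L2 C)
    (h : ∀ i ∈ s, Bl ℓ N (f i)) : Bl ℓ N (∑ i ∈ s, f i) := by
  classical
  induction s using Finset.induction_on with
  | empty => rw [Finset.sum_empty]; exact Bl.zero
  | insert a s ha ih =>
    rw [Finset.sum_insert ha]
    exact (h a (Finset.mem_insert_self _ _)).add (ih fun i hi => h i (Finset.mem_insert_of_mem hi))

theorem spread {ℓ : C → ℕ} (hℓ : ∀ g x, ℓ (g * x) ≤ ℓ g + ℓ x) (a : MonoidAlgebra ℂ C) :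
    ∃ ρ : ℕ, ∀ (v : L2 C) (N : ℕ), Bl ℓ N v → Bl ℓ (ρ + N) (cth lreg a v) := by
  induction a using MonoidAlgebra.induction_linear with
  | zero => exact ⟨0, fun v N _ => by rw [map_zero]; exact Bl.zero⟩
  | add a b ha hb =>
    obtain ⟨ρ, hρ⟩ := ha
    obtain ⟨ρ', hρ'⟩ := hb
    refine ⟨max ρ ρ', fun v N hv => ?_⟩
    rw [map_add]
    exact ((hρ v N hv).mono (by have := le_max_left ρ ρ'; omega)).add
      ((hρ' v N hv).mono (by have := le_max_right ρ ρ'; omega))
  | single g z =>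
    refine ⟨ℓ g, fun v N hv x hx => ?_⟩
    rw [cth_apply, repAlg_single, lp.coeFn_smul, Pi.smul_apply, lreg_apply] at hx
    have h1 : v (g⁻¹ * x) ≠ 0 := fun h => hx (by rw [h, smul_zero])
    have h2 := hv _ h1
    have h3 := hℓ g (g⁻¹ * x)
    rw [mul_inv_cancel_left] at h3
    omega

theorem spreadM {ℓ : C → ℕ} (hℓ : ∀ g x, ℓ (g * x) ≤ ℓ g + ℓ x) {m n : ℕ}
    (B : Matrix (Fin m) (Fin n) (MonoidAlgebra ℂ C)) :
    ∃ ρ : ℕ, ∀ (v : Fin n → L2 C) (N : ℕ), (∀ i, Bl ℓ N (v i)) →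
      ∀ j, Bl ℓ (ρ + N) (mact (cth lreg) B v j) := by
  choose ρ hρ using fun j i => spread hℓ (B j i)
  refine ⟨∑ j, ∑ i, ρ j i, fun v N hv j => ?_⟩
  rw [mact_apply]
  refine Bl.sum _ _ fun i _ => (hρ j i (v i) N (hv i)).mono ?_
  have h1 : ρ j i ≤ ∑ i, ρ j i :=
    Finset.single_le_sum (f := fun i => ρ j i) (fun _ _ => Nat.zero_le _) (Finset.mem_univ i)
  have h2 : ∑ i, ρ j i ≤ ∑ j, ∑ i, ρ j i :=
    Finset.single_le_sum (f := fun j => ∑ i, ρ j i) (fun _ _ => Nat.zero_le _) (Finset.mem_univ j)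
  omega

theorem incl_vth {G : Type*} [Group G] (I : L2 G →+ (G → ℂ)) (hI : ∀ v x, I v x = v x)
    (a : MonoidAlgebra ℤ G) (v : L2 G) : I (vth lreg a v) = tr ℂ a (I v) := by
  refine th_nat _ _ I (fun g w => ?_) a v
  ext x
  rw [hI, trHom_apply, hI]
  rfl

/-- evaluation -/
noncomputable def evL (c : C) : L2 C →L[ℂ] ℂ :=
  LinearMap.mkContinuous
    { toFun := fun v => v c
      map_add' := fun _ _ => rfl
      map_smul' := fun _ _ => rfl } 1 (fun v => by
      rw [one_mul]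
      exact lp.norm_apply_le_norm (by norm_num) v c)

omit [Group C] in
@[simp] theorem evL_apply (c : C) (v : L2 C) : evL c v = v c := rfl

omit [Group C] in
/-- summing a sequence with weights -/
theorem sum_weighted (ℓ : C → ℕ) (f : ℕ → L2 C) (R : ℕ → ℕ) (hR : ∀ k, Bl ℓ (R k) (f k))
    (hs : Summable fun k => (1 + (R k : ℝ)) * ‖f k‖) (v : L2 C) (hv : HasSum f v) :
    Summable fun c => (1 + (ℓ c : ℝ)) ^ 2 * ‖v c‖ ^ 2 := by
  classical
  have hm : ∀ (k : ℕ) (x : C), ‖(if ℓ x ≤ R k then (((1 + (ℓ x : ℝ) : ℝ)) : ℂ) else 0)‖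
      ≤ 1 + (R k : ℝ) := by
    intro k x
    split_ifs with h
    · rw [Complex.norm_real, Real.norm_eq_abs, abs_of_nonneg (by positivity)]
      have : (ℓ x : ℝ) ≤ R k := by exact_mod_cast h
      linarith
    · rw [norm_zero]; positivity
  let w : ℕ → L2 C := fun k => mulL _ (1 + (R k : ℝ)) (hm k) (f k)
  have hw : ∀ k c, w k c = (((1 + (ℓ c : ℝ) : ℝ)) : ℂ) * f k c := by
    intro k c
    show mulL _ (1 + (R k : ℝ)) (hm k) (f k) c = _
    rw [mulL_apply]
    split_ifs with h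
    · rfl
    · by_cases hz : f k c = 0
      · rw [hz]; simp
      · exact absurd (hR k c hz) h
  have hwn : ∀ k, ‖w k‖ ≤ (1 + (R k : ℝ)) * ‖f k‖ := by
    intro k
    refine (ContinuousLinearMap.le_opNorm _ _).trans
      (mul_le_mul_of_nonneg_right ?_ (norm_nonneg _))
    refine (LinearMap.mkContinuous_norm_le _ (abs_nonneg _) _).trans ?_
    rw [abs_of_nonneg (by positivity)]
  have hws : Summable w := Summable.of_norm_bounded hs hwn
  have hval : ∀ c, (∑' k, w k) c = (((1 + (ℓ c : ℝ) : ℝ)) : ℂ) * v c := by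
    intro c
    have h1 : HasSum (fun k => w k c) ((∑' k, w k) c) := (hws.hasSum).mapL (evL c)
    have h2 : HasSum (fun k => f k c) (v c) := hv.mapL (evL c)
    have h3 := h2.mul_left (((1 + (ℓ c : ℝ) : ℝ)) : ℂ)
    simp only [hw] at h1
    exact h1.unique h3
  have h : Summable fun c => ‖(∑' k, w k) c‖ ^ 2 := sq_coe (∑' k, w k)
  refine h.congr fun c => ?_
  have h1 := congrArg (fun z : ℂ => ‖z‖ ^ 2) (hval c)
  refine Eq.trans h1 ?_
  simp only
  rw [norm_mul, Complex.norm_real, Real.norm_eq_abs, mul_pow, sq_abs]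

end WtBAux

open WtBAux in
theorem weighted {C : Type*} [Group C] {m1 m2 : ℕ}
    (D : Matrix (Fin m2) (Fin m1) (MonoidAlgebra ℤ C))
    (hD : ∀ u : Fin m2 → L2 C, ∃ w : Fin m1 → L2 C, mact (vth lreg) D w = u)
    (S0 : Finset C) (hinv : ∀ s ∈ S0, s⁻¹ ∈ S0) (hgen : Subgroup.closure (S0 : Set C) = ⊤)
    (s : Fin m2 → C → ℤ) (hs : ∀ i, (Function.support (s i)).Finite) :
    ∃ η : Fin m1 → C → ℝ, (∀ j, Summable fun c => (1 + (wl S0 c : ℝ)) ^ 2 * η j c ^ 2) ∧
      mact (tr ℝ) D η = fun i => compHom iR (s i) := by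
  classical
  obtain ⟨B, q, hq0, hq1, hB⟩ := exists_B D hD
  have hℓ := wl_mul_le S0 hinv hgen
  obtain ⟨ρB, hρB⟩ := spreadM hℓ B
  obtain ⟨ρD, hρD⟩ := spreadM hℓ (D.map (cmap C))
  -- the starting vector
  have hsq : ∀ i, SQ fun c => (s i c : ℂ) := fun i => SQ.of_finite ((hs i).subset fun c hc => by
    simpa using hc)
  let v0 : Fin m2 → L2 C := fun i => ofSQ (fun c => (s i c : ℂ)) (hsq i)
  obtain ⟨ρ0, hρ0⟩ : ∃ ρ0 : ℕ, ∀ i, Bl (wl S0) ρ0 (v0 i) := by
    refine ⟨∑ i, (hs i).toFinset.sup (wl S0), fun i x hx => ?_⟩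
    have hx' : x ∈ (hs i).toFinset := by
      rw [Set.Finite.mem_toFinset, Function.mem_support]
      intro h
      apply hx
      show ((s i x : ℤ) : ℂ) = 0
      rw [h]; simp
    have h1 : wl S0 x ≤ (hs i).toFinset.sup (wl S0) := Finset.le_sup hx'
    have h2 : (hs i).toFinset.sup (wl S0) ≤ ∑ i, (hs i).toFinset.sup (wl S0) :=
      Finset.single_le_sum (f := fun i => (hs i).toFinset.sup (wl S0))
        (fun _ _ => Nat.zero_le _) (Finset.mem_univ i)
    exact h1.trans h2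
  -- the iterates
  let E : (Fin m2 → L2 C) → (Fin m2 → L2 C) := fun v =>
    v - mact (vth lreg) D (mact (cth lreg) B v)
  let V : ℕ → (Fin m2 → L2 C) := fun k => E^[k] v0
  have hV0 : V 0 = v0 := rfl
  have hVs : ∀ k, V (k + 1) = V k - mact (vth lreg) D (mact (cth lreg) B (V k)) := by
    intro k
    show E^[k + 1] v0 = _
    rw [Function.iterate_succ_apply']
  set c2 : ℝ := ∑ i, ‖v0 i‖ ^ 2 with hc2
  have hVn : ∀ k, ∑ i, ‖V k i‖ ^ 2 ≤ (q ^ k) ^ 2 * c2 := by
    intro k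
    induction k with
    | zero => rw [hV0]; simp [hc2]
    | succ k ih =>
      rw [hVs]
      refine (hB (V k)).trans ?_
      calc q ^ 2 * ∑ i, ‖V k i‖ ^ 2 ≤ q ^ 2 * ((q ^ k) ^ 2 * c2) :=
            mul_le_mul_of_nonneg_left ih (sq_nonneg _)
        _ = (q ^ (k + 1)) ^ 2 * c2 := by ring
  have hc20 : 0 ≤ c2 := Finset.sum_nonneg fun i _ => by positivity
  have hVi : ∀ k i, ‖V k i‖ ≤ q ^ k * Real.sqrt c2 := by
    intro k i
    have h1 : ‖V k i‖ ^ 2 ≤ (q ^ k * Real.sqrt c2) ^ 2 := by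
      rw [mul_pow, Real.sq_sqrt hc20]
      refine le_trans ?_ (hVn k)
      exact Finset.single_le_sum (f := fun i => ‖V k i‖ ^ 2) (fun _ _ => by positivity)
        (Finset.mem_univ i)
    exact (sq_le_sq₀ (norm_nonneg _) (by positivity)).1 h1
  have hVb : ∀ k i, Bl (wl S0) (ρ0 + (ρB + ρD) * k) (V k i) := by
    intro k
    induction k with
    | zero => intro i; rw [hV0]; simpa using hρ0 i
    | succ k ih =>
      intro i
      rw [hVs, Pi.sub_apply]
      refine ((ih i).mono (by ring_nf; omega)).sub ?_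
      rw [← mact_cmap]
      exact (hρD _ _ (hρB _ _ ih) i).mono (by ring_nf; omega)
  -- the terms
  let H : ℕ → (Fin m1 → L2 C) := fun k => mact (cth lreg) B (V k)
  have hHb : ∀ k j, Bl (wl S0) (ρB + (ρ0 + (ρB + ρD) * k)) (H k j) := fun k =>
    hρB _ _ (hVb k)
  let KB : ℝ := ∑ j, ∑ i, ‖repAlg (lreg (G := C)) (B j i)‖
  have hHn : ∀ k j, ‖H k j‖ ≤ KB * Real.sqrt c2 * q ^ k := by
    intro k j
    show ‖mact (cth lreg) B (V k) j‖ ≤ _
    rw [mact_apply]
    refine (norm_sum_le _ _).trans ?_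
    have h1 : ∀ i, ‖cth lreg (B j i) (V k i)‖
        ≤ ‖repAlg (lreg (G := C)) (B j i)‖ * (q ^ k * Real.sqrt c2) := by
      intro i
      rw [cth_apply]
      exact (ContinuousLinearMap.le_opNorm _ _).trans
        (mul_le_mul_of_nonneg_left (hVi k i) (norm_nonneg _))
    refine (Finset.sum_le_sum fun i _ => h1 i).trans ?_
    rw [← Finset.sum_mul]
    have h2 : ∑ i, ‖repAlg (lreg (G := C)) (B j i)‖ ≤ KB :=
      Finset.single_le_sum (f := fun j => ∑ i, ‖repAlg (lreg (G := C)) (B j i)‖)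
        (fun _ _ => Finset.sum_nonneg fun _ _ => norm_nonneg _) (Finset.mem_univ j)
    calc (∑ i, ‖repAlg (lreg (G := C)) (B j i)‖) * (q ^ k * Real.sqrt c2)
        ≤ KB * (q ^ k * Real.sqrt c2) := mul_le_mul_of_nonneg_right h2 (by positivity)
      _ = KB * Real.sqrt c2 * q ^ k := by ring
  have hqn : ‖q‖ < 1 := by rwa [Real.norm_eq_abs, abs_of_nonneg hq0]
  have hgeo : Summable fun k : ℕ => q ^ k := summable_geometric_of_lt_one hq0 hq1
  have hgeo1 : Summable fun k : ℕ => (k : ℝ) ^ 1 * q ^ k :=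
    summable_pow_mul_geometric_of_norm_lt_one 1 hqn
  have hKB : 0 ≤ KB := Finset.sum_nonneg fun _ _ => Finset.sum_nonneg fun _ _ => norm_nonneg _
  have hHs : Summable H := by
    refine Summable.of_norm_bounded (hgeo.mul_left (KB * Real.sqrt c2)) fun k => ?_
    rw [pi_norm_le_iff_of_nonneg (by positivity)]
    exact hHn k
  obtain ⟨η, hη⟩ := hHs
  have hηj : ∀ j, HasSum (fun k => H k j) (η j) := fun j => (Pi.hasSum.1 hη) j
  -- the equation
  have hDH : ∀ k, mactL lreg (D.map (cmap C)) (H k) = V k - V (k + 1) := by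
    intro k
    rw [mactL_apply, mact_cmap, hVs]
    abel
  have hDη : mact (vth lreg) D η = v0 := by
    rw [← mact_cmap, ← mactL_apply]
    have h1 : HasSum (fun k => mactL lreg (D.map (cmap C)) (H k))
        (mactL lreg (D.map (cmap C)) η) := hη.mapL (mactL lreg (D.map (cmap C)))
    simp only [hDH] at h1
    have h2 := h1.tendsto_sum_nat
    have h3 : ∀ n, ∑ k ∈ Finset.range n, (V k - V (k + 1)) = v0 - V n := by
      intro n
      rw [Finset.sum_range_sub', hV0]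
    simp only [h3] at h2
    have h4 : Filter.Tendsto V Filter.atTop (nhds 0) := by
      rw [tendsto_pi_nhds]
      intro i
      refine squeeze_zero_norm (fun k => hVi k i) ?_
      have := (tendsto_pow_atTop_nhds_zero_of_lt_one hq0 hq1).mul_const (Real.sqrt c2)
      simpa using this
    have h5 : Filter.Tendsto (fun n => v0 - V n) Filter.atTop (nhds (v0 - 0)) :=
      tendsto_const_nhds.sub h4
    rw [sub_zero] at h5
    exact tendsto_nhds_unique h2 h5
  -- weights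
  have hwt : ∀ j, Summable fun c => (1 + (wl S0 c : ℝ)) ^ 2 * ‖η j c‖ ^ 2 := by
    intro j
    refine sum_weighted (wl S0) (fun k => H k j) (fun k => ρB + (ρ0 + (ρB + ρD) * k))
      (fun k => hHb k j) ?_ (η j) (hηj j)
    refine Summable.of_nonneg_of_le (fun k => by positivity) (fun k => ?_)
      ((hgeo.mul_left ((1 + ρB + ρ0) * (KB * Real.sqrt c2))).add
        (hgeo1.mul_left ((ρB + ρD) * (KB * Real.sqrt c2))))
    calc (1 + ((ρB + (ρ0 + (ρB + ρD) * k) : ℕ) : ℝ)) * ‖H k j‖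
        ≤ (1 + ((ρB + (ρ0 + (ρB + ρD) * k) : ℕ) : ℝ)) * (KB * Real.sqrt c2 * q ^ k) :=
          mul_le_mul_of_nonneg_left (hHn k j) (by positivity)
      _ = (1 + ρB + ρ0) * (KB * Real.sqrt c2) * q ^ k
          + (ρB + ρD) * (KB * Real.sqrt c2) * ((k : ℝ) ^ 1 * q ^ k) := by
          push_cast; ring
  refine ⟨fun j c => (η j c).re, fun j => ?_, ?_⟩
  · refine Summable.of_nonneg_of_le (fun c => by positivity) (fun c => ?_) (hwt j)
    refine mul_le_mul_of_nonneg_left ?_ (by positivity)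
    rw [← sq_abs]
    exact pow_le_pow_left₀ (abs_nonneg _) (Complex.abs_re_le_norm _) 2
  · let I : L2 C →+ (C → ℂ) :=
      { toFun := fun v => fun x => v x
        map_zero' := rfl
        map_add' := fun _ _ => rfl }
    have h1 : (fun j : Fin m1 => fun c : C => (η j c).re) = fun j => compHom reR (I (η j)) := rfl
    have h2 : mact (tr ℂ) D (fun j => I (η j)) = fun i => I (mact (vth lreg) D η i) :=
      mact_nat _ _ I (fun a v => incl_vth I (fun _ _ => rfl) a v) D η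
    rw [h1, compHom_mact reR D (fun j => I (η j)), h2, hDη]
    ext i c
    simp only [compHom_apply, reR_apply, iR_apply]
    show ((s i c : ℂ)).re = _
    simp

end Pool.Agent.Lib.P9f173dW
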